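import Pool.Agent.Lib.H41.IFS.Defs

/-!
# Paths contain arcs
-/

namespace TopIFS

open Set Filter Topology
open scoped ENNReal unitInterval NNReal

namespace ArcL

variable {X : Type*} [MetricSpace X]

/-- running maximum of the distance from `g r` -/
noncomputable def mx (g : C(I, X)) (r s : I) : ℝ := sSup ((fun θ : I => dist (g r) (g (r ⊔ (s ⊓ θ)))) '' univ)

lemma mx_cont (g : C(I, X)) (r : I) : Continuous (mx g r) := by
  unfold mx
  apply IsCompact.continuous_sSup isCompact_univ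
  have : Continuous fun p : I × I => dist (g r) (g (r ⊔ (p.1 ⊓ p.2))) := by
    have h1 : Continuous fun p : I × I => r ⊔ (p.1 ⊓ p.2) :=
      continuous_const.sup (continuous_fst.inf continuous_snd)
    exact continuous_const.dist (g.continuous.comp h1)
  exact this

lemma mx_bdd (g : C(I, X)) (r s : I) :
    BddAbove ((fun θ : I => dist (g r) (g (r ⊔ (s ⊓ θ)))) '' univ) := by
  apply IsCompact.bddAbove
  apply isCompact_univ.image
  have h1 : Continuous fun θ : I => r ⊔ (s ⊓ θ) :=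
    continuous_const.sup (continuous_const.inf continuous_id)
  exact continuous_const.dist (g.continuous.comp h1)

lemma le_mx (g : C(I, X)) (r s θ : I) : dist (g r) (g (r ⊔ (s ⊓ θ))) ≤ mx g r s :=
  le_csSup (mx_bdd g r s) ⟨θ, mem_univ _, rfl⟩

lemma mx_nonneg (g : C(I, X)) (r s : I) : 0 ≤ mx g r s := dist_nonneg.trans (le_mx g r s 0)

lemma mx_mono (g : C(I, X)) (r : I) : Monotone (mx g r) := by
  intro s s' hss
  apply csSup_le (by exact ⟨_, 0, mem_univ _, rfl⟩)
  rintro _ ⟨θ, -, rfl⟩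
  have := le_mx g r s' (s ⊓ θ)
  have h2 : s' ⊓ (s ⊓ θ) = s ⊓ θ := inf_eq_right.2 (inf_le_left.trans hss)
  rw [h2] at this
  exact this

lemma mx_of_lt (g : C(I, X)) {r s : I} (h : s ≤ r) : mx g r s = 0 := by
  apply le_antisymm _ (mx_nonneg g r s)
  apply csSup_le (by exact ⟨_, 0, mem_univ _, rfl⟩)
  rintro _ ⟨θ, -, rfl⟩
  have : r ⊔ (s ⊓ θ) = r := sup_eq_left.2 (inf_le_left.trans h)
  simp [this]

/-- the parameter -/
noncomputable def cc (g : C(I, X)) (s : I) : ℝ :=
  ∑' n : ℕ, (1 / 2 : ℝ) ^ n * min 1 (mx g (TopologicalSpace.denseSeq I n) s)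

lemma cc_term_le (g : C(I, X)) (n : ℕ) (s : I) :
    ‖(1 / 2 : ℝ) ^ n * min 1 (mx g (TopologicalSpace.denseSeq I n) s)‖ ≤ (1 / 2 : ℝ) ^ n := by
  rw [Real.norm_of_nonneg (mul_nonneg (by positivity)
    (le_min zero_le_one (mx_nonneg _ _ _)))]
  calc _ ≤ (1 / 2 : ℝ) ^ n * 1 := by gcongr; exact min_le_left _ _
    _ = _ := mul_one _

lemma summ : Summable fun n : ℕ => (1 / 2 : ℝ) ^ n :=
  summable_geometric_of_lt_one (by norm_num) (by norm_num)

lemma cc_summable (g : C(I, X)) (s : I) :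
    Summable fun n : ℕ => (1 / 2 : ℝ) ^ n * min 1 (mx g (TopologicalSpace.denseSeq I n) s) :=
  Summable.of_norm_bounded summ (fun n => cc_term_le g n s)

lemma cc_cont (g : C(I, X)) : Continuous (cc g) := by
  apply continuous_tsum (fun n => ?_) summ (fun n s => cc_term_le g n s)
  exact continuous_const.mul (continuous_const.min (mx_cont g _))

lemma cc_mono (g : C(I, X)) : Monotone (cc g) := by
  intro s s' h
  apply Summable.tsum_le_tsum _ (cc_summable g s) (cc_summable g s')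
  intro n
  gcongr
  exact mx_mono g _ h

lemma cc_lt (g : C(I, X)) {s t : I} (hst : s < t) (h : g s ≠ g t) : cc g s < cc g t := by
  -- a point of the dense sequence
  have hW : {r : I | g r ≠ g t} ∈ 𝓝 s :=
    (isOpen_ne_fun g.continuous continuous_const).mem_nhds h
  have hne : (𝓝[>] s).NeBot := nhdsGT_neBot_of_exists_gt ⟨t, hst⟩
  obtain ⟨r, hr1, hr2⟩ := ((inter_mem (mem_nhdsWithin_of_mem_nhds hW)
    (Ioo_mem_nhdsGT hst))  : ({r : I | g r ≠ g t} ∩ Ioo s t) ∈ 𝓝[>] s) |> hne.nonempty_of_mem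
  have hopen : IsOpen ({r : I | g r ≠ g t} ∩ Ioo s t) :=
    (isOpen_ne_fun g.continuous continuous_const).inter isOpen_Ioo
  obtain ⟨n, hn1, hn2⟩ := (TopologicalSpace.denseRange_denseSeq I).exists_mem_open hopen ⟨r, hr1, hr2⟩
  apply Summable.tsum_lt_tsum (i := n) _ _ (cc_summable g s) (cc_summable g t)
  · intro k
    exact mul_le_mul_of_nonneg_left (min_le_min le_rfl (mx_mono g _ hst.le)) (by positivity)
  · have h1 : mx g (TopologicalSpace.denseSeq I n) s = 0 := mx_of_lt g hn2.1.le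
    have h2 : 0 < mx g (TopologicalSpace.denseSeq I n) t := by
      have := le_mx g (TopologicalSpace.denseSeq I n) t t
      rw [inf_idem, sup_eq_right.2 hn2.2.le] at this
      exact (dist_pos.2 hn1).trans_le this
    rw [h1]
    have h3 : (0:ℝ) < min 1 (mx g (TopologicalSpace.denseSeq I n) t) := lt_min one_pos h2
    have h4 : min (1:ℝ) 0 = 0 := by norm_num
    rw [h4]
    have h5 : (0:ℝ) < (1/2)^n := by positivity
    nlinarith

lemma cc_eq (g : C(I, X)) {s t : I} (hst : s ≤ t) (h : ∀ u, s ≤ u → u ≤ t → g u = g s) :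
    cc g s = cc g t := by
  unfold cc
  congr 1
  ext n
  congr 2
  unfold mx
  congr 1
  apply image_congr
  intro θ _
  set r := TopologicalSpace.denseSeq I n
  congr 1
  rcases le_total r s with hr | hr
  · rcases le_total θ s with hθ | hθ
    · rw [inf_eq_right.2 hθ, inf_eq_right.2 (hθ.trans hst)]
    · rw [inf_eq_left.2 hθ, sup_eq_right.2 hr]
      have h1 : s ≤ t ⊓ θ := le_inf hst hθ
      rw [sup_eq_right.2 (hr.trans h1), h _ h1 inf_le_left]
  · have h1 : r ⊔ (s ⊓ θ) = r := sup_eq_left.2 (inf_le_left.trans hr)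
    rw [h1]
    rcases le_total r t with hrt | hrt
    · rw [h r hr hrt, h (r ⊔ (t ⊓ θ)) (hr.trans le_sup_left) (sup_le hrt inf_le_left)]
    · rw [sup_eq_left.2 (inf_le_left.trans hrt)]

/-- a monotone path contains an arc. -/
theorem arc_of_monotone (g : C(I, X)) (h : g 0 ≠ g 1)
    (hm : ∀ s t, s ≤ t → g s = g t → ∀ u, s ≤ u → u ≤ t → g u = g s) :
    ∃ q : C(I, X), Function.Injective q ∧ q 0 = g 0 ∧ q 1 = g 1 ∧ range q ⊆ range g := by
  have h01 : cc g 0 < cc g 1 := cc_lt g zero_lt_one h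
  have hpos : 0 < cc g 1 - cc g 0 := by linarith
  -- normalised parameter
  let c : I → I := fun s => ⟨(cc g s - cc g 0) / (cc g 1 - cc g 0), by
    constructor
    · apply div_nonneg _ hpos.le
      have := cc_mono g (unitInterval.nonneg' : (0:I) ≤ s)
      linarith
    · rw [div_le_one hpos]
      have := cc_mono g (unitInterval.le_one' : s ≤ (1:I))
      linarith⟩
  have hc : Continuous c := by
    apply Continuous.subtype_mk
    exact ((cc_cont g).sub continuous_const).div_const _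
  have hc0 : c 0 = 0 := by
    apply Subtype.ext; simp [c]
  have hc1 : c 1 = 1 := by
    apply Subtype.ext
    simp only [c]
    exact div_self hpos.ne'
  have hceq : ∀ s t, c s = c t ↔ g s = g t := by
    have key : ∀ s t, s ≤ t → (c s = c t ↔ g s = g t) := by
      intro s t hst
      constructor
      · intro hcs
        by_contra hne
        rcases hst.lt_or_eq with hlt | heq
        · have h1 := cc_lt g hlt hne
          have h2 := congrArg Subtype.val hcs
          simp only [c] at h2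
          rw [div_left_inj' hpos.ne'] at h2
          linarith
        · exact hne (by rw [heq])
      · intro hg
        have := cc_eq g hst (hm s t hst hg)
        apply Subtype.ext
        simp only [c, this]
    intro s t
    rcases le_total s t with hst | hst
    · exact key s t hst
    · rw [eq_comm, key t s hst, eq_comm]
  have hsurj : Function.Surjective c := by
    intro y
    exact mem_range_of_exists_le_of_exists_ge hc ⟨0, by rw [hc0]; exact unitInterval.nonneg'⟩
      ⟨1, by rw [hc1]; exact unitInterval.le_one'⟩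
  have hquot : IsQuotientMap c := hc.isClosedMap.isQuotientMap hc hsurj
  let q : I → X := fun y => g (Function.surjInv hsurj y)
  have hq : ∀ s, q (c s) = g s := by
    intro s
    exact (hceq _ _).1 (Function.surjInv_eq hsurj (c s))
  have hqc : Continuous q := by
    rw [hquot.continuous_iff]
    have : q ∘ c = g := funext hq
    rw [this]
    exact g.continuous
  refine ⟨⟨q, hqc⟩, ?_, ?_, ?_, ?_⟩
  · intro x y hxy
    obtain ⟨s, rfl⟩ := hsurj x
    obtain ⟨t, rfl⟩ := hsurj y
    change q (c s) = q (c t) at hxy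
    rw [hq, hq] at hxy
    exact (hceq s t).2 hxy
  · have := hq 0
    rw [hc0] at this
    exact this
  · have := hq 1
    rw [hc1] at this
    exact this
  · rintro _ ⟨y, rfl⟩
    exact ⟨_, rfl⟩

/-- closed sets of parameters whose gaps are loops of the path -/
def Fam (γ : C(I, X)) : Set (Set I) :=
  {F | IsClosed F ∧ 0 ∈ F ∧ 1 ∈ F ∧ ∀ a ∈ F, ∀ b ∈ F, a < b → (∀ x ∈ F, ¬ (a < x ∧ x < b)) → γ a = γ b}

lemma fam_inter (γ : C(I, X)) (c : Set (Set I)) (hc : c ⊆ Fam γ) (hch : IsChain (· ⊆ ·) c)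
    (hne : c.Nonempty) : ⋂₀ c ∈ Fam γ := by
  refine ⟨isClosed_sInter fun F hF => (hc hF).1, fun F hF => (hc hF).2.1, fun F hF => (hc hF).2.2.1, ?_⟩
  intro a ha b hb hab hgap
  by_contra hcon
  have hε : 0 < dist (γ a) (γ b) / 2 := by
    have := dist_pos.2 hcon; linarith
  have huc : UniformContinuous γ := CompactSpace.uniformContinuous_of_continuous γ.continuous
  obtain ⟨δ, hδ, hδ'⟩ := Metric.uniformContinuous_iff.1 huc _ hε
  have hab' : (a : ℝ) < b := hab
  set δ' : ℝ := min δ ((b - a) / 2) with hδ'd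
  have hδ'0 : 0 < δ' := lt_min hδ (by linarith)
  have hδ'1 : δ' ≤ δ := min_le_left _ _
  have hδ'2 : δ' ≤ (b - a) / 2 := min_le_right _ _
  let K : Set I := {x | (a : ℝ) + δ' ≤ x ∧ (x : ℝ) + δ' ≤ b}
  have hK : IsCompact K := by
    apply IsClosed.isCompact
    exact (isClosed_le continuous_const continuous_subtype_val).inter
      (isClosed_le (continuous_subtype_val.add continuous_const) continuous_const)
  have hempty : K ∩ ⋂ i : c, (i : Set I) = ∅ := by
    rw [eq_empty_iff_forall_notMem]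
    rintro x ⟨⟨hx1, hx2⟩, hx3⟩
    apply hgap x
    · rw [mem_sInter]
      intro F hF
      exact mem_iInter.1 hx3 ⟨F, hF⟩
    · constructor
      · show (a : ℝ) < x
        linarith
      · show (x : ℝ) < b
        linarith
  have hdir : Directed (· ⊇ ·) (fun i : c => (i : Set I)) := by
    intro F G
    rcases hch.total F.2 G.2 with h | h
    · exact ⟨F, Subset.rfl, h⟩
    · exact ⟨G, h, Subset.rfl⟩
  have : Nonempty c := hne.to_subtype
  obtain ⟨⟨F, hF⟩, hKF⟩ := hK.elim_directed_family_closed (fun i : c => (i : Set I))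
    (fun i => (hc i.2).1) hempty hdir
  simp only at hKF
  obtain ⟨hFc, hF0, hF1, hFg⟩ := hc hF
  have hmem : ((a : ℝ) + b) / 2 ∈ I := by
    constructor
    · have := a.2.1; have := b.2.1; linarith
    · have := a.2.2; have := b.2.2; linarith
  let m : I := ⟨((a : ℝ) + b) / 2, hmem⟩
  have hm : (m : ℝ) = (a + b) / 2 := rfl
  have ham : a ≤ m := by show (a : ℝ) ≤ m; rw [hm]; linarith
  have hmb : m ≤ b := by show (m : ℝ) ≤ b; rw [hm]; linarith
  obtain ⟨a₁, ha₁⟩ := ((hFc.inter isClosed_Icc).isCompact (X := I) : IsCompact (F ∩ Icc a m)).exists_isGreatest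
    ⟨a, ha F hF, le_rfl, ham⟩
  obtain ⟨b₁, hb₁⟩ := ((hFc.inter isClosed_Icc).isCompact (X := I) : IsCompact (F ∩ Icc m b)).exists_isLeast
    ⟨b, hb F hF, hmb, le_rfl⟩
  have hnK : ∀ x ∈ F, x ∉ K := by
    intro x hx hxK
    have : x ∈ K ∩ F := ⟨hxK, hx⟩
    rw [hKF] at this
    exact this
  have hmF : m ∉ F := by
    intro hmF
    apply hnK m hmF
    constructor
    · rw [hm]; linarith
    · rw [hm]; linarith
  have ha1m : (a₁ : ℝ) ≤ m := ha₁.1.2.2
  have ha1a : (a : ℝ) ≤ a₁ := ha₁.1.2.1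
  have hb1m : (m : ℝ) ≤ b₁ := hb₁.1.2.1
  have hb1b : (b₁ : ℝ) ≤ b := hb₁.1.2.2
  have h1 : (a₁ : ℝ) < a + δ' := by
    by_contra hcc
    apply hnK a₁ ha₁.1.1
    exact ⟨not_lt.1 hcc, by rw [hm] at ha1m; linarith⟩
  have h2 : (b : ℝ) < b₁ + δ' := by
    by_contra hcc
    apply hnK b₁ hb₁.1.1
    exact ⟨by rw [hm] at hb1m; linarith, not_lt.1 hcc⟩
  have hab1 : a₁ < b₁ := by
    rcases lt_or_eq_of_le (ha₁.1.2.2.trans hb₁.1.2.1) with h | h
    · exact h
    · exfalso
      apply hmF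
      have : a₁ = m := le_antisymm ha₁.1.2.2 (by rw [h]; exact hb₁.1.2.1)
      rw [← this]; exact ha₁.1.1
  have hg := hFg a₁ ha₁.1.1 b₁ hb₁.1.1 hab1 (by
    rintro x hx ⟨hx1, hx2⟩
    rcases le_total x m with hxm | hxm
    · exact absurd (ha₁.2 ⟨hx, ha₁.1.2.1.trans hx1.le, hxm⟩) (not_le.2 hx1)
    · exact absurd (hb₁.2 ⟨hx, hxm, hx2.le.trans hb₁.1.2.2⟩) (not_le.2 hx2))
  have d1 : dist (γ a) (γ a₁) < dist (γ a) (γ b) / 2 := by
    apply hδ'
    rw [Subtype.dist_eq, Real.dist_eq, abs_lt]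
    constructor <;> linarith
  have d2 : dist (γ b₁) (γ b) < dist (γ a) (γ b) / 2 := by
    apply hδ'
    rw [Subtype.dist_eq, Real.dist_eq, abs_lt]
    constructor <;> linarith
  have := dist_triangle (γ a) (γ a₁) (γ b)
  rw [hg] at this
  rw [hg] at d1
  linarith

lemma fam_univ (γ : C(I, X)) : univ ∈ Fam γ := by
  refine ⟨isClosed_univ, mem_univ _, mem_univ _, ?_⟩
  intro a _ b _ hab h
  obtain ⟨x, h1, h2⟩ := exists_between hab
  exact absurd ⟨h1, h2⟩ (h x (mem_univ _))

lemma exists_minimal_fam (γ : C(I, X)) : ∃ F, Minimal (· ∈ Fam γ) F := by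
  apply zorn_superset
  intro c hc hch
  rcases c.eq_empty_or_nonempty with h | h
  · exact ⟨univ, fam_univ γ, by rw [h]; simp⟩
  · exact ⟨⋂₀ c, fam_inter γ c hc hch h, fun s hs => sInter_subset_of_mem hs⟩

lemma minimal_prop (γ : C(I, X)) {F : Set I} (hF : Minimal (· ∈ Fam γ) F) {s t : I} (hs : s ∈ F)
    (ht : t ∈ F) (_hst : s < t) (hg : γ s = γ t) : ∀ x ∈ F, ¬ (s < x ∧ x < t) := by
  obtain ⟨⟨hFc, hF0, hF1, hFg⟩, hmin⟩ := hF
  have h : F \ Ioo s t ∈ Fam γ := by
    refine ⟨hFc.sdiff isOpen_Ioo, ⟨hF0, fun h => absurd h.1 (not_lt.2 unitInterval.nonneg')⟩,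
      ⟨hF1, fun h => absurd h.2 (not_lt.2 unitInterval.le_one')⟩, ?_⟩
    rintro a ⟨ha, ha'⟩ b ⟨hb, hb'⟩ hab hgap
    have hsF : s ∈ F \ Ioo s t := ⟨hs, fun h => lt_irrefl _ h.1⟩
    have htF : t ∈ F \ Ioo s t := ⟨ht, fun h => lt_irrefl _ h.2⟩
    by_cases h1 : b ≤ s
    · exact hFg a ha b hb hab fun x hx hx' => hgap x ⟨hx, fun h => absurd (h.1.trans hx'.2) (not_lt.2 h1)⟩ hx'
    by_cases h2 : t ≤ a
    · exact hFg a ha b hb hab fun x hx hx' => hgap x ⟨hx, fun h => absurd (hx'.1.trans h.2) (not_lt.2 h2)⟩ hx'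
    rw [not_le] at h1 h2
    have h3 : a = s := by
      have h4 : ¬ a < s := fun h => hgap s hsF ⟨h, h1⟩
      by_contra hne
      exact ha' ⟨lt_of_le_of_ne (not_lt.1 h4) (Ne.symm hne), h2⟩
    have h5 : b = t := by
      have h4 : ¬ t < b := fun h => hgap t htF ⟨h2, h⟩
      by_contra hne
      exact hb' ⟨h1, lt_of_le_of_ne (not_lt.1 h4) hne⟩
    rw [h3, h5, hg]
  intro x hx hx'
  exact (hmin h sdiff_subset hx).2 hx'

end ArcL

open ArcL in
/-- Every path between two distinct points contains an arc between them. -/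
theorem exists_injective_arc {X : Type*} [MetricSpace X] (γ : C(I, X)) (h : γ 0 ≠ γ 1) :
    ∃ q : C(I, X), Function.Injective q ∧ q 0 = γ 0 ∧ q 1 = γ 1 ∧ range q ⊆ range γ := by
  obtain ⟨F, hF⟩ := exists_minimal_fam γ
  have hFm := @minimal_prop X _ γ F hF
  obtain ⟨⟨hFc, hF0, hF1, hFg⟩, -⟩ := hF
  have hg1 : ∀ s : I, ∃ p, IsGreatest (F ∩ Iic s) p := fun s =>
    ((hFc.inter isClosed_Iic).isCompact (X := I) : IsCompact (F ∩ Iic s)).exists_isGreatest
      ⟨0, hF0, unitInterval.nonneg'⟩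
  have hg2 : ∀ s : I, ∃ p, IsLeast (F ∩ Ici s) p := fun s =>
    ((hFc.inter isClosed_Ici).isCompact (X := I) : IsCompact (F ∩ Ici s)).exists_isLeast
      ⟨1, hF1, unitInterval.le_one'⟩
  choose P hP using hg1
  choose N hN using hg2
  have hPmono : Monotone P := fun s t hst => (hP t).2 ⟨(hP s).1.1, (hP s).1.2.trans hst⟩
  -- the key estimate
  have key : ∀ s t : I, s ≤ t → γ (P s) = γ (P t) ∨
      ∃ b b' : I, s ≤ b ∧ b ≤ b' ∧ b' ≤ t ∧ γ (P s) = γ b ∧ γ (P t) = γ b' := by
    intro s t hst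
    rcases (hPmono hst).lt_or_eq with hlt | heq
    · right
      have hst' : s < P t := by
        by_contra hcon
        exact absurd ((hP s).2 ⟨(hP t).1.1, not_lt.1 hcon⟩) (not_le.2 hlt)
      refine ⟨N s, P t, (hN s).1.2, (hN s).2 ⟨(hP t).1.1, hst'.le⟩, (hP t).1.2, ?_, rfl⟩
      rcases ((hP s).1.2.trans (hN s).1.2 : P s ≤ N s).lt_or_eq with h1 | h1
      · apply hFg _ (hP s).1.1 _ (hN s).1.1 h1
        rintro x hx ⟨hx1, hx2⟩
        rcases le_total x s with h2 | h2
        · exact absurd ((hP s).2 ⟨hx, h2⟩) (not_le.2 hx1)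
        · exact absurd ((hN s).2 ⟨hx, h2⟩) (not_le.2 hx2)
      · rw [h1]
    · left; rw [heq]
  have hcont : Continuous fun s => γ (P s) := by
    have huc : UniformContinuous γ := CompactSpace.uniformContinuous_of_continuous γ.continuous
    apply UniformContinuous.continuous
    rw [Metric.uniformContinuous_iff] at huc ⊢
    intro ε hε
    obtain ⟨δ, hδ, hδ'⟩ := huc ε hε
    refine ⟨δ, hδ, ?_⟩
    have aux : ∀ s t : I, s ≤ t → dist s t < δ → dist (γ (P s)) (γ (P t)) < ε := by
      intro s t hst hd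
      rcases key s t hst with h1 | ⟨b, b', h1, h2, h3, h4, h5⟩
      · rw [h1, dist_self]; exact hε
      · rw [h4, h5]
        apply hδ'
        rw [Subtype.dist_eq, Real.dist_eq] at hd ⊢
        have e1 : (s : ℝ) ≤ b := h1
        have e2 : (b : ℝ) ≤ b' := h2
        have e3 : (b' : ℝ) ≤ t := h3
        rw [abs_lt] at hd ⊢
        constructor <;> linarith [hd.1]
    intro s t hd
    rcases le_total s t with hst | hst
    · exact aux s t hst hd
    · rw [dist_comm] at hd ⊢
      exact aux t s hst hd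
  have hP0 : P 0 = 0 := le_antisymm (hP 0).1.2 unitInterval.nonneg'
  have hP1 : P 1 = 1 := le_antisymm unitInterval.le_one' ((hP 1).2 ⟨hF1, mem_Iic.2 le_rfl⟩)
  obtain ⟨q, hq1, hq2, hq3, hq4⟩ := arc_of_monotone (⟨fun s => γ (P s), hcont⟩ : C(I, X))
    (by simpa [hP0, hP1] using h) (by
      intro s t hst hg u hsu hut
      change γ (P s) = γ (P t) at hg
      change γ (P u) = γ (P s)
      rcases (hPmono hst).lt_or_eq with hlt | heq
      · have h1 := hFm (hP s).1.1 (hP t).1.1 hlt hg (P u) (hP u).1.1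
        by_cases h2 : P s < P u
        · have h3 : P u = P t := le_antisymm (hPmono hut) (by
            by_contra hcon
            exact h1 ⟨h2, not_le.1 hcon⟩)
          rw [h3, hg]
        · rw [le_antisymm (not_lt.1 h2) (hPmono hsu)]
      · have h3 : P u = P s := le_antisymm (by rw [heq]; exact hPmono hut) (hPmono hsu)
        rw [h3])
  refine ⟨q, hq1, ?_, ?_, ?_⟩
  · rw [hq2]; simp [hP0]
  · rw [hq3]; simp [hP1]
  · refine hq4.trans ?_
    rintro _ ⟨s, rfl⟩
    exact ⟨P s, rfl⟩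

end TopIFS
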