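import Pool.Agent.Lib.H41.IFS.GeoLemmasA

/-!
# Geometric lemmas, part B (levels around the root point)
-/

namespace TopIFS

open Set Filter Topology
open scoped ENNReal unitInterval NNReal

/-- The clamp to `[0, 1]` of the affine function vanishing at `b` and equal to `1` at `a`. -/
noncomputable def ramp (a b r : ℝ) : ℝ := max 0 (min 1 ((r - b) / (a - b)))

theorem ramp_nonneg (a b r : ℝ) : 0 ≤ ramp a b r := le_max_left _ _

theorem ramp_le_one (a b r : ℝ) : ramp a b r ≤ 1 :=
  max_le zero_le_one (min_le_left _ _)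

theorem ramp_eq_one {a b r : ℝ} (hab : b < a) (hr : a ≤ r) : ramp a b r = 1 := by
  have h : 1 ≤ (r - b) / (a - b) := by
    rw [le_div_iff₀ (by linarith)]
    linarith
  rw [ramp, min_eq_left h, max_eq_right zero_le_one]

theorem ramp_eq_zero {a b r : ℝ} (hab : b < a) (hr : r ≤ b) : ramp a b r = 0 := by
  have h : (r - b) / (a - b) ≤ 0 := div_nonpos_of_nonpos_of_nonneg (by linarith) (by linarith)
  rw [ramp, min_eq_right (h.trans zero_le_one), max_eq_left h]

theorem ramp_mono {a b : ℝ} (hab : b < a) : Monotone (ramp a b) := by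
  intro r s hrs
  have h : (r - b) / (a - b) ≤ (s - b) / (a - b) :=
    div_le_div_of_nonneg_right (by linarith) (by linarith)
  exact max_le_max le_rfl (min_le_min le_rfl h)

theorem ramp_continuous (a b : ℝ) : Continuous (ramp a b) := by
  unfold ramp
  fun_prop

theorem ramp_lip {a b : ℝ} (hab : b < a) : LipschitzWith (Real.toNNReal (1 / (a - b))) (ramp a b) := by
  refine LipschitzWith.of_le_add_mul' _ fun r s => ?_
  have hpos : 0 < a - b := by linarith
  have hle : (r - b) / (a - b) ≤ (s - b) / (a - b) + 1 / (a - b) * dist r s := by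
    have h1 : r - s ≤ dist r s := by
      rw [Real.dist_eq]
      exact le_abs_self _
    have : (r - b) / (a - b) - (s - b) / (a - b) = 1 / (a - b) * (r - s) := by ring
    have h2 : 1 / (a - b) * (r - s) ≤ 1 / (a - b) * dist r s :=
      mul_le_mul_of_nonneg_left h1 (by positivity)
    linarith
  have hd : 0 ≤ 1 / (a - b) * dist r s := by positivity
  unfold ramp
  refine max_le (add_nonneg (le_max_left _ _) hd) ?_
  rcases le_total 1 ((s - b) / (a - b)) with h | h
  · rw [min_eq_left h, max_eq_right zero_le_one]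
    exact (min_le_left _ _).trans (by linarith)
  · rw [min_eq_right h]
    exact (min_le_right _ _).trans (hle.trans (by gcongr; exact le_max_right _ _))

/-- A rescaling function sending the level `ρ i` to `4 ^ (-i)`, for instance
`κ r = Σ_i (3/4) 4^(-i) clamp ((r - ρ (i+1)) / (ρ i - ρ (i+1)))`. -/
theorem exists_kappa (ρ : ℕ → ℝ) (hρ : StrictAnti ρ) (hpos : ∀ i, 0 < ρ i)
    (hlim : Tendsto ρ atTop (𝓝 0)) :
    ∃ κ : ℝ → ℝ, Continuous κ ∧ Monotone κ ∧ κ 0 = 0 ∧ (∀ r > 0, 0 < κ r) ∧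
      (∀ i, κ (ρ i) = (1 / 4) ^ i) ∧ (∀ r, ρ 0 ≤ r → κ r = 1) ∧
      ∀ c > 0, ∃ C : ℝ≥0, LipschitzOnWith C κ (Ici c) := by
  have hlt : ∀ i, ρ (i + 1) < ρ i := fun i => hρ (Nat.lt_succ_self i)
  set f : ℕ → ℝ → ℝ := fun i r => 3 / 4 * (1 / 4 : ℝ) ^ i * ramp (ρ i) (ρ (i + 1)) r with hf
  set g : ℕ → ℝ := fun i => 3 / 4 * (1 / 4 : ℝ) ^ i with hg
  have hgs : HasSum g 1 := by
    have := (hasSum_geometric_of_lt_one (r := (1 / 4 : ℝ)) (by norm_num) (by norm_num)).mul_left
      (3 / 4 : ℝ)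
    norm_num at this
    simpa [hg] using this
  have hgpos : ∀ i, 0 ≤ g i := fun i => by simp only [hg]; positivity
  have hf0 : ∀ i r, 0 ≤ f i r := fun i r => mul_nonneg (hgpos i) (ramp_nonneg _ _ _)
  have hfg : ∀ i r, f i r ≤ g i := fun i r => by
    have := mul_le_mul_of_nonneg_left (ramp_le_one (ρ i) (ρ (i + 1)) r) (hgpos i)
    simpa [hf, hg] using this
  have hsum : ∀ r, Summable fun i => f i r := fun r =>
    Summable.of_nonneg_of_le (fun i => hf0 i r) (fun i => hfg i r) hgs.summable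
  set κ : ℝ → ℝ := fun r => ∑' i, f i r with hκ
  have hcont : Continuous κ := by
    refine continuous_tsum (fun i => ?_) hgs.summable (fun i r => ?_)
    · simp only [hf]
      exact continuous_const.mul (ramp_continuous _ _)
    · rw [Real.norm_of_nonneg (hf0 i r)]
      exact hfg i r
  have hmono : Monotone κ := by
    intro r s hrs
    refine (hsum r).tsum_le_tsum (fun i => ?_) (hsum s)
    exact mul_le_mul_of_nonneg_left (ramp_mono (hlt i) hrs) (hgpos i)
  have hzero : κ 0 = 0 := by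
    simp only [hκ]
    have : ∀ i, f i 0 = 0 := fun i => by
      simp only [hf]
      rw [ramp_eq_zero (hlt i) (hpos _).le, mul_zero]
    simp [this]
  have hone : ∀ r, ρ 0 ≤ r → κ r = 1 := by
    intro r hr
    have : ∀ i, f i r = g i := fun i => by
      simp only [hf, hg]
      rw [ramp_eq_one (hlt i) ((hρ.antitone (Nat.zero_le i)).trans hr), mul_one]
    simp only [hκ, this]
    exact hgs.tsum_eq
  have hlev : ∀ i, κ (ρ i) = (1 / 4) ^ i := by
    intro i
    have h1 : ∀ j ∈ Finset.range i, f j (ρ i) = 0 := fun j hj => by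
      simp only [hf]
      rw [ramp_eq_zero (hlt j) (hρ.antitone (Finset.mem_range.mp hj)), mul_zero]
    have h2 : ∀ j, f (j + i) (ρ i) = (1 / 4) ^ i * g j := fun j => by
      simp only [hf, hg]
      rw [ramp_eq_one (hlt _) (hρ.antitone (Nat.le_add_left _ _)), mul_one, pow_add]
      ring
    have h3 := (hsum (ρ i)).sum_add_tsum_nat_add i
    rw [Finset.sum_eq_zero h1, zero_add] at h3
    simp only [hκ]
    rw [← h3]
    simp only [h2]
    rw [tsum_mul_left, hgs.tsum_eq, mul_one]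
  have hpos' : ∀ r > 0, 0 < κ r := by
    intro r hr
    obtain ⟨i, hi⟩ := (hlim.eventually (gt_mem_nhds hr)).exists
    calc 0 < (1 / 4 : ℝ) ^ i := by positivity
      _ = κ (ρ i) := (hlev i).symm
      _ ≤ κ r := hmono hi.le
  refine ⟨κ, hcont, hmono, hzero, hpos', hlev, hone, fun c hc => ?_⟩
  obtain ⟨N, hN⟩ := (hlim.eventually (gt_mem_nhds hc)).exists
  have hrep : ∀ r ∈ Ici c, κ r = (∑ i ∈ Finset.range N, f i r) + ∑' i, g (i + N) := by
    intro r hr
    simp only [hκ]
    rw [← (hsum r).sum_add_tsum_nat_add N]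
    congr 1
    refine tsum_congr fun i => ?_
    simp only [hf, hg]
    rw [ramp_eq_one (hlt _) (((hρ.antitone (Nat.le_add_left _ _)).trans hN.le).trans hr), mul_one]
  have hl : ∀ M : ℕ, ∃ C : ℝ≥0, LipschitzWith C fun r => ∑ i ∈ Finset.range M, f i r := by
    intro M
    induction M with
    | zero => exact ⟨0, by simp [LipschitzWith.const (0 : ℝ)]⟩
    | succ M ih =>
      obtain ⟨C, hC⟩ := ih
      have h1 : LipschitzWith (Real.toNNReal (g M) * Real.toNNReal (1 / (ρ M - ρ (M + 1))))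
          (f M) := by
        refine LipschitzWith.of_dist_le_mul fun r s => ?_
        have h := (ramp_lip (hlt M)).dist_le_mul r s
        rw [NNReal.coe_mul, Real.coe_toNNReal _ (hgpos M)]
        rw [Real.dist_eq] at h ⊢
        have hfr : ∀ t, f M t = g M * ramp (ρ M) (ρ (M + 1)) t := fun t => rfl
        rw [hfr, hfr, ← mul_sub, abs_mul, abs_of_nonneg (hgpos M)]
        exact (mul_le_mul_of_nonneg_left h (hgpos M)).trans_eq (mul_assoc _ _ _).symm
      refine ⟨C + Real.toNNReal (g M) * Real.toNNReal (1 / (ρ M - ρ (M + 1))), ?_⟩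
      have := hC.add h1
      simpa [Finset.sum_range_succ] using this
  obtain ⟨C, hC⟩ := hl N
  refine ⟨C, LipschitzOnWith.of_dist_le_mul fun r hr s hs => ?_⟩
  rw [hrep r hr, hrep s hs, dist_add_right]
  exact hC.dist_le_mul r s

/-- Levels: `D₀` vanishes exactly at `x₀`, which is not a local cut point. There are levels
`ρ 0 > ρ 1 > ...` tending to `0` such that the annuli are contained in slightly larger open
preconnected sets. Proof: choose recursively `ρ (n + 5)` after `W n`; one needs that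
`{D₀ ≤ ρ (n + 1)} ⊆ V n ⊆ {D₀ < ρ n}` for an open preconnected `V n`, then
`V n \ {x₀}` is open preconnected and contains the compact annulus, use `exists_conn_nbhd`. -/
theorem exists_levels {X : Type*} [MetricSpace X] [CompactSpace X] [LocallyConnectedSpace X]
    (D₀ : C(X, ℝ)) (x₀ : X) (h0 : ∀ x, 0 ≤ D₀ x) (hzero : ∀ x, D₀ x = 0 ↔ x = x₀)
    (hcut : ∀ U : Set X, IsOpen U → IsPreconnected U → IsPreconnected (U \ {x₀})) :
    ∃ ρ : ℕ → ℝ, StrictAnti ρ ∧ (∀ i, 0 < ρ i) ∧ ρ 0 < 1 ∧ Tendsto ρ atTop (𝓝 0) ∧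
      ∃ W : ℕ → Set X, ∀ n, IsOpen (W n) ∧ IsPreconnected (W n) ∧
        {x | ρ (n + 4) ≤ D₀ x ∧ D₀ x ≤ ρ (n + 1)} ⊆ W n ∧
        W n ⊆ {x | ρ (n + 5) < D₀ x ∧ D₀ x < ρ n} := by
  -- the basic scale of levels
  set q : ℕ → ℝ := fun m => (1 / 2 : ℝ) ^ (m + 1) with hq
  have hqa : StrictAnti q := by
    intro a b hab
    exact pow_lt_pow_right_of_lt_one₀ (by norm_num) (by norm_num) (Nat.succ_lt_succ hab)
  have hqpos : ∀ m, 0 < q m := fun m => by simp only [hq]; positivity
  have hqlim : Tendsto q atTop (𝓝 0) :=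
    (tendsto_pow_atTop_nhds_zero_of_lt_one (by norm_num) (by norm_num)).comp
      (tendsto_add_atTop_nat 1)
  -- `D₀` is bounded below on compact sets off `x₀`
  have hcomp : ∀ K : Set X, IsClosed K → x₀ ∉ K → ∃ m, ∀ j, m ≤ j → ∀ x ∈ K, q j < D₀ x := by
    intro K hK hx
    obtain ⟨a, ha, hKa⟩ := hK.isCompact.exists_forall_le' (a := (0 : ℝ)) D₀.continuous.continuousOn
      (fun x hxK => lt_of_le_of_ne (h0 x) fun h => hx ((hzero x).mp h.symm ▸ hxK))
    obtain ⟨m, hm⟩ := (hqlim.eventually (gt_mem_nhds ha)).exists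
    exact ⟨m, fun j hj x hxK => ((hqa.antitone hj).trans_lt hm).trans_le (hKa x hxK)⟩
  -- step 1
  have h1 : ∀ m, ∃ N, m < N ∧ ∃ V : Set X, IsOpen V ∧ IsPreconnected V ∧
      {x | D₀ x ≤ q N} ⊆ V ∧ V ⊆ {x | D₀ x < q m} := by
    intro m
    have hO : IsOpen {x | D₀ x < q m} := isOpen_lt D₀.continuous continuous_const
    have hx₀ : D₀ x₀ < q m := by rw [(hzero x₀).mpr rfl]; exact hqpos m
    obtain ⟨V, hVs, hVo, hxV, hVc⟩ :=
      (locallyConnectedSpace_iff_subsets_isOpen_isConnected.mp inferInstance) x₀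
        {x | D₀ x < q m} (hO.mem_nhds hx₀)
    obtain ⟨N, hN⟩ := hcomp Vᶜ hVo.isClosed_compl (fun h => h hxV)
    refine ⟨max N (m + 1), lt_of_lt_of_le (Nat.lt_succ_self m) (le_max_right _ _), V, hVo,
      hVc.isPreconnected, fun x hx => ?_, hVs⟩
    by_contra hxV'
    exact absurd hx (not_le.mpr (hN _ (le_max_left _ _) x hxV'))
  choose N₁ hN₁ V hVo hVc hVsub hVsup using h1
  -- step 2
  have h2 : ∀ n m, ∃ W : Set X, IsOpen W ∧ IsPreconnected W ∧
      {x | q m ≤ D₀ x ∧ D₀ x ≤ q (N₁ n)} ⊆ W ∧ W ⊆ {x | D₀ x < q n} ∧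
      ∃ e, ∀ j, e ≤ j → ∀ x ∈ W, q j < D₀ x := by
    intro n m
    have hC : IsClosed {x | q m ≤ D₀ x ∧ D₀ x ≤ q (N₁ n)} :=
      (isClosed_le continuous_const D₀.continuous).inter
        (isClosed_le D₀.continuous continuous_const)
    obtain ⟨W, hWo, hWc, hCW, hWU⟩ := exists_conn_nbhd
      {x | q m ≤ D₀ x ∧ D₀ x ≤ q (N₁ n)} (V n \ {x₀}) hC.isCompact
      ((hVo n).sdiff isClosed_singleton) (hcut _ (hVo n) (hVc n))
      (fun x hx => ⟨hVsub n hx.2, fun h => by
        have h' : x = x₀ := h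
        have := hx.1
        rw [h', (hzero x₀).mpr rfl] at this
        exact absurd this (not_le.mpr (hqpos m))⟩)
    obtain ⟨e, he⟩ := hcomp (closure W) isClosed_closure (fun h => (hWU h).2 rfl)
    exact ⟨W, hWo, hWc, hCW, fun x hx => hVsup n (hWU (subset_closure hx)).1, e,
      fun j hj x hx => he j hj x (subset_closure hx)⟩
  choose W hWo hWc hWsub hWsup e he using h2
  -- step 3
  set N : ℕ → ℕ := fun m => N₁ m + ∑ n ∈ Finset.range (m + 1), e n m with hN
  have hNlt : ∀ m, m < N m := fun m => lt_of_lt_of_le (hN₁ m) (Nat.le_add_right _ _)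
  have hNe : ∀ n m, n ≤ m → e n m ≤ N m := fun n m hnm =>
    (Finset.single_le_sum (f := fun n => e n m) (fun _ _ => Nat.zero_le _)
      (Finset.mem_range.mpr (Nat.lt_succ_of_le hnm))).trans (Nat.le_add_left _ _)
  -- step 4
  set k : ℕ → ℕ := fun i => N^[i] 0 with hk
  have hks : ∀ i, k (i + 1) = N (k i) := fun i => Function.iterate_succ_apply' N i 0
  have hkm : StrictMono k := strictMono_nat_of_lt_succ fun i => by rw [hks]; exact hNlt _
  refine ⟨fun i => q (k i), hqa.comp_strictMono hkm, fun i => hqpos _, ?_,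
    hqlim.comp hkm.tendsto_atTop, fun n => W (k n) (k (n + 4)), fun n => ⟨hWo _ _, hWc _ _, ?_, ?_⟩⟩
  · simp only [hk, hq, Function.iterate_zero, id]
    norm_num
  · intro x hx
    refine hWsub _ _ ⟨hx.1, hx.2.trans (hqa.antitone ?_)⟩
    rw [hks]
    exact Nat.le_add_right _ _
  · intro x hx
    refine ⟨he (k n) (k (n + 4)) _ ?_ x hx, hWsup _ _ hx⟩
    rw [hks (n + 4)]
    exact hNe _ _ (hkm.monotone (Nat.le_add_right _ _))

end TopIFS
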