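import Pool.Agent.Lib.H41.IFS.Defs

/-!
# Paths through connected sets in compact, locally connected metric spaces

The main result `exists_path_cover`: in a compact, locally connected metric space, two points `x, y`
of a connected set `K` are joined by a path whose range contains `K` and lies within distance `η` of
`K`.  It contains the theorem of Hahn and Mazurkiewicz and the local path-connectedness of such
spaces.
-/

set_option autoImplicit false

open Set Filter Topology unitInterval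

namespace TopIFS.HM

variable {X : Type*} [MetricSpace X]

/-- `N` steps from `x` to `y` through preconnected sets of diameter at most `ε` that meet `K`; these
sets cover `F`. -/
def Chain (K : Set X) (ε : ℝ) (N : ℕ) (x y : X) (F : Set X) : Prop :=
  ∃ (z : ℕ → X) (V : ℕ → Set X), z 0 = x ∧ z N = y ∧
    (∀ l < N, IsPreconnected (V l) ∧ z l ∈ V l ∧ z (l + 1) ∈ V l ∧
      (∀ a ∈ V l, ∀ b ∈ V l, dist a b ≤ ε) ∧ (V l ∩ K).Nonempty) ∧
    ∀ p ∈ F, ∃ l < N, p ∈ V l

theorem Chain.one {K U : Set X} {ε : ℝ} (hU : IsPreconnected U)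
    (hd : ∀ a ∈ U, ∀ b ∈ U, dist a b ≤ ε) (hK : (U ∩ K).Nonempty) {x y : X} (hx : x ∈ U)
    (hy : y ∈ U) : Chain K ε 1 x y U := by
  refine ⟨fun l => if l = 0 then x else y, fun _ => U, by simp, by simp, ?_, fun p hp => ⟨0, by simp, hp⟩⟩
  intro l hl
  obtain rfl : l = 0 := by omega
  exact ⟨hU, by simpa using hx, by simpa using hy, hd, hK⟩

theorem Chain.append {K : Set X} {ε : ℝ} {N M : ℕ} {x y w : X} {F G : Set X}
    (h : Chain K ε N x y F) (h' : Chain K ε M y w G) : Chain K ε (N + M) x w (F ∪ G) := by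
  obtain ⟨z, V, h0, hN, hV, hF⟩ := h
  obtain ⟨z', V', h0', hM, hV', hG⟩ := h'
  refine ⟨fun l => if l < N then z l else z' (l - N), fun l => if l < N then V l else V' (l - N),
    ?_, ?_, ?_, ?_⟩
  · by_cases hn : 0 < N
    · simp [hn, h0]
    · have : N = 0 := by omega
      subst this
      simp only [lt_irrefl, if_false, Nat.sub_zero]
      rw [h0', ← hN, h0]
  · simp [hM]
  · intro l hl
    by_cases hln : l < N
    · obtain ⟨a1, a2, a3, a4, a5⟩ := hV l hln
      simp only [hln, if_true]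
      refine ⟨a1, a2, ?_, a4, a5⟩
      by_cases h2 : l + 1 < N
      · simp only [h2, if_true]
        exact a3
      · have h3 : l + 1 = N := by omega
        have h4 : l + 1 - N = 0 := by omega
        rw [if_neg h2, h4, h0', ← hN, ← h3]
        exact a3
    · obtain ⟨a1, a2, a3, a4, a5⟩ := hV' (l - N) (by omega)
      have h2 : ¬ l + 1 < N := by omega
      have h3 : l + 1 - N = l - N + 1 := by omega
      simp only [hln, h2, if_false, h3]
      exact ⟨a1, a2, a3, a4, a5⟩
  · rintro p (hp | hp)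
    · obtain ⟨l, hl, hpl⟩ := hF p hp
      exact ⟨l, by omega, by simp only [hl, if_true]; exact hpl⟩
    · obtain ⟨l, hl, hpl⟩ := hG p hp
      refine ⟨N + l, by omega, ?_⟩
      have : ¬ N + l < N := by omega
      simp only [this, if_false, Nat.add_sub_cancel_left]
      exact hpl

theorem Chain.mono {K : Set X} {ε : ℝ} {N : ℕ} {x y : X} {F G : Set X}
    (h : Chain K ε N x y F) (hG : G ⊆ F) : Chain K ε N x y G := by
  obtain ⟨z, V, h0, hN, hV, hF⟩ := h
  exact ⟨z, V, h0, hN, hV, fun p hp => hF p (hG hp)⟩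

theorem Chain.pad {K : Set X} {ε : ℝ} {N : ℕ} {x y : X} {F : Set X}
    (h : Chain K ε N x y F) (hN : 0 < N) {M : ℕ} (hM : N ≤ M) : Chain K ε M x y F := by
  induction M, hM using Nat.le_induction with
  | base => exact h
  | succ M hM ih =>
    obtain ⟨z, V, h0, hM', hV, hF⟩ := ih
    obtain ⟨a1, a2, a3, a4, a5⟩ := hV (M - 1) (by omega)
    have h2 : M - 1 + 1 = M := by omega
    rw [h2, hM'] at a3
    have h3 : Chain K ε 1 y y ∅ := (Chain.one a1 a4 a5 a3 a3).mono (empty_subset _)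
    have h4 : Chain K ε M x y F := ⟨z, V, h0, hM', hV, hF⟩
    have := h4.append h3
    rwa [union_empty] at this

variable [LocallyConnectedSpace X]

/-- small connected open neighbourhoods -/
theorem exists_nbhd (x : X) {ε : ℝ} (hε : 0 < ε) : ∃ U : Set X, IsOpen U ∧ IsPreconnected U ∧
    x ∈ U ∧ ∀ a ∈ U, ∀ b ∈ U, dist a b ≤ ε := by
  refine ⟨connectedComponentIn (Metric.ball x (ε / 2)) x, Metric.isOpen_ball.connectedComponentIn,
    isPreconnected_connectedComponentIn, mem_connectedComponentIn (Metric.mem_ball_self (by positivity)),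
    ?_⟩
  intro a ha b hb
  have ha' := Metric.mem_ball.1 (connectedComponentIn_subset _ _ ha)
  have hb' := Metric.mem_ball.1 (connectedComponentIn_subset _ _ hb)
  calc dist a b ≤ dist a x + dist b x := dist_triangle_right a b x
    _ ≤ ε := by linarith

variable [CompactSpace X]

/-- All points of a connected set are joined by chains that cover the set. -/
theorem exists_chain {K : Set X} (hK : IsPreconnected K) {ε : ℝ} (hε : 0 < ε) {x y : X}
    (hx : x ∈ K) (hy : y ∈ K) : ∃ N, 0 < N ∧ Chain K ε N x y K := by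
  choose U hUo hUc hUx hUd using fun x : X => exists_nbhd x hε
  obtain ⟨T, hTK, hT⟩ := (isClosed_closure (s := K)).isCompact.elim_nhds_subcover U
    fun x _ => (hUo x).mem_nhds (hUx x)
  have hmeet : ∀ t ∈ T, (U t ∩ K).Nonempty := fun t ht =>
    mem_closure_iff.1 (hTK t ht) (U t) (hUo t) (hUx t)
  -- points in one set
  have hone : ∀ t ∈ T, ∀ a ∈ U t, ∀ b ∈ U t, Chain K ε 1 a b (U t) := fun t ht a ha b hb =>
    Chain.one (hUc t) (hUd t) (hmeet t ht) ha hb
  -- reachability
  have hreach : ∀ a ∈ K, ∀ t ∈ T, ∀ b ∈ U t, ∃ N, 0 < N ∧ Chain K ε N a b ∅ := by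
    intro a ha
    obtain ⟨t₀, ht₀, hat₀⟩ := mem_iUnion₂.1 (hT (subset_closure ha))
    by_contra hcon
    push Not at hcon
    obtain ⟨t₁, ht₁, b₁, hb₁, hno₁⟩ := hcon
    let A : Set X := ⋃ t ∈ {t | t ∈ T ∧ ∃ b ∈ U t, ∃ N, 0 < N ∧ Chain K ε N a b ∅}, U t
    let B : Set X := ⋃ t ∈ {t | t ∈ T ∧ ¬ ∃ b ∈ U t, ∃ N, 0 < N ∧ Chain K ε N a b ∅}, U t
    have hA : IsOpen A := isOpen_biUnion fun t _ => hUo t
    have hB : IsOpen B := isOpen_biUnion fun t _ => hUo t
    have hall : ∀ t ∈ T, (∃ b ∈ U t, ∃ N, 0 < N ∧ Chain K ε N a b ∅) → ∀ b ∈ U t,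
        ∃ N, 0 < N ∧ Chain K ε N a b ∅ := by
      rintro t ht ⟨b, hb, N, hN, hc⟩ b' hb'
      have := hc.append ((hone t ht b hb b' hb').mono (empty_subset _))
      rw [union_empty] at this
      exact ⟨N + 1, by omega, this⟩
    have hcov : K ⊆ A ∪ B := by
      intro p hp
      obtain ⟨t, ht, hpt⟩ := mem_iUnion₂.1 (hT (subset_closure hp))
      by_cases h : ∃ b ∈ U t, ∃ N, 0 < N ∧ Chain K ε N a b ∅
      · exact Or.inl (mem_biUnion (show t ∈ {t | t ∈ T ∧ _} from ⟨ht, h⟩) hpt)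
      · exact Or.inr (mem_biUnion (show t ∈ {t | t ∈ T ∧ _} from ⟨ht, h⟩) hpt)
    have hKA : (K ∩ A).Nonempty := by
      refine ⟨a, ha, mem_biUnion (show t₀ ∈ {t | t ∈ T ∧ _} from ⟨ht₀, a, hat₀, 1, one_pos, ?_⟩) hat₀⟩
      exact (hone t₀ ht₀ a hat₀ a hat₀).mono (empty_subset _)
    have hKB : (K ∩ B).Nonempty := by
      obtain ⟨p, hp, hpK⟩ := hmeet t₁ ht₁
      refine ⟨p, hpK, mem_biUnion (show t₁ ∈ {t | t ∈ T ∧ _} from ⟨ht₁, ?_⟩) hp⟩
      intro h
      obtain ⟨N, hN, hc⟩ := hall t₁ ht₁ h b₁ hb₁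
      exact hno₁ N hN hc
    obtain ⟨p, hpK, hpA, hpB⟩ := hK A B hA hB hcov hKA hKB
    obtain ⟨t, ht, hpt⟩ := mem_iUnion₂.1 hpA
    obtain ⟨t', ht', hpt'⟩ := mem_iUnion₂.1 hpB
    exact ht'.2 ⟨p, hpt', hall t ht.1 ht.2 p hpt⟩
  -- choose points
  have hcover : ∀ S : Finset X, S ⊆ T → ∀ a ∈ K, ∀ b ∈ K, ∃ N, 0 < N ∧
      Chain K ε N a b (⋃ t ∈ S, U t) := by
    intro S
    classical
    induction S using Finset.induction_on with
    | empty =>
      intro _ a ha b hb
      obtain ⟨t, ht, hbt⟩ := mem_iUnion₂.1 (hT (subset_closure hb))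
      obtain ⟨N, hN, hc⟩ := hreach a ha t ht b hbt
      refine ⟨N, hN, hc.mono ?_⟩
      simp
    | insert t S htS ih =>
      intro hS a ha b hb
      have ht : t ∈ T := hS (Finset.mem_insert_self _ _)
      obtain ⟨p, hp, hpK⟩ := hmeet t ht
      obtain ⟨N, hN, hc⟩ := hreach a ha t ht p hp
      obtain ⟨N', hN', hc'⟩ := ih ((Finset.subset_insert _ _).trans hS) p hpK b hb
      refine ⟨N + 1 + N', by omega, ((hc.append (hone t ht p hp p hp)).append hc').mono ?_⟩
      rw [Finset.set_biUnion_insert, empty_union]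
  obtain ⟨N, hN, hc⟩ := hcover T (Finset.Subset.refl _) x hx y hy
  exact ⟨N, hN, hc.mono (subset_closure.trans hT)⟩

/-- A stage of the construction: `M` steps through connected sets of diameter at most `ε`. -/
structure Stage (K : Set X) (x y : X) (ε : ℝ) where
  M : ℕ
  pos : 0 < M
  z : ℕ → X
  V : ℕ → Set X
  z_zero : z 0 = x
  z_last : z M = y
  conn : ∀ l < M, IsPreconnected (V l)
  left : ∀ l < M, z l ∈ V l
  right : ∀ l < M, z (l + 1) ∈ V l
  diam : ∀ l < M, ∀ a ∈ V l, ∀ b ∈ V l, dist a b ≤ ε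
  cov : ∀ p ∈ K, ∃ l < M, p ∈ V l

/-- refinement of a stage -/
def Stage.Refines {K : Set X} {x y : X} {ε ε' : ℝ} (s : Stage K x y ε) (s' : Stage K x y ε')
    (N : ℕ) : Prop :=
  0 < N ∧ s'.M = s.M * N ∧ (∀ l ≤ s.M, s'.z (l * N) = s.z l) ∧
    ∀ q < s'.M, (s'.V q ∩ s.V (q / N)).Nonempty

omit [LocallyConnectedSpace X] [CompactSpace X] in
theorem Stage.Refines.dist_le {K : Set X} {x y : X} {ε ε' : ℝ} {s : Stage K x y ε}
    {s' : Stage K x y ε'} {N : ℕ} (h : s.Refines s' N) (hε : 0 ≤ ε) (hε' : 0 ≤ ε') (q : ℕ)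
    (hq : q ≤ s'.M) : dist (s'.z q) (s.z (q / N)) ≤ ε + ε' := by
  obtain ⟨hN, hM, hz, hV⟩ := h
  rcases Nat.lt_or_ge q s'.M with hq' | hq'
  · obtain ⟨p, hp, hp'⟩ := hV q hq'
    have hl : q / N < s.M := by
      rw [Nat.div_lt_iff_lt_mul hN]
      rw [← hM]
      exact hq'
    have h1 := s'.diam q hq' _ (s'.left q hq') p hp
    have h2 := s.diam _ hl p hp' _ (s.left _ hl)
    calc dist (s'.z q) (s.z (q / N)) ≤ dist (s'.z q) p + dist p (s.z (q / N)) := dist_triangle _ _ _
      _ ≤ ε + ε' := by linarith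
  · have h1 : q = s.M * N := by omega
    rw [h1, hz _ le_rfl, Nat.mul_div_cancel _ hN, dist_self]
    positivity

theorem Stage.exists_refines {K : Set X} {x y : X} {ε : ℝ} (s : Stage K x y ε) {ε' : ℝ}
    (hε' : 0 < ε') : ∃ (s' : Stage K x y ε') (N : ℕ), s.Refines s' N := by
  have h1 : ∀ l : Fin s.M, ∃ N, 0 < N ∧ Chain (s.V l) ε' N (s.z l) (s.z (l + 1)) (s.V l) :=
    fun l => exists_chain (s.conn l l.2) hε' (s.left l l.2) (s.right l l.2)
  choose N₀ hN₀ hc₀ using h1
  obtain ⟨N, hN⟩ : ∃ N, ∀ l, N₀ l ≤ N := by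
    obtain ⟨N, hN⟩ := (Set.finite_range N₀).bddAbove
    exact ⟨N, fun l => hN ⟨l, rfl⟩⟩
  have hNpos : 0 < N := (hN₀ ⟨0, s.pos⟩).trans_le (hN _)
  have h2 : ∀ l : ℕ, ∃ (z : ℕ → X) (V : ℕ → Set X), z 0 = s.z l ∧ (l < s.M → z N = s.z (l + 1) ∧
      (∀ i < N, IsPreconnected (V i) ∧ z i ∈ V i ∧ z (i + 1) ∈ V i ∧
        (∀ a ∈ V i, ∀ b ∈ V i, dist a b ≤ ε') ∧ (V i ∩ s.V l).Nonempty) ∧
      ∀ p ∈ s.V l, ∃ i < N, p ∈ V i) := by
    intro l
    by_cases hl : l < s.M
    · obtain ⟨z, V, a1, a2, a3, a4⟩ := (hc₀ ⟨l, hl⟩).pad (hN₀ _) (hN _)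
      exact ⟨z, V, a1, fun _ => ⟨a2, a3, a4⟩⟩
    · exact ⟨fun _ => s.z l, fun _ => ∅, rfl, fun h => absurd h hl⟩
  choose z V hz0 hrest using h2
  have hdiv : ∀ q, q < s.M * N → q / N < s.M := fun q hq => by
    rw [Nat.div_lt_iff_lt_mul hNpos]; exact hq
  have hmod : ∀ q : ℕ, q % N < N := fun q => Nat.mod_lt q hNpos
  have hsucc : ∀ q, q < s.M * N → z ((q + 1) / N) ((q + 1) % N) = z (q / N) (q % N + 1) := by
    intro q hq
    by_cases h : q % N + 1 < N
    · have e1 : (q + 1) / N = q / N := by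
        have := Nat.div_add_mod q N
        refine Nat.div_eq_of_lt_le ?_ ?_
        · rw [mul_comm]; omega
        · rw [add_mul, mul_comm, one_mul]; omega
      have e2 : (q + 1) % N = q % N + 1 := by
        have h3 := Nat.div_add_mod q N
        have h4 := Nat.div_add_mod (q + 1) N
        rw [e1] at h4
        omega
      rw [e1, e2]
    · have h5 : q % N + 1 = N := by have := hmod q; omega
      have e1 : (q + 1) / N = q / N + 1 := by
        have := Nat.div_add_mod q N
        refine Nat.div_eq_of_lt_le ?_ ?_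
        · rw [add_mul, mul_comm, one_mul]; omega
        · rw [add_mul, add_mul, mul_comm, one_mul]; omega
      have e2 : (q + 1) % N = 0 := by
        have h3 := Nat.div_add_mod q N
        have h4 := Nat.div_add_mod (q + 1) N
        rw [e1, mul_add, mul_one] at h4
        omega
      rw [e1, e2, h5, hz0, (hrest _ (hdiv q hq)).1]
  refine ⟨⟨s.M * N, Nat.mul_pos s.pos hNpos, fun q => z (q / N) (q % N), fun q => V (q / N) (q % N),
    ?_, ?_, ?_, ?_, ?_, ?_, ?_⟩, N, hNpos, rfl, ?_, ?_⟩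
  · simp only [Nat.zero_div, Nat.zero_mod, hz0, s.z_zero]
  · simp only [Nat.mul_div_cancel _ hNpos, Nat.mul_mod_left, hz0, s.z_last]
  · intro q hq
    exact ((hrest _ (hdiv q hq)).2.1 _ (hmod q)).1
  · intro q hq
    exact ((hrest _ (hdiv q hq)).2.1 _ (hmod q)).2.1
  · intro q hq
    show z ((q + 1) / N) ((q + 1) % N) ∈ _
    rw [hsucc q hq]
    exact ((hrest _ (hdiv q hq)).2.1 _ (hmod q)).2.2.1
  · intro q hq
    exact ((hrest _ (hdiv q hq)).2.1 _ (hmod q)).2.2.2.1
  · intro p hp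
    obtain ⟨l, hl, hpl⟩ := s.cov p hp
    obtain ⟨i, hi, hpi⟩ := (hrest l hl).2.2 p hpl
    refine ⟨l * N + i, ?_, ?_⟩
    · calc l * N + i < l * N + N := by omega
        _ = (l + 1) * N := by ring
        _ ≤ s.M * N := Nat.mul_le_mul_right _ hl
    · have e1 : (l * N + i) / N = l := by
        refine Nat.div_eq_of_lt_le ?_ ?_
        · omega
        · rw [add_mul, one_mul]; omega
      have e2 : (l * N + i) % N = i := by
        have h4 := Nat.div_add_mod (l * N + i) N
        rw [e1, mul_comm] at h4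
        omega
      rw [e1, e2]
      exact hpi
  · intro l hl
    simp only [Nat.mul_div_cancel _ hNpos, Nat.mul_mod_left, hz0]
  · intro q hq
    exact ((hrest _ (hdiv q hq)).2.1 _ (hmod q)).2.2.2.2

theorem exists_div_pow_lt (C : ℝ) {ε : ℝ} (hε : 0 < ε) : ∃ k : ℕ, C / 2 ^ k < ε := by
  obtain ⟨k, hk⟩ := pow_unbounded_of_one_lt (C / ε) (one_lt_two : (1 : ℝ) < 2)
  refine ⟨k, ?_⟩
  rw [div_lt_iff₀ hε] at hk
  rw [div_lt_iff₀ (by positivity), mul_comm]
  exact hk

/-- the first stage, with sets that meet `K` -/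
theorem exists_stage {K : Set X} (hK : IsPreconnected K) {ε : ℝ} (hε : 0 < ε) {x y : X}
    (hx : x ∈ K) (hy : y ∈ K) : ∃ s : Stage K x y ε, ∀ l < s.M, (s.V l ∩ K).Nonempty := by
  obtain ⟨N, hN, z, V, h0, h1, h2, h3⟩ := exists_chain hK hε hx hy
  exact ⟨⟨N, hN, z, V, h0, h1, fun l hl => (h2 l hl).1, fun l hl => (h2 l hl).2.1,
    fun l hl => (h2 l hl).2.2.1, fun l hl => (h2 l hl).2.2.2.1, h3⟩, fun l hl => (h2 l hl).2.2.2.2⟩

/-- **Paths through connected sets.**  Two points `x, y` of a connected set `K` of a compact, locally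
connected metric space are joined by a path which passes through all points of `K` and stays within
distance `η` of `K`. -/
theorem exists_path_cover {K : Set X} (hK : IsPreconnected K) {x y : X} (hx : x ∈ K) (hy : y ∈ K)
    {η : ℝ} (hη : 0 < η) : ∃ f : Path x y, K ⊆ range f ∧ ∀ t, ∃ p ∈ K, dist (f t) p ≤ η := by
  set e : ℝ := η / 5 with he
  have hepos : 0 < e := by positivity
  have hek : ∀ k : ℕ, 0 < e / 2 ^ k := fun k => by positivity
  obtain ⟨s₀, hs₀⟩ := exists_stage hK (hek 0) hx hy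
  choose next N hnext using fun (k : ℕ) (s : Stage K x y (e / 2 ^ k)) =>
    s.exists_refines (ε' := e / 2 ^ (k + 1)) (hek (k + 1))
  let st : ∀ k : ℕ, Stage K x y (e / 2 ^ k) := fun k => Nat.rec s₀ (fun k s => next k s) k
  have hst0 : st 0 = s₀ := rfl
  have hst : ∀ k, (st k).Refines (st (k + 1)) (N k (st k)) := fun k => hnext k (st k)
  let g : ℕ → unitInterval → X := fun k t => (st k).z ⌊(t : ℝ) * (st k).M⌋₊
  have hfl : ∀ (k : ℕ) (t : unitInterval), ⌊(t : ℝ) * (st k).M⌋₊ ≤ (st k).M := by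
    intro k t
    apply Nat.floor_le_of_le
    have := t.2.2
    have h2 : (0 : ℝ) ≤ (st k).M := Nat.cast_nonneg _
    nlinarith
  have hg : ∀ (t : unitInterval) (k : ℕ), dist (g k t) (g (k + 1) t) ≤ (4 * e) / 2 / 2 ^ k := by
    intro t k
    have h1 := (hst k).dist_le (hek k).le (hek (k + 1)).le _ (hfl (k + 1) t)
    have h2 : ⌊(t : ℝ) * (st (k + 1)).M⌋₊ / (N k (st k)) = ⌊(t : ℝ) * (st k).M⌋₊ := by
      rw [← Nat.floor_div_natCast, (hst k).2.1]
      have h3 : ((N k (st k) : ℕ) : ℝ) ≠ 0 := by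
        have := (hst k).1
        positivity
      congr 1
      push_cast
      field_simp
    rw [h2, dist_comm] at h1
    refine h1.trans ?_
    have h4 : e / 2 ^ (k + 1) = e / 2 ^ k / 2 := by
      rw [pow_succ]; field_simp
    rw [h4]
    have h5 := hek k
    have h6 : 4 * e / 2 / 2 ^ k = 2 * (e / 2 ^ k) := by ring
    rw [h6]
    linarith
  have hlim : ∀ t, ∃ a, Tendsto (fun k => g k t) atTop (𝓝 a) := fun t =>
    cauchySeq_tendsto_of_complete (cauchySeq_of_le_geometric_two (hg t))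
  choose f hf using hlim
  have hfg : ∀ (t : unitInterval) (k : ℕ), dist (g k t) (f t) ≤ 4 * e / 2 ^ k := fun t k =>
    dist_le_of_le_geometric_two_of_tendsto (hg t) (hf t) k
  have hclose : ∀ (k : ℕ) (s t : unitInterval), (s : ℝ) ≤ t → ((t : ℝ) - s) * (st k).M < 1 →
      dist (g k s) (g k t) ≤ e / 2 ^ k := by
    intro k s t hst' h
    have h0 : (0 : ℝ) ≤ (s : ℝ) * (st k).M := mul_nonneg s.2.1 (Nat.cast_nonneg _)
    have h1 : ⌊(s : ℝ) * (st k).M⌋₊ ≤ ⌊(t : ℝ) * (st k).M⌋₊ := by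
      apply Nat.floor_le_floor
      exact mul_le_mul_of_nonneg_right hst' (Nat.cast_nonneg _)
    have h2 : ⌊(t : ℝ) * (st k).M⌋₊ < ⌊(s : ℝ) * (st k).M⌋₊ + 2 := by
      rw [Nat.floor_lt (mul_nonneg t.2.1 (Nat.cast_nonneg _))]
      have := Nat.lt_floor_add_one ((s : ℝ) * (st k).M)
      push_cast
      linarith
    rcases Nat.eq_or_lt_of_le h1 with h3 | h3
    · show dist ((st k).z _) ((st k).z _) ≤ _
      rw [h3, dist_self]
      exact (hek k).le
    · have h4 : ⌊(t : ℝ) * (st k).M⌋₊ = ⌊(s : ℝ) * (st k).M⌋₊ + 1 := by omega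
      have h5 : ⌊(s : ℝ) * (st k).M⌋₊ < (st k).M := by have := hfl k t; omega
      show dist ((st k).z _) ((st k).z _) ≤ _
      rw [h4]
      exact (st k).diam _ h5 _ ((st k).left _ h5) _ ((st k).right _ h5)
  have hcont : Continuous f := by
    rw [Metric.continuous_iff]
    intro t ε hε
    obtain ⟨k, hk⟩ := exists_div_pow_lt (9 * e) hε
    have hM : (0 : ℝ) < (st k).M := by exact_mod_cast (st k).pos
    refine ⟨1 / (st k).M, by positivity, ?_⟩
    intro s hs
    have hs' : |(s : ℝ) - t| < 1 / (st k).M := by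
      rw [Subtype.dist_eq, Real.dist_eq] at hs
      exact hs
    have h1 : dist (g k s) (g k t) ≤ e / 2 ^ k := by
      rcases le_total (s : ℝ) t with h | h
      · apply hclose k s t h
        rw [abs_sub_comm, abs_of_nonneg (by linarith), lt_div_iff₀ hM] at hs'
        exact hs'
      · rw [dist_comm]
        apply hclose k t s h
        rw [abs_of_nonneg (by linarith), lt_div_iff₀ hM] at hs'
        exact hs'
    have h2 := hfg s k
    have h3 := hfg t k
    calc dist (f s) (f t) ≤ dist (f s) (g k s) + dist (g k s) (g k t) + dist (g k t) (f t) :=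
          dist_triangle4 _ _ _ _
      _ ≤ 4 * e / 2 ^ k + e / 2 ^ k + 4 * e / 2 ^ k := by
          rw [dist_comm (f s)]
          gcongr
      _ = 9 * e / 2 ^ k := by ring
      _ < ε := hk
  have hf0 : f 0 = x := by
    refine tendsto_nhds_unique (hf 0) ?_
    have : (fun k => g k 0) = fun _ => x := by
      funext k
      show (st k).z ⌊((0 : unitInterval) : ℝ) * (st k).M⌋₊ = x
      simp [(st k).z_zero]
    rw [this]
    exact tendsto_const_nhds
  have hf1 : f 1 = y := by
    refine tendsto_nhds_unique (hf 1) ?_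
    have : (fun k => g k 1) = fun _ => y := by
      funext k
      show (st k).z ⌊((1 : unitInterval) : ℝ) * (st k).M⌋₊ = y
      simp [(st k).z_last]
    rw [this]
    exact tendsto_const_nhds
  refine ⟨⟨⟨f, hcont⟩, hf0, hf1⟩, ?_, ?_⟩
  · intro p hp
    show p ∈ range f
    have hcl : IsClosed (range f) := (isCompact_range hcont).isClosed
    rw [← hcl.closure_eq, Metric.mem_closure_iff]
    intro ε hε
    obtain ⟨k, hk⟩ := exists_div_pow_lt (9 * e) hε
    obtain ⟨l, hl, hpl⟩ := (st k).cov p hp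
    have hM : (0 : ℝ) < (st k).M := by exact_mod_cast (st k).pos
    let t : unitInterval := ⟨(l : ℝ) / (st k).M, by positivity, by
      rw [div_le_one hM]
      exact_mod_cast hl.le⟩
    refine ⟨f t, ⟨t, rfl⟩, ?_⟩
    have h1 : g k t = (st k).z l := by
      show (st k).z ⌊(l : ℝ) / (st k).M * (st k).M⌋₊ = _
      rw [div_mul_cancel₀ _ hM.ne', Nat.floor_natCast]
    have h2 := hfg t k
    rw [h1] at h2
    have h3 := (st k).diam l hl p hpl _ ((st k).left l hl)
    have h5 := hek k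
    calc dist p (f t) ≤ dist p ((st k).z l) + dist ((st k).z l) (f t) := dist_triangle _ _ _
      _ ≤ e / 2 ^ k + 4 * e / 2 ^ k := add_le_add h3 h2
      _ ≤ 9 * e / 2 ^ k := by
        have : 9 * e / 2 ^ k = e / 2 ^ k + 4 * e / 2 ^ k + 4 * (e / 2 ^ k) := by ring
        rw [this]
        linarith
      _ < ε := hk
  · intro t
    have h2 := hfg t 0
    have h6 : ∃ p ∈ K, dist (g 0 t) p ≤ e := by
      rcases Nat.lt_or_ge ⌊(t : ℝ) * (st 0).M⌋₊ (st 0).M with h | h
      · obtain ⟨p, hp, hpK⟩ := hs₀ _ h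
        refine ⟨p, hpK, ?_⟩
        have h8 := s₀.diam _ h _ (s₀.left _ h) p hp
        have e0 : e / 2 ^ 0 = e := by simp
        exact h8.trans e0.le
      · refine ⟨y, hy, ?_⟩
        have h7 : ⌊(t : ℝ) * (st 0).M⌋₊ = (st 0).M := le_antisymm (hfl 0 t) h
        show dist ((st 0).z _) y ≤ e
        rw [h7, (st 0).z_last, dist_self]
        exact hepos.le
    obtain ⟨p, hpK, hp⟩ := h6
    refine ⟨p, hpK, ?_⟩
    rw [pow_zero, div_one] at h2
    show dist (f t) p ≤ η
    calc dist (f t) p ≤ dist (f t) (g 0 t) + dist (g 0 t) p := dist_triangle _ _ _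
      _ ≤ 4 * e + e := by rw [dist_comm (f t)]; exact add_le_add h2 hp
      _ = η := by rw [he]; ring

/-- **Hahn, Mazurkiewicz**: a Peano continuum is a continuous image of the unit interval. -/
theorem exists_surjective [ConnectedSpace X] (x y : X) : ∃ f : Path x y, Function.Surjective f := by
  obtain ⟨f, hf, _⟩ := exists_path_cover (isPreconnected_univ (α := X)) (mem_univ x) (mem_univ y)
    one_pos
  exact ⟨f, fun p => hf (mem_univ p)⟩

/-- Compact, locally connected metric spaces are locally path-connected. -/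
theorem locallyPathConnectedSpace : LocallyPathConnectedSpace X := by
  rw [locallyPathConnectedSpace_iff_pathComponentIn_mem_nhds]
  intro x u hu hx
  obtain ⟨ε, hε, hball⟩ := Metric.isOpen_iff.1 hu x hx
  obtain ⟨U, hUo, hUc, hxU, hUd⟩ := exists_nbhd x (show 0 < ε / 4 by positivity)
  refine mem_of_superset (hUo.mem_nhds hxU) ?_
  intro y hy
  obtain ⟨f, _, hf⟩ := exists_path_cover hUc hxU hy (show 0 < ε / 4 by positivity)
  refine ⟨f, fun t => hball ?_⟩
  obtain ⟨p, hp, hpt⟩ := hf t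
  rw [Metric.mem_ball]
  calc dist (f t) x ≤ dist (f t) p + dist p x := dist_triangle _ _ _
    _ ≤ ε / 4 + ε / 4 := add_le_add hpt (hUd p hp x hxU)
    _ < ε := by linarith

end TopIFS.HM

namespace TopIFS

/-- Every Peano continuum is a continuous image of the unit interval. -/
theorem exists_surjective_path (X : Type*) [MetricSpace X] [CompactSpace X] [ConnectedSpace X]
    [LocallyConnectedSpace X] : ∃ γ : C(I, X), Function.Surjective γ := by
  obtain ⟨x⟩ := (inferInstance : Nonempty X)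
  obtain ⟨f, hf⟩ := HM.exists_surjective x x
  exact ⟨f.toContinuousMap, hf⟩

/-- Every Peano continuum is locally path-connected. -/
theorem locallyPathConnectedSpace_of_peano (X : Type*) [MetricSpace X] [CompactSpace X]
    [ConnectedSpace X] [LocallyConnectedSpace X] : LocallyPathConnectedSpace X :=
  HM.locallyPathConnectedSpace

end TopIFS
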