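import Pool.Agent.Lib.H41.IFS.Defs

/-!
# Tame approximation along a skeleton
-/

namespace TopIFS

open Set Filter Topology
open scoped ENNReal unitInterval NNReal

theorem isClosed_G_list {X : Type*} [TopologicalSpace X] [T2Space X] (L : List C(I, X)) :
    IsClosed (G L) := by
  have h : G L = ⋃ α ∈ {α | α ∈ L}, range α := by
    ext x
    simp [G]
  rw [h]
  exact (List.finite_toSet L).isClosed_biUnion fun α _ => (isCompact_range α.continuous).isClosed

/-- Lipschitz approximation on the unit interval, exact at the endpoints. -/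
theorem exists_lip_approx (f : C(I, ℝ)) (m : ℝ) (hm : 0 < m) :
    ∃ (g : C(I, ℝ)) (C : ℝ≥0), LipschitzWith C g ∧ (∀ s, |g s - f s| ≤ m) ∧
      g 0 = f 0 ∧ g 1 = f 1 := by
  obtain ⟨p, hp⟩ := exists_polynomial_near_continuousMap 0 1 f (m / 3) (by positivity)
  have hp' : ∀ s : I, |p.eval (s : ℝ) - f s| ≤ m / 3 := fun s =>
    (ContinuousMap.norm_coe_le_norm (p.toContinuousMapOn _ - f) s).trans hp.le
  let q : ℝ → ℝ := fun x => p.eval x + (f 0 - p.eval 0) * (1 - x) + (f 1 - p.eval 1) * x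
  have hq : ContDiff ℝ 1 q := by
    have h1 : ContDiff ℝ 1 fun x : ℝ => p.eval x := by
      simpa using! p.contDiff_aeval (𝕜 := ℝ) 1
    fun_prop
  obtain ⟨C, hC⟩ := LocallyLipschitzOn.exists_lipschitzOnWith_of_compact
    (isCompact_Icc (a := (0 : ℝ)) (b := 1)) hq.locallyLipschitz.locallyLipschitzOn
  refine ⟨⟨fun s : I => q s, hq.continuous.comp continuous_subtype_val⟩, C, hC.to_restrict, ?_,
    ?_, ?_⟩
  · intro s
    show |q s - f s| ≤ m
    have h0 := hp' 0
    have h1 := hp' 1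
    have hs := hp' s
    have hs0 := s.2.1
    have hs1 := s.2.2
    have e0 : ((0 : I) : ℝ) = 0 := rfl
    have e1 : ((1 : I) : ℝ) = 1 := rfl
    rw [e0, abs_le] at h0
    rw [e1, abs_le] at h1
    rw [abs_le] at hs ⊢
    simp only [q]
    constructor
    · nlinarith [mul_nonneg hs0 (sub_nonneg.2 hs1)]
    · nlinarith [mul_nonneg hs0 (sub_nonneg.2 hs1)]
  · show q ((0 : I) : ℝ) = f 0
    simp [q]
  · show q ((1 : I) : ℝ) = f 1
    simp [q]

/-- Taming one arc. -/
theorem tame_one {X : Type*} [MetricSpace X] (φ e : C(X, ℝ)) (he : ∀ x, 0 ≤ e x)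
    (A : Set X) (hA : IsClosed A) (α : C(I, X)) (hα : Function.Injective α)
    (hαA : ∀ s, α s ∈ A → s = 0 ∨ s = 1) (hpos : ∀ s, 0 < e (α s)) :
    ∃ φ' : C(X, ℝ), (∀ x, |φ' x - φ x| ≤ e x) ∧ (∀ x ∈ A, φ' x = φ x) ∧
      ∃ C : ℝ≥0, LipschitzWith C (fun s => φ' (α s)) := by
  classical
  obtain ⟨m, hm, hme⟩ : ∃ m, 0 < m ∧ ∀ s, m ≤ e (α s) := by
    obtain ⟨s0, -, hs0⟩ := isCompact_univ.exists_isMinOn (s := (univ : Set I)) univ_nonempty
      ((e.comp α).continuous.continuousOn)
    exact ⟨e (α s0), hpos s0, fun s => hs0 (mem_univ s)⟩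
  obtain ⟨g, C, hgC, hgf, hg0, hg1⟩ := exists_lip_approx (φ.comp α) m hm
  have hce : IsClosedEmbedding α := α.continuous.isClosedEmbedding hα
  obtain ⟨K, hK⟩ := (g - φ.comp α).exists_extension' hce
  have hK' : ∀ s, K (α s) = g s - φ (α s) := fun s => congrFun hK s
  have hzero : ∀ s, α s ∈ A → g s - φ (α s) = 0 := by
    intro s h
    rcases hαA s h with rfl | rfl
    · rw [hg0]; simp
    · rw [hg1]; simp
  have hS : IsClosed (A ∪ range α) := hA.union hce.isClosed_range
  let F : X → ℝ := fun x => if x ∈ A then 0 else K x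
  have hFα : ∀ s, F (α s) = g s - φ (α s) := by
    intro s
    show (if α s ∈ A then 0 else K (α s)) = _
    split_ifs with h
    · exact (hzero s h).symm
    · exact hK' s
  have hF : ContinuousOn F (A ∪ range α) := by
    rw [continuousOn_union_iff_of_isClosed hA hce.isClosed_range]
    constructor
    · exact (continuousOn_const (c := (0 : ℝ))).congr fun x hx => if_pos hx
    · refine K.continuous.continuousOn.congr ?_
      rintro x ⟨s, rfl⟩
      rw [hFα, hK']
  obtain ⟨h, hh⟩ := ContinuousMap.exists_restrict_eq hS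
    (⟨(A ∪ range α).domRestrict F, continuousOn_iff_continuous_domRestrict.1 hF⟩ :
      C((A ∪ range α : Set X), ℝ))
  have hh' : ∀ x ∈ A ∪ range α, h x = F x := fun x hx =>
    congrArg (fun k : C((A ∪ range α : Set X), ℝ) => k ⟨x, hx⟩) hh
  refine ⟨⟨fun x => φ x + max (-(e x)) (min (e x) (h x)), by fun_prop⟩, ?_, ?_, C, ?_⟩
  · intro x
    show |φ x + max (-(e x)) (min (e x) (h x)) - φ x| ≤ e x
    rw [add_sub_cancel_left, abs_le]
    exact ⟨le_max_left _ _, max_le (by linarith [he x]) (min_le_left _ _)⟩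
  · intro x hx
    show φ x + max (-(e x)) (min (e x) (h x)) = φ x
    rw [hh' x (Or.inl hx)]
    show φ x + max (-(e x)) (min (e x) (if x ∈ A then 0 else K x)) = φ x
    rw [if_pos hx, min_eq_right (he x), max_eq_right (by linarith [he x]), add_zero]
  · have : (fun s => φ (α s) + max (-(e (α s))) (min (e (α s)) (h (α s)))) = g := by
      funext s
      rw [hh' _ (Or.inr ⟨s, rfl⟩), hFα]
      have h1 := hgf s
      rw [ContinuousMap.comp_apply, abs_le] at h1
      have h2 := hme s
      rw [min_eq_right (by linarith), max_eq_right (by linarith)]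
      ring
    show LipschitzWith C (fun s => φ (α s) + max (-(e (α s))) (min (e (α s)) (h (α s))))
    rw [this]
    exact hgC

/-- Taming a finite list of arcs. -/
theorem tame_list {X : Type*} [MetricSpace X] (L : List C(I, X)) :
    ∀ (M : List C(I, X)) (φ e : C(X, ℝ)), Good (M ++ L) → (∀ x, 0 ≤ e x) →
      (∀ α ∈ M, ∀ s, 0 < e (α s)) →
    ∃ φ' : C(X, ℝ), (∀ x, |φ' x - φ x| ≤ e x) ∧ (∀ x ∈ G L, φ' x = φ x) ∧
      ∀ α ∈ M, ∃ C : ℝ≥0, LipschitzWith C (fun s => φ' (α s))
  | [], φ, e, _, he, _ => ⟨φ, by simpa using he, by simp, by simp⟩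
  | α :: M, φ, e, hG, he, hpos => by
    obtain ⟨hG1, hα, hαG⟩ := hG
    have hhalf : ∀ x, ((1 / 2 : ℝ) • e) x = e x / 2 := fun x => by
      simp only [ContinuousMap.smul_apply, smul_eq_mul]; ring
    have hnn : ∀ x, 0 ≤ ((1 / 2 : ℝ) • e) x := fun x => by
      rw [hhalf]; linarith [he x]
    obtain ⟨φ1, h1, h2, h3⟩ := tame_list L M φ ((1 / 2 : ℝ) • e) hG1 hnn
      (fun β hβ s => by rw [hhalf]; linarith [hpos β (List.mem_cons_of_mem _ hβ) s])
    obtain ⟨φ2, k1, k2, C, hC⟩ := tame_one φ1 ((1 / 2 : ℝ) • e) hnn (G (M ++ L))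
      (isClosed_G_list _) α hα hαG
      (fun s => by rw [hhalf]; linarith [hpos α List.mem_cons_self s])
    refine ⟨φ2, fun x => ?_, fun x hx => ?_, fun β hβ => ?_⟩
    · have e1 := h1 x
      have e2 := k1 x
      rw [hhalf] at e1 e2
      have e3 := abs_sub_le (φ2 x) (φ1 x) (φ x)
      linarith
    · rw [k2 x, h2 x hx]
      obtain ⟨β, hβ, hx⟩ := hx
      exact ⟨β, List.mem_append_right _ hβ, hx⟩
    · rcases List.mem_cons.1 hβ with rfl | hβ
      · exact ⟨C, hC⟩
      · obtain ⟨C', hC'⟩ := h3 β hβ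
        refine ⟨C', ?_⟩
        have : (fun s => φ2 (β s)) = fun s => φ1 (β s) := by
          funext s
          exact k2 _ ⟨β, List.mem_append_left _ hβ, s, rfl⟩
        rw [this]
        exact hC'

theorem not_mem_of_good {X : Type*} [TopologicalSpace X] (L : List C(I, X)) :
    ∀ M : List C(I, X), Good (M ++ L) → ∀ α ∈ M, α ∉ L
  | [], _, α, hα => by simp at hα
  | β :: M, hG, α, hα => by
    rcases List.mem_cons.1 hα with rfl | hα
    · intro hL
      obtain ⟨-, -, h⟩ := hG
      have h1 := h ⟨1 / 2, by norm_num, by norm_num⟩ ⟨α, List.mem_append_right _ hL, _, rfl⟩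
      rcases h1 with h1 | h1
      · have := congrArg Subtype.val h1
        norm_num at this
      · have := congrArg Subtype.val h1
        norm_num at this
    · exact not_mem_of_good L M hG.1 α hα

/-- Every continuous function `ψ` can be approximated within `e` by a continuous function which
agrees with `ψ` on the arcs of `L 0` and is Lipschitz along all the other arcs. -/
theorem exists_tame {X : Type*} [MetricSpace X] [CompactSpace X] (L : ℕ → List C(I, X))
    (hG : ∀ n, Good (L n)) (hL : ∀ n, ∃ M, L (n + 1) = M ++ L n) (ψ e : C(X, ℝ))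
    (he : ∀ x, 0 ≤ e x) (hpos : ∀ n, ∀ α ∈ L n, α ∉ L 0 → ∀ s, 0 < e (α s)) :
    ∃ φ : C(X, ℝ), (∀ x, |φ x - ψ x| ≤ e x) ∧ (∀ x ∈ G (L 0), φ x = ψ x) ∧
      ∀ n, ∀ α ∈ L n, α ∉ L 0 → ∃ C : ℝ≥0, LipschitzWith C (fun s => φ (α s)) := by
  choose M hM using hL
  have hsub : ∀ n m, n ≤ m → ∀ α ∈ L n, α ∈ L m := by
    intro n m hnm
    induction hnm with
    | refl => exact fun α hα => hα
    | step _ ih => intro α hα; rw [Nat.succ_eq_add_one, hM]; exact List.mem_append_right _ (ih α hα)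
  have hMG : ∀ n, Good (M n ++ L n) := fun n => hM n ▸ hG (n + 1)
  have hM0 : ∀ n, ∀ α ∈ M n, α ∉ L 0 := fun n α hα h0 =>
    not_mem_of_good (L n) (M n) (hMG n) α hα (hsub 0 n (Nat.zero_le n) α h0)
  have hsm : ∀ (n : ℕ) (x : X), ((1 / 2 ^ (n + 1) : ℝ) • e) x = e x / 2 ^ (n + 1) := fun n x => by
    simp only [ContinuousMap.smul_apply, smul_eq_mul]; ring
  have hstep : ∀ (n : ℕ) (φ : C(X, ℝ)), ∃ φ' : C(X, ℝ),
      (∀ x, |φ' x - φ x| ≤ e x / 2 ^ (n + 1)) ∧ (∀ x ∈ G (L n), φ' x = φ x) ∧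
      ∀ α ∈ M n, ∃ C : ℝ≥0, LipschitzWith C (fun s => φ' (α s)) := by
    intro n φ
    obtain ⟨φ', h1, h2, h3⟩ := tame_list (L n) (M n) φ ((1 / 2 ^ (n + 1) : ℝ) • e) (hMG n)
      (fun x => by rw [hsm]; have := he x; positivity)
      (fun α hα s => by
        rw [hsm]
        have := hpos (n + 1) α (by rw [hM]; exact List.mem_append_left _ hα) (hM0 n α hα) s
        positivity)
    exact ⟨φ', fun x => by rw [← hsm]; exact h1 x, h2, h3⟩
  choose F hF1 hF2 hF3 using hstep
  let f : ℕ → C(X, ℝ) := fun n => Nat.rec ψ (fun n φ => F n φ) n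
  have hf0 : f 0 = ψ := rfl
  have hfs : ∀ n, f (n + 1) = F n (f n) := fun n => rfl
  have hcauchy : CauchySeq f := by
    refine cauchySeq_of_le_geometric_two (C := ‖e‖) fun n => ?_
    rw [ContinuousMap.dist_le (by positivity)]
    intro x
    rw [dist_comm, Real.dist_eq, hfs]
    refine (hF1 n (f n) x).trans ?_
    rw [div_div, ← pow_succ']
    gcongr
    exact (le_abs_self _).trans (e.norm_coe_le_norm x)
  obtain ⟨φ, hφ⟩ := cauchySeq_tendsto_of_complete hcauchy
  have hφx : ∀ x, Tendsto (fun n => f n x) atTop (𝓝 (φ x)) := fun x =>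
    ((continuous_eval_const x).tendsto φ).comp hφ
  have hbound : ∀ n x, |f n x - ψ x| ≤ e x * (1 - 1 / 2 ^ n) := by
    intro n x
    induction n with
    | zero => simp [hf0]
    | succ n ih =>
      have h1 := hF1 n (f n) x
      rw [← hfs] at h1
      have h2 := abs_sub_le (f (n + 1) x) (f n x) (ψ x)
      have h3 : e x / 2 ^ (n + 1) + e x * (1 - 1 / 2 ^ n) = e x * (1 - 1 / 2 ^ (n + 1)) := by
        rw [pow_succ]; field_simp; ring
      linarith
  have hconst : ∀ n m, n ≤ m → ∀ x ∈ G (L n), f m x = f n x := by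
    intro n m hnm x hx
    induction hnm with
    | refl => rfl
    | step h ih =>
      rename_i m
      rw [Nat.succ_eq_add_one, hfs, hF2 m (f m) x, ih]
      obtain ⟨α, hα, hx⟩ := hx
      exact ⟨α, hsub n m h α hα, hx⟩
  have hlim : ∀ n, ∀ x ∈ G (L n), φ x = f n x := fun n x hx =>
    tendsto_nhds_unique (hφx x) (tendsto_const_nhds.congr' (by
      filter_upwards [eventually_ge_atTop n] with m hm
      exact (hconst n m hm x hx).symm))
  refine ⟨φ, fun x => ?_, fun x hx => ?_, fun n => ?_⟩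
  · refine le_of_tendsto (((hφx x).sub_const (ψ x)).abs) (Eventually.of_forall fun n => ?_)
    refine (hbound n x).trans ?_
    have h1 : (0 : ℝ) ≤ 1 / 2 ^ n := by positivity
    nlinarith [he x]
  · rw [hlim 0 x hx, hf0]
  · induction n with
    | zero => exact fun α hα h0 => absurd hα h0
    | succ n ih =>
      intro α hα h0
      rw [hM] at hα
      rcases List.mem_append.1 hα with hα | hα
      · obtain ⟨C, hC⟩ := hF3 n (f n) α hα
        refine ⟨C, ?_⟩
        have : (fun s => φ (α s)) = fun s => F n (f n) (α s) := by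
          funext s
          rw [← hfs]
          exact hlim (n + 1) _ ⟨α, by rw [hM]; exact List.mem_append_left _ hα, s, rfl⟩
        rw [this]
        exact hC
      · exact ih α hα h0

end TopIFS
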