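import Pool.Agent.Lib.H41.IFS.Skel
import Pool.Agent.Lib.H41.IFS.Tame
import Pool.Agent.Lib.H41.IFS.GeoLemmasB
import Pool.Agent.Lib.H41.IFS.HahnMaz

/-!
# The root level of the geometric data
-/

namespace TopIFS

open Set Filter Topology
open scoped ENNReal unitInterval NNReal

/-- Root data. -/
structure Base (X : Type*) [MetricSpace X] where
  D : Set X
  hDc : D.Countable
  hDd : Dense D
  x0 : X
  hx0 : x0 ∉ D
  hcut : ∀ U : Set X, IsOpen U → IsPreconnected U → IsPreconnected (U \ {x0})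
  q : C(I, X)
  hq : Function.Injective q
  hq1 : q 1 = x0
  L : ℕ → List C(I, X)
  hL0 : L 0 = [q]
  hG : ∀ n, Good (L n)
  hLs : ∀ n, ∃ M, L (n + 1) = M ++ L n
  hLx : ∀ n, ∀ α ∈ L n, α ∉ L 0 → ∀ s, α s ≠ x0
  hconn : ∀ U : Set X, IsOpen U → IsPreconnected U → x0 ∉ U →
    ∀ y ∈ D ∩ U, ∀ y' ∈ D ∩ U, ∃ n, Conn (L n) U y y'
  s : ℕ → I
  hs : StrictMono s
  hs1 : Tendsto s atTop (𝓝 1)
  hsD : ∀ t, q (s t) ∈ D
  φ : C(X, ℝ)
  hφ0 : ∀ x, 0 ≤ φ x
  hφz : ∀ x, φ x = 0 ↔ x = x0
  hφs : ∀ t, φ (q (s t)) = 3 / 8 / 4 ^ t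
  hφa : Antitone fun a => φ (q a)
  hφ1 : 1 ≤ φ (q 0)
  hφq : ∀ a b : I, (∀ u ∈ uIcc a b, u ≠ 1) →
    ∃ C : ℝ≥0, LipschitzOnWith C (fun u => φ (q u)) (uIcc a b)
  hφL : ∀ n, ∀ α ∈ L n, α ∉ L 0 → ∃ C : ℝ≥0, LipschitzWith C (fun u => φ (α u))
  W : ℕ → Set X
  hWo : ∀ t, IsOpen (W t)
  hWc : ∀ t, IsPreconnected (W t)
  hW1 : ∀ t x, 1 / 4 ^ (t + 5) ≤ φ x → φ x ≤ 1 / (2 * 4 ^ (t + 3)) → x ∈ W t
  hW2 : ∀ t, ∀ x ∈ W t, 1 / 4 ^ (t + 8) ≤ φ x ∧ φ x ≤ 1 / (2 * 4 ^ (t + 1))

theorem Good.injective {X : Type*} [TopologicalSpace X] {L : List C(I, X)} (h : Good L) :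
    ∀ α ∈ L, Function.Injective α := by
  induction L with
  | nil => intro α hα; simp at hα
  | cons β L ih =>
    intro α hα
    rcases List.mem_cons.1 hα with rfl | hα
    · exact h.2.1
    · exact ih h.1 α hα

section
variable (X : Type*) [MetricSpace X] [CompactSpace X] [ConnectedSpace X]
    [LocallyConnectedSpace X] [Nontrivial X]

/-- Arcs ending at a given point. -/
theorem exists_arc_to (x : X) : ∃ q : C(I, X), Function.Injective q ∧ q 1 = x := by
  haveI := locallyPathConnectedSpace_of_peano X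
  haveI : PathConnectedSpace X := pathConnectedSpace_iff_connectedSpace.2 inferInstance
  obtain ⟨a, ha⟩ := exists_ne x
  obtain ⟨γ⟩ := PathConnectedSpace.joined a x
  obtain ⟨q, h1, h2, h3, h4⟩ := exists_injective_arc (γ : C(I, X)) (by simpa using ha)
  exact ⟨q, h1, by simpa using h3⟩

/-- A point which is not a local cut point, off a countable dense set. -/
theorem exists_noncut (hX : NFA X) : ∃ (D : Set X) (x0 : X), D.Countable ∧ Dense D ∧ x0 ∉ D ∧
    ∀ U : Set X, IsOpen U → IsPreconnected U → IsPreconnected (U \ {x0}) := by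
  haveI := locallyPathConnectedSpace_of_peano X
  obtain ⟨D, hDc, hDd⟩ := TopologicalSpace.exists_countable_dense X
  obtain ⟨a⟩ := (inferInstance : Nonempty X)
  obtain ⟨q, hq, -⟩ := exists_arc_to X a
  obtain ⟨L, hL0, hG, hL, hconn⟩ := exists_skeleton q hq ∅ isClosed_empty
    (by simpa using isPreconnected_univ) (by simp) D hDc hDd (by simp)
  obtain ⟨x0, -, hx0, hxL⟩ := exists_off hX L (fun n => (hG n).injective) D hDc univ isOpen_univ
    univ_nonempty
  refine ⟨D, x0, hDc, hDd, hx0, fun U hU hUc => ?_⟩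
  refine preconn_diff L D U {x0} hDd hU (fun y hy y' hy' => hconn U hU hUc (by simp) y hy y' hy')
    (fun n => by simpa using hxL n) (by simpa using hx0)

/-- A function vanishing only at the end of the arc, affine along the arc. -/
theorem exists_affine (q : C(I, X)) (hq : Function.Injective q) :
    ∃ D₀ : C(X, ℝ), (∀ x, 0 ≤ D₀ x) ∧ (∀ x, D₀ x = 0 ↔ x = q 1) ∧ ∀ s : I, D₀ (q s) = 1 - s := by
  have hemb : IsClosedEmbedding q := q.continuous.isClosedEmbedding hq
  let f : C(I, ℝ) := ⟨fun s => 1 - (s : ℝ), by fun_prop⟩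
  obtain ⟨g, hg1, hg2⟩ := ContinuousMap.exists_extension_forall_mem_of_isClosedEmbedding f
    (t := Icc 0 1) (fun s => ⟨sub_nonneg.2 s.2.2, by
      change 1 - (s : ℝ) ≤ 1
      linarith [s.2.1]⟩) (nonempty_Icc.2 zero_le_one) hemb
  have hne : (range q).Nonempty := range_nonempty _
  have hcl : IsClosed (range q) := hemb.isClosed_range
  refine ⟨⟨fun x => g x + Metric.infDist x (range q), by
    exact g.continuous.add (Metric.continuous_infDist_pt _)⟩, ?_, ?_, ?_⟩
  · intro x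
    exact add_nonneg (hg1 x).1 Metric.infDist_nonneg
  · intro x
    have hgq : ∀ s, g (q s) = 1 - s := fun s => congrFun hg2 s
    constructor
    · intro h
      change g x + Metric.infDist x (range q) = 0 at h
      have h1 : Metric.infDist x (range q) = 0 := by
        have := (hg1 x).1
        have := Metric.infDist_nonneg (x := x) (s := range q)
        linarith
      have h2 : x ∈ range q := (hcl.mem_iff_infDist_zero hne).2 h1
      obtain ⟨s, rfl⟩ := h2
      rw [hgq, h1] at h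
      have : (s : ℝ) = 1 := by linarith
      congr 1
      exact Subtype.ext this
    · rintro rfl
      change g (q 1) + Metric.infDist (q 1) (range q) = 0
      rw [hgq, Metric.infDist_zero_of_mem (mem_range_self _)]
      simp
  · intro s
    have hgq : g (q s) = 1 - s := congrFun hg2 s
    change g (q s) + Metric.infDist (q s) (range q) = 1 - s
    rw [hgq, Metric.infDist_zero_of_mem (mem_range_self _)]
    simp

theorem exists_base (hX : NFA X) : Nonempty (Base X) := by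
  haveI := locallyPathConnectedSpace_of_peano X
  obtain ⟨D', x0, hDc', hDd', hx0', hcut⟩ := exists_noncut X hX
  obtain ⟨q, hq, hq1⟩ := exists_arc_to X x0
  obtain ⟨D₀, hD0, hDz, hDq⟩ := exists_affine X q hq
  rw [hq1] at hDz
  obtain ⟨ρ, hρ, hρpos, hρ1, hρlim, W, hW⟩ := exists_levels D₀ x0 hD0 hDz hcut
  obtain ⟨κ, hκc, hκm, hκ0, hκpos, hκρ, hκ1, hκL⟩ := exists_kappa ρ hρ hρpos hρlim
  have hκle : ∀ r, κ r ≤ 1 := fun r =>
    (hκm (le_max_left r (ρ 0))).trans (hκ1 _ (le_max_right _ _)).le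
  -- the points on the arc
  have hr : ∀ t : ℕ, ∃ r : ℝ, 0 < r ∧ r < ρ t ∧ κ r = 3 / 8 / 4 ^ t := by
    intro t
    have h4 : (0 : ℝ) < 4 ^ t := by positivity
    have h1 : (3 : ℝ) / 8 / 4 ^ t ∈ Icc (κ 0) (κ (ρ t)) := by
      rw [hκ0, hκρ]
      constructor
      · positivity
      · rw [one_div, inv_pow, div_le_iff₀ h4]
        rw [inv_mul_cancel₀ h4.ne']
        norm_num
    obtain ⟨r, hr, hr'⟩ := intermediate_value_Icc (hρpos t).le hκc.continuousOn h1
    refine ⟨r, lt_of_le_of_ne hr.1 ?_, lt_of_le_of_ne hr.2 ?_, hr'⟩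
    · rintro rfl
      rw [hκ0] at hr'
      have : (0 : ℝ) < 3 / 8 / 4 ^ t := by positivity
      linarith
    · rintro rfl
      rw [hκρ, one_div, inv_pow, inv_eq_one_div, div_eq_div_iff h4.ne' h4.ne'] at hr'
      have := mul_right_cancel₀ h4.ne' hr'
      norm_num at this
  choose r hr0 hrρ hrκ using hr
  have hr1 : ∀ t, r t < 1 := fun t => (hrρ t).trans_le
    ((hρ.antitone (Nat.zero_le t)).trans hρ1.le)
  let s : ℕ → I := fun t => ⟨1 - r t, by linarith [hr1 t], by linarith [hr0 t]⟩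
  have hsr : ∀ t, (1 : ℝ) - s t = r t := fun t => by
    change 1 - (1 - r t) = r t; ring
  have hs : StrictMono s := by
    apply strictMono_nat_of_lt_succ
    intro t
    change 1 - r t < 1 - r (t + 1)
    have : r (t + 1) < r t := by
      by_contra hcon
      have h2 := hκm (not_lt.1 hcon)
      rw [hrκ, hrκ, pow_succ] at h2
      have h4 : (0 : ℝ) < 4 ^ t := by positivity
      rw [div_le_div_iff₀ h4 (by positivity)] at h2
      nlinarith
    linarith
  have hs1 : Tendsto s atTop (𝓝 1) := by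
    rw [tendsto_subtype_rng]
    have h1 : Tendsto r atTop (𝓝 0) :=
      tendsto_of_tendsto_of_tendsto_of_le_of_le tendsto_const_nhds hρlim
        (fun t => (hr0 t).le) (fun t => (hrρ t).le)
    have h2 := (tendsto_const_nhds (x := (1 : ℝ))).sub h1
    simpa using h2
  have hsne : ∀ t, s t ≠ 1 := fun t h => by
    have := hsr t
    rw [h] at this
    have h2 := hr0 t
    simp at this
    linarith
  -- the dense set and the second skeleton
  let D : Set X := D' ∪ range fun t => q (s t)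
  have hDc : D.Countable := hDc'.union (countable_range _)
  have hDd : Dense D := hDd'.mono subset_union_left
  have hx0 : x0 ∉ D := by
    rintro (h | ⟨t, ht⟩)
    · exact hx0' h
    · change q (s t) = x0 at ht
      rw [← hq1] at ht
      exact hsne t (hq ht)
  have hq0 : q 0 ≠ x0 := by
    rw [← hq1]
    exact fun h => zero_ne_one (hq h)
  obtain ⟨L, hL0, hG, hL, hconn⟩ := exists_skeleton q hq {x0} isClosed_singleton
    (by
      have := hcut univ isOpen_univ isPreconnected_univ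
      rwa [← compl_eq_univ_diff] at this)
    (by simpa using hq0) D hDc hDd (by simpa using hx0)
  have hLx : ∀ n, ∀ α ∈ L n, α ∉ L 0 → ∀ s, α s ≠ x0 := by
    intro n
    induction n with
    | zero => intro α h1 h2; exact absurd h1 h2
    | succ n ih =>
      obtain ⟨M, hM, hM2⟩ := hL n
      intro α h1 h2
      rw [hM, List.mem_append] at h1
      rcases h1 with h1 | h1
      · intro s hs
        have := hM2 α h1
        rw [disjoint_singleton_right] at this
        exact this ⟨s, hs⟩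
      · exact ih α h1 h2
  -- tame root function
  let D₁ : C(X, ℝ) := ⟨fun x => κ (D₀ x), hκc.comp D₀.continuous⟩
  have hD1pos : ∀ x, x ≠ x0 → 0 < D₁ x := fun x hx =>
    hκpos _ (lt_of_le_of_ne (hD0 x) (fun h => hx ((hDz x).1 h.symm)))
  have hD1z : D₁ x0 = 0 := by
    change κ (D₀ x0) = 0
    rw [(hDz x0).2 rfl, hκ0]
  have hD1nn : ∀ x, 0 ≤ D₁ x := fun x => by
    by_cases h : x = x0
    · rw [h, hD1z]
    · exact (hD1pos x h).le
  let e : C(X, ℝ) := ⟨fun x => D₁ x / 4, by fun_prop⟩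
  obtain ⟨φ, hφ1, hφ2, hφ3⟩ := exists_tame L hG (fun n => (hL n).imp fun M h => h.1) D₁ e
    (fun x => div_nonneg (hD1nn x) (by norm_num))
    (fun n α h1 h2 s => div_pos (hD1pos _ (hLx n α h1 h2 s)) (by norm_num))
  have hφb : ∀ x, 3 / 4 * D₁ x ≤ φ x ∧ φ x ≤ 5 / 4 * D₁ x := fun x => by
    have h := abs_le.1 (hφ1 x)
    change -(D₁ x / 4) ≤ φ x - D₁ x ∧ φ x - D₁ x ≤ D₁ x / 4 at h
    constructor <;> linarith [h.1, h.2]
  have hφq : ∀ a : I, φ (q a) = κ (1 - a) := fun a => by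
    rw [hφ2 (q a) ⟨q, by rw [hL0]; simp, mem_range_self a⟩]
    change κ (D₀ (q a)) = _
    rw [hDq]
  have hpow : ∀ n : ℕ, ((1 : ℝ) / 4) ^ n = 1 / 4 ^ n := fun n => by rw [one_div_pow]
  refine ⟨{
    D := D, hDc := hDc, hDd := hDd, x0 := x0, hx0 := hx0, hcut := hcut, q := q, hq := hq
    hq1 := hq1, L := L, hL0 := hL0, hG := hG, hLs := fun n => (hL n).imp fun M h => h.1
    hLx := hLx
    hconn := fun U h1 h2 h3 => hconn U h1 h2 (by simpa using h3)
    s := s, hs := hs, hs1 := hs1, hsD := fun t => Or.inr ⟨t, rfl⟩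
    φ := φ
    hφ0 := fun x => le_trans (mul_nonneg (by norm_num) (hD1nn x)) (hφb x).1
    hφz := ?_
    hφs := fun t => by rw [hφq, hsr, hrκ]
    hφa := fun a b hab => by
      change φ (q b) ≤ φ (q a)
      rw [hφq, hφq]
      exact hκm (by
        have : (a : ℝ) ≤ b := hab
        linarith)
    hφ1 := by rw [hφq]; simp only [Icc.coe_zero, sub_zero]; exact (hκ1 1 hρ1.le).ge
    hφq := ?_
    hφL := hφ3
    W := fun t => W (t + 2)
    hWo := fun t => (hW (t + 2)).1
    hWc := fun t => (hW (t + 2)).2.1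
    hW1 := ?_
    hW2 := ?_ }⟩
  · intro x
    constructor
    · intro h
      by_contra hne
      have := (hφb x).1
      have := hD1pos x hne
      linarith
    · rintro rfl
      have := hφb x
      rw [hD1z] at this
      linarith [this.1, this.2]
  · intro a b hab
    -- the maximum of `uIcc a b` is less than 1
    have hm : (max a b : I) ≠ 1 := hab _ ⟨by simp, le_rfl⟩
    have hm' : ((max a b : I) : ℝ) < 1 := lt_of_le_of_ne (max a b).2.2
      (fun h => hm (Subtype.ext h))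
    obtain ⟨C, hC⟩ := hκL (1 - (max a b : I)) (by linarith)
    refine ⟨C, ?_⟩
    rw [lipschitzOnWith_iff_dist_le_mul] at hC ⊢
    intro u hu v hv
    simp only [hφq]
    have hu' : (u : ℝ) ≤ (max a b : I) := hu.2
    have hv' : (v : ℝ) ≤ (max a b : I) := hv.2
    have := hC (1 - u) (by rw [mem_Ici]; linarith) (1 - v) (by rw [mem_Ici]; linarith)
    refine this.trans (le_of_eq ?_)
    congr 1
    rw [Real.dist_eq, Subtype.dist_eq, Real.dist_eq, ← abs_neg]
    congr 1
    ring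
  · intro t x h1 h2
    apply (hW (t + 2)).2.2.1
    have h3 := hφb x
    have h4 : (0 : ℝ) < 4 ^ t := by positivity
    have e1 : (1 : ℝ) / 4 ^ (t + 5) = 4 * (1 / 4 ^ (t + 6)) := by
      rw [pow_succ (4 : ℝ) (t + 5)]; field_simp
    have e2 : (1 : ℝ) / (2 * 4 ^ (t + 3)) = 1 / 2 * (1 / 4 ^ (t + 3)) := by
      field_simp
    have p1 : (0 : ℝ) < 1 / 4 ^ (t + 6) := by positivity
    have p2 : (0 : ℝ) < 1 / 4 ^ (t + 3) := by positivity
    constructor
    · by_contra hcon
      have h5 : κ (D₀ x) ≤ κ (ρ (t + 2 + 4)) := hκm (not_le.1 hcon).le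
      rw [hκρ, hpow] at h5
      have h6 : D₁ x ≤ 1 / 4 ^ (t + 6) := h5
      rw [e1] at h1
      linarith [h3.2]
    · by_contra hcon
      have h5 : κ (ρ (t + 2 + 1)) ≤ κ (D₀ x) := hκm (not_le.1 hcon).le
      rw [hκρ, hpow] at h5
      have h6 : 1 / 4 ^ (t + 3) ≤ D₁ x := h5
      rw [e2] at h2
      linarith [h3.1]
  · intro t x hx
    obtain ⟨h1, h2⟩ := (hW (t + 2)).2.2.2 hx
    have h3 := hφb x
    have h5 : κ (ρ (t + 2 + 5)) ≤ κ (D₀ x) := hκm h1.le
    have h6 : κ (D₀ x) ≤ κ (ρ (t + 2)) := hκm h2.le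
    rw [hκρ, hpow] at h5 h6
    have h5' : 1 / 4 ^ (t + 7) ≤ D₁ x := h5
    have h6' : D₁ x ≤ 1 / 4 ^ (t + 2) := h6
    have e1 : (1 : ℝ) / 4 ^ (t + 8) = 1 / 4 * (1 / 4 ^ (t + 7)) := by
      rw [pow_succ (4 : ℝ) (t + 7)]; field_simp
    have e2 : (1 : ℝ) / (2 * 4 ^ (t + 1)) = 2 * (1 / 4 ^ (t + 2)) := by
      rw [pow_succ (4 : ℝ) (t + 1)]; field_simp; norm_num
    have p1 : (0 : ℝ) < 1 / 4 ^ (t + 7) := by positivity
    have p2 : (0 : ℝ) < 1 / 4 ^ (t + 2) := by positivity
    constructor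
    · rw [e1]; linarith [h3.1]
    · rw [e2]; linarith [h3.2]

end

end TopIFS
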