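import Pool.Agent.Lib.H41.IFS.Kap

/-!
# Infinite concatenation of paths, reparametrization
-/

namespace TopIFS

open Set Filter Topology
open scoped ENNReal unitInterval NNReal

/-- Every time after `T 0` lies in exactly one half-open piece. -/
theorem exists_piece (T : ℕ → ℝ) (hT : StrictMono T) (hTinf : Tendsto T atTop atTop) {x : ℝ}
    (hx : T 0 ≤ x) :
    ∃ k, ∃ s : I, x = T k + s * (T (k + 1) - T k) ∧ T k ≤ x ∧ x < T (k + 1) := by
  classical
  have hex : ∃ n : ℕ, x < T (n + 1) :=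
    ((hTinf.comp (tendsto_add_atTop_nat 1)).eventually (eventually_gt_atTop x)).exists
  have h1 : x < T (Nat.find hex + 1) := Nat.find_spec hex
  have h2 : T (Nat.find hex) ≤ x := by
    rcases Nat.eq_zero_or_pos (Nat.find hex) with h | h
    · rw [h]; exact hx
    · have := Nat.find_min hex (m := Nat.find hex - 1) (by omega)
      rw [not_lt, Nat.sub_add_cancel h] at this
      exact this
  have h3 : 0 < T (Nat.find hex + 1) - T (Nat.find hex) := sub_pos.2 (hT (Nat.lt_succ_self _))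
  refine ⟨Nat.find hex, ⟨(x - T (Nat.find hex)) / (T (Nat.find hex + 1) - T (Nat.find hex)),
    div_nonneg (by linarith) h3.le, ?_⟩, ?_, h2, h1⟩
  · rw [div_le_one h3]; linarith
  · show x = T (Nat.find hex) + (x - T (Nat.find hex)) /
      (T (Nat.find hex + 1) - T (Nat.find hex)) * (T (Nat.find hex + 1) - T (Nat.find hex))
    rw [div_mul_cancel₀ _ h3.ne']
    ring

/-- Concatenation on the real line. -/
theorem exists_concat_real {X : Type*} [TopologicalSpace X] (T : ℕ → ℝ)
    (hT : StrictMono T) (hTinf : Tendsto T atTop atTop) (γ : ℕ → C(I, X))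
    (hγ : ∀ k, γ k 1 = γ (k + 1) 0) :
    ∃ P : ℝ → X, Continuous P ∧ (∀ x ≤ T 0, P x = γ 0 0) ∧
      (∀ k, ∀ s : I, P (T k + s * (T (k + 1) - T k)) = γ k s) := by
  classical
  choose! κ sg h1 h2 h3 using fun x (hx : T 0 ≤ x) => exists_piece T hT hTinf hx
  let P : ℝ → X := fun x => if T 0 ≤ x then γ (κ x) (sg x) else γ 0 0
  have hP : ∀ k, ∀ s : I, P (T k + s * (T (k + 1) - T k)) = γ k s := by
    intro k s
    have hk : 0 < T (k + 1) - T k := sub_pos.2 (hT (Nat.lt_succ_self _))
    have hs0 := s.2.1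
    have hs1 := s.2.2
    set x := T k + s * (T (k + 1) - T k) with hx
    have hxk : T k ≤ x := by nlinarith
    have hxk1 : x ≤ T (k + 1) := by nlinarith
    have hx0 : T 0 ≤ x := (hT.monotone (Nat.zero_le k)).trans hxk
    have hPx : P x = γ (κ x) (sg x) := if_pos hx0
    rw [hPx]
    have e1 := h1 x hx0
    have e2 := h2 x hx0
    have e3 := h3 x hx0
    have hle : k ≤ κ x := by
      have : k < κ x + 1 := hT.lt_iff_lt.1 (hxk.trans_lt e3)
      omega
    rcases eq_or_lt_of_le hxk1 with h | h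
    · have hle2 : κ x = k + 1 := by
        have h4 : κ x ≤ k + 1 := hT.le_iff_le.1 (h ▸ e2)
        have h5 : k + 1 < κ x + 1 := hT.lt_iff_lt.1 (h ▸ e3)
        omega
      have hsg : sg x = 0 := by
        have hpos : 0 < T (κ x + 1) - T (κ x) := sub_pos.2 (hT (Nat.lt_succ_self _))
        have h6 : x = T (κ x) := by rw [hle2]; exact h
        have h7 : (sg x : ℝ) * (T (κ x + 1) - T (κ x)) = 0 := by linarith
        have h8 : (sg x : ℝ) = 0 := by
          rcases mul_eq_zero.1 h7 with h | h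
          · exact h
          · exact absurd h hpos.ne'
        exact Subtype.ext h8
      have hs : s = 1 := by
        have h7 : ((s : ℝ) - 1) * (T (k + 1) - T k) = 0 := by
          have : x = T (k + 1) := h
          linarith
        have h8 : (s : ℝ) = 1 := by
          rcases mul_eq_zero.1 h7 with h | h
          · linarith
          · exact absurd h hk.ne'
        exact Subtype.ext h8
      rw [hsg, hle2, hs, hγ]
    · have hle2 : κ x = k := by
        have h4 : κ x < k + 1 := hT.lt_iff_lt.1 (e2.trans_lt h)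
        omega
      have hsg : sg x = s := by
        have h6 : x = T k + (sg x : ℝ) * (T (k + 1) - T k) := by
          rw [hle2] at e1
          exact e1
        have h7 : ((sg x : ℝ) - s) * (T (k + 1) - T k) = 0 := by linarith
        have h8 : (sg x : ℝ) = s := by
          rcases mul_eq_zero.1 h7 with h | h
          · linarith
          · exact absurd h hk.ne'
        exact Subtype.ext h8
      rw [hsg, hle2]
  have hP0 : ∀ x ≤ T 0, P x = γ 0 0 := by
    intro x hx
    rcases eq_or_lt_of_le hx with h | h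
    · have := hP 0 0
      rw [h]
      simpa using this
    · exact if_neg (not_le.2 h)
  refine ⟨P, ?_, hP0, hP⟩
  -- continuity
  let f : ℕ → Set ℝ := fun n => Nat.casesOn n (Iic (T 0)) fun k => Icc (T k) (T (k + 1))
  have hf0 : f 0 = Iic (T 0) := rfl
  have hfs : ∀ k, f (k + 1) = Icc (T k) (T (k + 1)) := fun k => rfl
  have hlf : LocallyFinite f := by
    intro x
    obtain ⟨m, hm⟩ := (hTinf.eventually (eventually_gt_atTop x)).exists
    refine ⟨Iio (T m), Iio_mem_nhds hm, (Set.finite_Iic (m + 1)).subset ?_⟩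
    rintro i ⟨y, hy1, hy2⟩
    rcases i with _ | k
    · simp
    · rw [hfs] at hy1
      have : T k < T m := hy1.1.trans_lt hy2
      have := hT.lt_iff_lt.1 this
      simp only [mem_Iic]
      omega
  have hcov : (⋃ i, f i) = univ := by
    rw [eq_univ_iff_forall]
    intro x
    rw [mem_iUnion]
    rcases le_total x (T 0) with h | h
    · exact ⟨0, h⟩
    · exact ⟨κ x + 1, h2 x h, (h3 x h).le⟩
  refine hlf.continuous hcov ?_ ?_
  · intro i
    rcases i with _ | k
    · exact isClosed_Iic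
    · exact isClosed_Icc
  · intro i
    rcases i with _ | k
    · exact (continuousOn_const (c := γ 0 0)).congr fun x hx => hP0 x hx
    · rw [hfs]
      have hk : 0 < T (k + 1) - T k := sub_pos.2 (hT (Nat.lt_succ_self _))
      have hcont : Continuous fun x : ℝ => γ k (projIcc (0 : ℝ) 1 zero_le_one
          ((x - T k) / (T (k + 1) - T k))) :=
        (γ k).continuous.comp (continuous_projIcc.comp (by fun_prop))
      refine hcont.continuousOn.congr fun x hx => ?_
      have h0 : 0 ≤ (x - T k) / (T (k + 1) - T k) := div_nonneg (by linarith [hx.1]) hk.le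
      have h1' : (x - T k) / (T (k + 1) - T k) ≤ 1 := by
        rw [div_le_one hk]; linarith [hx.2]
      have := hP k ⟨(x - T k) / (T (k + 1) - T k), h0, h1'⟩
      show P x = γ k (projIcc (0 : ℝ) 1 zero_le_one ((x - T k) / (T (k + 1) - T k)))
      rw [projIcc_of_mem zero_le_one ⟨h0, h1'⟩, ← this]
      congr 1
      show x = T k + (x - T k) / (T (k + 1) - T k) * (T (k + 1) - T k)
      rw [div_mul_cancel₀ _ hk.ne']
      ring

/-- Infinite concatenation: pieces `γ k` run on the time interval `[T k, T (k + 1)]`, converging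
to `z` as time tends to `∞`; constant on `[0, T 0]`. -/
theorem exists_concat {X : Type*} [MetricSpace X] (T : ℕ → ℝ) (hT0 : 0 ≤ T 0)
    (hT : StrictMono T) (hTinf : Tendsto T atTop atTop) (γ : ℕ → C(I, X))
    (hγ : ∀ k, γ k 1 = γ (k + 1) 0) (z : X)
    (hz : ∀ N ∈ 𝓝 z, ∀ᶠ k in atTop, range (γ k) ⊆ N) :
    ∃ p : C(ℝ≥0∞, X), (∀ r : ℝ, r ≤ T 0 → p (ENNReal.ofReal r) = γ 0 0) ∧
      (∀ k, ∀ s : I, p (ENNReal.ofReal (T k + s * (T (k + 1) - T k))) = γ k s) ∧
      p ∞ = z ∧ (∀ r, r ≠ ∞ → ∃ k, p r ∈ range (γ k)) ∧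
      ∀ (ρ : X → X → ℝ≥0∞) (C : ℝ≥0), (∀ x, ρ x x = 0) → (∀ x y, ρ x y = ρ y x) →
        (∀ x y w, ρ x w ≤ ρ x y + ρ y w) →
        (∀ k, ∀ s s' : I, ρ (γ k s) (γ k s') ≤
          C * ENNReal.ofReal ((T (k + 1) - T k) * |(s : ℝ) - s'|)) →
        ∀ r r', r ≠ ∞ → r' ≠ ∞ → ρ (p r) (p r') ≤ C * dl r r' := by
  classical
  obtain ⟨P, hPc, hP0, hP⟩ := exists_concat_real T hT hTinf γ hγ
  let p : ℝ≥0∞ → X := fun r => if r = ∞ then z else P r.toReal
  have hptop : p ∞ = z := if_pos rfl
  have hpfin : ∀ r, r ≠ ∞ → p r = P r.toReal := fun r hr => if_neg hr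
  have hpof : ∀ x : ℝ, 0 ≤ x → p (ENNReal.ofReal x) = P x := fun x hx => by
    rw [hpfin _ ENNReal.ofReal_ne_top, ENNReal.toReal_ofReal hx]
  have hTnn : ∀ k, 0 ≤ T k := fun k => hT0.trans (hT.monotone (Nat.zero_le k))
  have hcont : Continuous p := by
    rw [continuous_iff_continuousAt]
    intro r
    by_cases hr : r = ∞
    · subst hr
      rw [ContinuousAt, hptop]
      intro N hN
      obtain ⟨K, hK⟩ := eventually_atTop.1 (hz N hN)
      have h1 : ∀ᶠ r in 𝓝 (∞ : ℝ≥0∞), ENNReal.ofReal (T K) < r :=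
        Filter.Tendsto.eventually_const_lt ENNReal.ofReal_lt_top tendsto_id
      show ∀ᶠ r in 𝓝 (∞ : ℝ≥0∞), p r ∈ N
      filter_upwards [h1] with r hr
      by_cases hrt : r = ∞
      · rw [hrt, hptop]; exact mem_of_mem_nhds hN
      · rw [hpfin r hrt]
        have h2 : T K < r.toReal := by
          rw [← ENNReal.ofReal_toReal hrt] at hr
          exact (ENNReal.ofReal_lt_ofReal_iff_of_nonneg (hTnn K)).1 hr
        obtain ⟨k, s, e1, e2, e3⟩ := exists_piece T hT hTinf
          ((hT.monotone (Nat.zero_le K)).trans h2.le)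
        rw [e1, hP k s]
        have : K < k + 1 := hT.lt_iff_lt.1 (h2.trans e3)
        exact hK k (by omega) ⟨s, rfl⟩
    · have h1 : ∀ᶠ r' in 𝓝 r, r' ≠ ∞ := isOpen_ne.mem_nhds hr
      have h2 : (fun r' : ℝ≥0∞ => P r'.toReal) =ᶠ[𝓝 r] p := by
        filter_upwards [h1] with r' hr'
        exact (hpfin r' hr').symm
      exact (hPc.continuousAt.comp (ENNReal.continuousAt_toReal hr)).congr h2
  refine ⟨⟨p, hcont⟩, ?_, ?_, hptop, ?_, ?_⟩
  · intro r hr
    show p (ENNReal.ofReal r) = γ 0 0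
    rcases le_total 0 r with h | h
    · rw [hpof r h, hP0 r hr]
    · rw [ENNReal.ofReal_eq_zero.2 h, ← ENNReal.ofReal_zero, hpof 0 le_rfl, hP0 0 hT0]
  · intro k s
    show p (ENNReal.ofReal (T k + s * (T (k + 1) - T k))) = γ k s
    have h1 := s.2.1
    have h3 : 0 < T (k + 1) - T k := sub_pos.2 (hT (Nat.lt_succ_self _))
    have h4 := hTnn k
    rw [hpof _ (by positivity), hP]
  · intro r hr
    show ∃ k, p r ∈ _
    rw [hpfin r hr]
    rcases le_total r.toReal (T 0) with h | h
    · exact ⟨0, 0, (hP0 _ h).symm⟩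
    · obtain ⟨k, s, e1, -, -⟩ := exists_piece T hT hTinf h
      exact ⟨k, s, by rw [e1, hP k s]⟩
  · intro ρ C hρ0 hρs hρt hρ
    have key : ∀ n : ℕ, ∀ x x' : ℝ, x ≤ x' → x' ≤ T n → ρ (P x) (P x') ≤
        C * ENNReal.ofReal (x' - x) := by
      intro n
      induction n with
      | zero =>
        intro x x' h1 h2
        rw [hP0 x (h1.trans h2), hP0 x' h2, hρ0]
        exact zero_le
      | succ n ih =>
        intro x x' h1 h2
        rcases le_total x' (T n) with h3 | h3
        · exact ih x x' h1 h3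
        · have hpc : ∀ u v : ℝ, T n ≤ u → u ≤ v → v ≤ T (n + 1) →
              ρ (P u) (P v) ≤ C * ENNReal.ofReal (v - u) := by
            intro u v hu huv hv
            have hk : 0 < T (n + 1) - T n := sub_pos.2 (hT (Nat.lt_succ_self _))
            have hu0 : 0 ≤ (u - T n) / (T (n + 1) - T n) := div_nonneg (by linarith) hk.le
            have hu1 : (u - T n) / (T (n + 1) - T n) ≤ 1 := by rw [div_le_one hk]; linarith
            have hv0 : 0 ≤ (v - T n) / (T (n + 1) - T n) := div_nonneg (by linarith) hk.le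
            have hv1 : (v - T n) / (T (n + 1) - T n) ≤ 1 := by rw [div_le_one hk]; linarith
            have e1 := hP n ⟨(u - T n) / (T (n + 1) - T n), hu0, hu1⟩
            have e2 := hP n ⟨(v - T n) / (T (n + 1) - T n), hv0, hv1⟩
            have e3 := hρ n ⟨(u - T n) / (T (n + 1) - T n), hu0, hu1⟩
              ⟨(v - T n) / (T (n + 1) - T n), hv0, hv1⟩
            rw [← e1, ← e2] at e3
            have f1 : T n + (u - T n) / (T (n + 1) - T n) * (T (n + 1) - T n) = u := by
              rw [div_mul_cancel₀ _ hk.ne']; ring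
            have f2 : T n + (v - T n) / (T (n + 1) - T n) * (T (n + 1) - T n) = v := by
              rw [div_mul_cancel₀ _ hk.ne']; ring
            have f3 : (T (n + 1) - T n) * |(u - T n) / (T (n + 1) - T n) -
                (v - T n) / (T (n + 1) - T n)| = v - u := by
              rw [← sub_div, abs_div, abs_of_pos hk, mul_div_cancel₀ _ hk.ne',
                abs_of_nonpos (by linarith)]
              ring
            simp only [f1, f2, f3] at e3
            exact e3
          rcases le_total (T n) x with h4 | h4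
          · exact hpc x x' h4 h1 h2
          · calc ρ (P x) (P x') ≤ ρ (P x) (P (T n)) + ρ (P (T n)) (P x') := hρt _ _ _
              _ ≤ C * ENNReal.ofReal (T n - x) + C * ENNReal.ofReal (x' - T n) :=
                add_le_add (ih x (T n) h4 le_rfl) (hpc _ _ le_rfl h3 h2)
              _ = C * ENNReal.ofReal (x' - x) := by
                rw [← mul_add, ← ENNReal.ofReal_add (by linarith) (by linarith)]
                congr 2
                ring
    have key2 : ∀ x x' : ℝ, x ≤ x' → ρ (P x) (P x') ≤ C * ENNReal.ofReal (x' - x) := by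
      intro x x' h
      obtain ⟨m, hm⟩ := (hTinf.eventually (eventually_ge_atTop x')).exists
      exact key m x x' h hm
    intro r r' hr hr'
    show ρ (p r) (p r') ≤ _
    rw [hpfin r hr, hpfin r' hr']
    have hdl : dl r r' = ENNReal.ofReal |r.toReal - r'.toReal| := by
      conv_lhs => rw [← ENNReal.ofReal_toReal hr, ← ENNReal.ofReal_toReal hr']
      exact dl_ofReal _ _ ENNReal.toReal_nonneg ENNReal.toReal_nonneg
    rw [hdl]
    rcases le_total r.toReal r'.toReal with h | h
    · rw [abs_of_nonpos (by linarith), neg_sub]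
      exact key2 _ _ h
    · rw [abs_of_nonneg (by linarith), hρs]
      exact key2 _ _ h

/-- Reparametrization of a monotone function: any `g` larger than its total increase is a
Lipschitz constant after a reparametrization of the unit interval. -/
theorem exists_reparam (h : I → ℝ) (hc : Continuous h) (hm : Monotone h) (g : ℝ)
    (hg : h 1 - h 0 < g) :
    ∃ c : C(I, I), c 0 = 0 ∧ c 1 = 1 ∧ Monotone c ∧
      ∀ s s' : I, |h (c s) - h (c s')| ≤ g * |(s : ℝ) - s'| := by
  have h01 : h 0 ≤ h 1 := hm zero_le_one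
  have hg0 : 0 < g := by linarith
  have hd : 0 < g - (h 1 - h 0) := by linarith
  let Ψ : I → ℝ := fun s => (h s - h 0) + (g - (h 1 - h 0)) * s
  have hΨ0 : Ψ 0 = 0 := by simp [Ψ]
  have hΨ1 : Ψ 1 = g := by simp [Ψ]
  have hΨm : StrictMono Ψ := fun s t hst => by
    have h1 := hm hst.le
    have h2 : (s : ℝ) < t := hst
    have h3 : (g - (h 1 - h 0)) * s < (g - (h 1 - h 0)) * t := by gcongr
    simp only [Ψ]
    linarith
  have hmem : ∀ s, Ψ s / g ∈ Icc (0 : ℝ) 1 := fun s => by
    constructor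
    · refine div_nonneg ?_ hg0.le
      rw [← hΨ0]
      exact hΨm.monotone s.2.1
    · rw [div_le_one hg0, ← hΨ1]
      exact hΨm.monotone s.2.2
  let f : I → I := fun s => ⟨Ψ s / g, hmem s⟩
  have hfm : StrictMono f := fun s t hst => by
    show Ψ s / g < Ψ t / g
    exact div_lt_div_of_pos_right (hΨm hst) hg0
  have hfc : Continuous f := by
    refine Continuous.subtype_mk ?_ _
    simp only [Ψ]
    fun_prop
  have hf0 : f 0 = 0 := Subtype.ext (by show Ψ 0 / g = 0; rw [hΨ0, zero_div])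
  have hf1 : f 1 = 1 := Subtype.ext (by show Ψ 1 / g = 1; rw [hΨ1, div_self hg0.ne'])
  have hfs : Function.Surjective f := fun y =>
    mem_range_of_exists_le_of_exists_ge hfc ⟨0, by rw [hf0]; exact y.2.1⟩
      ⟨1, by rw [hf1]; exact y.2.2⟩
  let e : I ≃o I := hfm.orderIsoOfSurjective f hfs
  have he : ∀ s, f (e.symm s) = s := fun s => e.apply_symm_apply s
  refine ⟨⟨e.symm, e.symm.continuous⟩, ?_, ?_, e.symm.monotone, ?_⟩
  · show e.symm 0 = 0
    rw [OrderIso.symm_apply_eq]
    exact hf0.symm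
  · show e.symm 1 = 1
    rw [OrderIso.symm_apply_eq]
    exact hf1.symm
  · intro s s'
    show |h (e.symm s) - h (e.symm s')| ≤ _
    have hval : ∀ s : I, Ψ (e.symm s) = g * s := fun s => by
      have := congrArg Subtype.val (he s)
      have h2 : Ψ (e.symm s) / g = s := this
      rw [div_eq_iff hg0.ne'] at h2
      rw [h2, mul_comm]
    wlog hss : s' ≤ s generalizing s s'
    · rw [abs_sub_comm, abs_sub_comm (s : ℝ)]
      exact this s' s (le_of_not_ge hss)
    have h1 : h (e.symm s') ≤ h (e.symm s) := hm (e.symm.monotone hss)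
    have h2 : (e.symm s' : ℝ) ≤ e.symm s := e.symm.monotone hss
    have h3 : (s' : ℝ) ≤ s := hss
    rw [abs_of_nonneg (by linarith), abs_of_nonneg (by linarith), mul_sub, ← hval, ← hval]
    simp only [Ψ]
    nlinarith

/-- A diagonal choice. -/
theorem exists_diag (Q : ℕ → ℕ → Prop) (h0 : ∀ k, Q k 0) (hn : ∀ n, ∀ᶠ k in atTop, Q k n) :
    ∃ g : ℕ → ℕ, (∀ k, Q k (g k)) ∧ Tendsto g atTop atTop := by
  classical
  refine ⟨fun k => Nat.findGreatest (Q k) k, fun k =>
    Nat.findGreatest_spec (P := Q k) (Nat.zero_le k) (h0 k), ?_⟩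
  rw [tendsto_atTop]
  intro n
  filter_upwards [hn n, eventually_ge_atTop n] with k h1 h2
  exact Nat.le_findGreatest h2 h1

/-- Walk: a path through infinitely many points `Y k` of `D` inside an open preconnected set,
at the times `lam (τ k)`, converging to `z`, with small speed. -/
theorem exists_walk {X : Type*} [MetricSpace X] [LocallyConnectedSpace X]
    (ρ : X → X → ℝ≥0∞) (hρ0 : ∀ x, ρ x x = 0) (hρs : ∀ x y, ρ x y = ρ y x)
    (hρt : ∀ x y w, ρ x w ≤ ρ x y + ρ y w) (D : Set X)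
    (hP : ∀ U : Set X, IsOpen U → IsPreconnected U → ∀ y ∈ D ∩ U, ∀ y' ∈ D ∩ U,
      ∃ γ : C(I, X), γ 0 = y ∧ γ 1 = y' ∧ range γ ⊆ U ∧
        ∃ C : ℝ≥0, ∀ s s' : I, ρ (γ s) (γ s') ≤ C * ENNReal.ofReal |(s : ℝ) - s'|)
    (U : Set X) (hUo : IsOpen U) (hUc : IsPreconnected U) (y : X) (hy : y ∈ D ∩ U)
    (Y : ℕ → X) (hY : ∀ k, Y k ∈ D ∩ U) (z : X) (hz : z ∈ U) (hYz : Tendsto Y atTop (𝓝 z)) :
    ∃ (p : C(ℝ≥0∞, X)) (τ : ℕ → ℕ), StrictMono τ ∧ p 0 = y ∧ (∀ k, p (lam (τ k)) = Y k) ∧
      p ∞ = z ∧ (∀ r, p r ∈ U) ∧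
      ∀ r r', r ≠ ∞ → r' ≠ ∞ → ρ (p r) (p r') ≤ (1 / 2) * dl r r' := by
  classical
  -- the sequence of points, starting with `y`
  let y' : ℕ → X := fun k => Nat.casesOn k y Y
  have hy'0 : y' 0 = y := rfl
  have hy's : ∀ k, y' (k + 1) = Y k := fun k => rfl
  have hy' : ∀ k, y' k ∈ D ∩ U := fun k => by
    rcases k with _ | k
    · exact hy
    · exact hY k
  have hy'z : Tendsto y' atTop (𝓝 z) := (tendsto_add_atTop_iff_nat 1).1 hYz
  -- good paths
  let Q : ℕ → ℕ → Prop := fun k n => ∃ γ : C(I, X), γ 0 = y' k ∧ γ 1 = y' (k + 1) ∧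
    range γ ⊆ U ∧ (n ≠ 0 → range γ ⊆ Metric.ball z (1 / (n : ℝ))) ∧
    ∃ C : ℝ≥0, ∀ s s' : I, ρ (γ s) (γ s') ≤ C * ENNReal.ofReal |(s : ℝ) - s'|
  have hQ0 : ∀ k, Q k 0 := fun k => by
    obtain ⟨γ, h1, h2, h3, h4⟩ := hP U hUo hUc (y' k) (hy' k) (y' (k + 1)) (hy' (k + 1))
    exact ⟨γ, h1, h2, h3, fun h => absurd rfl h, h4⟩
  have hQn : ∀ n, ∀ᶠ k in atTop, Q k n := fun n => by
    rcases Nat.eq_zero_or_pos n with hn | hn
    · rw [hn]; exact Eventually.of_forall hQ0
    have hn' : (0 : ℝ) < 1 / (n : ℝ) := by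
      have : (0 : ℝ) < n := Nat.cast_pos.2 hn
      positivity
    obtain ⟨V, ⟨hVo, hzV, hVc⟩, hVs⟩ := (LocallyConnectedSpace.open_connected_basis z).mem_iff.1
      (inter_mem (hUo.mem_nhds hz) (Metric.ball_mem_nhds z hn'))
    have h1 : ∀ᶠ k in atTop, y' k ∈ V := hy'z.eventually (hVo.mem_nhds hzV)
    have h2 : ∀ᶠ k in atTop, y' (k + 1) ∈ V :=
      ((tendsto_add_atTop_iff_nat 1).2 hy'z).eventually (hVo.mem_nhds hzV)
    filter_upwards [h1, h2] with k hk1 hk2
    obtain ⟨γ, h1, h2, h3, h4⟩ := hP V hVo hVc.isPreconnected (y' k) ⟨(hy' k).1, hk1⟩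
      (y' (k + 1)) ⟨(hy' (k + 1)).1, hk2⟩
    exact ⟨γ, h1, h2, h3.trans (hVs.trans inter_subset_left),
      fun _ => h3.trans (hVs.trans inter_subset_right), h4⟩
  obtain ⟨g, hQg, hginf⟩ := exists_diag Q hQ0 hQn
  choose γ hγ0 hγ1 hγU hγz Cγ hCγ using hQg
  have hγz' : ∀ N ∈ 𝓝 z, ∀ᶠ k in atTop, range (γ k) ⊆ N := by
    intro N hN
    obtain ⟨ε, hε, hεN⟩ := Metric.mem_nhds_iff.1 hN
    obtain ⟨n, hn⟩ := exists_nat_one_div_lt hε
    filter_upwards [hginf.eventually (eventually_ge_atTop (n + 1))] with k h1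
    refine (hγz k (by omega)).trans ((Metric.ball_subset_ball ?_).trans hεN)
    refine le_trans ?_ hn.le
    have h2 : ((n : ℝ) + 1) ≤ (g k : ℝ) := by exact_mod_cast h1
    have h3 : (0 : ℝ) < (n : ℝ) + 1 := by positivity
    exact one_div_le_one_div_of_le h3 h2
  -- the times
  have hF : ∀ (m : ℕ) (c : ℝ), ∃ t, m < t ∧ c ≤ lamR t := fun m c =>
    ((eventually_gt_atTop m).and (tendsto_lamR.eventually (eventually_ge_atTop c))).exists
  choose F hF1 hF2 using hF
  let τ : ℕ → ℕ := fun k => Nat.rec (F 0 (2 * Cγ 0)) (fun k m => F m (lamR m + 2 * Cγ (k + 1))) k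
  have hτ0 : τ 0 = F 0 (2 * Cγ 0) := rfl
  have hτs : ∀ k, τ (k + 1) = F (τ k) (lamR (τ k) + 2 * Cγ (k + 1)) := fun k => rfl
  have hτm : StrictMono τ := strictMono_nat_of_lt_succ fun k => by
    rw [hτs]; exact hF1 _ _
  let T : ℕ → ℝ := fun k => Nat.casesOn k 0 fun k => lamR (τ k)
  have hT0 : T 0 = 0 := rfl
  have hTs : ∀ k, T (k + 1) = lamR (τ k) := fun k => rfl
  have hTm : StrictMono T := strictMono_nat_of_lt_succ fun k => by
    rcases k with _ | k
    · rw [hT0, hTs]; exact lamR_pos _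
    · rw [hTs k, hTs (k + 1)]; exact lamR_strictMono (hτm (Nat.lt_succ_self k))
  have hTinf : Tendsto T atTop atTop :=
    (tendsto_add_atTop_iff_nat 1).1 (tendsto_lamR.comp hτm.tendsto_atTop)
  have hgap : ∀ k, 2 * (Cγ k : ℝ) ≤ T (k + 1) - T k := fun k => by
    rcases k with _ | k
    · rw [hTs, hT0, hτ0, sub_zero]; exact hF2 _ _
    · rw [hTs k, hTs (k + 1), hτs]
      have := hF2 (τ k) (lamR (τ k) + 2 * Cγ (k + 1))
      linarith
  obtain ⟨p, hp1, hp2, hp3, hp4, hp5⟩ := exists_concat T hT0.ge hTm hTinf γ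
    (fun k => by rw [hγ1, hγ0]) z hγz'
  refine ⟨p, τ, hτm, ?_, ?_, hp3, ?_, ?_⟩
  · have := hp1 0 hT0.ge
    rw [ENNReal.ofReal_zero] at this
    rw [this, hγ0 0, hy'0]
  · intro k
    have := hp2 k 1
    rw [show T k + ((1 : I) : ℝ) * (T (k + 1) - T k) = lamR (τ k) by
      rw [← hTs]; simp] at this
    rw [lam, this, hγ1, hy's]
  · intro r
    by_cases hr : r = ∞
    · rw [hr, hp3]; exact hz
    · obtain ⟨k, hk⟩ := hp4 r hr
      exact hγU k hk
  · have h := hp5 ρ (1 / 2) hρ0 hρs hρt fun k s s' => by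
      refine (hCγ k s s').trans ?_
      have h1 : (Cγ k : ℝ≥0∞) = ENNReal.ofReal (Cγ k) := by simp
      have h2 : ((1 / 2 : ℝ≥0) : ℝ≥0∞) = ENNReal.ofReal (1 / 2) := by
        rw [ENNReal.ofReal]
        congr 1
        ext
        simp
      rw [h1, h2, ← ENNReal.ofReal_mul (by positivity), ← ENNReal.ofReal_mul (by positivity)]
      refine ENNReal.ofReal_le_ofReal ?_
      have h3 := hgap k
      have h4 := abs_nonneg ((s : ℝ) - s')
      nlinarith
    intro r r' hr hr'
    have h2 := h r r' hr hr'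
    have h3 : ((1 / 2 : ℝ≥0) : ℝ≥0∞) = 1 / 2 := by
      rw [ENNReal.coe_div (by norm_num)]; simp
    rwa [h3] at h2

end TopIFS
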