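import Mathlib

/-!
# Basic definitions: topological IFS-attractors, heights, and countable skeleta

Shared definitions for the theorem: every Peano continuum is a topological IFS-attractor.
-/

namespace TopIFS

open Set Filter Topology
open scoped ENNReal unitInterval NNReal

/-! ## Topological IFS-attractors -/

/-- The composition `f i₁ ∘ f i₂ ∘ ... ∘ f iₘ` along the word `i₁ i₂ ... iₘ`. -/
def wordMap {X ι : Type*} [TopologicalSpace X] (f : ι → C(X, X)) : List ι → X → X
  | [] => id
  | i :: l => fun x => f i (wordMap f l x)

/-- A topological space `X` is a topological IFS-attractor: there are finitely many continuous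
self-maps `f₁, ..., fₙ` whose images cover `X` and such that for every open cover `𝒰` of `X`
there is `m` such that the image of every composition of `m` of these maps is contained in one
member of `𝒰`. -/
def IsTopIFSAttractor (X : Type*) [TopologicalSpace X] : Prop :=
  ∃ (n : ℕ) (f : Fin n → C(X, X)), (⋃ i, range (f i)) = univ ∧
    ∀ 𝒰 : Set (Set X), (∀ U ∈ 𝒰, IsOpen U) → ⋃₀ 𝒰 = univ →
      ∃ m : ℕ, ∀ l : List (Fin n), l.length = m → ∃ U ∈ 𝒰, range (wordMap f l) ⊆ U

/-! ## Heights -/

/-- The real number `1 + 1/2 + ... + 1/(t+1)`. -/
noncomputable def lamR (t : ℕ) : ℝ := ∑ i ∈ Finset.range (t + 1), 1 / ((i : ℝ) + 1)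

/-- The plateau value `1 + 1/2 + ... + 1/(t+1)` as an extended nonnegative real. -/
noncomputable def lam (t : ℕ) : ℝ≥0∞ := ENNReal.ofReal (lamR t)

/-- Distance `|a - b|` of extended nonnegative reals (with `dl ∞ ∞ = 0`). -/
noncomputable def dl (a b : ℝ≥0∞) : ℝ≥0∞ := (a - b) + (b - a)

/-- The pseudo-distance associated with a family of heights. -/
noncomputable def rho {X : Type*} (H : List ℕ → X → ℝ≥0∞) (x y : X) : ℝ≥0∞ :=
  ∑' w, dl (H w x) (H w y)

/-- `At H w x`: the point `x` is read at the address `w` (child address `t :: w`). -/
def At {X : Type*} (H : List ℕ → X → ℝ≥0∞) : List ℕ → X → Prop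
  | [], _ => True
  | t :: w, x => At H w x ∧ H w x = lam t

/-! ## Skeleta: finite lists of arcs -/

section Skeleton
variable {X : Type*} [TopologicalSpace X]

/-- The union of the images of the arcs of a list. -/
def G (L : List C(I, X)) : Set X := {x | ∃ α ∈ L, x ∈ range α}

/-- A list of injective arcs, each of which meets the union of the later entries of the list
(the arcs added earlier) only in endpoints. -/
def Good : List C(I, X) → Prop
  | [] => True
  | α :: L => Good L ∧ Function.Injective α ∧ ∀ s, α s ∈ G L → s = 0 ∨ s = 1

/-- One step inside `U` along one of the arcs of the list. -/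
def Step (L : List C(I, X)) (U : Set X) (x y : X) : Prop :=
  ∃ α ∈ L, ∃ s t : I, α s = x ∧ α t = y ∧ α '' (uIcc s t) ⊆ U

/-- Connected by finitely many steps inside `U`. -/
def Conn (L : List C(I, X)) (U : Set X) : X → X → Prop := Relation.ReflTransGen (Step L U)

/-- No free arc: every arc has empty interior. -/
def NFA (X : Type*) [TopologicalSpace X] : Prop :=
  ∀ α : C(I, X), Function.Injective α → interior (range α) = ∅

end Skeleton

end TopIFS
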