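import Pool.Agent.Lib.H41.IFS.Defs

/-!
# Basic facts on the pseudo-distance `rho`
-/

namespace TopIFS

open Set Filter Topology
open scoped ENNReal unitInterval NNReal

theorem dl_self (a : ℝ≥0∞) : dl a a = 0 := by simp [dl]

theorem dl_comm (a b : ℝ≥0∞) : dl a b = dl b a := by simp [dl, add_comm]

theorem dl_triangle (a b c : ℝ≥0∞) : dl a c ≤ dl a b + dl b c := by
  unfold dl
  have h1 : a - c ≤ (a - b) + (b - c) := tsub_le_tsub_add_tsub
  have h2 : c - a ≤ (c - b) + (b - a) := tsub_le_tsub_add_tsub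
  calc (a - c) + (c - a) ≤ ((a - b) + (b - c)) + ((c - b) + (b - a)) := add_le_add h1 h2
    _ = _ := by ring

theorem dl_eq_zero {a b : ℝ≥0∞} (h : dl a b = 0) : a = b := by
  unfold dl at h
  rw [add_eq_zero, tsub_eq_zero_iff_le, tsub_eq_zero_iff_le] at h
  exact le_antisymm h.1 h.2

theorem dl_top_right {a : ℝ≥0∞} (ha : a ≠ ∞) : dl a ∞ = ∞ := by
  simp [dl, ha]

theorem dl_top_left {a : ℝ≥0∞} (ha : a ≠ ∞) : dl ∞ a = ∞ := by
  rw [dl_comm, dl_top_right ha]

theorem dl_of_le {a b : ℝ≥0∞} (h : a ≤ b) : dl a b = b - a := by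
  simp [dl, tsub_eq_zero_of_le h]

theorem dl_ofReal_abs {a b : ℝ} (ha : 0 ≤ a) (hb : 0 ≤ b) :
    dl (ENNReal.ofReal a) (ENNReal.ofReal b) = ENNReal.ofReal |a - b| := by
  rcases le_total a b with h | h
  · rw [dl_of_le (ENNReal.ofReal_le_ofReal h), ← ENNReal.ofReal_sub _ ha, abs_sub_comm,
      abs_of_nonneg (sub_nonneg.2 h)]
  · rw [dl_comm, dl_of_le (ENNReal.ofReal_le_ofReal h), ← ENNReal.ofReal_sub _ hb,
      abs_of_nonneg (sub_nonneg.2 h)]

section
variable {X : Type*} (H : List ℕ → X → ℝ≥0∞)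

theorem rho_self (x : X) : rho H x x = 0 := by simp [rho, dl_self]

theorem rho_comm (x y : X) : rho H x y = rho H y x := by
  unfold rho; exact tsum_congr fun w => dl_comm _ _

theorem rho_triangle (x y z : X) : rho H x z ≤ rho H x y + rho H y z := by
  unfold rho
  rw [← ENNReal.tsum_add]
  exact ENNReal.tsum_le_tsum fun w => dl_triangle _ _ _

theorem dl_le_rho (w : List ℕ) (x y : X) : dl (H w x) (H w y) ≤ rho H x y :=
  ENNReal.le_tsum (f := fun w => dl (H w x) (H w y)) w

theorem eq_of_rho_eq_zero {x y : X} (h : rho H x y = 0) (w : List ℕ) : H w x = H w y := by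
  apply dl_eq_zero
  have := dl_le_rho H w x y
  rw [h] at this
  exact le_antisymm this bot_le

end

theorem lowerSemicontinuous_dl {Y : Type*} [TopologicalSpace Y] {a b : Y → ℝ≥0∞}
    (ha : Continuous a) (hb : Continuous b) : LowerSemicontinuous fun y => dl (a y) (b y) := by
  have key : ∀ {a b : Y → ℝ≥0∞}, Continuous a → Continuous b →
      LowerSemicontinuous fun y => a y - b y := by
    intro a b ha hb
    rw [lowerSemicontinuous_iff_isClosed_preimage]
    intro c
    have : (fun y => a y - b y) ⁻¹' Iic c = {y | a y ≤ c + b y} := by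
      ext y
      simp [tsub_le_iff_right]
    rw [this]
    exact isClosed_le ha (continuous_const.add hb)
  exact (key ha hb).add (key hb ha)

theorem lowerSemicontinuous_rho {X : Type*} [TopologicalSpace X] {H : List ℕ → X → ℝ≥0∞}
    (hH : ∀ w, Continuous (H w)) : LowerSemicontinuous fun p : X × X => rho H p.1 p.2 := by
  unfold rho
  exact lowerSemicontinuous_tsum fun w =>
    lowerSemicontinuous_dl ((hH w).comp continuous_fst) ((hH w).comp continuous_snd)

theorem rho_le_of_tendsto {X : Type*} [TopologicalSpace X] {H : List ℕ → X → ℝ≥0∞}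
    (hH : ∀ w, Continuous (H w)) {ι : Type*} {l : Filter ι} [l.NeBot] {u v : ι → X} {x y : X}
    (hu : Tendsto u l (𝓝 x)) (hv : Tendsto v l (𝓝 y)) {c : ℝ≥0∞}
    (h : ∀ᶠ i in l, rho H (u i) (v i) ≤ c) : rho H x y ≤ c := by
  have hcl : IsClosed {p : X × X | rho H p.1 p.2 ≤ c} :=
    (lowerSemicontinuous_rho hH).isClosed_preimage c
  exact hcl.mem_of_tendsto (hu.prodMk_nhds hv) h

theorem rho_le_of_mem_closure {X : Type*} [TopologicalSpace X] {H : List ℕ → X → ℝ≥0∞}
    (hH : ∀ w, Continuous (H w)) {A : Set X} {c : ℝ≥0∞}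
    (h : ∀ x ∈ A, ∀ y ∈ A, rho H x y ≤ c) {x y : X} (hx : x ∈ closure A) (hy : y ∈ closure A) :
    rho H x y ≤ c := by
  have hcl : IsClosed {p : X × X | rho H p.1 p.2 ≤ c} :=
    (lowerSemicontinuous_rho hH).isClosed_preimage c
  have hsub : A ×ˢ A ⊆ {p : X × X | rho H p.1 p.2 ≤ c} := fun p hp => h _ hp.1 _ hp.2
  have := closure_minimal hsub hcl
  rw [closure_prod_eq] at this
  exact this (show (x, y) ∈ closure A ×ˢ closure A from ⟨hx, hy⟩)

/-- The reading condition `At` is closed. -/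
theorem isClosed_at {X : Type*} [TopologicalSpace X] {H : List ℕ → X → ℝ≥0∞}
    (hH : ∀ w, Continuous (H w)) (w : List ℕ) : IsClosed {x | At H w x} := by
  induction w with
  | nil => simp [At]
  | cons t w ih =>
    have : {x | At H (t :: w) x} = {x | At H w x} ∩ {x | H w x = lam t} := by
      ext x; simp [At]
    rw [this]
    exact ih.inter (isClosed_eq (hH w) continuous_const)

end TopIFS
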