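import Pool.Agent.Lib.H41.IFS.Kap
import Pool.Agent.Lib.H41.IFS.Rho

/-!
# The engine: from rooms to a contracting system
-/

namespace TopIFS

open Set Filter Topology
open scoped ENNReal unitInterval NNReal

theorem lam_ne_zero (t : ℕ) : lam t ≠ 0 := fun h => by
  have := one_le_lam t
  rw [h] at this
  exact absurd this (by simp)

theorem lam_injective : Function.Injective lam := lam_strictMono.injective

/-- The plateau values are isolated away from `∞`. -/
theorem eventually_lam {r : ℝ≥0∞} (hr : r ≠ ∞) : ∀ᶠ r' in 𝓝 r, ∀ t, r' = lam t → r = lam t := by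
  obtain ⟨T, hT⟩ : ∃ T, r < lam T := by
    have := tendsto_lam.eventually (lt_mem_nhds (lt_top_iff_ne_top.2 hr))
    exact this.exists
  have h1 : ∀ᶠ r' in 𝓝 r, r' < lam T := gt_mem_nhds hT
  have h2 : ∀ t ∈ Finset.range T, ∀ᶠ r' in 𝓝 r, (r' = lam t → r = lam t) := by
    intro t _
    by_cases h : r = lam t
    · exact Eventually.of_forall fun _ _ => h
    · filter_upwards [isOpen_ne.mem_nhds (show r ≠ lam t from h)] with r' hr' h'
      exact absurd h' hr'
  rw [← Filter.eventually_all_finset] at h2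
  filter_upwards [h1, h2] with r' h1 h2 t ht
  refine h2 t ?_ ht
  rw [Finset.mem_range]
  rw [ht] at h1
  exact lam_strictMono.lt_iff_lt.1 h1

/-- The data of the engine. -/
structure Eng (X : Type*) [MetricSpace X] where
  H : List ℕ → X → ℝ≥0∞
  hcont : ∀ w, Continuous (H w)
  htree : ∀ t w x, H (t :: w) x ≠ 0 → H w x = lam t
  hinf : ∀ w, ∃ x, H w x = ∞
  R : Type*
  path : R → C(ℝ≥0∞, X)
  child : R → ℕ → R
  region : R → Set X
  tgt : R → Set X
  Lp : R → ℝ≥0
  lvl : R → ℕ
  hLp0 : ∀ V, 0 < Lp V
  hLpc : ∀ V t, Lp (child V t) ≤ Lp V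
  hpr : ∀ V r, path V r ∈ region V
  hcr : ∀ V t, region (child V t) ⊆ region V
  hp0 : ∀ V t, path (child V t) 0 = path V (lam t)
  hlip : ∀ V r r', r ≠ ∞ → r' ≠ ∞ → rho H (path V r) (path V r') ≤ Lp V * dl r r'
  hshrink : ∀ V, ∀ N ∈ 𝓝 (path V ∞), ∀ᶠ t in atTop, region (child V t) ⊆ N
  hcover : ∀ V, tgt V ⊆ {path V ∞} ∪ ⋃ t, tgt (child V t)
  htr : ∀ V, tgt V ⊆ region V
  hlvl : ∀ V t, lvl (child V t) = lvl V + 1
  hsmall : ∀ ε > 0, ∃ n, ∀ V, n ≤ lvl V → ∀ x ∈ region V, ∀ y ∈ region V, dist x y ≤ ε

namespace Eng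
set_option linter.unusedSectionVars false
variable {X : Type*} [MetricSpace X] (E : Eng X)

open Classical in
/-- The finite-stage maps. -/
noncomputable def F : ℕ → E.R → List ℕ → X → X
  | 0, V, _, _ => E.path V 0
  | n + 1, V, w, x =>
    if h : ∃ t, E.H w x = lam t then F n (E.child V h.choose) (h.choose :: w) x
    else E.path V (E.H w x)

theorem F_lam (n : ℕ) (V : E.R) (w : List ℕ) (x : X) (t : ℕ) (h : E.H w x = lam t) :
    E.F (n + 1) V w x = E.F n (E.child V t) (t :: w) x := by
  have h' : ∃ t, E.H w x = lam t := ⟨t, h⟩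
  have ht : h'.choose = t := lam_injective (h'.choose_spec.symm.trans h)
  simp only [F]
  rw [dif_pos h']
  rw [ht]

theorem F_not (n : ℕ) (V : E.R) (w : List ℕ) (x : X) (h : ∀ t, E.H w x ≠ lam t) :
    E.F (n + 1) V w x = E.path V (E.H w x) := by
  simp only [F]
  rw [dif_neg (by push Not; exact h)]

theorem F_zero (n : ℕ) (V : E.R) (w : List ℕ) (x : X) (h : E.H w x = 0) :
    E.F n V w x = E.path V 0 := by
  cases n with
  | zero => rfl
  | succ n =>
    rw [F_not _ _ _ _ _ (fun t => by rw [h]; exact (lam_ne_zero t).symm), h]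

theorem F_child_zero (n : ℕ) (V : E.R) (w : List ℕ) (x : X) (t : ℕ) (h : E.H w x ≠ lam t) :
    E.F n (E.child V t) (t :: w) x = E.path V (lam t) := by
  rw [F_zero _ _ _ _ _ (by by_contra h'; exact h (E.htree _ _ _ h')), E.hp0]

theorem F_mem (n : ℕ) (V : E.R) (w : List ℕ) (x : X) : E.F n V w x ∈ E.region V := by
  induction n generalizing V w with
  | zero => exact E.hpr V 0
  | succ n ih =>
    by_cases h : ∃ t, E.H w x = lam t
    · obtain ⟨t, ht⟩ := h
      rw [F_lam _ _ _ _ _ t ht]
      exact E.hcr V t (ih _ _)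
    · push Not at h
      rw [F_not _ _ _ _ _ h]
      exact E.hpr V _

theorem F_cont (n : ℕ) (V : E.R) (w : List ℕ) : Continuous (E.F n V w) := by
  induction n generalizing V w with
  | zero => exact continuous_const
  | succ n ih =>
    rw [continuous_iff_continuousAt]
    intro x
    unfold ContinuousAt
    by_cases hinf : E.H w x = ∞
    · have hx : E.F (n + 1) V w x = E.path V ∞ := by
        rw [F_not _ _ _ _ _ (fun t => by rw [hinf]; exact (lam_ne_top t).symm), hinf]
      rw [hx]
      intro N hN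
      obtain ⟨T, hT⟩ := eventually_atTop.1 (E.hshrink V N hN)
      have h1 : ∀ᶠ y in 𝓝 x, lam T < E.H w y := by
        apply (E.hcont w).continuousAt.eventually
        rw [hinf]
        exact lt_mem_nhds (lt_top_iff_ne_top.2 (lam_ne_top T))
      have h2 : ∀ᶠ y in 𝓝 x, E.path V (E.H w y) ∈ N := by
        have : ContinuousAt (fun y => E.path V (E.H w y)) x :=
          ((E.path V).continuous.comp (E.hcont w)).continuousAt
        apply this.eventually
        change N ∈ 𝓝 (E.path V (E.H w x))
        rw [hinf]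
        exact hN
      change ∀ᶠ y in 𝓝 x, E.F (n + 1) V w y ∈ N
      filter_upwards [h1, h2] with y h1 h2
      by_cases h : ∃ t, E.H w y = lam t
      · obtain ⟨t, ht⟩ := h
        rw [F_lam _ _ _ _ _ t ht]
        refine hT t ?_ (E.F_mem _ _ _ _)
        rw [ht] at h1
        exact (lam_strictMono.lt_iff_lt.1 h1).le
      · push Not at h
        rw [F_not _ _ _ _ _ h]
        exact h2
    · have hiso : ∀ᶠ y in 𝓝 x, ∀ t, E.H w y = lam t → E.H w x = lam t :=
        (E.hcont w).continuousAt.eventually (eventually_lam hinf)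
      have hpc : ContinuousAt (fun y => E.path V (E.H w y)) x :=
          ((E.path V).continuous.comp (E.hcont w)).continuousAt
      by_cases hx : ∃ t, E.H w x = lam t
      · obtain ⟨t, ht⟩ := hx
        rw [F_lam _ _ _ _ _ t ht]
        intro N hN
        have h3 : ∀ᶠ y in 𝓝 x, E.F n (E.child V t) (t :: w) y ∈ N := (ih _ _).continuousAt hN
        change ∀ᶠ y in 𝓝 x, E.F (n + 1) V w y ∈ N
        by_cases h0 : E.H (t :: w) x = 0
        · rw [F_zero _ _ _ _ _ h0, E.hp0, ← ht] at hN
          have h4 : ∀ᶠ y in 𝓝 x, E.path V (E.H w y) ∈ N := hpc hN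
          filter_upwards [hiso, h3, h4] with y h1 h3 h4
          by_cases h : ∃ t, E.H w y = lam t
          · obtain ⟨t', ht'⟩ := h
            have : t' = t := lam_injective ((h1 t' ht').symm.trans ht)
            rw [this] at ht'
            rw [F_lam _ _ _ _ _ t ht']
            exact h3
          · push Not at h
            rw [F_not _ _ _ _ _ h]
            exact h4
        · have h5 : ∀ᶠ y in 𝓝 x, E.H (t :: w) y ≠ 0 :=
            (E.hcont (t :: w)).continuousAt.eventually (isOpen_ne.mem_nhds h0)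
          filter_upwards [h3, h5] with y h3 h5
          rw [F_lam _ _ _ _ _ t (E.htree _ _ _ h5)]
          exact h3
      · push Not at hx
        rw [F_not _ _ _ _ _ hx]
        intro N hN
        have h4 : ∀ᶠ y in 𝓝 x, E.path V (E.H w y) ∈ N := hpc hN
        change ∀ᶠ y in 𝓝 x, E.F (n + 1) V w y ∈ N
        filter_upwards [hiso, h4] with y h1 h4
        rw [F_not _ _ _ _ _ (fun t ht => hx t (h1 t ht))]
        exact h4

theorem F_common (n m : ℕ) (hnm : n ≤ m) (V : E.R) (w : List ℕ) (x : X) :
    E.F n V w x = E.F m V w x ∨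
      ∃ V', E.lvl V' = E.lvl V + n ∧ E.F n V w x ∈ E.region V' ∧ E.F m V w x ∈ E.region V' := by
  induction n generalizing V w m with
  | zero => exact Or.inr ⟨V, rfl, E.F_mem _ _ _ _, E.F_mem _ _ _ _⟩
  | succ n ih =>
    obtain ⟨m, rfl⟩ : ∃ m', m = m' + 1 := ⟨m - 1, by omega⟩
    by_cases h : ∃ t, E.H w x = lam t
    · obtain ⟨t, ht⟩ := h
      rw [F_lam _ _ _ _ _ t ht, F_lam _ _ _ _ _ t ht]
      rcases ih m (by omega) (E.child V t) (t :: w) with h | ⟨V', h1, h2, h3⟩
      · exact Or.inl h
      · refine Or.inr ⟨V', ?_, h2, h3⟩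
        rw [h1, E.hlvl]; ring
    · push Not at h
      rw [F_not _ _ _ _ _ h, F_not _ _ _ _ _ h]
      exact Or.inl rfl

theorem F_cauchy {ε : ℝ} (hε : 0 < ε) : ∃ N, ∀ n m, N ≤ n → n ≤ m → ∀ V w x,
    dist (E.F n V w x) (E.F m V w x) ≤ ε := by
  obtain ⟨N, hN⟩ := E.hsmall ε hε
  refine ⟨N, fun n m hn hnm V w x => ?_⟩
  rcases E.F_common n m hnm V w x with h | ⟨V', h1, h2, h3⟩
  · rw [h, dist_self]; exact hε.le
  · exact hN V' (by omega) _ h2 _ h3

theorem F_cauchySeq (V : E.R) (w : List ℕ) (x : X) : CauchySeq fun n => E.F n V w x := by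
  rw [Metric.cauchySeq_iff']
  intro ε hε
  obtain ⟨N, hN⟩ := E.F_cauchy (half_pos hε)
  refine ⟨N, fun n hn => ?_⟩
  have := hN N n le_rfl hn V w x
  rw [dist_comm]
  linarith

variable [CompactSpace X]

theorem exists_f : ∃ f : E.R → List ℕ → X → X,
    ∀ V w x, Tendsto (fun n => E.F n V w x) atTop (𝓝 (f V w x)) := by
  choose f hf using fun V w x => cauchySeq_tendsto_of_complete (E.F_cauchySeq V w x)
  exact ⟨f, hf⟩

/-- The limit maps. -/
noncomputable def f : E.R → List ℕ → X → X := E.exists_f.choose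

theorem f_tendsto (V : E.R) (w : List ℕ) (x : X) :
    Tendsto (fun n => E.F n V w x) atTop (𝓝 (E.f V w x)) := E.exists_f.choose_spec V w x

theorem f_cont (V : E.R) (w : List ℕ) : Continuous (E.f V w) := by
  have : TendstoUniformly (fun n => E.F n V w) (E.f V w) atTop := by
    rw [Metric.tendstoUniformly_iff]
    intro ε hε
    obtain ⟨N, hN⟩ := E.F_cauchy (half_pos hε)
    filter_upwards [eventually_ge_atTop N] with n hn x
    have h1 : dist (E.F n V w x) (E.f V w x) ≤ ε / 2 := by
      refine le_of_tendsto (tendsto_const_nhds.dist (E.f_tendsto V w x)) ?_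
      filter_upwards [eventually_ge_atTop n] with m hm
      exact hN n m hn hm V w x
    rw [dist_comm]
    linarith
  exact this.continuous (Frequently.of_forall fun n => E.F_cont n V w)

theorem f_lam (V : E.R) (w : List ℕ) (x : X) (t : ℕ) (h : E.H w x = lam t) :
    E.f V w x = E.f (E.child V t) (t :: w) x := by
  have h1 := (tendsto_add_atTop_iff_nat 1).2 (E.f_tendsto V w x)
  have h2 := E.f_tendsto (E.child V t) (t :: w) x
  refine tendsto_nhds_unique h1 (h2.congr fun n => ?_)
  rw [F_lam _ _ _ _ _ t h]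

theorem f_not (V : E.R) (w : List ℕ) (x : X) (h : ∀ t, E.H w x ≠ lam t) :
    E.f V w x = E.path V (E.H w x) := by
  have h1 := (tendsto_add_atTop_iff_nat 1).2 (E.f_tendsto V w x)
  refine tendsto_nhds_unique h1 (tendsto_const_nhds.congr fun n => ?_)
  rw [F_not _ _ _ _ _ h]

theorem f_mem (V : E.R) (w : List ℕ) (x : X) : E.f V w x ∈ closure (E.region V) :=
  mem_closure_of_tendsto (E.f_tendsto V w x) (Eventually.of_forall fun n => E.F_mem n V w x)

/-- The descendant of a room along an address. -/
def desc (V : E.R) : List ℕ → E.R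
  | [] => V
  | t :: v => E.child (desc V v) t

theorem lvl_desc (V : E.R) (v : List ℕ) : E.lvl (E.desc V v) = E.lvl V + v.length := by
  induction v with
  | nil => rfl
  | cons t v ih => simp only [desc, E.hlvl, ih, List.length_cons]; ring

theorem f_desc (V : E.R) (v : List ℕ) (x : X) (h : At E.H v x) :
    E.f V [] x = E.f (E.desc V v) v x := by
  induction v with
  | nil => rfl
  | cons t v ih => rw [ih h.1, E.f_lam _ _ _ t h.2]; rfl

theorem at_of_ne_zero (v : List ℕ) (x : X) (h : E.H v x ≠ 0) : At E.H v x := by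
  induction v with
  | nil => trivial
  | cons t v ih =>
    have := E.htree _ _ _ h
    exact ⟨ih (by rw [this]; exact lam_ne_zero t), this⟩

theorem f_mem_desc (V : E.R) (v : List ℕ) (x : X) (h : At E.H v x) :
    E.f V [] x ∈ closure (E.region (E.desc V v)) := by
  rw [E.f_desc V v x h]; exact E.f_mem _ _ _

/-! ### Lipschitz property -/

theorem tsum_split (a : List ℕ → ℝ≥0∞) (t t' : ℕ) (htt : t ≠ t') :
    a [] + (∑' v, a (v ++ [t]) + ∑' v, a (v ++ [t'])) ≤ ∑' v, a v := by
  let φ : Unit ⊕ (List ℕ ⊕ List ℕ) → List ℕ :=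
    Sum.elim (fun _ => []) (Sum.elim (fun v => v ++ [t]) (fun v => v ++ [t']))
  have hφ : Function.Injective φ := by
    rintro (⟨⟩ | v | v) (⟨⟩ | v' | v') h <;> simp [φ] at h ⊢
    · exact h
    · exact htt h.2
    · exact htt h.2.symm
    · exact h
  have h1 := ENNReal.tsum_comp_le_tsum_of_injective hφ a
  rw [Summable.tsum_sum ENNReal.summable ENNReal.summable,
    Summable.tsum_sum ENNReal.summable ENNReal.summable] at h1
  simpa [φ] using h1

/-- Part of `rho` below an address. -/
noncomputable def T (w : List ℕ) (x y : X) : ℝ≥0∞ :=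
  ∑' v : List ℕ, dl (E.H (v ++ w) x) (E.H (v ++ w) y)

theorem T_nil (x y : X) : E.T [] x y = rho E.H x y := by simp [T, rho]

theorem T_split (w : List ℕ) (x y : X) (t t' : ℕ) (htt : t ≠ t') :
    dl (E.H w x) (E.H w y) + (E.T (t :: w) x y + E.T (t' :: w) x y) ≤ E.T w x y := by
  have := tsum_split (fun v => dl (E.H (v ++ w) x) (E.H (v ++ w) y)) t t' htt
  simpa [T, List.append_assoc] using this

theorem T_one (w : List ℕ) (x y : X) (t : ℕ) :
    dl (E.H w x) (E.H w y) + E.T (t :: w) x y ≤ E.T w x y :=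
  le_trans (add_le_add le_rfl (le_add_of_nonneg_right bot_le)) (E.T_split w x y t (t + 1) (by omega))

theorem F_lip (n : ℕ) (V : E.R) (w : List ℕ) (x y : X) :
    rho E.H (E.F n V w x) (E.F n V w y) ≤ E.Lp V * E.T w x y := by
  induction n generalizing V w x y with
  | zero => simp [F, rho_self]
  | succ n ih =>
    have hmono : ∀ t, (E.Lp (E.child V t) : ℝ≥0∞) ≤ E.Lp V := fun t => by
      exact_mod_cast E.hLpc V t
    -- the path estimate, also for infinite heights
    have hpath : ∀ r r' : ℝ≥0∞, rho E.H (E.path V r) (E.path V r') ≤ E.Lp V * dl r r' := by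
      intro r r'
      have hL : (E.Lp V : ℝ≥0∞) ≠ 0 := by exact_mod_cast (E.hLp0 V).ne'
      by_cases hr : r = ∞
      · by_cases hr' : r' = ∞
        · rw [hr, hr']; simp [rho_self]
        · rw [hr, dl_top_left hr', ENNReal.mul_top hL]; exact le_top
      · by_cases hr' : r' = ∞
        · rw [hr', dl_top_right hr, ENNReal.mul_top hL]; exact le_top
        · exact E.hlip V r r' hr hr'
    -- distance of `F` to the value at the plateau
    have hch : ∀ x y t, E.H w x = lam t → E.H w y ≠ lam t →
        rho E.H (E.F (n + 1) V w x) (E.path V (lam t)) ≤ E.Lp V * E.T (t :: w) x y := by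
      intro x y t hx hy
      rw [F_lam _ _ _ _ _ t hx, ← E.F_child_zero n V w y t hy]
      exact (ih _ _ _ _).trans (mul_le_mul_left (hmono t) _)
    have hTc : ∀ w x y, E.T w x y = E.T w y x := fun w x y => by
      unfold T; exact tsum_congr fun v => dl_comm _ _
    by_cases hx : ∃ t, E.H w x = lam t
    · obtain ⟨t, hx⟩ := hx
      by_cases hy : ∃ t', E.H w y = lam t'
      · obtain ⟨t', hy⟩ := hy
        by_cases htt : t = t'
        · subst htt
          rw [F_lam _ _ _ _ _ t hx, F_lam _ _ _ _ _ t hy]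
          refine (ih _ _ _ _).trans (mul_le_mul' (hmono t) ?_)
          exact (le_add_of_nonneg_left bot_le).trans (E.T_one w x y t)
        · have h1 := hch x y t hx (by rw [hy]; exact fun h => htt (lam_injective h).symm)
          have h2 := hch y x t' hy (by rw [hx]; exact fun h => htt (lam_injective h))
          rw [hTc] at h2
          have h3 := hpath (E.H w x) (E.H w y)
          have h4 : E.Lp V * (dl (E.H w x) (E.H w y) + (E.T (t :: w) x y + E.T (t' :: w) x y)) ≤
              E.Lp V * E.T w x y := mul_le_mul_right (E.T_split w x y t t' htt) _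
          refine le_trans ?_ h4
          rw [hx, hy] at h3 ⊢
          calc rho E.H (E.F (n + 1) V w x) (E.F (n + 1) V w y)
              ≤ rho E.H (E.F (n + 1) V w x) (E.path V (lam t)) +
                (rho E.H (E.path V (lam t)) (E.path V (lam t')) +
                rho E.H (E.path V (lam t')) (E.F (n + 1) V w y)) :=
                (rho_triangle _ _ _ _).trans (add_le_add le_rfl (rho_triangle _ _ _ _))
            _ ≤ E.Lp V * E.T (t :: w) x y + (E.Lp V * dl (lam t) (lam t') +
                E.Lp V * E.T (t' :: w) x y) := by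
                refine add_le_add h1 (add_le_add h3 ?_)
                rw [rho_comm]; exact h2
            _ = _ := by ring
      · push Not at hy
        have h1 := hch x y t hx (hy t)
        have h3 := hpath (E.H w x) (E.H w y)
        rw [F_not _ _ _ _ _ hy]
        have h4 : E.Lp V * (dl (E.H w x) (E.H w y) + E.T (t :: w) x y) ≤
              E.Lp V * E.T w x y := mul_le_mul_right (E.T_one w x y t) _
        refine le_trans ?_ h4
        rw [hx] at h3 ⊢
        calc rho E.H (E.F (n + 1) V w x) (E.path V (E.H w y))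
            ≤ rho E.H (E.F (n + 1) V w x) (E.path V (lam t)) +
              rho E.H (E.path V (lam t)) (E.path V (E.H w y)) := rho_triangle _ _ _ _
          _ ≤ E.Lp V * E.T (t :: w) x y + E.Lp V * dl (lam t) (E.H w y) := add_le_add h1 h3
          _ = _ := by ring
    · push Not at hx
      by_cases hy : ∃ t', E.H w y = lam t'
      · obtain ⟨t, hy⟩ := hy
        have h1 := hch y x t hy (hx t)
        have h3 := hpath (E.H w x) (E.H w y)
        rw [F_not _ _ _ _ _ hx]
        have h4 : E.Lp V * (dl (E.H w x) (E.H w y) + E.T (t :: w) x y) ≤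
              E.Lp V * E.T w x y := mul_le_mul_right (E.T_one w x y t) _
        refine le_trans ?_ h4
        rw [hTc] at h1
        rw [hy] at h3 ⊢
        calc rho E.H (E.path V (E.H w x)) (E.F (n + 1) V w y)
            ≤ rho E.H (E.path V (E.H w x)) (E.path V (lam t)) +
              rho E.H (E.path V (lam t)) (E.F (n + 1) V w y) := rho_triangle _ _ _ _
          _ ≤ E.Lp V * dl (E.H w x) (lam t) + E.Lp V * E.T (t :: w) x y := by
              refine add_le_add h3 ?_
              rw [rho_comm]; exact h1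
          _ = _ := by ring
      · push Not at hy
        rw [F_not _ _ _ _ _ hx, F_not _ _ _ _ _ hy]
        refine (hpath _ _).trans (mul_le_mul_right ?_ _)
        exact (le_add_of_nonneg_right bot_le).trans (E.T_one w x y 0)

theorem f_lip (V : E.R) (x y : X) :
    rho E.H (E.f V [] x) (E.f V [] y) ≤ E.Lp V * rho E.H x y := by
  rw [← E.T_nil x y]
  exact rho_le_of_tendsto E.hcont (E.f_tendsto V [] x) (E.f_tendsto V [] y)
    (Eventually.of_forall fun n => E.F_lip n V [] x y)

/-! ### Images -/

theorem tgt_subset_range (V : E.R) : E.tgt V ⊆ range (E.f V []) := by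
  intro z hz
  by_contra hcon
  have hno : ∀ x, E.f V [] x ≠ z := fun x hx => hcon ⟨x, hx⟩
  have key : ∀ n, ∃ v : List ℕ, v.length = n ∧ z ∈ E.tgt (E.desc V v) := by
    intro n
    induction n with
    | zero => exact ⟨[], rfl, hz⟩
    | succ n ih =>
      obtain ⟨v, hv, hz⟩ := ih
      rcases E.hcover _ hz with h | h
      · exfalso
        obtain ⟨x, hx⟩ := E.hinf v
        apply hno x
        rw [E.f_desc V v x (E.at_of_ne_zero v x (by rw [hx]; simp)),
          E.f_not _ _ _ (fun t => by rw [hx]; exact (lam_ne_top t).symm), hx]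
        exact h.symm
      · rw [mem_iUnion] at h
        obtain ⟨t, ht⟩ := h
        exact ⟨t :: v, by simp [hv], ht⟩
  have hcl : z ∈ closure (range (E.f V [])) := by
    rw [Metric.mem_closure_iff]
    intro ε hε
    obtain ⟨n, hn⟩ := E.hsmall (ε / 2) (half_pos hε)
    obtain ⟨v, hv, hz'⟩ := key n
    obtain ⟨x, hx⟩ := E.hinf v
    have h1 := E.f_mem_desc V v x (E.at_of_ne_zero v x (by rw [hx]; simp))
    have h2 : ∀ y ∈ closure (E.region (E.desc V v)), dist z y ≤ ε / 2 := by
      have hcl : IsClosed {y | dist z y ≤ ε / 2} :=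
        isClosed_le (continuous_const.dist continuous_id) continuous_const
      intro y hy
      refine closure_minimal (s := E.region (E.desc V v)) ?_ hcl hy
      intro y hy
      exact hn _ (by rw [E.lvl_desc]; omega) _ (E.htr _ hz') _ hy
    refine ⟨_, ⟨x, rfl⟩, ?_⟩
    have := h2 _ h1
    linarith
  rw [(isCompact_range (E.f_cont V [])).isClosed.closure_eq] at hcl
  exact hcon hcl

/-! ### Uniform continuity with respect to `rho` -/

theorem F_congr (n : ℕ) (V : E.R) (w : List ℕ) (x y : X) (h : ∀ w, E.H w x = E.H w y) :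
    E.F n V w x = E.F n V w y := by
  induction n generalizing V w with
  | zero => rfl
  | succ n ih =>
    by_cases hx : ∃ t, E.H w x = lam t
    · obtain ⟨t, hx⟩ := hx
      rw [F_lam _ _ _ _ _ t hx, F_lam _ _ _ _ _ t ((h w).symm.trans hx), ih]
    · push Not at hx
      rw [F_not _ _ _ _ _ hx, F_not _ _ _ _ _ (fun t => by rw [← h w]; exact hx t), h w]

theorem f_congr (V : E.R) (w : List ℕ) (x y : X) (h : ∀ w, E.H w x = E.H w y) :
    E.f V w x = E.f V w y :=
  tendsto_nhds_unique (E.f_tendsto V w x)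
    ((E.f_tendsto V w y).congr fun n => (E.F_congr n V w x y h).symm)

theorem f_uc (V : E.R) {ε : ℝ} (hε : 0 < ε) (M : ℝ≥0) : ∀ᶠ n : ℕ in atTop,
    ∀ x y, rho E.H x y ≤ M / 2 ^ n → dist (E.f V [] x) (E.f V [] y) ≤ ε := by
  let K : Set (X × X) := {p | ε ≤ dist (E.f V [] p.1) (E.f V [] p.2)}
  have hK : IsCompact K := by
    refine IsClosed.isCompact (isClosed_le continuous_const ?_)
    exact ((E.f_cont V []).comp continuous_fst).dist ((E.f_cont V []).comp continuous_snd)
  rcases K.eq_empty_or_nonempty with hKe | hKn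
  · refine Eventually.of_forall fun n x y _ => ?_
    by_contra hcon
    have : (x, y) ∈ K := (not_le.1 hcon).le
    rw [hKe] at this
    exact this
  · obtain ⟨p, hp, hmin⟩ := LowerSemicontinuousOn.exists_isMinOn hKn hK
      ((lowerSemicontinuous_rho E.hcont).lowerSemicontinuousOn K)
    have hpos : rho E.H p.1 p.2 ≠ 0 := by
      intro h0
      have := E.f_congr V [] p.1 p.2 (eq_of_rho_eq_zero E.H h0)
      have h2 : ε ≤ dist (E.f V [] p.1) (E.f V [] p.2) := hp
      rw [this, dist_self] at h2
      linarith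
    have hlim : Tendsto (fun n : ℕ => (M : ℝ≥0∞) / 2 ^ n) atTop (𝓝 0) := by
      have h1 : Tendsto (fun n : ℕ => ((2 : ℝ≥0∞)⁻¹) ^ n) atTop (𝓝 0) :=
        ENNReal.tendsto_pow_atTop_nhds_zero_of_lt_one (by
          rw [ENNReal.inv_lt_one]; norm_num)
      have h2 := ENNReal.Tendsto.const_mul (a := (M : ℝ≥0∞)) h1 (Or.inr ENNReal.coe_ne_top)
      simpa [div_eq_mul_inv, ENNReal.inv_pow] using h2
    filter_upwards [hlim.eventually (gt_mem_nhds (pos_iff_ne_zero.2 hpos))] with n hn x y hxy
    by_contra hcon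
    have hmem : (x, y) ∈ K := (not_le.1 hcon).le
    have := hmin hmem
    exact absurd (this.trans hxy) (not_le.2 hn)

end Eng

end TopIFS
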