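import Pool.Agent.Lib.H41.IFS.Engine

/-!
# The engine: contraction
-/

namespace TopIFS

open Set Filter Topology
open scoped ENNReal unitInterval NNReal

theorem wordMap_append {X ι : Type*} [TopologicalSpace X] (f : ι → C(X, X)) (a b : List ι) (x : X) :
    wordMap f (a ++ b) x = wordMap f a (wordMap f b x) := by
  induction a with
  | nil => rfl
  | cons i a ih => simp [wordMap, ih]

theorem wordMap_uc {X ι : Type*} [MetricSpace X] [CompactSpace X] [Finite ι] (f : ι → C(X, X))
    (m : ℕ) {ε : ℝ} (hε : 0 < ε) : ∃ δ > 0, ∀ l : List ι, l.length = m →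
      ∀ x y, dist x y ≤ δ → dist (wordMap f l x) (wordMap f l y) ≤ ε := by
  induction m generalizing ε with
  | zero =>
    refine ⟨ε, hε, fun l hl x y h => ?_⟩
    rw [List.length_eq_zero_iff] at hl
    subst hl
    exact h
  | succ m ih =>
    have h1 : ∃ δ > 0, ∀ i, ∀ x y, dist x y ≤ δ → dist (f i x) (f i y) ≤ ε := by
      have h2 : ∀ i, ∀ᶠ δ in 𝓝[>] (0 : ℝ), ∀ x y, dist x y ≤ δ → dist (f i x) (f i y) ≤ ε := by
        intro i
        obtain ⟨δ, hδ, h⟩ := Metric.uniformContinuous_iff.1
          (CompactSpace.uniformContinuous_of_continuous (f i).continuous) ε hε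
        filter_upwards [Ioo_mem_nhdsGT hδ] with d hd x y hxy
        exact (h (lt_of_le_of_lt hxy hd.2)).le
      rw [← Filter.eventually_all] at h2
      obtain ⟨δ, h3, h4⟩ := (h2.and self_mem_nhdsWithin).exists
      exact ⟨δ, h4, h3⟩
    obtain ⟨δ, hδ, h1⟩ := h1
    obtain ⟨δ', hδ', h2⟩ := ih hδ
    refine ⟨δ', hδ', fun l hl x y h => ?_⟩
    match l, hl with
    | i :: l, hl => exact h1 i _ _ (h2 l (by simpa using hl) x y h)

namespace Eng
set_option linter.unusedSectionVars false
variable {X : Type*} [MetricSpace X] [CompactSpace X] (E : Eng X)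

/-- The letters. -/
noncomputable def fc {J : Type*} (V : J → E.R) (j : J) : C(X, X) := ⟨E.f (V j) [], E.f_cont (V j) []⟩

/-- Number of contracting letters of a word. -/
def cnt {J : Type*} (V : J → E.R) (l : List J) : ℕ := l.countP fun j => E.lvl (V j) = 1

variable (M : ℝ≥0) (hAt : ∀ V, 1 ≤ E.lvl V →
    (∃ w : List ℕ, w.length = E.lvl V ∧ ∀ x ∈ E.region V, At E.H w x) ∨
      ∀ x ∈ E.region V, ∀ y ∈ E.region V, rho E.H x y ≤ M / 2 ^ E.lvl V)
  {J : Type*} (V : J → E.R)

theorem two_mul_div_pow (n : ℕ) : (2 * M : ℝ≥0∞) / 2 ^ (n + 1) = M / 2 ^ n := by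
  rw [pow_succ, mul_comm (2 ^ n : ℝ≥0∞) 2]
  exact ENNReal.mul_div_mul_left _ _ (by norm_num) (by norm_num)

include hAt in
theorem state
    (hV : ∀ j, (E.lvl (V j) = 1 ∧ E.Lp (V j) ≤ 1 / 2) ∨ (E.lvl (V j) = 0 ∧ E.Lp (V j) ≤ 1))
    (l : List J) :
    (∃ v : List ℕ, v.length = E.cnt V l ∧ ∀ x, At E.H v (wordMap (E.fc V) l x)) ∨
      ∀ x y, rho E.H (wordMap (E.fc V) l x) (wordMap (E.fc V) l y) ≤ (2 * M) / 2 ^ E.cnt V l := by
  induction l with
  | nil => exact Or.inl ⟨[], rfl, fun x => trivial⟩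
  | cons j l ih =>
    have hMM : ∀ n : ℕ, (M : ℝ≥0∞) / 2 ^ n ≤ (2 * M) / 2 ^ n := fun n => by
      apply ENNReal.div_le_div_right
      exact le_mul_of_one_le_left bot_le (by norm_num)
    -- the common part
    have key : ∀ v : List ℕ, 1 ≤ E.lvl (V j) + v.length → (∀ x, At E.H v (wordMap (E.fc V) l x)) →
        (∃ v' : List ℕ, v'.length = E.lvl (V j) + v.length ∧
          ∀ x, At E.H v' (wordMap (E.fc V) (j :: l) x)) ∨
        ∀ x y, rho E.H (wordMap (E.fc V) (j :: l) x) (wordMap (E.fc V) (j :: l) y) ≤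
          (2 * M) / 2 ^ (E.lvl (V j) + v.length) := by
      intro v hv hx
      have hmem : ∀ x, wordMap (E.fc V) (j :: l) x ∈ closure (E.region (E.desc (V j) v)) :=
        fun x => E.f_mem_desc _ _ _ (hx x)
      rcases hAt (E.desc (V j) v) (by rw [E.lvl_desc]; exact hv) with ⟨w, hw, h⟩ | h
      · refine Or.inl ⟨w, by rw [hw, E.lvl_desc], fun x => ?_⟩
        exact closure_minimal (s := E.region (E.desc (V j) v)) (fun y hy => h y hy)
          (isClosed_at E.hcont w) (hmem x)
      · refine Or.inr fun x y => (rho_le_of_mem_closure E.hcont h (hmem x) (hmem y)).trans ?_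
        rw [E.lvl_desc]
        exact hMM _
    rcases hV j with ⟨h1, h2⟩ | ⟨h1, h2⟩
    · have hc : E.cnt V (j :: l) = E.cnt V l + 1 := by
        simp [cnt, h1]
      rw [hc]
      rcases ih with ⟨v, hv, hx⟩ | h
      · have := key v (by omega) hx
        rw [h1, hv, add_comm 1] at this
        exact this
      · right
        intro x y
        refine (E.f_lip (V j) _ _).trans ?_
        rw [two_mul_div_pow]
        calc (E.Lp (V j) : ℝ≥0∞) * rho E.H (wordMap (E.fc V) l x) (wordMap (E.fc V) l y)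
            ≤ ((1 / 2 : ℝ≥0) : ℝ≥0∞) * (2 * M / 2 ^ E.cnt V l) :=
              mul_le_mul' (by exact_mod_cast h2) (h x y)
          _ = (M : ℝ≥0∞) / 2 ^ E.cnt V l := by
              rw [mul_div_assoc, ← mul_assoc]
              have : ((1 / 2 : ℝ≥0) : ℝ≥0∞) * 2 = 1 := by
                rw [show ((1 / 2 : ℝ≥0) : ℝ≥0∞) = 2⁻¹ by
                  rw [one_div, ENNReal.coe_inv (by norm_num)]; norm_num]
                exact ENNReal.inv_mul_cancel (by norm_num) (by norm_num)
              rw [this, one_mul]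
    · have hc : E.cnt V (j :: l) = E.cnt V l := by
        simp [cnt, h1]
      rw [hc]
      rcases ih with ⟨v, hv, hx⟩ | h
      · by_cases h0 : E.cnt V l = 0
        · rw [h0]; exact Or.inl ⟨[], rfl, fun x => trivial⟩
        · have := key v (by omega) hx
          rw [h1, hv, zero_add] at this
          exact this
      · right
        intro x y
        refine (E.f_lip (V j) _ _).trans ?_
        calc (E.Lp (V j) : ℝ≥0∞) * rho E.H (wordMap (E.fc V) l x) (wordMap (E.fc V) l y)
            ≤ 1 * (2 * M / 2 ^ E.cnt V l) :=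
              mul_le_mul' (by exact_mod_cast h2) (h x y)
          _ = _ := one_mul _

/-- Points of large root height are close to each other. -/
theorem root_small (huniq : ∀ x y, E.H [] x = ∞ → E.H [] y = ∞ → x = y) {ε : ℝ} (hε : 0 < ε) :
    ∃ k, ∀ x y, lam k ≤ E.H [] x → lam k ≤ E.H [] y → dist x y ≤ ε := by
  by_contra hcon
  push Not at hcon
  have hne : (⋂ k, {p : X × X | lam k ≤ E.H [] p.1 ∧ lam k ≤ E.H [] p.2 ∧
      ε ≤ dist p.1 p.2}).Nonempty := by
    refine IsCompact.nonempty_iInter_of_sequence_nonempty_isCompact_isClosed _ ?_ ?_ ?_ ?_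
    · intro k p hp
      exact ⟨(lam_strictMono.monotone (Nat.le_succ k)).trans hp.1,
        (lam_strictMono.monotone (Nat.le_succ k)).trans hp.2.1, hp.2.2⟩
    · intro k
      obtain ⟨x, y, h1, h2, h3⟩ := hcon k
      exact ⟨(x, y), h1, h2, h3.le⟩
    · refine IsClosed.isCompact ?_
      exact (isClosed_le continuous_const ((E.hcont []).comp continuous_fst)).inter
        ((isClosed_le continuous_const ((E.hcont []).comp continuous_snd)).inter
          (isClosed_le continuous_const (continuous_fst.dist continuous_snd)))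
    · intro k
      exact (isClosed_le continuous_const ((E.hcont []).comp continuous_fst)).inter
        ((isClosed_le continuous_const ((E.hcont []).comp continuous_snd)).inter
          (isClosed_le continuous_const (continuous_fst.dist continuous_snd)))
  obtain ⟨p, hp⟩ := hne
  rw [mem_iInter] at hp
  have htop : ∀ r : ℝ≥0∞, (∀ k, lam k ≤ r) → r = ∞ := fun r hr =>
    top_le_iff.1 (le_of_tendsto' tendsto_lam hr)
  have heq := huniq p.1 p.2 (htop _ fun k => (hp k).1) (htop _ fun k => (hp k).2.1)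
  have := (hp 0).2.2
  rw [heq, dist_self] at this
  linarith

theorem contract [Finite J] (huniq : ∀ x y, E.H [] x = ∞ → E.H [] y = ∞ → x = y)
    (hAt : ∀ V, 1 ≤ E.lvl V →
      (∃ w : List ℕ, w.length = E.lvl V ∧ ∀ x ∈ E.region V, At E.H w x) ∨
      ∀ x ∈ E.region V, ∀ y ∈ E.region V, rho E.H x y ≤ M / 2 ^ E.lvl V)
    (hV : ∀ j, (E.lvl (V j) = 1 ∧ E.Lp (V j) ≤ 1 / 2) ∨
      (E.lvl (V j) = 0 ∧ E.Lp (V j) ≤ 1 ∧ (∀ r, lam 0 ≤ E.H [] (E.path (V j) r)) ∧
        (∀ s r, lam s ≤ r → lam (s + 1) ≤ E.H [] (E.path (V j) r)) ∧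
        ∀ t, ∀ x ∈ E.region (E.child (V j) t), lam (t + 1) ≤ E.H [] x)) {ε : ℝ} (hε : 0 < ε) :
    ∃ m : ℕ, ∀ l : List J, l.length = m →
        ∀ x y, dist (wordMap (E.fc V) l x) (wordMap (E.fc V) l y) ≤ ε := by
  have hV' : ∀ j, (E.lvl (V j) = 1 ∧ E.Lp (V j) ≤ 1 / 2) ∨
      (E.lvl (V j) = 0 ∧ E.Lp (V j) ≤ 1) := fun j => by
    rcases hV j with h | h
    · exact Or.inl h
    · exact Or.inr ⟨h.1, h.2.1⟩
  -- heights under slow letters
  have hpush : ∀ j, E.lvl (V j) = 0 → (∀ x, lam 0 ≤ E.H [] (E.fc V j x)) ∧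
      ∀ s x, lam s ≤ E.H [] x → lam (s + 1) ≤ E.H [] (E.fc V j x) := by
    intro j hj
    obtain ⟨-, h2, h3, h4, h5⟩ : E.lvl (V j) = 0 ∧ E.Lp (V j) ≤ 1 ∧
        (∀ r, lam 0 ≤ E.H [] (E.path (V j) r)) ∧
        (∀ s r, lam s ≤ r → lam (s + 1) ≤ E.H [] (E.path (V j) r)) ∧
        ∀ t, ∀ x ∈ E.region (E.child (V j) t), lam (t + 1) ≤ E.H [] x := by
      rcases hV j with h | h
      · omega
      · exact h
    have hreg : ∀ x t, E.H [] x = lam t → lam (t + 1) ≤ E.H [] (E.fc V j x) := by
      intro x t hx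
      have h6 : E.fc V j x ∈ closure (E.region (E.child (V j) t)) := by
        change E.f (V j) [] x ∈ _
        rw [E.f_lam _ _ _ t hx]
        exact E.f_mem _ _ _
      exact closure_minimal (s := E.region (E.child (V j) t)) (t := {x | lam (t + 1) ≤ E.H [] x})
        (fun y hy => h5 t y hy) (isClosed_le continuous_const (E.hcont [])) h6
    constructor
    · intro x
      by_cases hx : ∃ t, E.H [] x = lam t
      · obtain ⟨t, hx⟩ := hx
        exact (lam_strictMono.monotone (Nat.zero_le _)).trans (hreg x t hx)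
      · push Not at hx
        change lam 0 ≤ E.H [] (E.f (V j) [] x)
        rw [E.f_not _ _ _ hx]
        exact h3 _
    · intro s x hs
      by_cases hx : ∃ t, E.H [] x = lam t
      · obtain ⟨t, hx⟩ := hx
        refine le_trans ?_ (hreg x t hx)
        rw [hx] at hs
        exact lam_strictMono.monotone (Nat.succ_le_succ (lam_strictMono.le_iff_le.1 hs))
      · push Not at hx
        change lam (s + 1) ≤ E.H [] (E.f (V j) [] x)
        rw [E.f_not _ _ _ hx]
        exact h4 s _ hs
  have hrun : ∀ k, ∀ l : List J, k + 1 ≤ l.length → E.cnt V l = 0 →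
      ∀ x, lam k ≤ E.H [] (wordMap (E.fc V) l x) := by
    intro k
    induction k with
    | zero =>
      intro l hl hc x
      match l, hl with
      | j :: l, _ =>
        have hj : E.lvl (V j) = 0 := by
          rcases hV' j with h | h
          · simp [cnt, h.1] at hc
          · exact h.1
        exact (hpush j hj).1 _
    | succ k ih =>
      intro l hl hc x
      match l, hl with
      | j :: l, hl =>
        have hj : E.lvl (V j) = 0 := by
          rcases hV' j with h | h
          · simp [cnt, h.1] at hc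
          · exact h.1
        have hc' : E.cnt V l = 0 := by simpa [cnt, hj] using hc
        exact (hpush j hj).2 k _ (ih l (by simpa using hl) hc' x)
  -- words with few contracting letters
  have hfew : ∀ r : ℕ, ∀ ε > 0, ∃ m : ℕ, ∀ l : List J, m ≤ l.length → E.cnt V l ≤ r →
      ∀ x y, dist (wordMap (E.fc V) l x) (wordMap (E.fc V) l y) ≤ ε := by
    intro r
    induction r with
    | zero =>
      intro ε hε
      obtain ⟨k, hk⟩ := E.root_small huniq hε
      exact ⟨k + 1, fun l hl hc x y => hk _ _ (hrun k l hl (by omega) x) (hrun k l hl (by omega) y)⟩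
    | succ r ih =>
      intro ε hε
      obtain ⟨m1, h1⟩ := ih ε hε
      obtain ⟨δ, hδ, h2⟩ := wordMap_uc (E.fc V) m1 hε
      obtain ⟨k, hk⟩ := E.root_small huniq hδ
      refine ⟨m1 + (k + 1), fun l hl hc x y => ?_⟩
      have hsplit : l = l.take m1 ++ l.drop m1 := (List.take_append_drop m1 l).symm
      have hlen : (l.take m1).length = m1 := by rw [List.length_take]; omega
      have hcc : E.cnt V l = E.cnt V (l.take m1) + E.cnt V (l.drop m1) := by
        conv_lhs => rw [hsplit]
        simp only [cnt, List.countP_append]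
      rw [hsplit, wordMap_append, wordMap_append]
      by_cases hc1 : E.cnt V (l.take m1) ≤ r
      · exact h1 _ (by omega) hc1 _ _
      · apply h2 _ hlen
        have hl2 : k + 1 ≤ (l.drop m1).length := by rw [List.length_drop]; omega
        exact hk _ _ (hrun k _ hl2 (by omega) x) (hrun k _ hl2 (by omega) y)
  -- uniform constants
  have hU : ∀ᶠ n : ℕ in atTop, ∀ j, ∀ x y, rho E.H x y ≤ (2 * M : ℝ≥0) / 2 ^ n →
      dist (E.f (V j) [] x) (E.f (V j) [] y) ≤ ε := by
    rw [Filter.eventually_all]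
    exact fun j => E.f_uc (V j) hε (2 * M)
  obtain ⟨n1, hn1⟩ := eventually_atTop.1 hU
  obtain ⟨n2, hn2⟩ := E.hsmall ε hε
  obtain ⟨m, hm⟩ := hfew (max n1 n2 + 1) ε hε
  refine ⟨m + 1, fun l hl x y => ?_⟩
  by_cases hc : E.cnt V l ≤ max n1 n2 + 1
  · exact hm l (by omega) hc x y
  · match l, hl with
    | j :: l, hl =>
      have hc' : max n1 n2 ≤ E.cnt V l := by
        rcases hV' j with h | h
        · have : E.cnt V (j :: l) = E.cnt V l + 1 := by simp [cnt, h.1]
          omega
        · have : E.cnt V (j :: l) = E.cnt V l := by simp [cnt, h.1]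
          omega
      rcases E.state M hAt V hV' l with ⟨v, hv, hx⟩ | h
      · have hsm : ∀ y ∈ E.region (E.desc (V j) v), ∀ z ∈ E.region (E.desc (V j) v),
            dist y z ≤ ε := hn2 _ (by rw [E.lvl_desc]; omega)
        have hcl : IsClosed {p : X × X | dist p.1 p.2 ≤ ε} :=
          isClosed_le (continuous_fst.dist continuous_snd) continuous_const
        have hsub : E.region (E.desc (V j) v) ×ˢ E.region (E.desc (V j) v) ⊆
            {p : X × X | dist p.1 p.2 ≤ ε} := fun p hp => hsm _ hp.1 _ hp.2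
        have := closure_minimal hsub hcl
        rw [closure_prod_eq] at this
        exact this (show (_, _) ∈ _ ×ˢ _ from
          ⟨E.f_mem_desc _ _ _ (hx x), E.f_mem_desc _ _ _ (hx y)⟩)
      · exact hn1 (E.cnt V l) (by omega) j _ _ (by simpa using h x y)

end Eng

end TopIFS
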