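import Pool.Agent.Lib.H41.IFS.Defs

/-!
# Metric form of the contraction condition
-/

namespace TopIFS

open Set Filter Topology
open scoped ENNReal unitInterval NNReal

theorem wordMap_map {X : Type*} [TopologicalSpace X] {J K : Type*} (f : J → C(X, X)) (e : K → J)
    (l : List K) : wordMap (fun k => f (e k)) l = wordMap f (l.map e) := by
  induction l with
  | nil => rfl
  | cons i l ih => simp [wordMap, ih]

/-- Metric criterion: finitely many maps whose images cover, such that long compositions have
uniformly small images. -/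
theorem attractor_of_metric {X : Type*} [MetricSpace X] [CompactSpace X] [Nonempty X]
    {J : Type*} [Fintype J]
    (f : J → C(X, X)) (hcov : (⋃ j, range (f j)) = univ)
    (hsmall : ∀ ε > 0, ∃ m : ℕ, ∀ l : List J, l.length = m →
      ∀ x y, dist (wordMap f l x) (wordMap f l y) ≤ ε) : IsTopIFSAttractor X := by
  let e : Fin (Fintype.card J) ≃ J := (Fintype.equivFin J).symm
  refine ⟨Fintype.card J, fun i => f (e i), ?_, ?_⟩
  · rw [← hcov]
    exact e.surjective.iUnion_comp (fun j => range (f j))
  · intro 𝒰 hU hcU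
    obtain ⟨δ, hδ, hL⟩ := lebesgue_number_lemma_of_metric_sUnion (isCompact_univ (X := X)) hU
      (by rw [hcU])
    obtain ⟨m, hm⟩ := hsmall (δ / 2) (half_pos hδ)
    refine ⟨m, fun l hl => ?_⟩
    obtain ⟨x0⟩ := ‹Nonempty X›
    rw [wordMap_map f e l]
    obtain ⟨U, hUU, hball⟩ := hL (wordMap f (l.map e) x0) (mem_univ _)
    refine ⟨U, hUU, ?_⟩
    rintro _ ⟨y, rfl⟩
    apply hball
    rw [Metric.mem_ball]
    have := hm (l.map e) (by simp [hl]) y x0
    linarith

end TopIFS
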