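import Pool.Agent.Lib.H41.IFS.HahnMaz
import Pool.Agent.Lib.H41.IFS.Metric

/-!
# Peano continua with a free arc
-/

namespace TopIFS

open Set Filter Topology
open scoped ENNReal unitInterval NNReal

/-- Systems of maps `p j ∘ u` through the unit interval. -/
theorem attractor_of_factor {X : Type*} [MetricSpace X] [CompactSpace X] [Nonempty X]
    {J : Type*} [Fintype J] (u : C(X, I)) (hu : Function.Surjective u) (p : J → C(I, X))
    (hcov : (⋃ j, range (p j)) = univ)
    (hlip : ∀ j s t, dist (u (p j s)) (u (p j t)) ≤ dist s t / 2) : IsTopIFSAttractor X := by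
  refine attractor_of_metric (J := J) (fun j => (p j).comp u) ?_ ?_
  · rw [eq_univ_iff_forall] at hcov ⊢
    intro x
    obtain ⟨j, s, hs⟩ := mem_iUnion.1 (hcov x)
    obtain ⟨y, hy⟩ := hu s
    refine mem_iUnion.2 ⟨j, y, ?_⟩
    rw [← hs, ← hy]
    rfl
  · intro ε hε
    -- uniform continuity of finitely many paths
    have h1 : ∀ j, ∃ δ > 0, ∀ s t : I, dist s t < δ → dist (p j s) (p j t) < ε := fun j =>
      Metric.uniformContinuous_iff.1 (CompactSpace.uniformContinuous_of_continuous (p j).continuous)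
        ε hε
    choose δ hδ0 hδ using h1
    obtain ⟨δ₀, hδ₀, hle⟩ : ∃ δ₀ > 0, ∀ j, δ₀ ≤ δ j := by
      rcases isEmpty_or_nonempty J with hJ | hJ
      · exact ⟨1, one_pos, fun j => (IsEmpty.false j).elim⟩
      · obtain ⟨j₀, hj₀⟩ := Finite.exists_min δ
        exact ⟨δ j₀, hδ0 j₀, hj₀⟩
    have h2 : ∀ l : List J, ∀ x y : X,
        dist (u (wordMap (fun j => (p j).comp u) l x)) (u (wordMap (fun j => (p j).comp u) l y)) ≤
          (1 / 2 : ℝ) ^ l.length := by
      intro l x y
      induction l with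
      | nil =>
        rw [List.length_nil, pow_zero]
        rw [Subtype.dist_eq, Real.dist_eq, abs_le]
        have h3 := (u (wordMap (fun j => (p j).comp u) [] x)).2
        have h4 := (u (wordMap (fun j => (p j).comp u) [] y)).2
        constructor
        · linarith [h3.1, h4.2]
        · linarith [h3.2, h4.1]
      | cons j l ih =>
        have h3 := hlip j (u (wordMap (fun j => (p j).comp u) l x))
          (u (wordMap (fun j => (p j).comp u) l y))
        rw [List.length_cons, pow_succ]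
        refine h3.trans ?_
        linarith
    obtain ⟨n, hn⟩ := exists_pow_lt_of_lt_one hδ₀ (by norm_num : (1 / 2 : ℝ) < 1)
    refine ⟨n + 1, ?_⟩
    intro l hl x y
    cases l with
    | nil => simp at hl
    | cons j l =>
      have hl' : l.length = n := by simpa using hl
      have h3 := h2 l x y
      rw [hl'] at h3
      exact (hδ j _ _ ((h3.trans_lt hn).trans_le (hle j))).le

section FreeArc

variable {X : Type*} [MetricSpace X]

/-- an injective arc maps open sets that land in the interior of its range to open sets -/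
theorem isOpen_image_arc (α : C(I, X)) (hα : Function.Injective α) {W : Set I} (hW : IsOpen W)
    (hJ : W ⊆ α ⁻¹' interior (range α)) : IsOpen (α '' W) := by
  have h1 : α '' W = interior (range α) ∩ (α '' Wᶜ)ᶜ := by
    ext x
    constructor
    · rintro ⟨s, hs, rfl⟩
      refine ⟨hJ hs, ?_⟩
      rintro ⟨t, ht, hst⟩
      exact ht ((hα hst) ▸ hs)
    · rintro ⟨h1, h2⟩
      obtain ⟨s, rfl⟩ := interior_subset h1
      refine ⟨s, ?_, rfl⟩
      by_contra hs
      exact h2 ⟨s, hs, rfl⟩
  rw [h1]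
  exact isOpen_interior.inter (hW.isClosed_compl.isCompact.image α.continuous).isClosed.isOpen_compl

theorem ordConnected_ball_Iic (a : I) (ε : ℝ) : (Metric.ball a ε ∩ Iic a).OrdConnected := by
  refine ⟨?_⟩
  rintro s ⟨hs, hs'⟩ t ⟨ht, ht'⟩ r hr
  have h1 : (s : ℝ) ≤ r := hr.1
  have h2 : (r : ℝ) ≤ t := hr.2
  have h3 : (t : ℝ) ≤ a := ht'
  refine ⟨?_, hr.2.trans ht'⟩
  rw [Metric.mem_ball, Subtype.dist_eq, Real.dist_eq, abs_lt] at hs ht ⊢
  constructor
  · linarith [hs.1]
  · linarith [ht.2]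

theorem ordConnected_ball_Ici (a : I) (ε : ℝ) : (Metric.ball a ε ∩ Ici a).OrdConnected := by
  refine ⟨?_⟩
  rintro s ⟨hs, hs'⟩ t ⟨ht, ht'⟩ r hr
  have h1 : (s : ℝ) ≤ r := hr.1
  have h2 : (r : ℝ) ≤ t := hr.2
  have h3 : (a : ℝ) ≤ s := hs'
  refine ⟨?_, le_trans hs' hr.1⟩
  rw [Metric.mem_ball, Subtype.dist_eq, Real.dist_eq, abs_lt] at hs ht ⊢
  constructor
  · linarith [hs.1]
  · linarith [ht.2]

/-- local connectedness of the complement of an open free arc at an end of the arc -/
theorem lc_end (α : C(I, X)) (hα : Function.Injective α) {a b t₀ : I}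
    (ht₀ : t₀ ∈ α ⁻¹' interior (range α)) {ε₀ : ℝ} (hε₀ : 0 < ε₀)
    (hS : ∀ ε : ℝ, 0 < ε → ε ≤ ε₀ → (Metric.ball t₀ ε ∩ (Ioo a b)ᶜ).OrdConnected)
    (y : ((α '' Ioo a b)ᶜ : Set X)) (hy : (y : X) = α t₀) (U : Set ((α '' Ioo a b)ᶜ : Set X))
    (hU : U ∈ 𝓝 y) : ∃ V ∈ 𝓝 y, IsPreconnected V ∧ V ⊆ U := by
  rw [nhds_subtype_eq_comap, mem_comap] at hU
  obtain ⟨O, hO, hOU⟩ := hU
  rw [hy] at hO
  have h1 : α ⁻¹' O ∩ α ⁻¹' interior (range α) ∈ 𝓝 t₀ := by
    refine inter_mem (α.continuous.continuousAt hO) ?_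
    exact (isOpen_interior.preimage α.continuous).mem_nhds ht₀
  obtain ⟨ε₁, hε₁, hball⟩ := Metric.mem_nhds_iff.1 h1
  set ε := min ε₀ ε₁ with hε
  have hεpos : 0 < ε := lt_min hε₀ hε₁
  have hb1 : Metric.ball t₀ ε ⊆ α ⁻¹' O ∩ α ⁻¹' interior (range α) :=
    (Metric.ball_subset_ball (min_le_right _ _)).trans hball
  refine ⟨Subtype.val ⁻¹' (α '' Metric.ball t₀ ε), ?_, ?_, ?_⟩
  · refine continuous_subtype_val.continuousAt.preimage_mem_nhds ?_
    rw [hy]
    exact (isOpen_image_arc α hα Metric.isOpen_ball (hb1.trans inter_subset_right)).mem_nhds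
      ⟨t₀, Metric.mem_ball_self hεpos, rfl⟩
  · rw [← IsInducing.subtypeVal.isPreconnected_image]
    have h2 : (Subtype.val '' (Subtype.val ⁻¹' (α '' Metric.ball t₀ ε) :
        Set ((α '' Ioo a b)ᶜ : Set X))) = α '' (Metric.ball t₀ ε ∩ (Ioo a b)ᶜ) := by
      ext x
      constructor
      · rintro ⟨⟨z, hz⟩, ⟨s, hs, hsz⟩, rfl⟩
        refine ⟨s, ⟨hs, fun h => hz ⟨s, h, hsz⟩⟩, hsz⟩
      · rintro ⟨s, ⟨hs, hs'⟩, rfl⟩
        refine ⟨⟨α s, ?_⟩, ⟨s, hs, rfl⟩, rfl⟩
        rintro ⟨t, ht, hts⟩
        exact hs' (hα hts ▸ ht)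
    rw [h2]
    exact ((hS ε hεpos (min_le_left _ _)).isPreconnected).image α α.continuous.continuousOn
  · rintro z ⟨s, hs, hsz⟩
    apply hOU
    show (z : X) ∈ O
    rw [← hsz]
    exact (hb1 hs).1

/-- the complement of an open free arc is locally connected -/
theorem locallyConnected_compl [LocallyConnectedSpace X] (α : C(I, X))
    (hα : Function.Injective α) {a b : I} (hab : a < b) (hJ : Icc a b ⊆ α ⁻¹' interior (range α)) :
    LocallyConnectedSpace ((α '' Ioo a b)ᶜ : Set X) := by
  rw [locallyConnectedSpace_iff_connected_subsets]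
  intro y U hU
  have hd : 0 < (b : ℝ) - a := sub_pos.2 hab
  by_cases hya : (y : X) = α a
  · refine lc_end α hα (hJ (left_mem_Icc.2 hab.le)) hd ?_ y hya U hU
    intro ε hε hεd
    have : Metric.ball a ε ∩ (Ioo a b)ᶜ = Metric.ball a ε ∩ Iic a := by
      ext t
      simp only [mem_inter_iff, mem_compl_iff, mem_Ioo, mem_Iic, not_and, and_congr_right_iff]
      intro ht
      rw [Metric.mem_ball, Subtype.dist_eq, Real.dist_eq, abs_lt] at ht
      constructor
      · intro h
        by_contra hc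
        have h2 := h (not_le.1 hc)
        apply h2
        show (t : ℝ) < b
        linarith [ht.2]
      · intro h h'
        exact absurd h' (not_lt.2 h)
    rw [this]
    exact ordConnected_ball_Iic a ε
  by_cases hyb : (y : X) = α b
  · refine lc_end α hα (hJ (right_mem_Icc.2 hab.le)) hd ?_ y hyb U hU
    intro ε hε hεd
    have : Metric.ball b ε ∩ (Ioo a b)ᶜ = Metric.ball b ε ∩ Ici b := by
      ext t
      simp only [mem_inter_iff, mem_compl_iff, mem_Ioo, mem_Ici, not_and, and_congr_right_iff]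
      intro ht
      rw [Metric.mem_ball, Subtype.dist_eq, Real.dist_eq, abs_lt] at ht
      constructor
      · intro h
        apply not_lt.1
        apply h
        show (a : ℝ) < t
        linarith [ht.1]
      · intro h _
        exact not_lt.2 h
    rw [this]
    exact ordConnected_ball_Ici b ε
  -- a point off the closed arc
  have hyc : (y : X) ∈ (α '' Icc a b)ᶜ := by
    rintro ⟨t, ht, hty⟩
    rcases eq_or_lt_of_le ht.1 with h | h
    · exact hya (by rw [← hty, h])
    rcases eq_or_lt_of_le ht.2 with h' | h'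
    · exact hyb (by rw [← hty, h'])
    · exact y.2 ⟨t, ⟨h, h'⟩, hty⟩
  have hcl : IsClosed (α '' Icc a b) := (isClosed_Icc.isCompact.image α.continuous).isClosed
  rw [nhds_subtype_eq_comap, mem_comap] at hU
  obtain ⟨O, hO, hOU⟩ := hU
  obtain ⟨V, hV, hVp, hVO⟩ := locallyConnectedSpace_iff_connected_subsets.1 ‹_› (y : X)
    (O ∩ (α '' Icc a b)ᶜ) (inter_mem hO (hcl.isOpen_compl.mem_nhds hyc))
  refine ⟨Subtype.val ⁻¹' V, continuous_subtype_val.continuousAt.preimage_mem_nhds hV, ?_, ?_⟩
  · rw [← IsInducing.subtypeVal.isPreconnected_image]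
    have h2 : (Subtype.val '' (Subtype.val ⁻¹' V : Set ((α '' Ioo a b)ᶜ : Set X))) = V := by
      rw [Subtype.image_preimage_coe]
      refine inter_eq_right.2 fun x hx => ?_
      rintro ⟨t, ht, htx⟩
      exact (hVO hx).2 ⟨t, Ioo_subset_Icc_self ht, htx⟩
    rw [h2]
    exact hVp
  · intro z hz
    exact hOU (hVO hz).1

/-- a Peano subspace is covered by one path -/
theorem exists_path_onto {Y : Type*} [MetricSpace Y] [CompactSpace Y] [LocallyConnectedSpace Y]
    (y : Y) : ∃ γ : C(I, Y), range γ = connectedComponent y := by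
  have hcl : IsClopen (connectedComponent y) := isClopen_connectedComponent
  have : CompactSpace (connectedComponent y) := isCompact_iff_compactSpace.1 hcl.1.isCompact
  have : ConnectedSpace (connectedComponent y) :=
    isConnected_iff_connectedSpace.1 isConnected_connectedComponent
  have : LocallyConnectedSpace (connectedComponent y) := hcl.2.locallyConnectedSpace
  obtain ⟨γ, hγ⟩ := exists_surjective_path (connectedComponent y)
  refine ⟨⟨fun s => (γ s : Y), continuous_subtype_val.comp γ.continuous⟩, ?_⟩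
  ext z
  constructor
  · rintro ⟨s, rfl⟩
    exact (γ s).2
  · intro hz
    obtain ⟨s, hs⟩ := hγ ⟨z, hz⟩
    exact ⟨s, congrArg Subtype.val hs⟩

/-- the complement of an open free arc is the union of the components of the two ends -/
theorem mem_component [ConnectedSpace X] [LocallyConnectedSpace X] (α : C(I, X))
    (hα : Function.Injective α) {a b : I} (hab : a < b) (hJ : Icc a b ⊆ α ⁻¹' interior (range α))
    (ya yb : ((α '' Ioo a b)ᶜ : Set X)) (hya : (ya : X) = α a) (hyb : (yb : X) = α b)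
    (y : ((α '' Ioo a b)ᶜ : Set X)) : y ∈ connectedComponent ya ∨ y ∈ connectedComponent yb := by
  have := locallyConnected_compl α hα hab hJ
  by_contra hcon
  push Not at hcon
  have h1 : ya ∉ connectedComponent y := fun h =>
    hcon.1 (connectedComponent_eq h ▸ mem_connectedComponent)
  have h2 : yb ∉ connectedComponent y := fun h =>
    hcon.2 (connectedComponent_eq h ▸ mem_connectedComponent)
  have hclopen : IsClopen (connectedComponent y) := isClopen_connectedComponent
  have hopenArc : IsOpen (α '' Ioo a b) :=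
    isOpen_image_arc α hα isOpen_Ioo (Ioo_subset_Icc_self.trans hJ)
  have hYc : IsClosed ((α '' Ioo a b)ᶜ : Set X) := hopenArc.isClosed_compl
  have hc : IsClosed (Subtype.val '' connectedComponent y : Set X) :=
    hYc.isClosedEmbedding_subtypeVal.isClosedMap _ hclopen.1
  have ho : IsOpen (Subtype.val '' connectedComponent y : Set X) := by
    obtain ⟨O, hO, hOe⟩ := isOpen_induced_iff.1 hclopen.2
    have hcl : IsClosed (α '' Icc a b) := (isClosed_Icc.isCompact.image α.continuous).isClosed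
    have : (Subtype.val '' connectedComponent y : Set X) = O ∩ (α '' Icc a b)ᶜ := by
      rw [← hOe]
      ext x
      constructor
      · rintro ⟨⟨z, hz⟩, hzO, rfl⟩
        refine ⟨hzO, ?_⟩
        rintro ⟨t, ht, htz⟩
        rcases eq_or_lt_of_le ht.1 with h | h
        · apply h1
          have : ya = ⟨z, hz⟩ := Subtype.ext (hya.trans ((congrArg α h).trans htz))
          rw [this, ← hOe]
          exact hzO
        rcases eq_or_lt_of_le ht.2 with h' | h'
        · apply h2
          have : yb = ⟨z, hz⟩ := Subtype.ext (hyb.trans ((congrArg α h'.symm).trans htz))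
          rw [this, ← hOe]
          exact hzO
        · exact hz ⟨t, ⟨h, h'⟩, htz⟩
      · rintro ⟨hxO, hx⟩
        exact ⟨⟨x, fun ⟨t, ht, htx⟩ => hx ⟨t, Ioo_subset_Icc_self ht, htx⟩⟩, hxO, rfl⟩
    rw [this]
    exact hO.inter hcl.isOpen_compl
  have huniv := IsClopen.eq_univ ⟨hc, ho⟩ ⟨y, y, mem_connectedComponent, rfl⟩
  have : (ya : X) ∈ (Subtype.val '' connectedComponent y : Set X) := by rw [huniv]; trivial
  obtain ⟨z, hz, hze⟩ := this
  exact h1 ((Subtype.ext hze : z = ya) ▸ hz)

/-- the tent function of the interval `[a, b]` -/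
noncomputable def tent (a b : I) (s : I) : ℝ := max 0 (1 - |2 * ((s : ℝ) - a) / (b - a) - 1|)

theorem tent_continuous (a b : I) : Continuous (tent a b) := by
  unfold tent
  fun_prop

theorem tent_mem (a b : I) (s : I) : tent a b s ∈ Icc (0 : ℝ) 1 := by
  unfold tent
  refine ⟨le_max_left _ _, max_le zero_le_one ?_⟩
  linarith [abs_nonneg (2 * ((s : ℝ) - a) / (b - a) - 1)]

theorem tent_off {a b : I} (hab : a < b) {s : I} (hs : s ∉ Ioo a b) : tent a b s = 0 := by
  unfold tent
  have hd : 0 < (b : ℝ) - a := sub_pos.2 hab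
  apply max_eq_left
  rw [sub_nonpos]
  rw [mem_Ioo, not_and_or, not_lt, not_lt] at hs
  rcases hs with h | h
  · have h' : (s : ℝ) ≤ a := h
    have h2 : 2 * ((s : ℝ) - a) / (b - a) ≤ 0 :=
      div_nonpos_of_nonpos_of_nonneg (by linarith) hd.le
    rw [abs_of_nonpos (by linarith)]
    linarith
  · have h' : (b : ℝ) ≤ s := h
    have h2 : 2 ≤ 2 * ((s : ℝ) - a) / (b - a) := by
      rw [le_div_iff₀ hd]; linarith
    rw [abs_of_nonneg (by linarith)]
    linarith

/-- on the arc, in the parameter `x ∈ [0, 1]` -/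
theorem tent_param {a b : I} (hab : a < b) (s : I) {x : ℝ} (hx : (s : ℝ) = a + (b - a) * x) :
    tent a b s = max 0 (1 - |2 * x - 1|) := by
  unfold tent
  have hd : (b : ℝ) - a ≠ 0 := (sub_pos.2 (show (a : ℝ) < b from hab)).ne'
  rw [hx]
  congr 3
  field_simp
  ring

open Classical in
/-- the function `u` -/
noncomputable def ufun (α : C(I, X)) (a b : I) (x : X) : ℝ :=
  if h : ∃ s, α s = x then tent a b h.choose else 0

theorem ufun_arc (α : C(I, X)) (hα : Function.Injective α) (a b : I) (s : I) :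
    ufun α a b (α s) = tent a b s := by
  have h : ∃ s', α s' = α s := ⟨s, rfl⟩
  unfold ufun
  rw [dif_pos h, hα h.choose_spec]

theorem ufun_off (α : C(I, X)) (hα : Function.Injective α) {a b : I} (hab : a < b) {x : X}
    (hx : x ∉ α '' Ioo a b) : ufun α a b x = 0 := by
  by_cases h : ∃ s, α s = x
  · obtain ⟨s, rfl⟩ := h
    rw [ufun_arc α hα]
    exact tent_off hab fun hs => hx ⟨s, hs, rfl⟩
  · unfold ufun
    rw [dif_neg h]

theorem ufun_continuous (α : C(I, X)) (hα : Function.Injective α) {a b : I} (hab : a < b)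
    (hJ : Icc a b ⊆ α ⁻¹' interior (range α)) : Continuous (ufun α a b) := by
  rw [continuous_iff_isClosed]
  intro C hC
  have hYc : IsClosed ((α '' Ioo a b)ᶜ : Set X) :=
    (isOpen_image_arc α hα isOpen_Ioo (Ioo_subset_Icc_self.trans hJ)).isClosed_compl
  have h1 : IsClosed (α '' (tent a b ⁻¹' C)) :=
    ((hC.preimage (tent_continuous a b)).isCompact.image α.continuous).isClosed
  by_cases h0 : (0 : ℝ) ∈ C
  · have : ufun α a b ⁻¹' C = α '' (tent a b ⁻¹' C) ∪ (α '' Ioo a b)ᶜ := by
      ext x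
      constructor
      · intro hx
        by_cases h : x ∈ α '' Ioo a b
        · obtain ⟨s, _, rfl⟩ := h
          left
          refine ⟨s, ?_, rfl⟩
          rw [mem_preimage, ufun_arc α hα] at hx
          exact hx
        · exact Or.inr h
      · rintro (⟨s, hs, rfl⟩ | hx)
        · rw [mem_preimage, ufun_arc α hα]
          exact hs
        · rw [mem_preimage, ufun_off α hα hab hx]
          exact h0
    rw [this]
    exact h1.union hYc
  · have : ufun α a b ⁻¹' C = α '' (tent a b ⁻¹' C) := by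
      ext x
      constructor
      · intro hx
        by_cases h : x ∈ α '' Ioo a b
        · obtain ⟨s, _, rfl⟩ := h
          refine ⟨s, ?_, rfl⟩
          rw [mem_preimage, ufun_arc α hα] at hx
          exact hx
        · rw [mem_preimage, ufun_off α hα hab h] at hx
          exact absurd hx h0
      · rintro ⟨s, hs, rfl⟩
        rw [mem_preimage, ufun_arc α hα]
        exact hs
    rw [this]
    exact h1

theorem ufun_mem (α : C(I, X)) (a b : I) (x : X) : ufun α a b x ∈ Icc (0 : ℝ) 1 := by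
  unfold ufun
  split_ifs
  · exact tent_mem _ _ _
  · exact ⟨le_rfl, zero_le_one⟩

/-- the parameter `a + (b - a) (j + s) / 4` -/
theorem param_mem (a b : I) (hab : a < b) (j : Fin 4) (s : I) :
    (a : ℝ) + (b - a) * (((j : ℕ) + s) / 4) ∈ Icc (0 : ℝ) 1 := by
  have hd : 0 < (b : ℝ) - a := sub_pos.2 hab
  have h1 := s.2.1
  have h2 := s.2.2
  have h3 : ((j : ℕ) : ℝ) ≤ 3 := by
    have : (j : ℕ) ≤ 3 := by omega
    exact_mod_cast this
  have h4 : (0 : ℝ) ≤ ((j : ℕ) : ℝ) := Nat.cast_nonneg _
  have h5 : 0 ≤ (((j : ℕ) : ℝ) + s) / 4 := by positivity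
  have h6 : (((j : ℕ) : ℝ) + s) / 4 ≤ 1 := by
    rw [div_le_one (by norm_num)]
    linarith
  constructor
  · have := a.2.1
    have := mul_nonneg hd.le h5
    linarith
  · have := b.2.2
    nlinarith

end FreeArc

/-- A Peano continuum containing an arc with nonempty interior is a topological IFS-attractor. -/
theorem attractor_of_free_arc (X : Type*) [MetricSpace X] [CompactSpace X] [ConnectedSpace X]
    [LocallyConnectedSpace X] (α : C(I, X)) (hα : Function.Injective α)
    (hint : (interior (range α)).Nonempty) : IsTopIFSAttractor X := by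
  -- a closed interval of parameters that lands in the interior
  obtain ⟨a, b, hab, hJ⟩ : ∃ a b : I, a < b ∧ Icc a b ⊆ α ⁻¹' interior (range α) := by
    obtain ⟨x, hx⟩ := hint
    obtain ⟨s, rfl⟩ := interior_subset hx
    have hopen : IsOpen (α ⁻¹' interior (range α)) := isOpen_interior.preimage α.continuous
    have hs : α ⁻¹' interior (range α) ∈ 𝓝 s := hopen.mem_nhds hx
    rcases lt_or_ge s 1 with h | h
    · obtain ⟨u, hu, hsub⟩ := exists_Ico_subset_of_mem_nhds hs ⟨1, h⟩
      obtain ⟨b, hb, hbu⟩ := exists_between hu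
      exact ⟨s, b, hb, fun t ht => hsub ⟨ht.1, ht.2.trans_lt hbu⟩⟩
    · have hs1 : s = 1 := le_antisymm s.2.2 h
      have h01 : (0 : I) < s := by rw [hs1]; exact zero_lt_one
      obtain ⟨u, hu, hsub⟩ := exists_Ioc_subset_of_mem_nhds hs ⟨0, h01⟩
      obtain ⟨a, ha, hau⟩ := exists_between hu
      exact ⟨a, s, hau, fun t ht => hsub ⟨ha.trans_le ht.1, ht.2⟩⟩
  have hYo : IsOpen (α '' Ioo a b) := isOpen_image_arc α hα isOpen_Ioo (Ioo_subset_Icc_self.trans hJ)
  have hYc : IsClosed ((α '' Ioo a b)ᶜ : Set X) := hYo.isClosed_compl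
  have : CompactSpace ((α '' Ioo a b)ᶜ : Set X) := isCompact_iff_compactSpace.1 hYc.isCompact
  have := locallyConnected_compl α hα hab hJ
  have hnot : ∀ t, t ∉ Ioo a b → α t ∈ ((α '' Ioo a b)ᶜ : Set X) := by
    rintro t ht ⟨s, hs, hst⟩
    exact ht (hα hst ▸ hs)
  let ya : ((α '' Ioo a b)ᶜ : Set X) := ⟨α a, hnot a fun h => lt_irrefl _ h.1⟩
  let yb : ((α '' Ioo a b)ᶜ : Set X) := ⟨α b, hnot b fun h => lt_irrefl _ h.2⟩
  obtain ⟨γa, hγa⟩ := exists_path_onto ya
  obtain ⟨γb, hγb⟩ := exists_path_onto yb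
  let u : C(X, I) := ⟨fun x => ⟨ufun α a b x, ufun_mem α a b x⟩,
    (ufun_continuous α hα hab hJ).subtype_mk _⟩
  let pa : C(I, X) := ⟨fun s => (γa s : X), continuous_subtype_val.comp γa.continuous⟩
  let pb : C(I, X) := ⟨fun s => (γb s : X), continuous_subtype_val.comp γb.continuous⟩
  let c : Fin 4 → I → I := fun j s => ⟨_, param_mem a b hab j s⟩
  have hc : ∀ j, Continuous (c j) := by
    intro j
    refine Continuous.subtype_mk ?_ _
    fun_prop
  let q : Fin 4 → C(I, X) := fun j => ⟨fun s => α (c j s), α.continuous.comp (hc j)⟩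
  have hd : 0 < (b : ℝ) - a := sub_pos.2 hab
  have huq : ∀ j s, (u (q j s) : ℝ) = max 0 (1 - |2 * ((((j : ℕ) : ℝ) + s) / 4) - 1|) := by
    intro j s
    show ufun α a b (α (c j s)) = _
    rw [ufun_arc α hα]
    exact tent_param hab _ rfl
  have huoff : ∀ x : ((α '' Ioo a b)ᶜ : Set X), (u (x : X) : ℝ) = 0 := fun x =>
    ufun_off α hα hab x.2
  have hcovq : ∀ t ∈ Icc a b, ∃ j s, q j s = α t := by
    intro t ht
    have h1 : (a : ℝ) ≤ t := ht.1
    have h2 : (t : ℝ) ≤ b := ht.2
    set x : ℝ := 4 * ((t : ℝ) - a) / (b - a) with hx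
    have hx0 : 0 ≤ x := div_nonneg (by linarith) hd.le
    have hx4 : x ≤ 4 := by
      rw [hx, div_le_iff₀ hd]
      linarith
    have key : ∀ (j : Fin 4) (s : I), ((j : ℕ) : ℝ) + s = x → q j s = α t := by
      intro j s hjs
      show α (c j s) = α t
      congr 1
      apply Subtype.ext
      show (a : ℝ) + (b - a) * ((((j : ℕ) : ℝ) + s) / 4) = t
      rw [hjs, hx]
      field_simp
      ring
    rcases le_or_gt x 1 with g1 | g1
    · exact ⟨0, ⟨x, hx0, g1⟩, key _ _ (by simp)⟩
    rcases le_or_gt x 2 with g2 | g2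
    · exact ⟨1, ⟨x - 1, by linarith, by linarith⟩, key _ _ (by simp)⟩
    rcases le_or_gt x 3 with g3 | g3
    · refine ⟨2, ⟨x - 2, by linarith, by linarith⟩, key _ _ ?_⟩
      show (((2 : Fin 4) : ℕ) : ℝ) + (x - 2) = x
      norm_num
    · refine ⟨3, ⟨x - 3, by linarith, by linarith⟩, key _ _ ?_⟩
      show (((3 : Fin 4) : ℕ) : ℝ) + (x - 3) = x
      norm_num
  obtain ⟨x₀⟩ := (inferInstance : Nonempty X)
  refine attractor_of_factor (J := Fin 4 ⊕ Bool) u ?_
    (fun j => Sum.elim q (fun k => if k = true then pa else pb) j) ?_ ?_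
  · intro s
    -- `s = tent` at `a + (b - a) s / 2`
    have h1 := s.2.1
    have h2 := s.2.2
    have h3 : (a : ℝ) + (b - a) * ((s : ℝ) / 2) ∈ Icc (0 : ℝ) 1 := by
      constructor
      · have := a.2.1
        have := mul_nonneg hd.le (show (0 : ℝ) ≤ (s : ℝ) / 2 by linarith)
        linarith
      · have := b.2.2
        nlinarith
    refine ⟨α ⟨_, h3⟩, ?_⟩
    apply Subtype.ext
    show ufun α a b (α ⟨_, h3⟩) = s
    rw [ufun_arc α hα, tent_param hab _ rfl, show 2 * ((s : ℝ) / 2) - 1 = s - 1 by ring,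
      abs_of_nonpos (by linarith)]
    rw [max_eq_right (by linarith)]
    ring
  · rw [eq_univ_iff_forall]
    intro x
    by_cases hx : x ∈ α '' Ioo a b
    · obtain ⟨t, ht, rfl⟩ := hx
      obtain ⟨j, s, hs⟩ := hcovq t (Ioo_subset_Icc_self ht)
      exact mem_iUnion.2 ⟨Sum.inl j, s, hs⟩
    · rcases mem_component α hα hab hJ ya yb rfl rfl ⟨x, hx⟩ with h | h
      · rw [← hγa] at h
        obtain ⟨s, hs⟩ := h
        refine mem_iUnion.2 ⟨Sum.inr true, s, ?_⟩
        show (γa s : X) = x
        rw [hs]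
      · rw [← hγb] at h
        obtain ⟨s, hs⟩ := h
        refine mem_iUnion.2 ⟨Sum.inr false, s, ?_⟩
        show (γb s : X) = x
        rw [hs]
  · have hzero : ∀ (γ : C(I, ((α '' Ioo a b)ᶜ : Set X))) (s t : I),
        dist (u (γ s : X)) (u (γ t : X)) ≤ dist s t / 2 := by
      intro γ s t
      have : u (γ s : X) = u (γ t : X) := Subtype.ext ((huoff (γ s)).trans (huoff (γ t)).symm)
      rw [this, dist_self]
      positivity
    rintro (j | k) s t
    · show dist (u (q j s)) (u (q j t)) ≤ _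
      rw [Subtype.dist_eq, Real.dist_eq, huq, huq, Subtype.dist_eq, Real.dist_eq]
      have h1 : ∀ x y : ℝ, |max 0 (1 - |x|) - max 0 (1 - |y|)| ≤ |x - y| := by
        intro x y
        calc |max 0 (1 - |x|) - max 0 (1 - |y|)| ≤ |(1 - |x|) - (1 - |y|)| := by
              have := abs_max_sub_max_le_abs (1 - |x|) (1 - |y|) 0
              rwa [max_comm _ 0, max_comm _ 0] at this
          _ = abs (|y| - |x|) := by congr 1; ring
          _ ≤ |y - x| := abs_abs_sub_abs_le _ _
          _ = |x - y| := abs_sub_comm _ _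
      refine (h1 _ _).trans ?_
      have h2 : 2 * ((((j : ℕ) : ℝ) + s) / 4) - 1 - (2 * ((((j : ℕ) : ℝ) + t) / 4) - 1) =
          ((s : ℝ) - t) / 2 := by ring
      rw [h2, abs_div, abs_of_pos (show (0 : ℝ) < 2 by norm_num)]
    · cases k with
      | true => exact hzero γa s t
      | false => exact hzero γb s t

end TopIFS
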