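import Pool.Agent.Lib.H41.IFS.Nodes

/-!
# Existence of the geometric data
-/

namespace TopIFS

open Set Filter Topology
open scoped ENNReal unitInterval NNReal

section
variable {X : Type*} [MetricSpace X] (B : Base X)

/-- The root node. -/
def Base.root : ND X := ⟨univ, univ, B.x0, B.q 0, 1, B.φ⟩

theorem Base.root_fine : B.root.Fine B where
  r_pos := one_pos
  φ0 := B.hφ0
  φz := B.hφz
  xD := B.hx0
  big := B.hφ1

theorem Base.mem_P (t : ℕ) : B.q (B.s t) ∈ B.root.P t := by
  have h4 : (0 : ℝ) < 4 ^ t := by positivity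
  change (1 : ℝ) / 4 ^ (t + 1) < B.φ (B.q (B.s t)) ∧ B.φ (B.q (B.s t)) < 1 / (2 * 4 ^ t)
  rw [B.hφs]
  constructor
  · rw [div_div, div_lt_div_iff₀ (by positivity) (by positivity), pow_succ]
    nlinarith
  · rw [div_div, div_lt_div_iff₀ (by positivity) (by positivity)]
    nlinarith

theorem pow4_anti {m n : ℕ} (h : m ≤ n) : (1 : ℝ) / 4 ^ n ≤ 1 / 4 ^ m :=
  one_div_le_one_div_of_le (by positivity) (pow_le_pow_right₀ (by norm_num) h)

variable [CompactSpace X] [ConnectedSpace X] [LocallyConnectedSpace X] [Nontrivial X]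

theorem exists_first (hX : NFA X) : ∃ (first : ℕ → ND X) (W' : ℕ → Set X),
    (∀ t, (first t).Nice B (Encodable.encode [t]) 1 ∧ (first t).O ⊆ B.root.P t) ∧
    (∀ t, (first t).y = B.q (B.s t)) ∧
    (∀ t, IsOpen (W' t) ∧ IsPreconnected (W' t) ∧ W' t ⊆ B.W t ∧ B.q (B.s (t + 3)) ∈ W' t) ∧
    (∀ t x, 1 / 4 ^ (t + 5) ≤ B.φ x → B.φ x ≤ 1 / (2 * 4 ^ (t + 3)) →
      (∀ s, x ∉ interior (first s).K) → x ∈ W' t) ∧
    ∀ t s, ∀ x ∈ W' t, (first s).r ≤ (first s).φ x := by
  choose O K x h1 h2 h3 h4 h5 h6 h7 h8 h9 h10 using fun t => exists_small_node hX B.L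
    (fun n => (B.hG n).injective) B.D B.hDc (B.root.P t) (B.root.isOpen_P t) (B.q (B.s t))
    (B.mem_P t) ((1 / 2) ^ 1) (by positivity)
  have hxP : ∀ t, x t ∈ B.root.P t := fun t => h4 t (h7 t (interior_subset (h8 t)))
  let Z : ℕ → Set X := fun t => x '' {s | s < t + 8}
  have hZfin : ∀ t, (Z t).Finite := fun t => (finite_lt_nat _).image x
  have hx0W : ∀ t, B.x0 ∉ B.W t := fun t h => by
    have := (B.hW2 t _ h).1
    rw [(B.hφz _).2 rfl] at this
    have h4 : (0 : ℝ) < 1 / 4 ^ (t + 8) := by positivity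
    linarith
  have hUo : ∀ t, IsOpen (B.W t \ Z t) := fun t => (B.hWo t).sdiff (hZfin t).isClosed
  have hUc : ∀ t, IsPreconnected (B.W t \ Z t) := fun t => by
    refine preconn_diff B.L B.D (B.W t) (Z t) B.hDd (B.hWo t)
      (B.hconn _ (B.hWo t) (B.hWc t) (hx0W t)) (fun n => ?_) ?_
    · rw [Set.disjoint_left]
      rintro _ ⟨s, -, rfl⟩
      exact h10 s n
    · rw [Set.disjoint_left]
      rintro _ ⟨s, -, rfl⟩
      exact h9 s
  let C : ℕ → Set X := fun t => ({z | 1 / 4 ^ (t + 5) ≤ B.φ z ∧ B.φ z ≤ 1 / (2 * 4 ^ (t + 3))} ∩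
    ⋂ s, (interior (K s))ᶜ) ∪ {B.q (B.s (t + 3))}
  have hC : ∀ t, IsCompact (C t) := fun t => by
    refine IsClosed.isCompact (IsClosed.union (IsClosed.inter ?_ ?_) isClosed_singleton)
    · exact (isClosed_le continuous_const B.φ.continuous).inter
        (isClosed_le B.φ.continuous continuous_const)
    · exact isClosed_iInter fun s => isOpen_interior.isClosed_compl
  have hqs : ∀ t : ℕ, (1 : ℝ) / 4 ^ (t + 5) ≤ B.φ (B.q (B.s (t + 3))) ∧
      B.φ (B.q (B.s (t + 3))) ≤ 1 / (2 * 4 ^ (t + 3)) := fun t => by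
    have hh := B.mem_P (t + 3)
    change (1 : ℝ) / 4 ^ (t + 3 + 1) < _ ∧ _ < 1 / (2 * 4 ^ (t + 3)) at hh
    exact ⟨(pow4_anti (by omega)).trans hh.1.le, hh.2.le⟩
  have hCU : ∀ t, C t ⊆ B.W t \ Z t := by
    rintro t z (⟨⟨hz1, hz2⟩, hz3⟩ | hz)
    · refine ⟨B.hW1 t z hz1 hz2, ?_⟩
      rintro ⟨s, -, rfl⟩
      rw [mem_iInter] at hz3
      exact hz3 s (h8 s)
    · rw [mem_singleton_iff] at hz
      subst hz
      refine ⟨B.hW1 t _ (hqs t).1 (hqs t).2, ?_⟩
      rintro ⟨s, -, hs⟩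
      apply h9 s
      rw [hs]
      exact B.hsD _
  choose W' w1 w2 w3 w4 using fun t => exists_conn_nbhd (C t) _ (hC t) (hUo t) (hUc t) (hCU t)
  -- the neighbourhoods inside which the supports are chosen
  let N : ℕ → Set X := fun s => interior (K s) ∩ (⋃ t ∈ {t | t < s + 1}, closure (W' t))ᶜ
  have hNo : ∀ s, IsOpen (N s) := fun s =>
    isOpen_interior.inter ((finite_lt_nat _).isClosed_biUnion fun t _ => isClosed_closure).isOpen_compl
  have hxN : ∀ s, x s ∈ N s := by
    intro s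
    refine ⟨h8 s, ?_⟩
    simp only [mem_compl_iff, mem_iUnion, not_exists]
    intro t _ hcl
    have hU := w4 t hcl
    by_cases hst : s < t + 8
    · exact hU.2 ⟨s, hst, rfl⟩
    · have e1 := (B.hW2 t _ hU.1).1
      have e2 : B.φ (x s) < 1 / (2 * 4 ^ s) := (hxP s).2
      have e3 : (1 : ℝ) / 4 ^ s ≤ 1 / 4 ^ (t + 8) := pow4_anti (by omega)
      have e4 : (1 : ℝ) / (2 * 4 ^ s) = 1 / 2 * (1 / 4 ^ s) := by field_simp
      have e5 : (0 : ℝ) < 1 / 4 ^ s := by positivity
      linarith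
  choose first f1 f2 f3 f4 f5 f6 using fun s => finish_node B (Encodable.encode [s]) 1 (O s) (K s)
    (x s) (B.q (B.s s)) (h1 s) (h2 s) (h6 s) (h7 s) ⟨B.hsD s, h3 s⟩ (h5 s) (h9 s) (h10 s) (N s)
    (hNo s) (hxN s) inter_subset_left
  refine ⟨first, W', fun t => ⟨f5 t, (f1 t).symm ▸ h4 t⟩, f4, fun t => ⟨w1 t, w2 t, ?_, ?_⟩, ?_, ?_⟩
  · exact fun z hz => (w4 t (subset_closure hz)).1
  · exact w3 t (Or.inr rfl)
  · intro t z hz1 hz2 hz3
    apply w3 t
    refine Or.inl ⟨⟨hz1, hz2⟩, ?_⟩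
    rw [mem_iInter]
    intro s
    have := hz3 s
    rwa [f2] at this
  · intro t s z hz
    by_contra hcon
    have hzN := f6 s (show z ∈ {z | (first s).φ z ≤ (first s).r} from (not_le.1 hcon).le)
    by_cases hts : t < s + 1
    · apply hzN.2
      simp only [mem_iUnion]
      exact ⟨t, hts, subset_closure hz⟩
    · have e1 : 1 / 4 ^ (s + 1) < B.φ z := (h4 s (h7 s (interior_subset hzN.1))).1
      have e2 := (B.hW2 t z (w4 t (subset_closure hz)).1).2
      have e3 : (1 : ℝ) / 4 ^ (t + 1) ≤ 1 / 4 ^ (s + 1) := pow4_anti (by omega)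
      have e4 : (1 : ℝ) / (2 * 4 ^ (t + 1)) = 1 / 2 * (1 / 4 ^ (t + 1)) := by field_simp
      have e5 : (0 : ℝ) < 1 / 4 ^ (t + 1) := by positivity
      linarith

end

/-! ### Heights -/

section
variable {X : Type*} [MetricSpace X] (B : Base X)

/-- The tree of nodes with all its properties. -/
structure Tree where
  nd : List ℕ → ND X
  W' : ℕ → Set X
  root : nd [] = B.root
  nice : ∀ t w, (nd (t :: w)).Nice B (Encodable.encode (t :: w)) (w.length + 1)
  sub : ∀ t w, (nd (t :: w)).O ⊆ (nd w).P t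
  y1 : ∀ t, (nd [t]).y = B.q (B.s t)
  Wo : ∀ t, IsOpen (W' t)
  Wc : ∀ t, IsPreconnected (W' t)
  Ws : ∀ t, W' t ⊆ B.W t
  Wy : ∀ t, B.q (B.s (t + 3)) ∈ W' t
  Wsh : ∀ t x, 1 / 4 ^ (t + 5) ≤ B.φ x → B.φ x ≤ 1 / (2 * 4 ^ (t + 3)) →
      (∀ s, x ∉ interior (nd [s]).K) → x ∈ W' t
  Wz : ∀ t s, ∀ x ∈ W' t, (nd [s]).r ≤ (nd [s]).φ x

theorem exists_tree [CompactSpace X] [ConnectedSpace X] [LocallyConnectedSpace X] [Nontrivial X]
    (hX : NFA X) : Nonempty (Tree B) := by
  obtain ⟨first, W', f1, f2, f3, f4, f5⟩ := exists_first B hX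
  obtain ⟨nd, n0, n1, n2⟩ := exists_nodes B hX B.root B.root_fine first f1
  exact ⟨{
    nd := nd, W' := W', root := n0, nice := fun t w => (n2 t w).1, sub := fun t w => (n2 t w).2
    y1 := fun t => by rw [n1]; exact f2 t
    Wo := fun t => (f3 t).1, Wc := fun t => (f3 t).2.1, Ws := fun t => (f3 t).2.2.1
    Wy := fun t => (f3 t).2.2.2
    Wsh := fun t x h1 h2 h3 => f4 t x h1 h2 fun s => by rw [← n1]; exact h3 s
    Wz := fun t s x hx => by rw [n1]; exact f5 t s x hx }⟩

namespace Tree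
variable {B} (T : Tree B)

theorem fine (w : List ℕ) : (T.nd w).Fine B := by
  cases w with
  | nil => rw [T.root]; exact B.root_fine
  | cons t w => exact (T.nice t w).toFine

/-- The heights. -/
noncomputable def H (w : List ℕ) (x : X) : ℝ≥0∞ := kap (T.nd w).r ((T.nd w).φ x)

theorem H_cont (w : List ℕ) : Continuous (T.H w) :=
  (kap_continuous (T.fine w).r_pos).comp (T.nd w).φ.continuous

theorem H_nil (x : X) : T.H [] x = kap 1 (B.φ x) := by
  unfold H; rw [T.root]; rfl

theorem H_plateau {w : List ℕ} {t : ℕ} {x : X} (h : x ∈ (T.nd w).P t) : T.H w x = lam t :=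
  kap_plateau (T.fine w).r_pos t h.1.le h.2.le

theorem H_ne_zero {w : List ℕ} {x : X} (h : T.H w x ≠ 0) : (T.nd w).φ x < (T.nd w).r := by
  by_contra hcon
  exact h ((kap_eq_zero_iff (T.fine w).r_pos _).2 (not_lt.1 hcon))

theorem H_eq_zero {w : List ℕ} {x : X} (h : (T.nd w).r ≤ (T.nd w).φ x) : T.H w x = 0 :=
  (kap_eq_zero_iff (T.fine w).r_pos _).2 h

theorem mem_int {t : ℕ} {w : List ℕ} {x : X} (h : (T.nd (t :: w)).φ x ≤ (T.nd (t :: w)).r) :
    x ∈ interior (T.nd (t :: w)).K := (T.nice t w).sub h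

theorem tree (t : ℕ) (w : List ℕ) (x : X) (h : T.H (t :: w) x ≠ 0) : T.H w x = lam t :=
  T.H_plateau (T.sub t w ((T.nice t w).K_sub (interior_subset (T.mem_int (T.H_ne_zero h).le))))

theorem H_top (w : List ℕ) (x : X) : T.H w x = ∞ ↔ x = (T.nd w).x := by
  unfold H
  rw [kap_eq_top_iff (T.fine w).r_pos, ← (T.fine w).φz]
  exact ⟨fun h => le_antisymm h ((T.fine w).φ0 x), fun h => h.le⟩

/-- Off the skeleton part belonging to the address. -/
theorem H_arc {n : ℕ} {α : C(I, X)} (hα : α ∈ B.L n) {t : ℕ} {w : List ℕ}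
    (hw : n ≤ Encodable.encode (t :: w)) (u : I) : T.H (t :: w) (α u) = 0 :=
  T.H_eq_zero ((T.nice t w).off _ ⟨α, B.L_mono hw α hα, mem_range_self u⟩).le

/-- The pseudo-distance is Lipschitz along the arcs, away from the root point. -/
theorem rho_arc [CompactSpace X] (n : ℕ) (α : C(I, X)) (hα : α ∈ B.L n) (a b : I)
    (hab : ∀ u ∈ uIcc a b, α u ≠ B.x0) :
    ∃ C : ℝ≥0, ∀ s ∈ uIcc a b, ∀ s' ∈ uIcc a b,
      rho T.H (α s) (α s') ≤ C * ENNReal.ofReal |(s : ℝ) - s'| := by
  classical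
  have hfin : {w : List ℕ | Encodable.encode w < n ∨ w = []}.Finite := by
    refine Finite.union ?_ (finite_singleton [])
    exact (finite_lt_nat n).preimage (Encodable.encode_injective.injOn)
  let S : Finset (List ℕ) := hfin.toFinset
  have hterm : ∀ w : List ℕ, ∃ C : ℝ≥0, ∀ s ∈ uIcc a b, ∀ s' ∈ uIcc a b,
      dl (T.H w (α s)) (T.H w (α s')) ≤ C * ENNReal.ofReal |(s : ℝ) - s'| := by
    intro w
    have hpos : ∀ s ∈ uIcc a b, 0 < (T.nd w).φ (α s) := by
      intro s hs
      refine lt_of_le_of_ne ((T.fine w).φ0 _) fun h => ?_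
      have h2 := ((T.fine w).φz _).1 h.symm
      cases w with
      | nil =>
        rw [T.root] at h2
        exact hab s hs h2
      | cons t w => exact (T.nice t w).xL n (h2 ▸ ⟨α, hα, mem_range_self s⟩)
    have hLip : ∃ C : ℝ≥0, LipschitzOnWith C (fun s => (T.nd w).φ (α s)) (uIcc a b) := by
      cases w with
      | nil =>
        rw [T.root]
        change ∃ C : ℝ≥0, LipschitzOnWith C (fun s => B.φ (α s)) (uIcc a b)
        by_cases h0 : α ∈ B.L 0
        · rw [B.hL0, List.mem_singleton] at h0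
          subst h0
          refine B.hφq a b fun u hu hu1 => hab u hu ?_
          rw [hu1, B.hq1]
        · obtain ⟨C, hC⟩ := B.hφL n α hα h0
          exact ⟨C, hC.lipschitzOnWith⟩
      | cons t w =>
        obtain ⟨C, hC⟩ := (T.nice t w).lip n α hα
        exact ⟨C, hC.lipschitzOnWith⟩
    obtain ⟨C, hC⟩ := hLip
    exact kap_comp_lipschitz (T.nd w).φ α a b (T.nd w).r (T.fine w).r_pos hpos C hC
  choose C hC using hterm
  refine ⟨∑ w ∈ S, C w, fun s hs s' hs' => ?_⟩
  have hsum : rho T.H (α s) (α s') = ∑ w ∈ S, dl (T.H w (α s)) (T.H w (α s')) := by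
    unfold rho
    refine tsum_eq_sum fun w hw => ?_
    have hw' : ¬ (Encodable.encode w < n ∨ w = []) := fun h => hw (hfin.mem_toFinset.2 h)
    push Not at hw'
    cases w with
    | nil => exact absurd rfl hw'.2
    | cons t w => rw [T.H_arc hα hw'.1, T.H_arc hα hw'.1, dl_self]
  rw [hsum, ENNReal.coe_finset_sum, Finset.sum_mul]
  exact Finset.sum_le_sum fun w _ => hC w s hs s' hs'

theorem H_W (t : ℕ) (x : X) (hx : x ∈ T.W' t) (w : List ℕ) (hw : w ≠ []) : T.H w x = 0 := by
  induction w with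
  | nil => exact absurd rfl hw
  | cons s w ih =>
    by_cases h : w = []
    · subst h
      exact T.H_eq_zero (T.Wz t s x hx)
    · by_contra hcon
      have h1 := T.tree s w x hcon
      rw [ih h] at h1
      have h2 := one_le_lam s
      rw [← h1] at h2
      exact absurd h2 (by simp)

theorem W_bounds (t : ℕ) (x : X) (hx : x ∈ T.W' t) :
    lam (t + 1) ≤ T.H [] x ∧ T.H [] x ≤ lam (t + 7) := by
  have h := B.hW2 t x (T.Ws t hx)
  rw [T.H_nil]
  constructor
  · have h1 : kap 1 ((1 : ℝ) / (2 * 4 ^ (t + 1))) = lam (t + 1) := by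
      refine kap_plateau one_pos (t + 1) ?_ le_rfl
      exact one_div_le_one_div_of_le (by positivity) (by
        rw [pow_succ (4 : ℝ) (t + 1)]
        have : (0 : ℝ) < 4 ^ (t + 1) := by positivity
        linarith)
    rw [← h1]
    exact kap_antitone one_pos h.2
  · have h1 : kap 1 ((1 : ℝ) / (4 ^ (t + 8))) = lam (t + 7) := by
      refine kap_plateau one_pos (t + 7) le_rfl ?_
      exact one_div_le_one_div_of_le (by positivity) (by
        rw [pow_succ (4 : ℝ) (t + 7)]
        have : (0 : ℝ) < 4 ^ (t + 7) := by positivity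
        linarith)
    rw [← h1]
    exact kap_antitone one_pos h.1

theorem lamR_diff (t : ℕ) : lamR (t + 7) - lamR (t + 1) ≤ 6 := by
  have key : ∀ s, lamR (s + 1) ≤ lamR s + 1 := fun s => by
    rw [lamR_succ]
    have : (1 : ℝ) / ((s : ℝ) + 2) ≤ 1 := by
      rw [div_le_one (by positivity)]
      have : (0 : ℝ) ≤ s := Nat.cast_nonneg s
      linarith
    linarith
  have := key (t + 1)
  have := key (t + 2)
  have := key (t + 3)
  have := key (t + 4)
  have := key (t + 5)
  have := key (t + 6)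
  linarith

theorem W_rho (t : ℕ) (x : X) (hx : x ∈ T.W' t) (x' : X) (hx' : x' ∈ T.W' t) :
    rho T.H x x' ≤ (6 : ℝ≥0) := by
  have hsum : rho T.H x x' = dl (T.H [] x) (T.H [] x') := by
    unfold rho
    refine tsum_eq_single [] fun w hw => ?_
    rw [T.H_W t x hx w hw, T.H_W t x' hx' w hw, dl_self]
  rw [hsum]
  have key : ∀ a b : ℝ≥0∞, lam (t + 1) ≤ a → b ≤ lam (t + 7) → a ≤ b → dl a b ≤ (6 : ℝ≥0) := by
    intro a b ha hb hab
    rw [dl_of_le hab]
    calc b - a ≤ lam (t + 7) - lam (t + 1) := tsub_le_tsub hb ha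
      _ = ENNReal.ofReal (lamR (t + 7) - lamR (t + 1)) := by
          unfold lam
          rw [ENNReal.ofReal_sub]
          exact (lamR_pos _).le
      _ ≤ ENNReal.ofReal 6 := ENNReal.ofReal_le_ofReal (lamR_diff t)
      _ = (6 : ℝ≥0) := by norm_num
  have b1 := T.W_bounds t x hx
  have b2 := T.W_bounds t x' hx'
  rcases le_total (T.H [] x) (T.H [] x') with h | h
  · exact key _ _ b1.1 b2.2 h
  · rw [dl_comm]
    exact key _ _ b2.1 b1.2 h

/-- The geometric data. -/
noncomputable def geo [CompactSpace X] (T : Tree B) : Geo X where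
  D := B.D
  dense := B.hDd
  H := T.H
  cont := T.H_cont
  tree := T.tree
  xs := fun w => (T.nd w).x
  top_iff := T.H_top
  xs_notMem := fun w => (T.fine w).xD
  O := fun w => (T.nd w).O
  K := fun w => (T.nd w).K
  y := fun w => (T.nd w).y
  O_open := fun w hw => by
    cases w with
    | nil => exact absurd rfl hw
    | cons t w => exact (T.nice t w).O_open
  O_conn := fun w hw => by
    cases w with
    | nil => exact absurd rfl hw
    | cons t w => exact (T.nice t w).O_conn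
  K_closed := fun w hw => by
    cases w with
    | nil => exact absurd rfl hw
    | cons t w => exact (T.nice t w).K_closed
  K_sub := fun w hw => by
    cases w with
    | nil => exact absurd rfl hw
    | cons t w => exact (T.nice t w).K_sub
  supp := fun w hw => by
    cases w with
    | nil => exact absurd rfl hw
    | cons t w =>
      refine (closure_minimal (t := {x | (T.nd (t :: w)).φ x ≤ (T.nd (t :: w)).r}) ?_ ?_).trans
        (T.nice t w).sub
      · exact fun x hx => (T.H_ne_zero hx).le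
      · exact isClosed_le (T.nd (t :: w)).φ.continuous continuous_const
  y_mem := fun w hw => by
    cases w with
    | nil => exact absurd rfl hw
    | cons t w => exact (T.nice t w).y_mem
  plateau := fun t w x hx => T.H_plateau (T.sub t w hx)
  diam := fun w hw => by
    cases w with
    | nil => exact absurd rfl hw
    | cons t w => exact (T.nice t w).diam
  path := fun U hU hUc y hy y' hy' => by
    have hyU : ∀ y ∈ B.D ∩ U, y ∈ B.D ∩ (U \ {B.x0}) := fun y hy =>
      ⟨hy.1, hy.2, fun h => B.hx0 (by rw [mem_singleton_iff] at h; rw [← h]; exact hy.1)⟩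
    obtain ⟨n, hn⟩ := B.hconn (U \ {B.x0}) (hU.sdiff isClosed_singleton) (B.hcut U hU hUc)
      (by simp) y (hyU y hy) y' (hyU y' hy')
    obtain ⟨γ, h1, h2, h3, h4⟩ := exists_path_of_conn (rho T.H) (rho_self T.H) (rho_comm T.H)
      (rho_triangle T.H) (B.L n) (U \ {B.x0}) (fun α hα a b hab =>
        T.rho_arc n α hα a b fun u hu h => (hab ⟨u, hu, rfl⟩).2 h) y y' (hyU y hy).2 hn
    exact ⟨γ, h1, h2, h3.trans diff_subset, h4⟩
  ray := fun c hc => by
    have hq0 : B.q ∈ B.L 0 := by rw [B.hL0]; simp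
    have hmono : Monotone fun a => T.H [] (B.q a) := fun a b hab => by
      simp only [T.H_nil]
      exact kap_antitone one_pos (B.hφa hab)
    obtain ⟨p, h1, h2, h3, h4, h5, h6⟩ := exists_ray T.H B.q B.s B.hs B.hs1 (T.H_cont [])
      (fun a b => by
        unfold rho
        refine tsum_eq_single [] fun w hw => ?_
        cases w with
        | nil => exact absurd rfl hw
        | cons t w =>
          rw [T.H_arc hq0 (Nat.zero_le _), T.H_arc hq0 (Nat.zero_le _), dl_self])
      hmono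
      (fun a ha h => by
        rw [T.H_top, T.root] at h
        change B.q a = B.x0 at h
        rw [← B.hq1] at h
        exact ha (B.hq h))
      (by rw [T.H_top, T.root, B.hq1]; rfl)
      (fun t => T.H_plateau (by rw [T.root]; exact B.mem_P t)) c hc
    refine ⟨p, h1, fun t => ?_, ?_, ?_, h5, h6⟩
    · rw [h2, T.y1]
    · rw [h3, T.y1]
    · rw [h4, T.root, B.hq1]; rfl
  c := 3
  hc := by norm_num
  M := 6
  W := T.W'
  W_open := T.Wo
  W_conn := T.Wc
  y_W := fun t => by rw [T.y1]; exact T.Wy t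
  W_low := fun t x hx => (T.W_bounds t x hx).1
  W_top := fun t x hx => ne_top_of_le_ne_top (lam_ne_top _) (T.W_bounds t x hx).2
  W_zero := fun t s x hx => T.H_W t x hx [s] (by simp)
  W_diam := T.W_rho
  shell := fun t x h1 h2 h3 => by
    rw [T.H_nil] at h1 h2
    have e1 := le_of_lam_le_kap one_pos (t + 3) h1
    have e2 := le_of_kap_le_lam one_pos (t + 3 + 1) h2
    exact T.Wsh t x e2 e1 h3

end Tree
end

theorem exists_geo (X : Type*) [MetricSpace X] [CompactSpace X] [ConnectedSpace X]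
    [LocallyConnectedSpace X] [Nontrivial X] (hX : NFA X) : Nonempty (Geo X) := by
  obtain ⟨B⟩ := exists_base X hX
  obtain ⟨T⟩ := exists_tree B hX
  exact ⟨T.geo⟩

end TopIFS
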