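import Pool.Agent.Lib.H41.IFS.Defs

/-!
# Geometric data
-/

namespace TopIFS

open Set Filter Topology
open scoped ENNReal unitInterval NNReal

/-- The geometric data from which the rooms are built. -/
structure Geo (X : Type*) [MetricSpace X] where
  D : Set X
  dense : Dense D
  H : List ℕ → X → ℝ≥0∞
  cont : ∀ w, Continuous (H w)
  tree : ∀ t w x, H (t :: w) x ≠ 0 → H w x = lam t
  xs : List ℕ → X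
  top_iff : ∀ w x, H w x = ∞ ↔ x = xs w
  xs_notMem : ∀ w, xs w ∉ D
  O : List ℕ → Set X
  K : List ℕ → Set X
  y : List ℕ → X
  O_open : ∀ w, w ≠ [] → IsOpen (O w)
  O_conn : ∀ w, w ≠ [] → IsPreconnected (O w)
  K_closed : ∀ w, w ≠ [] → IsClosed (K w)
  K_sub : ∀ w, w ≠ [] → K w ⊆ O w
  supp : ∀ w, w ≠ [] → closure {x | H w x ≠ 0} ⊆ interior (K w)
  y_mem : ∀ w, w ≠ [] → y w ∈ D ∩ O w
  plateau : ∀ t w x, x ∈ O (t :: w) → H w x = lam t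
  diam : ∀ w, w ≠ [] → ∀ x ∈ O w, ∀ x' ∈ O w, dist x x' ≤ (1 / 2) ^ w.length
  path : ∀ U : Set X, IsOpen U → IsPreconnected U → ∀ y ∈ D ∩ U, ∀ y' ∈ D ∩ U,
    ∃ γ : C(I, X), γ 0 = y ∧ γ 1 = y' ∧ range γ ⊆ U ∧
      ∃ C : ℝ≥0, ∀ s s' : I, rho H (γ s) (γ s') ≤ C * ENNReal.ofReal |(s : ℝ) - s'|
  ray : ∀ c : ℕ, 1 ≤ c → ∃ p : C(ℝ≥0∞, X), (∀ r r', r ≠ ∞ → r' ≠ ∞ →
      rho H (p r) (p r') ≤ dl r r') ∧ (∀ t, p (lam t) = y [t + c]) ∧ p 0 = y [c] ∧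
      p ∞ = xs [] ∧
      (∀ r, lam 0 ≤ H [] (p r)) ∧ (∀ s r, lam s ≤ r → lam (s + 1) ≤ H [] (p r))
  c : ℕ
  hc : 1 ≤ c
  M : ℝ≥0
  W : ℕ → Set X
  W_open : ∀ t, IsOpen (W t)
  W_conn : ∀ t, IsPreconnected (W t)
  y_W : ∀ t, y [t + c] ∈ W t
  W_low : ∀ t, ∀ x ∈ W t, lam (t + 1) ≤ H [] x
  W_top : ∀ t, ∀ x ∈ W t, H [] x ≠ ∞
  W_zero : ∀ t s, ∀ x ∈ W t, H [s] x = 0
  W_diam : ∀ t, ∀ x ∈ W t, ∀ x' ∈ W t, rho H x x' ≤ M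
  shell : ∀ t x, lam (t + c) ≤ H [] x → H [] x ≤ lam (t + c + 1) →
    (∀ s, x ∉ interior (K [s])) → x ∈ W t

end TopIFS
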