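import Pool.Agent.Lib.H41.IFS.Defs

/-!
# Geometric lemmas, part A (cutting, Baire, connected neighbourhoods)
-/

namespace TopIFS

open Set Filter Topology
open scoped ENNReal unitInterval NNReal

theorem conn_preconn {X : Type*} [TopologicalSpace X] (L : List C(I, X)) (U Z : Set X)
    (hZG : Disjoint Z (G L)) {y y' : X} (hy : y ∈ U \ Z) (h : Conn L U y y') :
    ∃ s : Set X, IsPreconnected s ∧ y ∈ s ∧ y' ∈ s ∧ s ⊆ U \ Z := by
  induction h with
  | refl => exact ⟨{y}, isPreconnected_singleton, rfl, rfl, singleton_subset_iff.2 hy⟩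
  | @tail b c hb hstep ih =>
    obtain ⟨s, hs, hys, hbs, hsU⟩ := ih
    obtain ⟨α, hα, a, a', rfl, rfl, hsub⟩ := hstep
    have h1 : IsPreconnected (α '' (uIcc a a')) :=
      isPreconnected_uIcc.image _ α.continuous.continuousOn
    refine ⟨s ∪ α '' (uIcc a a'), IsPreconnected.union (α a) hbs ⟨a, left_mem_uIcc, rfl⟩ hs h1,
      Or.inl hys, Or.inr ⟨a', right_mem_uIcc, rfl⟩, union_subset hsU ?_⟩
    intro z hz
    refine ⟨hsub hz, fun hzZ => ?_⟩
    obtain ⟨u, -, rfl⟩ := hz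
    exact Set.disjoint_left.1 hZG hzZ ⟨α, hα, mem_range_self u⟩

/-- A set off the skeleton does not cut an open set: the steps of `Conn` give preconnected subsets
of `U \ Z` through points of `D`, which meets every nonempty open set. -/
theorem preconn_diff {X : Type*} [TopologicalSpace X] (L : ℕ → List C(I, X)) (D U Z : Set X)
    (hD : Dense D) (hU : IsOpen U)
    (hconn : ∀ y ∈ D ∩ U, ∀ y' ∈ D ∩ U, ∃ n, Conn (L n) U y y')
    (hZG : ∀ n, Disjoint Z (G (L n))) (hZD : Disjoint Z D) : IsPreconnected (U \ Z) := by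
  rcases U.eq_empty_or_nonempty with rfl | hne
  · rw [empty_sdiff]
    exact isPreconnected_empty
  obtain ⟨y₀, hy₀U, hy₀D⟩ := hD.inter_open_nonempty U hU hne
  have hDU : ∀ y ∈ D ∩ U, y ∈ U \ Z := fun y hy =>
    ⟨hy.2, fun hyZ => Set.disjoint_left.1 hZD hyZ hy.1⟩
  let c : Set (Set X) := {s | IsPreconnected s ∧ y₀ ∈ s ∧ s ⊆ U \ Z}
  have hE : IsPreconnected (⋃₀ c) :=
    isPreconnected_sUnion y₀ c (fun s hs => hs.2.1) fun s hs => hs.1
  refine hE.subset_closure (sUnion_subset fun s hs => hs.2.2) ?_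
  have h1 : D ∩ U ⊆ ⋃₀ c := by
    intro y hy
    obtain ⟨n, hn⟩ := hconn y₀ ⟨hy₀D, hy₀U⟩ y hy
    obtain ⟨s, h1, h2, h3, h4⟩ := conn_preconn (L n) U Z (hZG n) (hDU y₀ ⟨hy₀D, hy₀U⟩) hn
    exact ⟨s, ⟨h1, h2, h4⟩, h3⟩
  have h2 : U ⊆ closure (U ∩ D) := hD.open_subset_closure_inter hU
  rw [inter_comm] at h2
  exact (sdiff_subset.trans h2).trans (closure_mono h1)

/-- Baire: a nonempty open set contains a point off the skeleton and off `D`. (`G (L n)` is a
finite union of compact arcs with empty interior, points have empty interior since `X` is connected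
and nontrivial.) -/
theorem exists_off {X : Type*} [MetricSpace X] [CompactSpace X] [ConnectedSpace X] [Nontrivial X]
    (hX : NFA X) (L : ℕ → List C(I, X)) (hinj : ∀ n, ∀ α ∈ L n, Function.Injective α) (D : Set X)
    (hD : D.Countable) (O : Set X) (hO : IsOpen O) (hne : O.Nonempty) :
    ∃ x ∈ O, x ∉ D ∧ ∀ n, x ∉ G (L n) := by
  let 𝒮 : Set (Set X) := (fun d => ({d} : Set X)ᶜ) '' D ∪
    ⋃ n, (fun α : C(I, X) => (range α)ᶜ) '' {α | α ∈ L n}
  have hc : 𝒮.Countable := by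
    refine (hD.image _).union (countable_iUnion fun n => ?_)
    exact ((L n).finite_toSet.countable).image _
  have ho : ∀ s ∈ 𝒮, IsOpen s := by
    rintro s (⟨d, -, rfl⟩ | hs)
    · exact isOpen_compl_singleton
    · obtain ⟨n, α, -, rfl⟩ := mem_iUnion.1 hs
      exact (isCompact_range α.continuous).isClosed.isOpen_compl
  have hd : ∀ s ∈ 𝒮, Dense s := by
    rintro s (⟨d, -, rfl⟩ | hs)
    · exact dense_compl_singleton d
    · obtain ⟨n, α, hα, rfl⟩ := mem_iUnion.1 hs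
      rw [← interior_eq_empty_iff_dense_compl]
      exact hX α (hinj n α hα)
  have h1 : Dense (⋂₀ 𝒮) := dense_sInter_of_isOpen ho hc hd
  obtain ⟨x, hxO, hx⟩ := h1.inter_open_nonempty O hO hne
  refine ⟨x, hxO, ?_, ?_⟩
  · intro hxD
    exact hx _ (Or.inl ⟨x, hxD, rfl⟩) rfl
  · rintro n ⟨α, hα, hxα⟩
    exact hx _ (Or.inr (mem_iUnion.2 ⟨n, α, hα, rfl⟩)) hxα

theorem exists_conn_nbhd_pt {X : Type*} [MetricSpace X] [LocallyConnectedSpace X] {U : Set X}
    (hU : IsOpen U) {z : X} (hz : z ∈ U) :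
    ∃ V : Set X, IsOpen V ∧ IsPreconnected V ∧ z ∈ V ∧ closure V ⊆ U := by
  obtain ⟨F, ⟨hF1, hF2⟩, hF3⟩ := (closed_nhds_basis z).mem_iff.1 (hU.mem_nhds hz)
  obtain ⟨V, ⟨hV1, hV2, hV3⟩, hV4⟩ :=
    (LocallyConnectedSpace.open_connected_basis z).mem_iff.1 hF1
  exact ⟨V, hV1, hV3.isPreconnected, hV2, (closure_minimal hV4 hF2).trans hF3⟩

/-- A compact subset of an open preconnected set `U` has an open preconnected neighbourhood whose
closure lies in `U`. (Fix `p ∈ U`; the open preconnected `W ∋ p` with `closure W ⊆ U` form an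
upwards directed family whose union is clopen in `U`.) -/
theorem exists_conn_nbhd {X : Type*} [MetricSpace X] [CompactSpace X] [LocallyConnectedSpace X]
    (C U : Set X) (hC : IsCompact C) (hU : IsOpen U) (hUc : IsPreconnected U) (hCU : C ⊆ U) :
    ∃ W : Set X, IsOpen W ∧ IsPreconnected W ∧ C ⊆ W ∧ closure W ⊆ U := by
  rcases U.eq_empty_or_nonempty with rfl | ⟨p, hp⟩
  · exact ⟨∅, isOpen_empty, isPreconnected_empty, hCU, by simp⟩
  let 𝒲 : Type _ := {W : Set X // IsOpen W ∧ IsPreconnected W ∧ p ∈ W ∧ closure W ⊆ U}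
  obtain ⟨V₀, h1, h2, h3, h4⟩ := exists_conn_nbhd_pt hU hp
  have hne : Nonempty 𝒲 := ⟨⟨V₀, h1, h2, h3, h4⟩⟩
  have hSo : IsOpen (⋃ W : 𝒲, W.1) := isOpen_iUnion fun W => W.2.1
  have hS : U ⊆ ⋃ W : 𝒲, W.1 := by
    refine hUc.subset_of_closure_inter_subset hSo ⟨p, hp, mem_iUnion.2 ⟨⟨V₀, h1, h2, h3, h4⟩, h3⟩⟩ ?_
    rintro z ⟨hz, hzU⟩
    obtain ⟨V, hV1, hV2, hV3, hV4⟩ := exists_conn_nbhd_pt hU hzU
    obtain ⟨w, hwV, hw⟩ := mem_closure_iff.1 hz V hV1 hV3
    obtain ⟨⟨W, hW1, hW2, hW3, hW4⟩, hwW⟩ := mem_iUnion.1 hw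
    refine mem_iUnion.2 ⟨⟨W ∪ V, hW1.union hV1, IsPreconnected.union w hwW hwV hW2 hV2,
      Or.inl hW3, ?_⟩, Or.inr hV3⟩
    rw [closure_union]
    exact union_subset hW4 hV4
  obtain ⟨W, hW⟩ := hC.elim_directed_cover (fun W : 𝒲 => W.1) (fun W => W.2.1) (hCU.trans hS) (by
    intro W W'
    refine ⟨⟨W.1 ∪ W'.1, W.2.1.union W'.2.1,
      IsPreconnected.union p W.2.2.2.1 W'.2.2.2.1 W.2.2.1 W'.2.2.1, Or.inl W.2.2.2.1, ?_⟩,
      subset_union_left, subset_union_right⟩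
    rw [closure_union]
    exact union_subset W.2.2.2.2 W'.2.2.2.2)
  exact ⟨W.1, W.2.1, W.2.2.1, hW, W.2.2.2.2⟩

/-- In a connected nontrivial space the value `c` of a continuous function is attained at a point,
so that strict inequalities define nonempty open sets. -/
theorem plateau_nonempty {X : Type*} [MetricSpace X] [CompactSpace X] [ConnectedSpace X]
    (φ : C(X, ℝ)) (x p : X) (r : ℝ) (hr : 0 < r) (hx : φ x = 0) (hp : r ≤ φ p) (t : ℕ) :
    {z | r / 4 ^ (t + 1) < φ z ∧ φ z < r / (2 * 4 ^ t)}.Nonempty := by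
  have h4 : (1 : ℝ) ≤ 4 ^ t := one_le_pow₀ (by norm_num)
  have hpos : (0 : ℝ) < 4 ^ t := by positivity
  have h1 : 0 < r / 4 ^ t := by positivity
  have h2 : r / 4 ^ t ≤ r := div_le_self hr.le h4
  obtain ⟨z, hz⟩ := mem_range_of_exists_le_of_exists_ge φ.continuous
    (c := 3 / 8 * (r / 4 ^ t)) ⟨x, by rw [hx]; positivity⟩ ⟨p, by linarith⟩
  refine ⟨z, ?_, ?_⟩
  · rw [hz]
    have : r / 4 ^ (t + 1) = 1 / 4 * (r / 4 ^ t) := by
      rw [pow_succ]
      field_simp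
    rw [this]
    linarith
  · rw [hz]
    have : r / (2 * 4 ^ t) = 1 / 2 * (r / 4 ^ t) := by
      field_simp
    rw [this]
    linarith

/-- Small nodes: inside an open set `P` around a point `y ∈ D ∩ P` there are `O`, `x`, `K`. -/
theorem exists_small_node {X : Type*} [MetricSpace X] [CompactSpace X] [ConnectedSpace X]
    [LocallyConnectedSpace X] [Nontrivial X]
    (hX : NFA X) (L : ℕ → List C(I, X)) (hinj : ∀ n, ∀ α ∈ L n, Function.Injective α) (D : Set X)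
    (hD : D.Countable) (P : Set X) (hP : IsOpen P) (y : X) (hy : y ∈ P) (ε : ℝ) (hε : 0 < ε) :
    ∃ (O K : Set X) (x : X), IsOpen O ∧ IsPreconnected O ∧ y ∈ O ∧ O ⊆ P ∧
      (∀ a ∈ O, ∀ b ∈ O, dist a b ≤ ε) ∧ IsClosed K ∧ K ⊆ O ∧ x ∈ interior K ∧
      x ∉ D ∧ ∀ n, x ∉ G (L n) := by
  have h1 : IsOpen (P ∩ Metric.ball y (ε / 2)) := hP.inter Metric.isOpen_ball
  obtain ⟨O, hO1, hO2, hO3, hO4⟩ :=
    exists_conn_nbhd_pt h1 ⟨hy, Metric.mem_ball_self (half_pos hε)⟩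
  have hO5 := subset_closure.trans hO4
  obtain ⟨K, ⟨hK1, hK2⟩, hK3⟩ := (closed_nhds_basis y).mem_iff.1 (hO1.mem_nhds hO3)
  obtain ⟨x, hx1, hx2, hx3⟩ := exists_off hX L hinj D hD (interior K) isOpen_interior
    ⟨y, mem_interior_iff_mem_nhds.2 hK1⟩
  refine ⟨O, K, x, hO1, hO2, hO3, hO5.trans inter_subset_left, ?_, hK2, hK3, hx1, hx2, hx3⟩
  intro a ha b hb
  have ha' := (hO5 ha).2
  have hb' := (hO5 hb).2
  rw [Metric.mem_ball] at ha' hb'
  have := dist_triangle_right a b y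
  linarith

end TopIFS
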