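import Pool.Agent.Lib.H41.IFS.Defs

/-!
# The height profile
-/

namespace TopIFS

open Set Filter Topology
open scoped ENNReal unitInterval NNReal

/-- The profile `kap r d = Σ_t (1/(t+1)) * clamp (2 - 2 * 4^t * d / r)`. -/
noncomputable def kap (r d : ℝ) : ℝ≥0∞ :=
  ∑' t : ℕ, ENNReal.ofReal (1 / ((t : ℝ) + 1) * max 0 (min 1 (2 - 2 * 4 ^ t * d / r)))

theorem lamR_succ (t : ℕ) : lamR (t + 1) = lamR t + 1 / ((t : ℝ) + 2) := by
  unfold lamR
  rw [Finset.sum_range_succ _ (t + 1)]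
  congr 1
  push_cast
  ring

theorem lamR_strictMono : StrictMono lamR := by
  refine strictMono_nat_of_lt_succ fun t => ?_
  rw [lamR_succ]
  have : (0 : ℝ) < 1 / ((t : ℝ) + 2) := by positivity
  linarith

theorem tendsto_lamR : Tendsto lamR atTop atTop :=
  Real.tendsto_sum_range_one_div_nat_succ_atTop.comp (tendsto_add_atTop_nat 1)

theorem one_le_lamR (t : ℕ) : 1 ≤ lamR t := by
  have h : lamR 0 = 1 := by simp [lamR]
  rw [← h]
  exact lamR_strictMono.monotone (Nat.zero_le t)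

theorem lamR_pos (t : ℕ) : 0 < lamR t := lt_of_lt_of_le one_pos (one_le_lamR t)

theorem lam_strictMono : StrictMono lam := fun s t h => by
  unfold lam
  exact (ENNReal.ofReal_lt_ofReal_iff (lamR_pos t)).2 (lamR_strictMono h)

theorem one_le_lam (t : ℕ) : 1 ≤ lam t := by
  unfold lam
  rw [ENNReal.one_le_ofReal]
  exact one_le_lamR t

theorem lam_ne_top (t : ℕ) : lam t ≠ ∞ := ENNReal.ofReal_ne_top

theorem tendsto_lam : Tendsto lam atTop (𝓝 ∞) :=
  ENNReal.tendsto_ofReal_nhds_top.2 tendsto_lamR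

/-- The `t`-th term of the profile. -/
noncomputable def kt (r : ℝ) (t : ℕ) (d : ℝ) : ℝ :=
  1 / ((t : ℝ) + 1) * max 0 (min 1 (2 - 2 * 4 ^ t * d / r))

theorem kap_eq (r d : ℝ) : kap r d = ∑' t : ℕ, ENNReal.ofReal (kt r t d) := rfl

theorem kt_nonneg (r : ℝ) (t : ℕ) (d : ℝ) : 0 ≤ kt r t d := by
  unfold kt
  exact mul_nonneg (by positivity) (le_max_left _ _)

theorem kt_le (r : ℝ) (t : ℕ) (d : ℝ) : kt r t d ≤ 1 / ((t : ℝ) + 1) := by
  unfold kt
  have h1 : max 0 (min 1 (2 - 2 * 4 ^ t * d / r)) ≤ 1 := max_le zero_le_one (min_le_left _ _)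
  have h2 : 0 ≤ 1 / ((t : ℝ) + 1) := by positivity
  calc _ ≤ 1 / ((t : ℝ) + 1) * 1 := mul_le_mul_of_nonneg_left h1 h2
    _ = _ := mul_one _

theorem kt_zero {r : ℝ} (hr : 0 < r) {t : ℕ} {d : ℝ} (h : r / 4 ^ t ≤ d) : kt r t d = 0 := by
  unfold kt
  have h4 : (0 : ℝ) < 4 ^ t := by positivity
  have h1 : r ≤ d * 4 ^ t := by rwa [div_le_iff₀ h4] at h
  have h2 : 2 - 2 * 4 ^ t * d / r ≤ 0 := by
    rw [sub_nonpos, le_div_iff₀ hr]
    linarith
  rw [max_eq_left ((min_le_right _ _).trans h2), mul_zero]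

theorem kt_pos {r : ℝ} (hr : 0 < r) {t : ℕ} {d : ℝ} (h : d < r / 4 ^ t) : 0 < kt r t d := by
  unfold kt
  have h4 : (0 : ℝ) < 4 ^ t := by positivity
  have h1 : d * 4 ^ t < r := by rwa [lt_div_iff₀ h4] at h
  have h2 : 0 < 2 - 2 * 4 ^ t * d / r := by
    rw [sub_pos, div_lt_iff₀ hr]
    linarith
  exact mul_pos (by positivity) (lt_max_of_lt_right (lt_min one_pos h2))

theorem kt_full {r : ℝ} (hr : 0 < r) {t : ℕ} {d : ℝ} (h : d ≤ r / (2 * 4 ^ t)) :
    kt r t d = 1 / ((t : ℝ) + 1) := by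
  unfold kt
  have h4 : (0 : ℝ) < 2 * 4 ^ t := by positivity
  have h1 : d * (2 * 4 ^ t) ≤ r := by rwa [le_div_iff₀ h4] at h
  have h2 : 1 ≤ 2 - 2 * 4 ^ t * d / r := by
    have h3 : 2 * 4 ^ t * d / r ≤ 1 := by
      rw [div_le_one hr]
      linarith
    linarith
  rw [min_eq_left h2, max_eq_right zero_le_one, mul_one]

theorem kt_lt {r : ℝ} (hr : 0 < r) {t : ℕ} {d : ℝ} (h : r / (2 * 4 ^ t) < d) :
    kt r t d < 1 / ((t : ℝ) + 1) := by
  unfold kt
  have h4 : (0 : ℝ) < 2 * 4 ^ t := by positivity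
  have h1 : r < d * (2 * 4 ^ t) := by rwa [div_lt_iff₀ h4] at h
  have h2 : 2 - 2 * 4 ^ t * d / r < 1 := by
    have h3 : 1 < 2 * 4 ^ t * d / r := by
      rw [lt_div_iff₀ hr]
      linarith
    linarith
  have h5 : max 0 (min 1 (2 - 2 * 4 ^ t * d / r)) < 1 := max_lt zero_lt_one (min_lt_of_right_lt h2)
  have h6 : 0 < 1 / ((t : ℝ) + 1) := by positivity
  calc _ < 1 / ((t : ℝ) + 1) * 1 := mul_lt_mul_of_pos_left h5 h6
    _ = _ := mul_one _

theorem kt_antitone {r : ℝ} (hr : 0 < r) (t : ℕ) : Antitone (kt r t) := fun d d' h => by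
  unfold kt
  refine mul_le_mul_of_nonneg_left (max_le_max le_rfl (min_le_min le_rfl ?_)) (by positivity)
  have : 2 * 4 ^ t * d / r ≤ 2 * 4 ^ t * d' / r := by gcongr
  linarith

theorem kt_continuous (r : ℝ) (t : ℕ) : Continuous (kt r t) := by
  unfold kt
  fun_prop

theorem abs_clamp_sub_le (a b : ℝ) : |max 0 (min 1 a) - max 0 (min 1 b)| ≤ |a - b| := by
  rw [abs_le]
  have h1 := le_abs_self (a - b)
  have h2 := neg_abs_le (a - b)
  have h3 := abs_nonneg (a - b)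
  constructor <;> simp only [max_def, min_def] <;> split_ifs <;> linarith

theorem abs_kt_sub_le {r : ℝ} (hr : 0 < r) (t : ℕ) (d d' : ℝ) :
    |kt r t d - kt r t d'| ≤ 2 * 4 ^ t / r * |d - d'| := by
  unfold kt
  rw [← mul_sub, abs_mul, abs_of_nonneg (by positivity : (0 : ℝ) ≤ 1 / ((t : ℝ) + 1))]
  have h1 : |max 0 (min 1 (2 - 2 * 4 ^ t * d / r)) - max 0 (min 1 (2 - 2 * 4 ^ t * d' / r))| ≤
      |(2 - 2 * 4 ^ t * d / r) - (2 - 2 * 4 ^ t * d' / r)| := abs_clamp_sub_le _ _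
  have h2 : |(2 - 2 * 4 ^ t * d / r) - (2 - 2 * 4 ^ t * d' / r)| = 2 * 4 ^ t / r * |d - d'| := by
    rw [show (2 - 2 * 4 ^ t * d / r) - (2 - 2 * 4 ^ t * d' / r) = -(2 * 4 ^ t / r * (d - d')) by ring,
      abs_neg, abs_mul, abs_of_nonneg (by positivity : (0 : ℝ) ≤ 2 * 4 ^ t / r)]
  have h3 : 1 / ((t : ℝ) + 1) ≤ 1 := by
    rw [div_le_one (by positivity)]
    have : (0 : ℝ) ≤ t := Nat.cast_nonneg t
    linarith
  calc _ ≤ 1 * (2 * 4 ^ t / r * |d - d'|) := by
        rw [← h2]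
        gcongr
    _ = _ := one_mul _

theorem kap_antitone {r : ℝ} (hr : 0 < r) : Antitone (kap r) := fun d d' h => by
  rw [kap_eq, kap_eq]
  exact ENNReal.tsum_le_tsum fun t => ENNReal.ofReal_le_ofReal (kt_antitone hr t h)

theorem div_four_pow_anti {r : ℝ} (hr : 0 < r) {s t : ℕ} (h : s ≤ t) :
    r / 4 ^ t ≤ r / 4 ^ s := by
  gcongr
  norm_num

/-- The profile is a finite sum away from zero. -/
theorem kap_eq_sum {r : ℝ} (hr : 0 < r) {N : ℕ} {d : ℝ} (h : r / 4 ^ N ≤ d) :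
    kap r d = ENNReal.ofReal (∑ t ∈ Finset.range N, kt r t d) := by
  rw [kap_eq, ENNReal.ofReal_sum_of_nonneg fun t _ => kt_nonneg r t d]
  refine tsum_eq_sum fun t ht => ?_
  rw [Finset.mem_range, not_lt] at ht
  rw [kt_zero hr ((div_four_pow_anti hr ht).trans h), ENNReal.ofReal_zero]

theorem sum_le_kap (r d : ℝ) (N : ℕ) :
    ENNReal.ofReal (∑ t ∈ Finset.range N, kt r t d) ≤ kap r d := by
  rw [kap_eq, ENNReal.ofReal_sum_of_nonneg fun t _ => kt_nonneg r t d]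
  exact ENNReal.sum_le_tsum _

theorem exists_four_pow {r : ℝ} (_hr : 0 < r) {d : ℝ} (hd : 0 < d) : ∃ N : ℕ, r / 4 ^ N ≤ d := by
  obtain ⟨N, hN⟩ := pow_unbounded_of_one_lt (r / d) (by norm_num : (1 : ℝ) < 4)
  refine ⟨N, ?_⟩
  rw [div_lt_iff₀ hd] at hN
  rw [div_le_iff₀ (by positivity)]
  linarith

/-- The terms are full when `d` is small. -/
theorem lam_le_kap {r : ℝ} (hr : 0 < r) {s : ℕ} {d : ℝ} (h : d ≤ r / (2 * 4 ^ s)) :
    ∑ t ∈ Finset.range (s + 1), kt r t d = lamR s := by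
  unfold lamR
  refine Finset.sum_congr rfl fun t ht => ?_
  rw [Finset.mem_range] at ht
  refine kt_full hr (h.trans ?_)
  gcongr
  · norm_num
  · omega

theorem kap_plateau {r : ℝ} (hr : 0 < r) (s : ℕ) {d : ℝ} (h1 : r / 4 ^ (s + 1) ≤ d)
    (h2 : d ≤ r / (2 * 4 ^ s)) : kap r d = lam s := by
  rw [kap_eq_sum hr h1, lam_le_kap hr h2, lam]

theorem kap_eq_top_iff {r : ℝ} (hr : 0 < r) (d : ℝ) : kap r d = ∞ ↔ d ≤ 0 := by
  constructor
  · intro h
    by_contra hd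
    push Not at hd
    obtain ⟨N, hN⟩ := exists_four_pow hr hd
    rw [kap_eq_sum hr hN] at h
    exact ENNReal.ofReal_ne_top h
  · intro h
    by_contra hk
    have hlim := tendsto_lam
    have hle : ∀ s, lam s ≤ kap r d := fun s => by
      rw [lam, ← lam_le_kap hr (s := s) (h.trans (by positivity))]
      exact sum_le_kap r d (s + 1)
    exact hk (top_le_iff.1 (le_of_tendsto' hlim hle))

theorem kap_eq_zero_iff {r : ℝ} (hr : 0 < r) (d : ℝ) : kap r d = 0 ↔ r ≤ d := by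
  constructor
  · intro h
    by_contra hd
    push Not at hd
    have h1 := sum_le_kap r d 1
    rw [h, Finset.sum_range_one, nonpos_iff_eq_zero, ENNReal.ofReal_eq_zero] at h1
    have := kt_pos hr (t := 0) (d := d) (by simpa using hd)
    linarith
  · intro h
    rw [kap_eq_sum hr (N := 0) (by simpa using h)]
    simp

/-- `kap` lies above `lam s` only if `d` is at most `r / (2 * 4 ^ s)`. -/
theorem le_of_lam_le_kap {r : ℝ} (hr : 0 < r) (s : ℕ) {d : ℝ} (h : lam s ≤ kap r d) :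
    d ≤ r / (2 * 4 ^ s) := by
  by_contra hd
  push Not at hd
  have h1 : r / 4 ^ (s + 1) ≤ d := by
    refine le_trans ?_ hd.le
    rw [pow_succ']
    gcongr
    norm_num
  rw [kap_eq_sum hr h1, lam, ENNReal.ofReal_le_ofReal_iff
    (Finset.sum_nonneg fun t _ => kt_nonneg r t d)] at h
  have h2 : ∑ t ∈ Finset.range (s + 1), kt r t d < lamR s := by
    unfold lamR
    exact Finset.sum_lt_sum (fun t _ => kt_le r t d)
      ⟨s, Finset.self_mem_range_succ s, kt_lt hr hd⟩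
  linarith

/-- `kap` lies below `lam s` only if `d` is at least `r / 4 ^ (s + 1)`. -/
theorem le_of_kap_le_lam {r : ℝ} (hr : 0 < r) (s : ℕ) {d : ℝ} (h : kap r d ≤ lam s) :
    r / 4 ^ (s + 1) ≤ d := by
  by_contra hd
  push Not at hd
  have h1 : d ≤ r / (2 * 4 ^ s) := by
    refine hd.le.trans ?_
    rw [pow_succ']
    gcongr
    norm_num
  have h2 := (sum_le_kap r d (s + 2)).trans h
  rw [lam, ENNReal.ofReal_le_ofReal_iff (lamR_pos s).le, Finset.sum_range_succ,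
    lam_le_kap hr h1] at h2
  have := kt_pos hr hd
  linarith

theorem kap_continuous {r : ℝ} (hr : 0 < r) : Continuous (kap r) := by
  rw [continuous_iff_continuousAt]
  intro d
  rcases le_or_gt d 0 with hd | hd
  · rw [ContinuousAt, (kap_eq_top_iff hr d).2 hd]
    rw [ENNReal.tendsto_nhds_top_iff_nat]
    intro n
    obtain ⟨s, hs⟩ := (tendsto_lamR.eventually (eventually_gt_atTop (n : ℝ))).exists
    have h1 : ∀ᶠ x in 𝓝 d, x < r / (2 * 4 ^ s) :=
      Filter.Tendsto.eventually_lt_const (lt_of_le_of_lt hd (by positivity)) tendsto_id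
    filter_upwards [h1] with x hx
    calc (n : ℝ≥0∞) = ENNReal.ofReal n := by simp
      _ < ENNReal.ofReal (lamR s) := (ENNReal.ofReal_lt_ofReal_iff (lamR_pos s)).2 hs
      _ = ENNReal.ofReal (∑ t ∈ Finset.range (s + 1), kt r t x) := by rw [lam_le_kap hr hx.le]
      _ ≤ _ := sum_le_kap r x (s + 1)
  · obtain ⟨N, hN⟩ := exists_four_pow hr (half_pos hd)
    have h1 : ∀ᶠ x in 𝓝 d, d / 2 < x :=
      Filter.Tendsto.eventually_const_lt (by linarith) tendsto_id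
    have h2 : (fun x => ENNReal.ofReal (∑ t ∈ Finset.range N, kt r t x)) =ᶠ[𝓝 d] kap r := by
      filter_upwards [h1] with x hx
      exact (kap_eq_sum hr (hN.trans hx.le)).symm
    refine ContinuousAt.congr (Continuous.continuousAt ?_) h2
    exact ENNReal.continuous_ofReal.comp (continuous_finsetSum _ fun t _ => kt_continuous r t)

theorem dl_ofReal (a b : ℝ) (ha : 0 ≤ a) (hb : 0 ≤ b) :
    dl (ENNReal.ofReal a) (ENNReal.ofReal b) = ENNReal.ofReal |a - b| := by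
  unfold dl
  rw [← ENNReal.ofReal_sub _ hb, ← ENNReal.ofReal_sub _ ha]
  rcases le_total a b with h | h
  · rw [ENNReal.ofReal_eq_zero.2 (by linarith : a - b ≤ 0), zero_add, abs_of_nonpos (by linarith)]
    congr 1
    ring
  · rw [ENNReal.ofReal_eq_zero.2 (by linarith : b - a ≤ 0), add_zero, abs_of_nonneg (by linarith)]

/-- `kap r` is Lipschitz on `[c, ∞)` for `c > 0`, in the sense of `dl`. -/
theorem kap_lipschitz {r : ℝ} (hr : 0 < r) {c : ℝ} (hc : 0 < c) :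
    ∃ C : ℝ≥0, ∀ d d', c ≤ d → c ≤ d' → dl (kap r d) (kap r d') ≤ C * ENNReal.ofReal |d - d'| := by
  obtain ⟨N, hN⟩ := exists_four_pow hr hc
  refine ⟨Real.toNNReal (∑ t ∈ Finset.range N, 2 * 4 ^ t / r), fun d d' hd hd' => ?_⟩
  rw [kap_eq_sum hr (hN.trans hd), kap_eq_sum hr (hN.trans hd'),
    dl_ofReal _ _ (Finset.sum_nonneg fun t _ => kt_nonneg r t d)
      (Finset.sum_nonneg fun t _ => kt_nonneg r t d')]
  rw [← ENNReal.ofReal, ← ENNReal.ofReal_mul (by positivity)]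
  refine ENNReal.ofReal_le_ofReal ?_
  rw [← Finset.sum_sub_distrib, Finset.sum_mul]
  exact (Finset.abs_sum_le_sum_abs _ _).trans (Finset.sum_le_sum fun t _ => abs_kt_sub_le hr t d d')

end TopIFS
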