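import Pool.Agent.Lib.H41.IFS.Tame
import Pool.Agent.Lib.H41.IFS.Kap

/-!
# Heights from tame distance functions
-/

namespace TopIFS

open Set Filter Topology
open scoped ENNReal unitInterval NNReal

/-- Tame distance function to a point off the skeleton (`exists_tame` applied to
`dist x ·`, `e = dist x · / 4` and the sequence `[], L 0, L 1, ...`). -/
theorem exists_tame_dist {X : Type*} [MetricSpace X] [CompactSpace X] (L : ℕ → List C(I, X))
    (hG : ∀ n, Good (L n)) (hL : ∀ n, ∃ M, L (n + 1) = M ++ L n) (x : X)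
    (hx : ∀ n, x ∉ G (L n)) :
    ∃ φ : C(X, ℝ), (∀ z, 0 ≤ φ z) ∧ (∀ z, φ z = 0 ↔ z = x) ∧
      ∀ n, ∀ α ∈ L n, ∃ C : ℝ≥0, LipschitzWith C (fun s => φ (α s)) := by
  let L' : ℕ → List C(I, X) := fun n => Nat.casesOn n [] L
  have hL'0 : L' 0 = [] := rfl
  have hL's : ∀ n, L' (n + 1) = L n := fun n => rfl
  let ψ : C(X, ℝ) := ⟨fun z => dist x z, by fun_prop⟩
  let e : C(X, ℝ) := ⟨fun z => dist x z / 4, by fun_prop⟩
  obtain ⟨φ, h1, -, h3⟩ := exists_tame L' (fun n => by
      rcases n with _ | n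
      · exact trivial
      · exact hG n) (fun n => by
      rcases n with _ | n
      · exact ⟨L 0, by rw [hL's, hL'0, List.append_nil]⟩
      · exact hL n) ψ e (fun z => by show 0 ≤ dist x z / 4; positivity) (fun n α hα _ s => by
      rcases n with _ | n
      · simp [hL'0] at hα
      · show 0 < dist x (α s) / 4
        have : x ≠ α s := fun h => hx n ⟨α, hα, s, h.symm⟩
        have := dist_pos.2 this
        positivity)
  have hle : ∀ z, 3 / 4 * dist x z ≤ φ z ∧ φ z ≤ 5 / 4 * dist x z := fun z => by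
    have := h1 z
    rw [abs_le] at this
    have h2 : ψ z = dist x z := rfl
    have h3 : e z = dist x z / 4 := rfl
    rw [h2, h3] at this
    constructor <;> linarith [this.1, this.2]
  refine ⟨φ, fun z => ?_, fun z => ?_, fun n α hα => ?_⟩
  · exact le_trans (by positivity) (hle z).1
  · constructor
    · intro h
      have h2 := (hle z).1
      rw [h] at h2
      have h4 : dist x z = 0 := le_antisymm (by linarith) dist_nonneg
      exact (dist_eq_zero.1 h4).symm
    · rintro rfl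
      have h2 := hle z
      rw [dist_self] at h2
      linarith [h2.1, h2.2]
  · exact h3 (n + 1) α hα (by rw [hL'0]; simp)

/-- A small sublevel set. -/
theorem exists_sublevel {X : Type*} [MetricSpace X] [CompactSpace X] (φ : C(X, ℝ)) (x : X)
    (h0 : ∀ z, 0 ≤ φ z) (hzero : ∀ z, φ z = 0 ↔ z = x) (N : Set X) (hN : IsOpen N) (hx : x ∈ N) :
    ∃ r > 0, {z | φ z ≤ r} ⊆ N := by
  rcases (Nᶜ).eq_empty_or_nonempty with h | h
  · refine ⟨1, one_pos, fun z _ => ?_⟩
    by_contra hz
    have : z ∈ Nᶜ := hz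
    rw [h] at this
    exact this
  · obtain ⟨w, hw, hmin⟩ := hN.isClosed_compl.isCompact.exists_isMinOn h φ.continuous.continuousOn
    have hpos : 0 < φ w := lt_of_le_of_ne (h0 w) fun h => hw (by rw [(hzero w).1 h.symm]; exact hx)
    refine ⟨φ w / 2, by positivity, fun z hz => ?_⟩
    by_contra hzN
    have h1 : φ w ≤ φ z := hmin hzN
    have h2 : φ z ≤ φ w / 2 := hz
    linarith

/-- `kap r ∘ φ` is Lipschitz (in the sense of `dl`) along an arc piece on which `φ` is Lipschitz
and positive. -/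
theorem kap_comp_lipschitz {X : Type*} [MetricSpace X] (φ : C(X, ℝ)) (α : C(I, X)) (a b : I)
    (r : ℝ) (hr : 0 < r) (hpos : ∀ s ∈ uIcc a b, 0 < φ (α s)) (C : ℝ≥0)
    (hLip : LipschitzOnWith C (fun s => φ (α s)) (uIcc a b)) :
    ∃ C' : ℝ≥0, ∀ s ∈ uIcc a b, ∀ s' ∈ uIcc a b,
      dl (kap r (φ (α s))) (kap r (φ (α s'))) ≤ C' * ENNReal.ofReal |(s : ℝ) - s'| := by
  obtain ⟨w, hw, hmin⟩ := (isCompact_uIcc (a := a) (b := b)).exists_isMinOn nonempty_uIcc
    (f := fun s => φ (α s)) (by fun_prop)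
  obtain ⟨C0, hC0⟩ := kap_lipschitz hr (hpos w hw)
  refine ⟨C0 * C, fun s hs s' hs' => (hC0 _ _ (hmin hs) (hmin hs')).trans ?_⟩
  rw [ENNReal.coe_mul, mul_assoc]
  gcongr
  have h1 : |φ (α s) - φ (α s')| ≤ C * |(s : ℝ) - s'| := by
    have := hLip.dist_le_mul s hs s' hs'
    rw [Real.dist_eq, Subtype.dist_eq, Real.dist_eq] at this
    exact this
  refine (ENNReal.ofReal_le_ofReal h1).trans ?_
  rw [ENNReal.ofReal_mul C.coe_nonneg, ENNReal.ofReal_coe_nnreal]

/-- Paths from steps: if `rho` is Lipschitz along all arc pieces inside `U`, then two points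
connected by steps inside `U` are joined by a Lipschitz path in `U`. -/
theorem exists_path_of_conn {X : Type*} [MetricSpace X] (ρ : X → X → ℝ≥0∞) (hρ0 : ∀ x, ρ x x = 0)
    (hρs : ∀ x y, ρ x y = ρ y x) (hρt : ∀ x y w, ρ x w ≤ ρ x y + ρ y w)
    (L : List C(I, X)) (U : Set X)
    (hL : ∀ α ∈ L, ∀ a b : I, α '' uIcc a b ⊆ U → ∃ C : ℝ≥0, ∀ s ∈ uIcc a b, ∀ s' ∈ uIcc a b,
      ρ (α s) (α s') ≤ C * ENNReal.ofReal |(s : ℝ) - s'|)
    (y y' : X) (hy : y ∈ U) (h : Conn L U y y') :
    ∃ γ : C(I, X), γ 0 = y ∧ γ 1 = y' ∧ range γ ⊆ U ∧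
      ∃ C : ℝ≥0, ∀ s s' : I, ρ (γ s) (γ s') ≤ C * ENNReal.ofReal |(s : ℝ) - s'| := by
  induction h with
  | refl =>
    refine ⟨ContinuousMap.const I y, rfl, rfl, ?_, 0, fun s s' => ?_⟩
    · rintro _ ⟨s, rfl⟩
      exact hy
    · show ρ y y ≤ _
      rw [hρ0]
      exact zero_le
  | @tail m y'' _ hstep ih =>
    obtain ⟨γ1, h10, h11, h1U, C1, hC1⟩ := ih
    obtain ⟨α, hα, a, b, ha, hb, hab⟩ := hstep
    obtain ⟨C2, hC2⟩ := hL α hα a b hab
    -- the affine reparametrization of the piece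
    have hmem : ∀ u : I, (a : ℝ) + u * (b - a) ∈ uIcc (a : ℝ) b := fun u => by
      have hu0 := u.2.1
      have hu1 := u.2.2
      rw [mem_uIcc]
      rcases le_total (a : ℝ) b with h | h
      · left; constructor <;> nlinarith
      · right; constructor <;> nlinarith
    have hmem' : ∀ u : I, (a : ℝ) + u * (b - a) ∈ I := fun u => by
      have h1 := hmem u
      rw [mem_uIcc] at h1
      rcases h1 with h1 | h1
      · exact ⟨a.2.1.trans h1.1, h1.2.trans b.2.2⟩
      · exact ⟨b.2.1.trans h1.1, h1.2.trans a.2.2⟩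
    let c : C(I, I) := ⟨fun u => ⟨(a : ℝ) + u * (b - a), hmem' u⟩, by fun_prop⟩
    have hc : ∀ u, c u ∈ uIcc a b := fun u => by
      have h1 := hmem u
      rw [mem_uIcc] at h1 ⊢
      exact h1
    have hc0 : c 0 = a := Subtype.ext (by show (a : ℝ) + ((0 : I) : ℝ) * (b - a) = a; simp)
    have hc1 : c 1 = b := Subtype.ext (by show (a : ℝ) + ((1 : I) : ℝ) * (b - a) = b; simp)
    have hcd : ∀ u v : I, |(c u : ℝ) - c v| ≤ |(u : ℝ) - v| := fun u v => by
      show |((a : ℝ) + u * (b - a)) - (a + v * (b - a))| ≤ _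
      rw [show ((a : ℝ) + u * (b - a)) - (a + v * (b - a)) = (u - v) * (b - a) by ring, abs_mul]
      have h1 : |(b : ℝ) - a| ≤ 1 := by
        rw [abs_le]
        constructor <;> linarith [a.2.1, a.2.2, b.2.1, b.2.2]
      calc |(u : ℝ) - v| * |(b : ℝ) - a| ≤ |(u : ℝ) - v| * 1 := by gcongr
        _ = _ := mul_one _
    let p1 : Path y m := ⟨γ1, h10, h11⟩
    let p2 : Path m y'' := ⟨α.comp c, by
      show α (c 0) = m
      rw [hc0, ha], by
      show α (c 1) = y''
      rw [hc1, hb]⟩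
    have hp1 : ∀ s, p1 s = γ1 s := fun s => rfl
    have hp2 : ∀ s, p2 s = α (c s) := fun s => rfl
    have hL1 : ∀ s s' : I, ρ (p1 s) (p1 s') ≤ C1 * ENNReal.ofReal |(s : ℝ) - s'| := hC1
    have hL2 : ∀ s s' : I, ρ (p2 s) (p2 s') ≤ C2 * ENNReal.ofReal |(s : ℝ) - s'| := fun s s' => by
      rw [hp2, hp2]
      exact (hC2 _ (hc s) _ (hc s')).trans
        (mul_le_mul_right (ENNReal.ofReal_le_ofReal (hcd s s')) _)
    refine ⟨(p1.trans p2).toContinuousMap, ?_, ?_, ?_, 2 * (C1 + C2), ?_⟩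
    · exact (p1.trans p2).source
    · exact (p1.trans p2).target
    · have h1 : range (p1.trans p2) ⊆ U := by
        rw [Path.trans_range]
        refine union_subset h1U ?_
        rintro _ ⟨s, rfl⟩
        exact hab ⟨c s, hc s, rfl⟩
      exact h1
    · have key : ∀ s s' : I, s ≤ s' → ρ ((p1.trans p2) s) ((p1.trans p2) s') ≤
          ((2 * (C1 + C2) : ℝ≥0) : ℝ≥0∞) * ENNReal.ofReal ((s' : ℝ) - s) := by
        intro s s' hss
        have hss' : (s : ℝ) ≤ s' := hss
        rw [Path.trans_apply, Path.trans_apply]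
        have hbig1 : ∀ d : ℝ, 0 ≤ d → (C1 : ℝ≥0∞) * ENNReal.ofReal (2 * d) ≤
            ((2 * (C1 + C2) : ℝ≥0) : ℝ≥0∞) * ENNReal.ofReal d := by
          intro d hd
          rw [ENNReal.ofReal_mul (by norm_num), ← mul_assoc]
          gcongr
          rw [ENNReal.coe_mul, ENNReal.coe_add, mul_comm]
          simp only [ENNReal.ofReal_ofNat, ENNReal.coe_ofNat]
          gcongr
          exact le_self_add
        have hbig2 : ∀ d : ℝ, 0 ≤ d → (C2 : ℝ≥0∞) * ENNReal.ofReal (2 * d) ≤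
            ((2 * (C1 + C2) : ℝ≥0) : ℝ≥0∞) * ENNReal.ofReal d := by
          intro d hd
          rw [ENNReal.ofReal_mul (by norm_num), ← mul_assoc]
          gcongr
          rw [ENNReal.coe_mul, ENNReal.coe_add, mul_comm]
          simp only [ENNReal.ofReal_ofNat, ENNReal.coe_ofNat]
          gcongr
          exact le_add_self
        split_ifs with h1 h2 h2
        · refine (hL1 _ _).trans ?_
          show (C1 : ℝ≥0∞) * ENNReal.ofReal |2 * (s : ℝ) - 2 * s'| ≤ _
          rw [abs_of_nonpos (by linarith), show -(2 * (s : ℝ) - 2 * s') = 2 * (s' - s) by ring]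
          exact hbig1 _ (by linarith)
        · refine (hρt _ (p1 1) _).trans ?_
          have e1 : p1 1 = p2 0 := by rw [p1.target, p2.source]
          have e2 : ρ (p1 ⟨2 * (s : ℝ), (unitInterval.mul_pos_mem_iff zero_lt_two).2
              ⟨s.2.1, h1⟩⟩) (p1 1) ≤ C1 * ENNReal.ofReal (2 * (1 / 2 - s)) := by
            refine (hL1 _ _).trans ?_
            show (C1 : ℝ≥0∞) * ENNReal.ofReal |2 * (s : ℝ) - ((1 : I) : ℝ)| ≤ _
            have e11 : ((1 : I) : ℝ) = 1 := rfl
            rw [e11, abs_of_nonpos (by linarith),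
              show -(2 * (s : ℝ) - 1) = 2 * (1 / 2 - s) by ring]
          have h2' : (1 : ℝ) / 2 ≤ s' := (not_le.1 h2).le
          have e3 : ρ (p1 1) (p2 ⟨2 * (s' : ℝ) - 1, unitInterval.two_mul_sub_one_mem_iff.2
              ⟨h2', s'.2.2⟩⟩) ≤ C2 * ENNReal.ofReal (2 * (s' - 1 / 2)) := by
            rw [e1]
            refine (hL2 _ _).trans ?_
            show (C2 : ℝ≥0∞) * ENNReal.ofReal |((0 : I) : ℝ) - (2 * (s' : ℝ) - 1)| ≤ _
            have e00 : ((0 : I) : ℝ) = 0 := rfl
            rw [e00, abs_of_nonpos (by linarith),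
              show -(0 - (2 * (s' : ℝ) - 1)) = 2 * (s' - 1 / 2) by ring]
          refine (add_le_add e2 e3).trans ?_
          refine (add_le_add (hbig1 _ (by linarith)) (hbig2 _ (by linarith))).trans ?_
          rw [← mul_add, ← ENNReal.ofReal_add (by linarith) (by linarith)]
          gcongr
          linarith
        · exfalso; linarith [not_le.1 h1]
        · refine (hL2 _ _).trans ?_
          show (C2 : ℝ≥0∞) * ENNReal.ofReal |(2 * (s : ℝ) - 1) - (2 * s' - 1)| ≤ _
          rw [abs_of_nonpos (by linarith),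
            show -((2 * (s : ℝ) - 1) - (2 * s' - 1)) = 2 * (s' - s) by ring]
          exact hbig2 _ (by linarith)
      intro s s'
      show ρ ((p1.trans p2) s) ((p1.trans p2) s') ≤ _
      rcases le_total s s' with h | h
      · have h' : (s : ℝ) ≤ s' := h
        rw [abs_of_nonpos (by linarith), neg_sub]
        exact key s s' h
      · have h' : (s' : ℝ) ≤ s := h
        rw [abs_of_nonneg (by linarith), hρs]
        exact key s' s h

end TopIFS
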