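import Pool.Agent.Lib.H41.IFS.Rooms
import Pool.Agent.Lib.H41.IFS.Geo
import Pool.Agent.Lib.H41.IFS.FreeArc

/-!
# Every Peano continuum is a topological IFS-attractor
-/

namespace TopIFS

open Set Filter Topology
open scoped ENNReal unitInterval NNReal

theorem attractor_of_peano (X : Type*) [TopologicalSpace X] [CompactSpace X] [ConnectedSpace X]
    [LocallyConnectedSpace X] [TopologicalSpace.MetrizableSpace X] : IsTopIFSAttractor X := by
  letI : MetricSpace X := TopologicalSpace.metrizableSpaceMetric X
  by_cases h : NFA X
  · rcases subsingleton_or_nontrivial X with hs | hn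
    · refine attractor_of_metric (J := Unit) (fun _ => ContinuousMap.id X) ?_ ?_
      · ext x; simp
      · intro ε hε
        refine ⟨0, fun l _ x y => ?_⟩
        rw [Subsingleton.elim x y]; simp [hε.le]
    · obtain ⟨g⟩ := exists_geo X h
      exact attractor_of_geo g
  · unfold NFA at h
    push Not at h
    obtain ⟨α, hα, h⟩ := h
    exact attractor_of_free_arc X α hα h

end TopIFS
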