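import Pool.Agent.Lib.H41.IFS.Concat
import Pool.Agent.Lib.H41.IFS.Kap
import Pool.Agent.Lib.H41.IFS.Rho

/-!
# The root ray
-/

namespace TopIFS

open Set Filter Topology
open scoped ENNReal unitInterval NNReal

/-- The root ray: along the arc `q` the pseudo-distance `rho` is the distance of the heights `H []`,
which are monotone along `q`. The path `p` runs from `q (s (t + c))` at time `lam t` to
`q (s (t + 1 + c))` at time `lam (t + 1)`, which is possible with speed `≤ 1` since
`lam (t + 1 + c) - lam (t + c) < lam (t + 1) - lam t`. Use `exists_concat` with `T t = lamR t` and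
pieces `q ∘ (affine map onto [s (t + c), s (t + 1 + c)]) ∘ c_t`, `c_t` from `exists_reparam`. -/
theorem exists_ray {X : Type*} [MetricSpace X] (H : List ℕ → X → ℝ≥0∞) (q : C(I, X)) (s : ℕ → I)
    (hs : StrictMono s) (hs1 : Tendsto s atTop (𝓝 1)) (hcont : Continuous (H []))
    (hrho : ∀ a b, rho H (q a) (q b) = dl (H [] (q a)) (H [] (q b)))
    (hmono : Monotone fun a => H [] (q a)) (hfin : ∀ a, a ≠ 1 → H [] (q a) ≠ ∞)
    (htop : H [] (q 1) = ∞) (hlam : ∀ t, H [] (q (s t)) = lam t) (c : ℕ) (hc : 1 ≤ c) :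
    ∃ p : C(ℝ≥0∞, X), (∀ r r', r ≠ ∞ → r' ≠ ∞ → rho H (p r) (p r') ≤ dl r r') ∧
      (∀ t, p (lam t) = q (s (t + c))) ∧ p 0 = q (s c) ∧ p ∞ = q 1 ∧
      (∀ r, lam 0 ≤ H [] (p r)) ∧ (∀ k r, lam k ≤ r → lam (k + 1) ≤ H [] (p r)) := by
  classical
  -- the affine pieces
  have hA : ∀ t : ℕ, ∃ A : C(I, I), A 0 = s (t + c) ∧ A 1 = s (t + 1 + c) ∧ Monotone A := by
    intro t
    have hlt : (s (t + c) : ℝ) ≤ s (t + 1 + c) := hs.monotone (by omega)
    refine ⟨⟨fun u => ⟨(s (t + c) : ℝ) + u * ((s (t + 1 + c) : ℝ) - s (t + c)), ?_⟩, ?_⟩,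
      ?_, ?_, ?_⟩
    · have h0 := (s (t + c)).2.1
      have h1 := (s (t + 1 + c)).2.2
      have hu0 := u.2.1
      have hu1 := u.2.2
      have h3 : 0 ≤ (u : ℝ) * ((s (t + 1 + c) : ℝ) - s (t + c)) :=
        mul_nonneg hu0 (sub_nonneg.2 hlt)
      have h4 : (u : ℝ) * ((s (t + 1 + c) : ℝ) - s (t + c)) ≤
          1 * ((s (t + 1 + c) : ℝ) - s (t + c)) :=
        mul_le_mul_of_nonneg_right hu1 (sub_nonneg.2 hlt)
      exact ⟨by linarith, by linarith⟩
    · fun_prop
    · ext; simp
    · ext; simp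
    · intro a b hab
      have hab' : (a : ℝ) ≤ b := hab
      refine Subtype.coe_le_coe.1 ?_
      simp only [ContinuousMap.coe_mk]
      have := mul_le_mul_of_nonneg_right hab' (sub_nonneg.2 hlt)
      linarith
  choose A hA0 hA1 hAm using hA
  have hAlo : ∀ t u, s (t + c) ≤ A t u := fun t u => by
    rw [← hA0]; exact hAm t (unitInterval.nonneg' (t := u))
  have hAhi : ∀ t u, A t u ≤ s (t + 1 + c) := fun t u => by
    rw [← hA1]; exact hAm t (unitInterval.le_one' (t := u))
  have hAne : ∀ t u, A t u ≠ 1 := fun t u => by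
    refine ne_of_lt (lt_of_le_of_lt (hAhi t u) (lt_of_lt_of_le (hs (Nat.lt_succ_self _)) ?_))
    exact unitInterval.le_one'
  -- the real heights
  have hhc : ∀ t, Continuous fun u : I => (H [] (q (A t u))).toReal := fun t => by
    refine ENNReal.continuousOn_toReal.comp_continuous
      (hcont.comp (q.continuous.comp (A t).continuous)) fun u => hfin _ (hAne t u)
  have hhm : ∀ t, Monotone fun u : I => (H [] (q (A t u))).toReal := fun t a b hab =>
    ENNReal.toReal_mono (hfin _ (hAne t b)) (hmono (hAm t hab))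
  have hh0 : ∀ t, (H [] (q (A t 0))).toReal = lamR (t + c) := fun t => by
    rw [hA0, hlam, lam, ENNReal.toReal_ofReal (lamR_pos _).le]
  have hh1 : ∀ t, (H [] (q (A t 1))).toReal = lamR (t + 1 + c) := fun t => by
    rw [hA1, hlam, lam, ENNReal.toReal_ofReal (lamR_pos _).le]
  have hg : ∀ t, (H [] (q (A t 1))).toReal - (H [] (q (A t 0))).toReal < lamR (t + 1) - lamR t := by
    intro t
    rw [hh0, hh1, show t + 1 + c = t + c + 1 by omega, lamR_succ, lamR_succ]
    have h1 : (1 : ℝ) / ((t + c : ℕ) + 2) < 1 / ((t : ℝ) + 2) := by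
      apply one_div_lt_one_div_of_lt (by positivity)
      have : (1 : ℝ) ≤ c := by exact_mod_cast hc
      push_cast
      linarith
    linarith
  choose cc hc0 hc1 hcm hcl using fun t =>
    exists_reparam (fun u : I => (H [] (q (A t u))).toReal) (hhc t) (hhm t) _ (hg t)
  -- the concatenation
  let γ : ℕ → C(I, X) := fun t => q.comp ((A t).comp (cc t))
  have hγ0 : ∀ t, γ t 0 = q (s (t + c)) := fun t => by
    simp only [γ, ContinuousMap.comp_apply, hc0, hA0]
  have hγ1 : ∀ t, γ t 1 = q (s (t + 1 + c)) := fun t => by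
    simp only [γ, ContinuousMap.comp_apply, hc1, hA1]
  have hHlo : ∀ t u, lam (t + c) ≤ H [] (γ t u) := fun t u => by
    rw [← hlam]
    exact hmono (hAlo t _)
  obtain ⟨p, hp1, hp2, hp3, hp4, hp5⟩ := exists_concat lamR (lamR_pos 0).le lamR_strictMono
    tendsto_lamR γ (fun k => by rw [hγ0, hγ1]) (q 1) (by
      intro N hN
      have h1 : q ⁻¹' N ∈ 𝓝 (1 : I) := q.continuous.continuousAt hN
      obtain ⟨a, ha, haN⟩ := exists_Ioc_subset_of_mem_nhds h1 ⟨0, zero_lt_one⟩
      have h2 : ∀ᶠ k in atTop, a < s (k + c) :=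
        (hs1.comp (tendsto_add_atTop_nat c)).eventually (lt_mem_nhds ha)
      filter_upwards [h2] with k hk
      rintro _ ⟨u, rfl⟩
      exact haN ⟨lt_of_lt_of_le hk (hAlo k _), unitInterval.le_one'⟩)
  refine ⟨p, ?_, ?_, ?_, hp3, ?_, ?_⟩
  · intro r r' hr hr'
    have := hp5 (rho H) 1 (rho_self H) (rho_comm H) (rho_triangle H) (by
      intro k u u'
      have h1 : rho H (γ k u) (γ k u') =
          dl (H [] (q (A k (cc k u)))) (H [] (q (A k (cc k u')))) := hrho _ _
      rw [h1, ← ENNReal.ofReal_toReal (hfin _ (hAne k (cc k u))),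
        ← ENNReal.ofReal_toReal (hfin _ (hAne k (cc k u'))),
        dl_ofReal _ _ ENNReal.toReal_nonneg ENNReal.toReal_nonneg, ENNReal.coe_one, one_mul]
      exact ENNReal.ofReal_le_ofReal (hcl k u u')) r r' hr hr'
    simpa using this
  · intro t
    have := hp2 t 0
    simpa [lam, hγ0] using this
  · have := hp1 0 (lamR_pos 0).le
    simpa [hγ0] using this
  · intro r
    by_cases hr : r = ∞
    · rw [hr, hp3, htop]; exact le_top
    · obtain ⟨k, u, hu⟩ := hp4 r hr
      rw [← hu]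
      exact le_trans (lam_strictMono.monotone (Nat.zero_le _)) (hHlo k u)
  · intro k r hk
    by_cases hr : r = ∞
    · rw [hr, hp3, htop]; exact le_top
    · obtain ⟨x, hx, hx2⟩ : ∃ x : ℝ, ENNReal.ofReal x = r ∧ lamR k ≤ x := by
        refine ⟨r.toReal, ENNReal.ofReal_toReal hr, ?_⟩
        have h1 := ENNReal.toReal_mono hr hk
        rwa [lam, ENNReal.toReal_ofReal (lamR_pos _).le] at h1
      obtain ⟨j, u, hju, hj1, hj2⟩ := exists_piece lamR lamR_strictMono tendsto_lamR
        (le_trans (lamR_strictMono.monotone (Nat.zero_le k)) hx2)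
      have hkj : k ≤ j := by
        have := lamR_strictMono.lt_iff_lt.1 (lt_of_le_of_lt hx2 hj2)
        omega
      rw [← hx, hju, hp2]
      exact le_trans (lam_strictMono.monotone (by omega)) (hHlo j u)

end TopIFS
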