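import Pool.Agent.Lib.H41.IFS.GeoDef
import Pool.Agent.Lib.H41.IFS.Base
import Pool.Agent.Lib.H41.IFS.Height
import Pool.Agent.Lib.H41.IFS.Ray

/-!
# Nodes
-/

namespace TopIFS

open Set Filter Topology
open scoped ENNReal unitInterval NNReal

/-- Node data. -/
structure ND (X : Type*) [MetricSpace X] where
  O : Set X
  K : Set X
  x : X
  y : X
  r : ℝ
  φ : C(X, ℝ)

section
variable {X : Type*} [MetricSpace X]

/-- The plateau number `t` of a node. -/
def ND.P (d : ND X) (t : ℕ) : Set X := {z | d.r / 4 ^ (t + 1) < d.φ z ∧ d.φ z < d.r / (2 * 4 ^ t)}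

theorem ND.isOpen_P (d : ND X) (t : ℕ) : IsOpen (d.P t) :=
  (isOpen_lt continuous_const d.φ.continuous).inter (isOpen_lt d.φ.continuous continuous_const)

/-- Conditions common to all nodes, including the root. -/
structure ND.Fine (B : Base X) (d : ND X) : Prop where
  r_pos : 0 < d.r
  φ0 : ∀ z, 0 ≤ d.φ z
  φz : ∀ z, d.φ z = 0 ↔ z = d.x
  xD : d.x ∉ B.D
  big : d.r ≤ d.φ (B.q 0)

/-- Conditions for the nodes different from the root. -/
structure ND.Nice (B : Base X) (n k : ℕ) (d : ND X) : Prop extends d.Fine B where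
  O_open : IsOpen d.O
  O_conn : IsPreconnected d.O
  K_closed : IsClosed d.K
  K_sub : d.K ⊆ d.O
  y_mem : d.y ∈ B.D ∩ d.O
  diam : ∀ a ∈ d.O, ∀ b ∈ d.O, dist a b ≤ (1 / 2) ^ k
  sub : {z | d.φ z ≤ d.r} ⊆ interior d.K
  off : ∀ z ∈ G (B.L n), d.r < d.φ z
  lip : ∀ m, ∀ α ∈ B.L m, ∃ C : ℝ≥0, LipschitzWith C (fun u => d.φ (α u))
  xL : ∀ m, d.x ∉ G (B.L m)

variable (B : Base X)

theorem Base.L_mono {m n : ℕ} (h : m ≤ n) : ∀ α ∈ B.L m, α ∈ B.L n := by
  induction n, h using Nat.le_induction with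
  | base => exact fun α h => h
  | succ n _ ih =>
    intro α hα
    obtain ⟨M, hM⟩ := B.hLs n
    rw [hM]
    exact List.mem_append_right _ (ih α hα)

theorem Base.q0_mem (n : ℕ) : B.q 0 ∈ G (B.L n) :=
  ⟨B.q, B.L_mono (Nat.zero_le n) _ (by rw [B.hL0]; simp), mem_range_self _⟩

theorem isClosed_G [CompactSpace X] (L : List C(I, X)) : IsClosed (G L) := by
  have : G L = ⋃ α ∈ {α | α ∈ L}, range α := by
    ext x; simp [G]
  rw [this]
  refine (List.finite_toSet L).isClosed_biUnion fun α _ => ?_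
  exact (isCompact_range α.continuous).isClosed

variable [CompactSpace X] [ConnectedSpace X] [LocallyConnectedSpace X] [Nontrivial X]

/-- Finishing a node: the choice of the distance function and the radius. -/
theorem finish_node (n k : ℕ) (O K : Set X) (x y : X) (hO : IsOpen O) (hOc : IsPreconnected O)
    (hK : IsClosed K) (hKO : K ⊆ O) (hy : y ∈ B.D ∩ O)
    (hd : ∀ a ∈ O, ∀ b ∈ O, dist a b ≤ (1 / 2) ^ k) (hxD : x ∉ B.D) (hxL : ∀ m, x ∉ G (B.L m))
    (N : Set X) (hN : IsOpen N) (hxN : x ∈ N) (hNK : N ⊆ interior K) :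
    ∃ d : ND X, d.O = O ∧ d.K = K ∧ d.x = x ∧ d.y = y ∧ d.Nice B n k ∧ {z | d.φ z ≤ d.r} ⊆ N := by
  obtain ⟨φ, h0, hz, hL⟩ := exists_tame_dist B.L B.hG B.hLs x hxL
  obtain ⟨r, hr, hr2⟩ := exists_sublevel φ x h0 hz (N ∩ (G (B.L n))ᶜ)
    (hN.inter (isClosed_G _).isOpen_compl) ⟨hxN, hxL n⟩
  have hoff : ∀ z ∈ G (B.L n), r < φ z := fun z hz => by
    by_contra hcon
    exact (hr2 (show z ∈ {z | φ z ≤ r} from not_lt.1 hcon)).2 hz
  refine ⟨⟨O, K, x, y, r, φ⟩, rfl, rfl, rfl, rfl, ?_, fun z hz => (hr2 hz).1⟩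
  exact {
    r_pos := hr, φ0 := h0, φz := hz, xD := hxD, big := (hoff _ (B.q0_mem n)).le
    O_open := hO, O_conn := hOc, K_closed := hK, K_sub := hKO, y_mem := hy, diam := hd
    sub := fun z hz => hNK (hr2 hz).1
    off := hoff, lip := hL, xL := hxL }

theorem exists_child (hX : NFA X) (d : ND X) (hd : d.Fine B) (t n k : ℕ) :
    ∃ d' : ND X, d'.Nice B n k ∧ d'.O ⊆ d.P t := by
  have hne : (d.P t).Nonempty :=
    plateau_nonempty d.φ d.x (B.q 0) d.r hd.r_pos ((hd.φz _).2 rfl) hd.big t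
  obtain ⟨y, hyP, hyD⟩ := B.hDd.inter_open_nonempty _ (d.isOpen_P t) hne
  obtain ⟨O, K, x, h1, h2, h3, h4, h5, h6, h7, h8, h9, h10⟩ := exists_small_node hX B.L
    (fun n => (B.hG n).injective) B.D B.hDc (d.P t) (d.isOpen_P t) y hyP ((1 / 2) ^ k)
    (by positivity)
  obtain ⟨d', e1, e2, e3, e4, e5, e6⟩ := finish_node B n k O K x y h1 h2 h6 h7 ⟨hyD, h3⟩ h5 h9 h10
    (interior K) isOpen_interior h8 subset_rfl
  exact ⟨d', e5, e1 ▸ h4⟩

/-- The tree of nodes. -/
theorem exists_nodes (hX : NFA X) (root : ND X) (hroot : root.Fine B) (first : ℕ → ND X)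
    (hfirst : ∀ t, (first t).Nice B (Encodable.encode [t]) 1 ∧ (first t).O ⊆ root.P t) :
    ∃ nd : List ℕ → ND X, nd [] = root ∧ (∀ t, nd [t] = first t) ∧
      ∀ t w, (nd (t :: w)).Nice B (Encodable.encode (t :: w)) (w.length + 1) ∧
        (nd (t :: w)).O ⊆ (nd w).P t := by
  choose! next hnext using fun (t : ℕ) (w : List ℕ) (d : ND X) (hd : d.Fine B) =>
    exists_child B hX d hd t (Encodable.encode (t :: w)) (w.length + 1)
  let nd : List ℕ → ND X := fun w => List.rec root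
    (fun t w d => if w = [] then first t else next t w d) w
  have h0 : nd [] = root := rfl
  have h1 : ∀ t, nd [t] = first t := fun t => by simp [nd]
  have h2 : ∀ t w, w ≠ [] → nd (t :: w) = next t w (nd w) := fun t w hw => by simp [nd, hw]
  have hF : ∀ w, (nd w).Fine B := by
    intro w
    induction w with
    | nil => exact hroot
    | cons t w ih =>
      by_cases hw : w = []
      · subst hw
        rw [h1]
        exact (hfirst t).1.toFine
      · rw [h2 t w hw]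
        exact (hnext t w (nd w) ih).1.toFine
  refine ⟨nd, h0, h1, fun t w => ?_⟩
  by_cases hw : w = []
  · subst hw
    rw [h1]
    exact hfirst t
  · rw [h2 t w hw]
    exact hnext t w (nd w) (hF w)

end

end TopIFS
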