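import Pool.Agent.Lib.H41.IFS.RoomsDef

/-!
# Rooms
-/

namespace TopIFS

open Set Filter Topology
open scoped ENNReal unitInterval NNReal

variable {X : Type*} [MetricSpace X] (g : Geo X)

theorem tendsto_dl {Y : Type*} {l : Filter Y} {f h : Y → ℝ≥0∞} {b : ℝ≥0∞} (hb : b ≠ ∞)
    (hf : Tendsto f l (𝓝 b)) (hh : Tendsto h l (𝓝 b)) :
    Tendsto (fun y => dl (f y) (h y)) l (𝓝 0) := by
  have h1 : Tendsto (fun y => f y - h y) l (𝓝 (b - b)) := ENNReal.Tendsto.sub hf hh (Or.inl hb)
  have h2 : Tendsto (fun y => h y - f y) l (𝓝 (b - b)) := ENNReal.Tendsto.sub hh hf (Or.inl hb)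
  have := h1.add h2
  simpa [dl] using this

/-- R1. Near a regular point `rho` is small: `rho x y = dl (H w x) (H w y)` there and `H w` is
continuous and finite. -/
theorem regular_small {z : X} (hz : Regular g z) {ε : ℝ≥0∞} (hε : ε ≠ 0) :
    ∃ N ∈ 𝓝 z, ∀ x ∈ N, ∀ y ∈ N, rho g.H x y ≤ ε := by
  obtain ⟨w, hw, hev⟩ := hz
  have h1 : Tendsto (fun x => dl (g.H w x) (g.H w z)) (𝓝 z) (𝓝 0) :=
    tendsto_dl hw (g.cont w).continuousAt tendsto_const_nhds
  have h2 : ∀ᶠ x in 𝓝 z, dl (g.H w x) (g.H w z) < ε / 2 :=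
    h1.eventually (gt_mem_nhds (ENNReal.half_pos hε))
  refine ⟨{x | (∀ v, v ≠ w → g.H v x = g.H v z) ∧ dl (g.H w x) (g.H w z) < ε / 2},
    hev.and h2, ?_⟩
  rintro x ⟨hx1, hx2⟩ y ⟨hy1, hy2⟩
  have h3 : rho g.H x y = dl (g.H w x) (g.H w y) := by
    unfold rho
    refine tsum_eq_single w fun v hv => ?_
    rw [hx1 v hv, hy1 v hv, dl_self]
  rw [h3]
  refine (dl_triangle _ (g.H w z) _).trans ?_
  rw [dl_comm (g.H w z)]
  exact (add_le_add hx2.le hy2.le).trans (ENNReal.add_halves ε).le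

/-- R2. A compact set of regular points is covered by finitely many gas rooms of any level. -/
theorem exists_gas_cover [CompactSpace X] [LocallyConnectedSpace X] (A U : Set X)
    (hA : IsCompact A) (hU : IsOpen U) (hAU : A ⊆ U) (hreg : ∀ z ∈ A, Regular g z) (j : ℕ)
    (hj : 1 ≤ j) : ∃ (m : ℕ) (R : Fin m → Room X),
      (∀ i, IsGas g (R i) ∧ (R i).lvl = j ∧ (R i).region ⊆ U) ∧ A ⊆ ⋃ i, (R i).tgt := by
  classical
  have key : ∀ z ∈ A, ∃ (V C : Set X), IsOpen V ∧ IsPreconnected V ∧ V ⊆ U ∧ C ∈ 𝓝 z ∧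
      IsClosed C ∧ C ⊆ V ∧ (∃ y, y ∈ g.D ∩ V) ∧
      (∀ x ∈ V, ∀ y ∈ V, rho g.H x y ≤ ((2 * g.M + 1 : ℝ≥0) : ℝ≥0∞) / 2 ^ j) ∧
      (∀ x ∈ V, ∀ y ∈ V, dist x y ≤ (1 / 2) ^ j) := by
    intro z hz
    have hε : ((2 * g.M + 1 : ℝ≥0) : ℝ≥0∞) / 2 ^ j ≠ 0 := by
      rw [Ne, ENNReal.div_eq_zero_iff, not_or]
      refine ⟨by positivity, by simp⟩
    obtain ⟨N, hN, hN2⟩ := regular_small g (hreg z hz) hε
    have hball : Metric.ball z ((1 / 2) ^ j / 2) ∈ 𝓝 z := Metric.ball_mem_nhds _ (by positivity)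
    have hcap : U ∩ N ∩ Metric.ball z ((1 / 2) ^ j / 2) ∈ 𝓝 z :=
      inter_mem (inter_mem (hU.mem_nhds (hAU hz)) hN) hball
    obtain ⟨V, hVsub, hVo, hzV, hVc⟩ :=
      locallyConnectedSpace_iff_subsets_isOpen_isConnected.1 inferInstance z _ hcap
    obtain ⟨C, hCn, hCc, hCV⟩ := exists_mem_nhds_isClosed_subset (hVo.mem_nhds hzV)
    obtain ⟨y, hy1, hy2⟩ := g.dense.inter_open_nonempty V hVo ⟨z, hzV⟩
    refine ⟨V, C, hVo, hVc.isPreconnected, fun x hx => (hVsub hx).1.1, hCn, hCc, hCV,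
      ⟨y, hy2, hy1⟩, fun x hx y hy => hN2 x (hVsub hx).1.2 y (hVsub hy).1.2, fun x hx y hy => ?_⟩
    have h1 := (hVsub hx).2
    have h2 := (hVsub hy).2
    rw [Metric.mem_ball] at h1 h2
    have := dist_triangle_right x y z
    linarith
  choose! V C hVo hVc hVU hCn hCc hCV hP hrho hdist using key
  choose! P hP using hP
  obtain ⟨t, htA, htc⟩ := hA.elim_nhds_subcover C hCn
  let R : Fin t.card → Room X := fun i =>
    ⟨V (t.equivFin.symm i), A ∩ C (t.equivFin.symm i), P (t.equivFin.symm i), j, 1 / 2⟩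
  refine ⟨t.card, R, fun i => ?_, fun x hx => ?_⟩
  · have hm : ((t.equivFin.symm i : t) : X) ∈ A := htA _ (t.equivFin.symm i).2
    refine ⟨⟨rfl, hj, hVo _ hm, hVc _ hm, hA.inter_right (hCc _ hm),
      fun x hx => hCV _ hm hx.2, hP _ hm, fun z hz => hreg z hz.1, hrho _ hm,
      fun _ => hdist _ hm⟩, rfl, hVU _ hm⟩
  · obtain ⟨z, hz, hxz⟩ := mem_iUnion₂.1 (htc hx)
    refine mem_iUnion.2 ⟨t.equivFin ⟨z, hz⟩, hx, ?_⟩
    simpa using hxz

theorem half_coe : ((1 / 2 : ℝ≥0) : ℝ≥0∞) = 1 / 2 := by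
  rw [one_div, one_div, ENNReal.coe_inv (by norm_num)]
  norm_num

/-- R3. Assembling a room from a countable family of rooms converging to a point `z`:
walk through the ports (`exists_walk`), child `t` is `R k` if `t = τ k` and a constant room
otherwise. -/
theorem assemble [CompactSpace X] [LocallyConnectedSpace X] (V : Room X) (hVo : IsOpen V.region)
    (hVc : IsPreconnected V.region) (hport : V.port ∈ g.D ∩ V.region) (hLp : V.Lp = 1 / 2)
    {z : X} (hz : z ∈ V.region) {ι : Type*} [Countable ι] [Infinite ι] (R : ι → Room X)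
    (hR : ∀ k, Valid g (R k) ∧ (R k).region ⊆ V.region ∧ (R k).port ∈ g.D ∧
      (R k).port ∈ (R k).region ∧ (R k).lvl = V.lvl + 1 ∧ (R k).Lp = 1 / 2)
    (hlim : ∀ N ∈ 𝓝 z, ∀ᶠ k in cofinite, (R k).region ⊆ N)
    (hcov : V.tgt ⊆ {z} ∪ ⋃ k, (R k).tgt) :
    ∃ (p : C(ℝ≥0∞, X)) (ch : ℕ → Room X), StepOK g V p ch := by
  classical
  obtain ⟨e⟩ : Nonempty (ℕ ≃ ι) := nonempty_equiv_of_countable
  have hlim' : ∀ N ∈ 𝓝 z, ∀ᶠ k in atTop, (R (e k)).region ⊆ N := by
    intro N hN
    have := (e.injective.tendsto_cofinite).eventually (hlim N hN)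
    rwa [Nat.cofinite_eq_atTop] at this
  obtain ⟨p, τ, hτ, hp0, hpτ, hpz, hpU, hplip⟩ := exists_walk (rho g.H) (rho_self g.H)
    (rho_comm g.H) (rho_triangle g.H) g.D g.path V.region hVo hVc V.port hport
    (fun k => (R (e k)).port) (fun k => ⟨(hR _).2.2.1, (hR _).2.1 (hR _).2.2.2.1⟩) z hz (by
      intro N hN
      show ∀ᶠ k in atTop, (R (e k)).port ∈ N
      filter_upwards [hlim' N hN] with k hk
      exact hk (hR _).2.2.2.1)
  let ch : ℕ → Room X := fun t =>
    if h : ∃ k, τ k = t then R (e h.choose) else ptRoom (p (lam t)) (V.lvl + 1)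
  have hch1 : ∀ k, ch (τ k) = R (e k) := by
    intro k
    have h : ∃ k', τ k' = τ k := ⟨k, rfl⟩
    have h2 : h.choose = k := hτ.injective h.choose_spec
    show (if h : ∃ k', τ k' = τ k then R (e h.choose) else _) = _
    rw [dif_pos h, h2]
  have hch2 : ∀ t, (¬ ∃ k, τ k = t) → ch t = ptRoom (p (lam t)) (V.lvl + 1) := by
    intro t ht
    show (if h : ∃ k', τ k' = t then R (e h.choose) else _) = _
    rw [dif_neg ht]
  refine ⟨p, ch, hp0, fun t => ?_, hpU, fun t => ?_, fun r r' hr hr' => ?_, fun t => ?_,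
    fun t => ?_, fun N hN => ?_, ?_, fun t => ?_⟩
  · by_cases h : ∃ k, τ k = t
    · obtain ⟨k, rfl⟩ := h
      rw [hch1, hpτ]
    · rw [hch2 t h]; rfl
  · by_cases h : ∃ k, τ k = t
    · obtain ⟨k, rfl⟩ := h
      rw [hch1]
      exact (hR _).2.1
    · rw [hch2 t h]
      rintro _ rfl
      exact hpU _
  · rw [hLp, half_coe]
    exact hplip r r' hr hr'
  · by_cases h : ∃ k, τ k = t
    · obtain ⟨k, rfl⟩ := h
      rw [hch1]
      exact (hR _).2.2.2.2.2
    · rw [hch2 t h]; rfl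
  · by_cases h : ∃ k, τ k = t
    · obtain ⟨k, rfl⟩ := h
      rw [hch1]
      exact (hR _).2.2.2.2.1
    · rw [hch2 t h]; rfl
  · rw [hpz] at hN
    obtain ⟨K, hK⟩ := eventually_atTop.1 (hlim' N hN)
    have h2 : ∀ᶠ t in atTop, p (lam t) ∈ N := by
      have : Tendsto (fun t => p (lam t)) atTop (𝓝 (p ∞)) :=
        (p.continuous.tendsto ∞).comp tendsto_lam
      rw [hpz] at this
      exact this hN
    filter_upwards [h2, eventually_ge_atTop (τ K)] with t ht1 ht2
    by_cases h : ∃ k, τ k = t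
    · obtain ⟨k, rfl⟩ := h
      rw [hch1]
      exact hK k (hτ.le_iff_le.1 ht2)
    · rw [hch2 t h]
      rintro _ rfl
      exact ht1
  · rw [hpz]
    refine hcov.trans (union_subset_union_right _ ?_)
    refine iUnion_subset fun k => ?_
    intro x hx
    refine mem_iUnion.2 ⟨τ (e.symm k), ?_⟩
    rw [hch1, e.apply_symm_apply]
    exact hx
  · by_cases h : ∃ k, τ k = t
    · obtain ⟨k, rfl⟩ := h
      rw [hch1]
      exact (hR _).1
    · rw [hch2 t h]
      exact Or.inr (Or.inr (Or.inl ⟨_, _, by omega, rfl⟩))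

/-- R4. Children of a gas room: cover the target by gas rooms of the next level inside the region
(R2), then R3 with `z = port` and the constant rooms `ptRoom port` for all further indices. -/
theorem step_gas [CompactSpace X] [LocallyConnectedSpace X] (V : Room X) (hV : IsGas g V) :
    ∃ (p : C(ℝ≥0∞, X)) (ch : ℕ → Room X), StepOK g V p ch := by
  obtain ⟨m, R, hR, hcov⟩ := exists_gas_cover g V.tgt V.region hV.compact hV.isOpen hV.sub
    hV.regular (V.lvl + 1) (by omega)
  refine assemble g V hV.isOpen hV.conn hV.port hV.Lp (z := V.port) hV.port.2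
    (ι := Fin m ⊕ ℕ) (Sum.elim R fun _ => ptRoom V.port (V.lvl + 1)) ?_ ?_ ?_
  · rintro (i | k)
    · obtain ⟨h1, h2, h3⟩ := hR i
      exact ⟨Or.inr (Or.inl h1), h3, h1.port.1, h1.port.2, h2, h1.Lp⟩
    · refine ⟨Or.inr (Or.inr (Or.inl ⟨_, _, by omega, rfl⟩)), ?_, hV.port.1, rfl, rfl, rfl⟩
      rintro _ rfl
      exact hV.port.2
  · intro N hN
    rw [eventually_cofinite]
    refine (finite_range (Sum.inl : Fin m → Fin m ⊕ ℕ)).subset ?_
    rintro (i | k) hk
    · exact ⟨i, rfl⟩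
    · exfalso
      apply hk
      rintro _ rfl
      exact mem_of_mem_nhds hN
  · intro x hx
    right
    obtain ⟨i, hi⟩ := mem_iUnion.1 (hcov hx)
    exact mem_iUnion.2 ⟨Sum.inl i, hi⟩

/-! ### Addresses -/

omit [MetricSpace X] in
theorem at_suffix {H : List ℕ → X → ℝ≥0∞} {l w : List ℕ} {x : X} (h : At H (l ++ w) x) :
    At H w x := by
  induction l with
  | nil => exact h
  | cons t l ih => exact ih h.1

omit [MetricSpace X] in
theorem at_unique {H : List ℕ → X → ℝ≥0∞} {x : X} : ∀ {v w : List ℕ}, At H v x → At H w x →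
    v.length = w.length → v = w := by
  intro v
  induction v with
  | nil =>
    intro w _ _ h
    exact (List.length_eq_zero_iff.1 h.symm).symm
  | cons t v ih =>
    intro w hv hw h
    match w, h with
    | s :: w, h =>
      have h1 : v = w := ih hv.1 hw.1 (by simpa using h)
      subst h1
      have h2 : t = s := lam_injective (hv.2.symm.trans hw.2)
      rw [h2]

/-- Points read at two addresses: the addresses are comparable. -/
theorem at_comparable {v w : List ℕ} {x : X} (hv : At g.H v x) (hw : At g.H w x) :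
    v <:+ w ∨ w <:+ v := by
  have key : ∀ {v w : List ℕ}, At g.H v x → At g.H w x → v.length ≤ w.length → v <:+ w := by
    intro v w hv hw h
    have h1 : At g.H (w.drop (w.length - v.length)) x :=
      at_suffix (l := w.take (w.length - v.length)) (by rw [List.take_append_drop]; exact hw)
    have h2 : v = w.drop (w.length - v.length) := by
      refine at_unique hv h1 ?_
      rw [List.length_drop]
      omega
    rw [h2]
    exact List.drop_suffix _ _
  rcases le_total v.length w.length with h | h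
  · exact Or.inl (key hv hw h)
  · exact Or.inr (key hw hv h)

theorem at_of_ne_zero' (v : List ℕ) (x : X) (h : g.H v x ≠ 0) : At g.H v x := by
  induction v with
  | nil => trivial
  | cons t v ih =>
    have h1 := g.tree t v x h
    exact ⟨ih (by rw [h1]; exact lam_ne_zero t), h1⟩

theorem at_O {w : List ℕ} (hw : w ≠ []) {x : X} (hx : x ∈ g.O w) : At g.H w x := by
  match w, hw with
  | t :: w, _ =>
    have h1 := g.plateau t w x hx
    exact ⟨at_of_ne_zero' g w x (by rw [h1]; exact lam_ne_zero t), h1⟩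

theorem O_sub {w : List ℕ} (hw : w ≠ []) (t : ℕ) : g.O (t :: w) ⊆ g.O w := by
  intro x hx
  have h1 := g.plateau t w x hx
  have h2 : x ∈ closure {x | g.H w x ≠ 0} := subset_closure (by
    show g.H w x ≠ 0
    rw [h1]; exact lam_ne_zero t)
  exact g.K_sub w hw (interior_subset (g.supp w hw h2))

theorem xs_mem_O {w : List ℕ} (hw : w ≠ []) : g.xs w ∈ g.O w := by
  have h2 : g.xs w ∈ closure {x | g.H w x ≠ 0} := subset_closure (by
    show g.H w (g.xs w) ≠ 0
    rw [(g.top_iff w _).2 rfl]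
    exact ENNReal.top_ne_zero)
  exact g.K_sub w hw (interior_subset (g.supp w hw h2))

/-- Near a point of finite height off the nodes `t :: w` all heights at strict extensions of `w`
vanish. -/
theorem ext_zero {w : List ℕ} {z : X} (hz : g.H w z ≠ ∞)
    (hzt : ∀ t, z ∉ interior (g.K (t :: w))) :
    ∀ᶠ x in 𝓝 z, ∀ l t, g.H (l ++ t :: w) x = 0 := by
  obtain ⟨T, hT⟩ : ∃ T, g.H w z < lam T :=
    (tendsto_lam.eventually (lt_mem_nhds (lt_top_iff_ne_top.2 hz))).exists
  have h1 : ∀ᶠ x in 𝓝 z, g.H w x < lam T := (g.cont w).continuousAt.eventually (gt_mem_nhds hT)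
  have h2 : ∀ t ∈ Finset.range T, ∀ᶠ x in 𝓝 z, g.H (t :: w) x = 0 := by
    intro t _
    have h3 : z ∉ closure {x | g.H (t :: w) x ≠ 0} :=
      fun h => hzt t (g.supp _ (by simp) h)
    have h4 : (closure {x | g.H (t :: w) x ≠ 0})ᶜ ∈ 𝓝 z :=
      isClosed_closure.isOpen_compl.mem_nhds h3
    filter_upwards [h4] with x hx
    by_contra h5
    exact hx (subset_closure h5)
  rw [← Filter.eventually_all_finset] at h2
  filter_upwards [h1, h2] with x hx1 hx2 l t
  by_contra h
  have hat := at_of_ne_zero' g _ x h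
  have hat' : At g.H (t :: w) x := at_suffix hat
  have ht : t < T := by
    have := hat'.2
    rw [this] at hx1
    exact lam_strictMono.lt_iff_lt.1 hx1
  have hz0 := hx2 t (Finset.mem_range.2 ht)
  rcases List.eq_nil_or_concat l with rfl | ⟨l', s, rfl⟩
  · exact h hz0
  · rw [List.concat_eq_append, List.append_assoc] at hat
    have h5 : At g.H ([s] ++ t :: w) x := at_suffix hat
    have h6 : g.H (t :: w) x = lam s := h5.2
    rw [hz0] at h6
    exact lam_ne_zero s h6.symm

/-- R5a. Points of `K w` off the nodes `t :: w` are regular (w.r.t. `w`): on the open set `O w`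
all heights at addresses not extending `w` are constant; near `z` the heights `H (t :: w)` vanish
(only finitely many `t` matter since `H w z` is finite). -/
theorem regular_pure {w : List ℕ} (hw : w ≠ []) {z : X} (hz : z ∈ g.K w) (hz' : z ≠ g.xs w)
    (hzt : ∀ t, z ∉ interior (g.K (t :: w))) : Regular g z := by
  have hfin : g.H w z ≠ ∞ := fun h => hz' ((g.top_iff w z).1 h)
  refine ⟨w, hfin, ?_⟩
  have hO : g.O w ∈ 𝓝 z := (g.O_open w hw).mem_nhds (g.K_sub w hw hz)
  have hzO : z ∈ g.O w := g.K_sub w hw hz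
  have hext := ext_zero g hfin hzt
  filter_upwards [hO, hext] with x hx1 hx2 v hv
  have hAx := at_O g hw hx1
  have hAz := at_O g hw hzO
  by_cases h1 : v <:+ w
  · obtain ⟨l, rfl⟩ := h1
    rcases List.eq_nil_or_concat l with rfl | ⟨l', s, rfl⟩
    · exact absurd rfl hv
    · rw [List.concat_eq_append, List.append_assoc] at hAx hAz
      have h2 : At g.H ([s] ++ v) x := at_suffix hAx
      have h3 : At g.H ([s] ++ v) z := at_suffix hAz
      exact h2.2.trans h3.2.symm
  · by_cases h2 : w <:+ v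
    · obtain ⟨l, rfl⟩ := h2
      rcases List.eq_nil_or_concat l with rfl | ⟨l', s, rfl⟩
      · exact absurd rfl hv
      · rw [List.concat_eq_append, List.append_assoc]
        have h3 := hx2 l' s
        have h4 := hext.self_of_nhds l' s
        exact h3.trans h4.symm
    · have h0 : ∀ y, At g.H w y → g.H v y = 0 := by
        intro y hy
        by_contra h
        rcases at_comparable g (at_of_ne_zero' g v y h) hy with h3 | h3
        · exact h1 h3
        · exact h2 h3
      rw [h0 x hAx, h0 z hAz]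

/-- R5b. The same at the root. -/
theorem regular_root {z : X} (hz' : z ≠ g.xs []) (hzt : ∀ t, z ∉ interior (g.K [t])) :
    Regular g z := by
  have hfin : g.H [] z ≠ ∞ := fun h => hz' ((g.top_iff [] z).1 h)
  refine ⟨[], hfin, ?_⟩
  have hext := ext_zero g hfin hzt
  filter_upwards [hext] with x hx2 v hv
  rcases List.eq_nil_or_concat v with rfl | ⟨l', s, rfl⟩
  · exact absurd rfl hv
  · rw [List.concat_eq_append]
    have h3 := hx2 l' s
    have h4 := hext.self_of_nhds l' s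
    exact h3.trans h4.symm

/-- Points of large height are close to `xs w`. -/
theorem exists_high [CompactSpace X] (w : List ℕ) {N : Set X} (hN : N ∈ 𝓝 (g.xs w)) :
    ∃ k, ∀ x, lam k ≤ g.H w x → x ∈ N := by
  obtain ⟨N', hN', hNo, hxN⟩ := mem_nhds_iff.1 hN
  rcases (N'ᶜ).eq_empty_or_nonempty with h | h
  · refine ⟨0, fun x _ => hN' ?_⟩
    by_contra hx
    have : x ∈ N'ᶜ := hx
    rw [h] at this
    exact this
  · obtain ⟨y, hy, hmax⟩ := hNo.isClosed_compl.isCompact.exists_isMaxOn h (g.cont w).continuousOn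
    have hfin : g.H w y ≠ ∞ := fun h => hy (by rw [(g.top_iff w y).1 h]; exact hxN)
    obtain ⟨T, hT⟩ : ∃ T, g.H w y < lam T :=
      (tendsto_lam.eventually (lt_mem_nhds (lt_top_iff_ne_top.2 hfin))).exists
    refine ⟨T, fun x hx => hN' ?_⟩
    by_contra hxN'
    have h1 : g.H w x ≤ g.H w y := hmax hxN'
    exact absurd (hx.trans h1) (not_le.2 hT)

/-- The level values `0, lam 0, lam 1, ...`. -/
noncomputable def bb (n : ℕ) : ℝ≥0∞ := Nat.casesOn n 0 lam

theorem bb_succ (n : ℕ) : bb (n + 1) = lam n := rfl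

theorem exists_bb {r : ℝ≥0∞} (hr : r ≠ ∞) : ∃ n, bb n ≤ r ∧ r ≤ bb (n + 1) := by
  classical
  have hex : ∃ n, r ≤ lam n :=
    (tendsto_lam.eventually (lt_mem_nhds (lt_top_iff_ne_top.2 hr))).exists.imp fun _ h => h.le
  refine ⟨Nat.find hex, ?_, Nat.find_spec hex⟩
  rcases h : Nat.find hex with _ | n
  · exact bot_le
  · have := Nat.find_min hex (m := n) (by omega)
    exact (not_le.1 this).le

/-- The shell pieces of a node. -/
def pieceSet (w : List ℕ) (n : ℕ) : Set X :=
  {x | x ∈ g.K w ∧ bb n ≤ g.H w x ∧ g.H w x ≤ bb (n + 1) ∧ ∀ t, x ∉ interior (g.K (t :: w))}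

theorem isClosed_pieceSet {w : List ℕ} (hw : w ≠ []) (n : ℕ) : IsClosed (pieceSet g w n) := by
  have h : pieceSet g w n = g.K w ∩ {x | bb n ≤ g.H w x} ∩ {x | g.H w x ≤ bb (n + 1)} ∩
      ⋂ t, (interior (g.K (t :: w)))ᶜ := by
    ext x
    simp only [pieceSet, mem_ofPred_eq, mem_inter_iff, mem_iInter, mem_compl_iff]
    tauto
  rw [h]
  exact (((g.K_closed w hw).inter (isClosed_le continuous_const (g.cont w))).inter
    (isClosed_le (g.cont w) continuous_const)).inter
    (isClosed_iInter fun t => isOpen_interior.isClosed_compl)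

/-- R5. Children of the room of a node `w`: all `pureRoom (t :: w)` and, for each `n`, finitely many
gas rooms of level `|w| + 1` covering the compact set of `x ∈ K w` with
`b n ≤ H w x ≤ b (n + 1)` (`b 0 = 0`, `b (n + 1) = lam n`) off all `interior (K (t :: w))`, inside
`O w ∩ {b (n - 1) < H w}`; they converge to `xs w`. Then R3 with `z = xs w`,
index type `ℕ ⊕ Σ n, Fin (N n)`. -/
theorem step_pure [CompactSpace X] [LocallyConnectedSpace X] (w : List ℕ) (hw : w ≠ []) :
    ∃ (p : C(ℝ≥0∞, X)) (ch : ℕ → Room X), StepOK g (pureRoom g w) p ch := by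
  -- the open sets
  let U : ℕ → Set X := fun n => g.O w ∩ {x | ∀ m, m + 2 ≤ n → lam m < g.H w x}
  have hUo : ∀ n, IsOpen (U n) := by
    intro n
    have h : {x | ∀ m, m + 2 ≤ n → lam m < g.H w x} =
        ⋂ m ∈ {m : ℕ | m + 2 ≤ n}, {x | lam m < g.H w x} := by
      ext x; simp
    show IsOpen (g.O w ∩ {x | ∀ m, m + 2 ≤ n → lam m < g.H w x})
    rw [h]
    refine (g.O_open w hw).inter (Set.Finite.isOpen_biInter ?_ fun m _ =>
      isOpen_lt continuous_const (g.cont w))
    exact (finite_lt_nat n).subset fun m hm => by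
      have : m + 2 ≤ n := hm
      show m < n
      omega
  have hsub : ∀ n, pieceSet g w n ⊆ U n := by
    rintro n x ⟨h1, h2, -, -⟩
    refine ⟨g.K_sub w hw h1, fun m hm => ?_⟩
    obtain ⟨n', rfl⟩ : ∃ n', n = n' + 1 := ⟨n - 1, by omega⟩
    rw [bb_succ] at h2
    exact (lam_strictMono (show m < n' by omega)).trans_le h2
  have hfin : ∀ n, ∀ x ∈ pieceSet g w n, g.H w x ≠ ∞ := by
    rintro n x ⟨-, -, h3, -⟩ h
    rw [h, bb_succ] at h3
    exact lam_ne_top n (top_le_iff.1 h3)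
  have hcover := fun n => exists_gas_cover g (pieceSet g w n) (U n)
    (isClosed_pieceSet g hw n).isCompact (hUo n) (hsub n)
    (fun z hz => regular_pure g hw hz.1 (fun h => hfin n z hz ((g.top_iff w z).2 h)) hz.2.2.2)
    (w.length + 1) (by omega)
  choose m R hR hcov using hcover
  refine assemble g (pureRoom g w) (g.O_open w hw) (g.O_conn w hw) (g.y_mem w hw) rfl
    (z := g.xs w) (xs_mem_O g hw) (ι := ℕ ⊕ Σ n, Fin (m n))
    (Sum.elim (fun t => pureRoom g (t :: w)) fun i => R i.1 i.2) ?_ ?_ ?_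
  · rintro (t | ⟨n, i⟩)
    · exact ⟨Or.inl ⟨_, by simp, rfl⟩, O_sub g hw t, (g.y_mem (t :: w) (by simp)).1,
        (g.y_mem (t :: w) (by simp)).2, rfl, rfl⟩
    · obtain ⟨h1, h2, h3⟩ := hR n i
      exact ⟨Or.inr (Or.inl h1), fun x hx => (h3 hx).1, h1.port.1, h1.port.2, h2, h1.Lp⟩
  · intro N hN
    obtain ⟨k, hk⟩ := exists_high g w hN
    rw [eventually_cofinite]
    have hfin1 : (Sum.inl '' Iio k : Set (ℕ ⊕ Σ n, Fin (m n))).Finite :=
      (finite_Iio k).image _
    have hfin2 : (⋃ n ∈ Iio (k + 2), range fun i : Fin (m n) =>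
        (Sum.inr ⟨n, i⟩ : ℕ ⊕ Σ n, Fin (m n))).Finite :=
      (finite_Iio (k + 2)).biUnion fun n _ => finite_range _
    refine (hfin1.union hfin2).subset ?_
    rintro (t | ⟨n, i⟩) hti
    · left
      refine ⟨t, ?_, rfl⟩
      by_contra ht
      rw [mem_Iio, not_lt] at ht
      apply hti
      intro x hx
      refine hk x ?_
      rw [g.plateau t w x hx]
      exact lam_strictMono.monotone ht
    · right
      refine mem_iUnion₂.2 ⟨n, ?_, i, rfl⟩
      by_contra hn
      rw [mem_Iio, not_lt] at hn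
      apply hti
      intro x hx
      exact hk x (((hR n i).2.2 hx).2 k hn).le
  · intro x hx
    by_cases hxx : x = g.xs w
    · exact Or.inl hxx
    right
    by_cases hxt : ∃ t, x ∈ interior (g.K (t :: w))
    · obtain ⟨t, ht⟩ := hxt
      exact mem_iUnion.2 ⟨Sum.inl t, interior_subset ht⟩
    · push Not at hxt
      obtain ⟨n, hn1, hn2⟩ := exists_bb (r := g.H w x) fun h => hxx ((g.top_iff w x).1 h)
      obtain ⟨i, hi⟩ := mem_iUnion.1 (hcov n (show x ∈ pieceSet g w n from ⟨hx, hn1, hn2, hxt⟩))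
      exact mem_iUnion.2 ⟨Sum.inr ⟨n, i⟩, hi⟩

/-- R6. The first slow room (`ray 1`, child `t` is `pureRoom [t + 1]`). -/
theorem step_slow [CompactSpace X] :
    ∃ (p : C(ℝ≥0∞, X)) (ch : ℕ → Room X), StepOK g (slowRoom g) p ch ∧
      (∀ r, lam 0 ≤ g.H [] (p r)) ∧ (∀ s r, lam s ≤ r → lam (s + 1) ≤ g.H [] (p r)) ∧
        ∀ t, ∀ x ∈ (ch t).region, lam (t + 1) ≤ g.H [] x := by
  obtain ⟨p, h1, h2, h3, h4, h5, h6⟩ := g.ray 1 le_rfl
  refine ⟨p, fun t => pureRoom g [t + 1], ⟨h3, fun t => (h2 t).symm, fun r => mem_univ _,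
    fun t => subset_univ _, fun r r' hr hr' => ?_, fun t => rfl, fun t => rfl, fun N hN => ?_,
    ?_, fun t => Or.inl ⟨_, by simp, rfl⟩⟩, h5, h6, fun t x hx => ?_⟩
  · show rho g.H (p r) (p r') ≤ ((1 : ℝ≥0) : ℝ≥0∞) * dl r r'
    rw [ENNReal.coe_one, one_mul]
    exact h1 r r' hr hr'
  · rw [h4] at hN
    obtain ⟨k, hk⟩ := exists_high g [] hN
    filter_upwards [eventually_ge_atTop k] with t ht x hx
    refine hk x ?_
    rw [g.plateau (t + 1) [] x hx]
    exact lam_strictMono.monotone (by omega)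
  · rw [h4]
    exact subset_rfl
  · rw [g.plateau (t + 1) [] x hx]

theorem shell_fin {t : ℕ} {x : X} (hx : x ∈ shellSet g t) : x ≠ g.xs [] := by
  intro h
  have h3 := hx.2.1
  rw [(g.top_iff [] x).2 h] at h3
  exact lam_ne_top _ (top_le_iff.1 h3)

theorem isClosed_shellSet (t : ℕ) : IsClosed (shellSet g t) := by
  have h : shellSet g t = {x | lam (t + g.c) ≤ g.H [] x} ∩ {x | g.H [] x ≤ lam (t + g.c + 1)} ∩
      ⋂ s, (interior (g.K [s]))ᶜ := by
    ext x
    simp only [shellSet, mem_ofPred_eq, mem_inter_iff, mem_iInter, mem_compl_iff]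
    tauto
  rw [h]
  exact ((isClosed_le continuous_const (g.cont _)).inter
    (isClosed_le (g.cont _) continuous_const)).inter
    (isClosed_iInter fun t => isOpen_interior.isClosed_compl)

/-- The shell room is a gas room. -/
theorem isGas_shellRoom [CompactSpace X] (t : ℕ) : IsGas g (shellRoom g t) := by
  refine ⟨rfl, le_rfl, g.W_open t, g.W_conn t, (isClosed_shellSet g t).isCompact,
    fun x hx => g.shell t x hx.1 hx.2.1 hx.2.2, ⟨(g.y_mem [t + g.c] (by simp)).1, g.y_W t⟩,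
    fun z hz => regular_root g (shell_fin g hz) hz.2.2, fun x hx y hy => ?_, fun h => ?_⟩
  · refine (g.W_diam t x hx y hy).trans ?_
    show (g.M : ℝ≥0∞) ≤ ((2 * g.M + 1 : ℝ≥0) : ℝ≥0∞) / 2 ^ 1
    rw [pow_one, ENNReal.le_div_iff_mul_le (by simp) (by simp)]
    rw [ENNReal.coe_add, ENNReal.coe_mul, mul_comm]
    simp
  · exact absurd h (by show ¬ 2 ≤ 1; omega)

/-- R6'. The second slow room (`ray c`, child `t` is `shellRoom t`). -/
theorem step_slow' [CompactSpace X] :
    ∃ (p : C(ℝ≥0∞, X)) (ch : ℕ → Room X), StepOK g (slowRoom' g) p ch ∧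
      (∀ r, lam 0 ≤ g.H [] (p r)) ∧ (∀ s r, lam s ≤ r → lam (s + 1) ≤ g.H [] (p r)) ∧
        ∀ t, ∀ x ∈ (ch t).region, lam (t + 1) ≤ g.H [] x := by
  obtain ⟨p, h1, h2, h3, h4, h5, h6⟩ := g.ray g.c g.hc
  refine ⟨p, fun t => shellRoom g t, ⟨h3, fun t => (h2 t).symm, fun r => mem_univ _,
    fun t => subset_univ _, fun r r' hr hr' => ?_, fun t => rfl, fun t => rfl, fun N hN => ?_,
    ?_, fun t => Or.inr (Or.inl (isGas_shellRoom g t))⟩, h5, h6, fun t x hx => g.W_low t x hx⟩
  · show rho g.H (p r) (p r') ≤ ((1 : ℝ≥0) : ℝ≥0∞) * dl r r'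
    rw [ENNReal.coe_one, one_mul]
    exact h1 r r' hr hr'
  · rw [h4] at hN
    obtain ⟨k, hk⟩ := exists_high g [] hN
    filter_upwards [eventually_ge_atTop k] with t ht x hx
    exact hk x ((lam_strictMono.monotone (by omega)).trans (g.W_low t x hx))
  · rw [h4]
    exact subset_rfl

/-- R7. Constant rooms. -/
theorem step_pt (x : X) (j : ℕ) (hj : 1 ≤ j) :
    ∃ (p : C(ℝ≥0∞, X)) (ch : ℕ → Room X), StepOK g (ptRoom x j) p ch := by
  refine ⟨ContinuousMap.const _ x, fun _ => ptRoom x (j + 1), rfl, fun _ => rfl, fun _ => rfl,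
    fun _ => subset_rfl, fun r r' _ _ => ?_, fun _ => rfl, fun _ => rfl, fun N hN => ?_,
    empty_subset _, fun _ => Or.inr (Or.inr (Or.inl ⟨_, _, by omega, rfl⟩))⟩
  · show rho g.H x x ≤ _
    rw [rho_self]
    exact bot_le
  · refine Eventually.of_forall fun t => ?_
    rintro _ rfl
    exact mem_of_mem_nhds hN

/-- The properties of the slow rooms. -/
def SlowOK (p : C(ℝ≥0∞, X)) (ch : ℕ → Room X) : Prop :=
  (∀ r, lam 0 ≤ g.H [] (p r)) ∧ (∀ s r, lam s ≤ r → lam (s + 1) ≤ g.H [] (p r)) ∧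
    ∀ t, ∀ x ∈ (ch t).region, lam (t + 1) ≤ g.H [] x

theorem step_valid [CompactSpace X] [LocallyConnectedSpace X] (V : Room X) (hV : Valid g V) :
    ∃ (p : C(ℝ≥0∞, X)) (ch : ℕ → Room X), StepOK g V p ch ∧ (V.lvl = 0 → SlowOK g p ch) := by
  rcases hV with ⟨w, hw, rfl⟩ | h | ⟨x, j, hj, rfl⟩ | rfl | rfl
  · obtain ⟨p, ch, h⟩ := step_pure g w hw
    refine ⟨p, ch, h, fun h0 => ?_⟩
    exact absurd (List.length_eq_zero_iff.1 h0) hw
  · obtain ⟨p, ch, h'⟩ := step_gas g V h
    refine ⟨p, ch, h', fun h0 => ?_⟩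
    have := h.lvl
    omega
  · obtain ⟨p, ch, h'⟩ := step_pt g x j hj
    refine ⟨p, ch, h', fun h0 => ?_⟩
    exact absurd (show j = 0 from h0) (by omega)
  · obtain ⟨p, ch, h'⟩ := step_slow g
    exact ⟨p, ch, h'.1, fun _ => h'.2⟩
  · obtain ⟨p, ch, h'⟩ := step_slow' g
    exact ⟨p, ch, h'.1, fun _ => h'.2⟩

theorem valid_Lp (V : Room X) (hV : Valid g V) : V.Lp = 1 / 2 ∨ V.Lp = 1 ∧ V.lvl = 0 := by
  rcases hV with ⟨w, hw, rfl⟩ | h | ⟨x, j, hj, rfl⟩ | rfl | rfl
  · exact Or.inl rfl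
  · exact Or.inl h.Lp
  · exact Or.inl rfl
  · exact Or.inr ⟨rfl, rfl⟩
  · exact Or.inr ⟨rfl, rfl⟩

theorem valid_tgt (V : Room X) (hV : Valid g V) : V.tgt ⊆ V.region := by
  rcases hV with ⟨w, hw, rfl⟩ | h | ⟨x, j, hj, rfl⟩ | rfl | rfl
  · exact g.K_sub w hw
  · exact h.sub
  · exact empty_subset _
  · exact subset_univ _
  · exact subset_univ _

theorem valid_dist (V : Room X) (hV : Valid g V) (h2 : 2 ≤ V.lvl) :
    ∀ x ∈ V.region, ∀ y ∈ V.region, dist x y ≤ (1 / 2) ^ V.lvl := by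
  rcases hV with ⟨w, hw, rfl⟩ | h | ⟨x, j, hj, rfl⟩ | rfl | rfl
  · exact g.diam w hw
  · exact h.dist h2
  · rintro _ rfl _ rfl
    rw [dist_self]
    positivity
  · exact absurd (show 2 ≤ 0 from h2) (by omega)
  · exact absurd (show 2 ≤ 0 from h2) (by omega)

theorem valid_at (V : Room X) (hV : Valid g V) (h1 : 1 ≤ V.lvl) :
    (∃ w : List ℕ, w.length = V.lvl ∧ ∀ x ∈ V.region, At g.H w x) ∨
      ∀ x ∈ V.region, ∀ y ∈ V.region, rho g.H x y ≤ ((2 * g.M + 1 : ℝ≥0) : ℝ≥0∞) / 2 ^ V.lvl := by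
  rcases hV with ⟨w, hw, rfl⟩ | h | ⟨x, j, hj, rfl⟩ | rfl | rfl
  · exact Or.inl ⟨w, rfl, fun x hx => at_O g hw hx⟩
  · exact Or.inr h.rho
  · right
    rintro _ rfl _ rfl
    rw [rho_self]
    exact bot_le
  · exact absurd (show 1 ≤ 0 from h1) (by omega)
  · exact absurd (show 1 ≤ 0 from h1) (by omega)

/-- The engine of the rooms. -/
theorem exists_eng [CompactSpace X] [LocallyConnectedSpace X] :
    ∃ (P : {V : Room X // Valid g V} → C(ℝ≥0∞, X))
      (CH : {V : Room X // Valid g V} → ℕ → {V : Room X // Valid g V}),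
      ∀ V, StepOK g V.1 (P V) (fun t => (CH V t).1) ∧
        (V.1.lvl = 0 → SlowOK g (P V) fun t => (CH V t).1) := by
  choose P ch h1 h2 using step_valid g
  exact ⟨fun V => P V.1 V.2, fun V t => ⟨ch V.1 V.2 t, (h1 V.1 V.2).valid t⟩,
    fun V => ⟨h1 V.1 V.2, h2 V.1 V.2⟩⟩

include g in
/-- R8. Assembly: the engine `Eng` with `R = {V // Valid g V}`, final family: `slowRoom`,
`slowRoom'`, `pureRoom [0]` and finitely many gas rooms of level 1 covering the compact set
`{H [] ≤ lam c}` off all `interior (K [s])`. `M = 2 * g.M + 1`. -/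
theorem attractor_of_geo [CompactSpace X] [ConnectedSpace X] [LocallyConnectedSpace X] :
    IsTopIFSAttractor X := by
  obtain ⟨P, CH, hPC⟩ := exists_eng g
  let E : Eng X :=
    { H := g.H
      hcont := g.cont
      htree := g.tree
      hinf := fun w => ⟨g.xs w, (g.top_iff w _).2 rfl⟩
      R := {V : Room X // Valid g V}
      path := P
      child := CH
      region := fun V => V.1.region
      tgt := fun V => V.1.tgt
      Lp := fun V => V.1.Lp
      lvl := fun V => V.1.lvl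
      hLp0 := fun V => by
        rcases valid_Lp g V.1 V.2 with h | h
        · rw [h]; norm_num
        · rw [h.1]; norm_num
      hLpc := fun V t => by
        rw [(hPC V).1.Lp t]
        rcases valid_Lp g V.1 V.2 with h | h
        · rw [h]
        · rw [h.1]
          exact (by norm_num : (1 / 2 : ℝ≥0) ≤ 1)
      hpr := fun V => (hPC V).1.mem
      hcr := fun V => (hPC V).1.sub
      hp0 := fun V t => by rw [(hPC (CH V t)).1.port, (hPC V).1.ports t]
      hlip := fun V => (hPC V).1.lip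
      hshrink := fun V => (hPC V).1.shrink
      hcover := fun V => (hPC V).1.cover
      htr := fun V => valid_tgt g V.1 V.2
      hlvl := fun V => (hPC V).1.lvl
      hsmall := fun ε hε => by
        obtain ⟨n, hn⟩ := exists_pow_lt_of_lt_one hε (by norm_num : (1 / 2 : ℝ) < 1)
        refine ⟨max 2 n, fun V hV x hx y hy => ?_⟩
        refine (valid_dist g V.1 V.2 ((le_max_left _ _).trans hV) x hx y hy).trans ?_
        refine le_trans ?_ hn.le
        exact pow_le_pow_of_le_one (by norm_num) (by norm_num) ((le_max_right _ _).trans hV) }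
  have huniq : ∀ x y, g.H [] x = ∞ → g.H [] y = ∞ → x = y := fun x y hx hy =>
    ((g.top_iff [] x).1 hx).trans ((g.top_iff [] y).1 hy).symm
  -- the last gas rooms
  let A : Set X := {x | g.H [] x ≤ lam g.c} ∩ ⋂ s, (interior (g.K [s]))ᶜ
  have hA : IsClosed A := (isClosed_le (g.cont _) continuous_const).inter
    (isClosed_iInter fun t => isOpen_interior.isClosed_compl)
  have hAreg : ∀ z ∈ A, Regular g z := by
    intro z hz
    refine regular_root g (fun h => ?_) fun t => mem_iInter.1 hz.2 t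
    have h3 := hz.1
    rw [show z ∈ {x | g.H [] x ≤ lam g.c} ↔ g.H [] z ≤ lam g.c from Iff.rfl,
      (g.top_iff [] z).2 h] at h3
    exact lam_ne_top _ (top_le_iff.1 h3)
  obtain ⟨m, R, hR, hcov⟩ := exists_gas_cover g A univ hA.isCompact isOpen_univ (subset_univ _)
    hAreg 1 le_rfl
  let V : Fin m ⊕ Fin 3 → E.R := Sum.elim (fun i => ⟨R i, Or.inr (Or.inl (hR i).1)⟩)
    ![⟨slowRoom g, Or.inr (Or.inr (Or.inr (Or.inl rfl)))⟩,
      ⟨slowRoom' g, Or.inr (Or.inr (Or.inr (Or.inr rfl)))⟩,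
      ⟨pureRoom g [0], Or.inl ⟨_, by simp, rfl⟩⟩]
  refine attractor_of_metric (J := Fin m ⊕ Fin 3) (E.fc V) ?_ ?_
  · have hsub : ∀ j, (V j).1.tgt ⊆ range (E.fc V j) := fun j => E.tgt_subset_range (V j)
    rw [eq_univ_iff_forall]
    intro x
    by_cases hxx : x = g.xs []
    · refine mem_iUnion.2 ⟨Sum.inr 0, hsub _ ?_⟩
      exact Or.inl hxx
    by_cases hxt : ∃ t, x ∈ interior (g.K [t])
    · obtain ⟨t, ht⟩ := hxt
      rcases t with _ | t
      · exact mem_iUnion.2 ⟨Sum.inr 2, hsub _ (interior_subset ht)⟩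
      · refine mem_iUnion.2 ⟨Sum.inr 0, hsub _ ?_⟩
        exact Or.inr (mem_iUnion.2 ⟨t, interior_subset ht⟩)
    · push Not at hxt
      rcases le_or_gt (g.H [] x) (lam g.c) with hc | hc
      · obtain ⟨i, hi⟩ := mem_iUnion.1 (hcov (show x ∈ A from ⟨hc, mem_iInter.2 hxt⟩))
        exact mem_iUnion.2 ⟨Sum.inl i, hsub _ hi⟩
      · refine mem_iUnion.2 ⟨Sum.inr 1, hsub _ ?_⟩
        right
        classical
        have hfin : g.H [] x ≠ ∞ := fun h => hxx ((g.top_iff [] x).1 h)
        have hex : ∃ n, g.H [] x ≤ lam (n + g.c + 1) := by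
          obtain ⟨n, hn⟩ :=
            (tendsto_lam.eventually (lt_mem_nhds (lt_top_iff_ne_top.2 hfin))).exists
          exact ⟨n, hn.le.trans (lam_strictMono.monotone (by omega))⟩
        refine mem_iUnion.2 ⟨Nat.find hex, ?_, Nat.find_spec hex, hxt⟩
        rcases h : Nat.find hex with _ | n
        · rw [zero_add]
          exact hc.le
        · have := Nat.find_min hex (m := n) (by omega)
          rw [show n + 1 + g.c = n + g.c + 1 by omega]
          exact (not_le.1 this).le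
  · intro ε hε
    refine E.contract (2 * g.M + 1) V huniq (fun V hV => valid_at g V.1 V.2 hV) ?_ hε
    rintro (i | j)
    · left
      exact ⟨(hR i).2.1, (hR i).1.Lp.le⟩
    · fin_cases j
      · right
        exact ⟨rfl, le_rfl, (hPC _).2 rfl⟩
      · right
        exact ⟨rfl, le_rfl, (hPC _).2 rfl⟩
      · left
        exact ⟨rfl, le_rfl⟩

end TopIFS
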