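import Pool.Agent.Lib.H41.IFS.GeoDef
import Pool.Agent.Lib.H41.IFS.Engine2
import Pool.Agent.Lib.H41.IFS.Concat
import Pool.Agent.Lib.H41.IFS.Metric

/-!
# Rooms: definitions
-/

namespace TopIFS

open Set Filter Topology
open scoped ENNReal unitInterval NNReal

/-- A room: region, target set (to be covered), port, level, Lipschitz constant. -/
structure Room (X : Type*) where
  region : Set X
  tgt : Set X
  port : X
  lvl : ℕ
  Lp : ℝ≥0

variable {X : Type*} [MetricSpace X] (g : Geo X)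

/-- A regular point: near `z` only one height varies, and this height is finite. -/
def Regular (z : X) : Prop :=
  ∃ w, g.H w z ≠ ∞ ∧ ∀ᶠ x in 𝓝 z, ∀ v, v ≠ w → g.H v x = g.H v z

/-- The room of a node. -/
noncomputable def pureRoom (w : List ℕ) : Room X := ⟨g.O w, g.K w, g.y w, w.length, 1 / 2⟩

/-- Gas rooms: small regions, targets consisting of regular points. -/
structure IsGas (V : Room X) : Prop where
  Lp : V.Lp = 1 / 2
  lvl : 1 ≤ V.lvl
  isOpen : IsOpen V.region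
  conn : IsPreconnected V.region
  compact : IsCompact V.tgt
  sub : V.tgt ⊆ V.region
  port : V.port ∈ g.D ∩ V.region
  regular : ∀ z ∈ V.tgt, Regular g z
  rho : ∀ x ∈ V.region, ∀ y ∈ V.region, rho g.H x y ≤ ((2 * g.M + 1 : ℝ≥0) : ℝ≥0∞) / 2 ^ V.lvl
  dist : 2 ≤ V.lvl → ∀ x ∈ V.region, ∀ y ∈ V.region, dist x y ≤ (1 / 2) ^ V.lvl

/-- The constant room at a point. -/
noncomputable def ptRoom (x : X) (j : ℕ) : Room X := ⟨{x}, ∅, x, j, 1 / 2⟩

/-- The shell compacta. -/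
def shellSet (t : ℕ) : Set X :=
  {x | lam (t + g.c) ≤ g.H [] x ∧ g.H [] x ≤ lam (t + g.c + 1) ∧ ∀ s, x ∉ interior (g.K [s])}

/-- The first slow room: child `t` is the node `[t + 1]`. -/
noncomputable def slowRoom : Room X := ⟨univ, {g.xs []} ∪ ⋃ t, g.K [t + 1], g.y [1], 0, 1⟩

/-- The second slow room: child `t` is the gas room of the shell `W t`. -/
noncomputable def slowRoom' : Room X := ⟨univ, {g.xs []} ∪ ⋃ t, shellSet g t, g.y [g.c], 0, 1⟩

/-- The gas room of the shell `W t`. -/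
noncomputable def shellRoom (t : ℕ) : Room X := ⟨g.W t, shellSet g t, g.y [t + g.c], 1, 1 / 2⟩

/-- All rooms. -/
def Valid (V : Room X) : Prop :=
  (∃ w, w ≠ [] ∧ V = pureRoom g w) ∨ IsGas g V ∨ (∃ x j, 1 ≤ j ∧ V = ptRoom x j) ∨
    V = slowRoom g ∨ V = slowRoom' g

/-- The path and children of a room satisfy the engine conditions. -/
structure StepOK (V : Room X) (p : C(ℝ≥0∞, X)) (ch : ℕ → Room X) : Prop where
  port : p 0 = V.port
  ports : ∀ t, (ch t).port = p (lam t)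
  mem : ∀ r, p r ∈ V.region
  sub : ∀ t, (ch t).region ⊆ V.region
  lip : ∀ r r', r ≠ ∞ → r' ≠ ∞ → rho g.H (p r) (p r') ≤ V.Lp * dl r r'
  Lp : ∀ t, (ch t).Lp = 1 / 2
  lvl : ∀ t, (ch t).lvl = V.lvl + 1
  shrink : ∀ N ∈ 𝓝 (p ∞), ∀ᶠ t in atTop, (ch t).region ⊆ N
  cover : V.tgt ⊆ {p ∞} ∪ ⋃ t, (ch t).tgt
  valid : ∀ t, Valid g (ch t)

end TopIFS
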