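import Pool.Agent.Lib.H41.IFS.ArcLemma

/-!
# The skeleton
-/

namespace TopIFS

open Set Filter Topology
open scoped ENNReal unitInterval NNReal

namespace Sk

section basic

variable {X : Type*} [TopologicalSpace X]

theorem mem_G {L : List C(I, X)} {x : X} : x ∈ G L ↔ ∃ α ∈ L, x ∈ range α := Iff.rfl

theorem G_nil : G ([] : List C(I, X)) = ∅ := by
  ext x
  simp [mem_G]

theorem G_cons (α : C(I, X)) (L : List C(I, X)) : G (α :: L) = range α ∪ G L := by
  ext x
  simp [mem_G]

theorem G_append (M L : List C(I, X)) : G (M ++ L) = G M ∪ G L := by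
  ext x
  simp [mem_G, or_and_right, exists_or]

theorem isClosed_G [T2Space X] (L : List C(I, X)) : IsClosed (G L) := by
  induction L with
  | nil => rw [G_nil]; exact isClosed_empty
  | cons α L ih =>
    rw [G_cons]
    exact (isCompact_range α.continuous).isClosed.union ih

theorem Good.inj {L : List C(I, X)} (h : Good L) : ∀ α ∈ L, Function.Injective α := by
  induction L with
  | nil => simp
  | cons β L ih =>
    intro α hα
    rcases List.mem_cons.1 hα with rfl | hα
    · exact h.2.1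
    · exact ih h.1 α hα

theorem Step.symm {L : List C(I, X)} {U : Set X} {x y : X} (h : Step L U x y) : Step L U y x := by
  obtain ⟨α, hα, s, t, hs, ht, hU⟩ := h
  exact ⟨α, hα, t, s, ht, hs, by rwa [uIcc_comm]⟩

theorem Step.mono {L L' : List C(I, X)} {U U' : Set X} (hL : ∀ α ∈ L, α ∈ L') (hU : U ⊆ U')
    {x y : X} (h : Step L U x y) : Step L' U' x y := by
  obtain ⟨α, hα, s, t, hs, ht, hU'⟩ := h
  exact ⟨α, hL α hα, s, t, hs, ht, hU'.trans hU⟩

theorem Conn.mono {L L' : List C(I, X)} {U U' : Set X} (hL : ∀ α ∈ L, α ∈ L') (hU : U ⊆ U')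
    {x y : X} (h : Conn L U x y) : Conn L' U' x y := by
  unfold Conn at h
  induction h with
  | refl => exact Relation.ReflTransGen.refl
  | tail _ h2 ih => exact Relation.ReflTransGen.tail ih (Step.mono hL hU h2)

theorem Conn.symm {L : List C(I, X)} {U : Set X} {x y : X} (h : Conn L U x y) : Conn L U y x := by
  unfold Conn at h
  induction h with
  | refl => exact Relation.ReflTransGen.refl
  | tail _ h2 ih => exact Relation.ReflTransGen.head (Step.symm h2) ih

end basic

/-- The affine parametrization of the segment from `a` to `b`. -/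
noncomputable def seg (a b : I) : C(I, I) where
  toFun s := ⟨(1 - (s : ℝ)) * a + s * b, by
    have h1 := s.2.1; have h2 := s.2.2; have h3 := a.2.1; have h4 := a.2.2
    have h5 := b.2.1; have h6 := b.2.2
    constructor
    · exact add_nonneg (mul_nonneg (by linarith) h3) (mul_nonneg h1 h5)
    · have e1 : (1 - (s : ℝ)) * a ≤ (1 - s) * 1 := mul_le_mul_of_nonneg_left h4 (by linarith)
      have e2 : (s : ℝ) * b ≤ s * 1 := mul_le_mul_of_nonneg_left h6 h1
      linarith⟩
  continuous_toFun := by fun_prop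

theorem seg_coe (a b s : I) : (seg a b s : ℝ) = (1 - (s : ℝ)) * a + s * b := rfl

theorem seg_zero (a b : I) : seg a b 0 = a := by
  apply Subtype.ext
  simp [seg_coe]

theorem seg_one (a b : I) : seg a b 1 = b := by
  apply Subtype.ext
  simp [seg_coe]

theorem le_seg {a b : I} (h : a ≤ b) (s : I) : a ≤ seg a b s := by
  have h' : (a : ℝ) ≤ b := h
  show (a : ℝ) ≤ seg a b s
  rw [seg_coe]
  nlinarith [s.2.1]

theorem seg_le {a b : I} (h : a ≤ b) (s : I) : seg a b s ≤ b := by
  have h' : (a : ℝ) ≤ b := h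
  show (seg a b s : ℝ) ≤ b
  rw [seg_coe]
  nlinarith [s.2.2]

theorem seg_injective {a b : I} (h : a < b) : Function.Injective (seg a b) := by
  intro s t hst
  have h' : (a : ℝ) < b := h
  have h1 : (seg a b s : ℝ) = seg a b t := by rw [hst]
  rw [seg_coe, seg_coe] at h1
  apply Subtype.ext
  have h2 : ((s : ℝ) - t) * (b - a) = 0 := by linarith
  rcases mul_eq_zero.1 h2 with h3 | h3
  · linarith
  · linarith

section metric

variable {X : Type*} [MetricSpace X]

theorem local_arc (α : C(I, X)) (hα : Function.Injective α) {U : Set X} (hU : IsOpen U) (c : X)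
    (hc : c ∈ U) : ∀ᶠ x in 𝓝 c, x ∈ range α → Step [α] U c x := by
  by_cases h : c ∈ range α
  · obtain ⟨s, rfl⟩ := h
    have hemb : IsEmbedding α := (α.continuous.isClosedEmbedding hα).isEmbedding
    have hV : α ⁻¹' U ∈ 𝓝 s := (hU.preimage α.continuous).mem_nhds hc
    obtain ⟨ε, hε, hball⟩ := Metric.mem_nhds_iff.1 hV
    have hmem : Metric.ball s ε ∈ 𝓝 s := Metric.ball_mem_nhds s hε
    rw [hemb.nhds_eq_comap] at hmem
    obtain ⟨N, hN, hNs⟩ := hmem
    filter_upwards [hN] with x hx hxr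
    obtain ⟨t, rfl⟩ := hxr
    have ht : t ∈ Metric.ball s ε := hNs hx
    refine ⟨α, List.mem_singleton.2 rfl, s, t, rfl, rfl, ?_⟩
    rintro _ ⟨u, hu, rfl⟩
    apply hball
    rw [Metric.mem_ball, Subtype.dist_eq, Real.dist_eq] at ht ⊢
    rw [mem_uIcc] at hu
    refine lt_of_le_of_lt ?_ ht
    rcases hu with ⟨h1, h2⟩ | ⟨h1, h2⟩
    · have h1' : (s : ℝ) ≤ u := h1
      have h2' : (u : ℝ) ≤ t := h2
      rw [abs_of_nonneg (by linarith), abs_of_nonneg (by linarith)]
      linarith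
    · have h1' : (t : ℝ) ≤ u := h1
      have h2' : (u : ℝ) ≤ s := h2
      rw [abs_of_nonpos (by linarith), abs_of_nonpos (by linarith)]
      linarith
  · have : (range α)ᶜ ∈ 𝓝 c := (isCompact_range α.continuous).isClosed.isOpen_compl.mem_nhds h
    filter_upwards [this] with x hx hxr
    exact absurd hxr hx

theorem local_lemma {L : List C(I, X)} (hL : Good L) {U : Set X} (hU : IsOpen U) (c : X)
    (hc : c ∈ U) : ∀ᶠ x in 𝓝 c, x ∈ G L → Step L U c x := by
  have hinj := Good.inj hL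
  clear hL
  induction L with
  | nil =>
    filter_upwards with x hx
    rw [G_nil] at hx
    exact absurd hx (notMem_empty x)
  | cons α L ih =>
    have h1 := ih fun β hβ => hinj β (List.mem_cons_of_mem _ hβ)
    have h2 := local_arc α (hinj α List.mem_cons_self) hU c hc
    filter_upwards [h1, h2] with x hx1 hx2 hx
    rw [G_cons] at hx
    rcases hx with hx | hx
    · refine Step.mono ?_ subset_rfl (hx2 hx)
      intro β hβ
      rw [List.mem_singleton] at hβ
      rw [hβ]
      exact List.mem_cons_self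
    · exact Step.mono (fun β hβ => List.mem_cons_of_mem _ hβ) subset_rfl (hx1 hx)

theorem attach {L : List C(I, X)} (hL : Good L) (β : C(I, X)) (hβ : Function.Injective β)
    (h0 : β 0 ∉ G L) (h1 : β 1 ∈ G L) :
    ∃ α : C(I, X), α 0 = β 0 ∧ range α ⊆ range β ∧ Good (α :: L) := by
  have hcl : IsClosed (β ⁻¹' G L) := (isClosed_G L).preimage β.continuous
  obtain ⟨s, hs⟩ := hcl.isCompact.exists_isLeast ⟨1, h1⟩
  have hs0 : 0 < s := by
    rcases eq_or_lt_of_le (unitInterval.nonneg' (t := s)) with h | h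
    · exfalso
      apply h0
      rw [h]
      exact hs.1
    · exact h
  refine ⟨β.comp (seg 0 s), ?_, ?_, hL, ?_, ?_⟩
  · simp [seg_zero]
  · rintro _ ⟨t, rfl⟩
    exact ⟨_, rfl⟩
  · exact hβ.comp (seg_injective hs0)
  · intro t ht
    right
    have h2 : s ≤ seg 0 s t := hs.2 ht
    have h3 : seg 0 s t = seg 0 s 1 := by
      rw [seg_one]
      exact le_antisymm (seg_le hs0.le t) h2
    exact seg_injective hs0 h3

theorem exists_attach {L : List C(I, X)} (hL : Good L) (γ : C(I, X)) (h1 : γ 1 ∈ G L) :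
    ∃ M : List C(I, X), Good (M ++ L) ∧ (∀ α ∈ M, range α ⊆ range γ) ∧ γ 0 ∈ G (M ++ L) := by
  by_cases h0 : γ 0 ∈ G L
  · exact ⟨[], hL, by simp, h0⟩
  · obtain ⟨β, hβ, hβ0, hβ1, hβr⟩ := exists_injective_arc γ (fun e => h0 (by rw [e]; exact h1))
    obtain ⟨α, hα0, hαr, hα⟩ := attach hL β hβ (by rwa [hβ0]) (by rwa [hβ1])
    refine ⟨[α], hα, ?_, ?_⟩
    · intro α' hα'
      rw [List.mem_singleton] at hα'
      rw [hα']
      exact hαr.trans hβr
    · rw [G_append]
      left
      exact ⟨α, List.mem_singleton.2 rfl, 0, hα0.trans hβ0⟩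

theorem surgery {L : List C(I, X)} (hL : Good L) {U : Set X} (hU : IsOpen U) (β : C(I, X))
    (hβ : Function.Injective β) (hβU : range β ⊆ U) (h0 : β 0 ∈ G L) (h1 : β 1 ∈ G L) :
    ∃ M : List C(I, X), Good (M ++ L) ∧ (∀ α ∈ M, range α ⊆ range β) ∧ Conn (M ++ L) U (β 0) (β 1) := by
  set T : Set I := {s | β s ∈ G L ∧ ∃ M : List C(I, X), Good (M ++ L) ∧ (∀ α ∈ M, range α ⊆ β '' Iic s) ∧
    Conn (M ++ L) U (β 0) (β s)} with hT
  have h0T : (0 : I) ∈ T := ⟨h0, [], hL, by simp, Relation.ReflTransGen.refl⟩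
  obtain ⟨s, hs⟩ := (isClosed_closure (s := T)).isCompact.exists_isGreatest
    ⟨0, subset_closure h0T⟩
  have hcl : IsClosed (β ⁻¹' G L) := (isClosed_G L).preimage β.continuous
  have hTcl : closure T ⊆ β ⁻¹' G L := closure_minimal (fun t ht => ht.1) hcl
  have hsG : β s ∈ G L := hTcl hs.1
  have hloc : ∀ᶠ t in 𝓝 s, β t ∈ G L → Step L U (β s) (β t) :=
    β.continuous.continuousAt.eventually (local_lemma hL hU (β s) (hβU ⟨s, rfl⟩))
  have hsT : s ∈ T := by
    obtain ⟨t, ht, ht2⟩ := ((mem_closure_iff_frequently.1 hs.1).and_eventually hloc).exists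
    have hts : t ≤ s := hs.2 (subset_closure ht)
    obtain ⟨htG, M, hM1, hM2, hM3⟩ := ht
    refine ⟨hsG, M, hM1, fun α hα => (hM2 α hα).trans (image_mono (Iic_subset_Iic.2 hts)), ?_⟩
    exact hM3.tail (Step.mono (fun α hα => List.mem_append_right _ hα) subset_rfl
      (Step.symm (ht2 htG)))
  obtain ⟨-, M, hM1, hM2, hM3⟩ := hsT
  rcases eq_or_lt_of_le (unitInterval.le_one' (t := s)) with hs1 | hs1
  · refine ⟨M, hM1, fun α hα => (hM2 α hα).trans (image_subset_range _ _), ?_⟩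
    rw [hs1] at hM3
    exact hM3
  · exfalso
    have hfree : ∀ᶠ t in 𝓝 s, s < t → β t ∉ G L := by
      filter_upwards [hloc] with t ht hst htG
      have htT : t ∈ T := by
        refine ⟨htG, M, hM1, fun α hα => (hM2 α hα).trans (image_mono (Iic_subset_Iic.2 hst.le)),
          ?_⟩
        exact hM3.tail (Step.mono (fun α hα => List.mem_append_right _ hα) subset_rfl (ht htG))
      exact absurd (hs.2 (subset_closure htT)) (not_le.2 hst)
    obtain ⟨V, hV1, hV2, hV3⟩ := eventually_nhds_iff.1 hfree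
    have hAcl : IsClosed (β ⁻¹' G L ∩ Ici s ∩ Vᶜ) :=
      (hcl.inter isClosed_Ici).inter hV2.isClosed_compl
    have hne : (β ⁻¹' G L ∩ Ici s ∩ Vᶜ).Nonempty :=
      ⟨1, ⟨h1, hs1.le⟩, fun hV => hV1 1 hV hs1 h1⟩
    obtain ⟨t, ht⟩ := hAcl.isCompact.exists_isLeast hne
    have htG : β t ∈ G L := ht.1.1.1
    have hst : s < t := by
      refine lt_of_le_of_ne ht.1.1.2 fun e => ht.1.2 ?_
      rw [← e]
      exact hV3
    have hmin : ∀ u, s < u → β u ∈ G L → t ≤ u := by
      intro u hu huG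
      exact ht.2 ⟨⟨huG, hu.le⟩, fun hV => hV1 u hV hu huG⟩
    set α : C(I, X) := β.comp (seg s t) with hα
    have hGood : Good (α :: (M ++ L)) := by
      refine ⟨hM1, hβ.comp (seg_injective hst), ?_⟩
      intro u hu
      have hsu := le_seg hst.le u
      rw [G_append] at hu
      rcases hu with hu | hu
      · left
        obtain ⟨α', hα', hu'⟩ := hu
        obtain ⟨v, hv, hv'⟩ := hM2 α' hα' hu'
        have h2 : v = seg s t u := hβ hv'
        have h3 : seg s t u = seg s t 0 := by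
          rw [seg_zero]
          rw [h2] at hv
          exact le_antisymm hv hsu
        exact seg_injective hst h3
      · rcases eq_or_lt_of_le hsu with h2 | h2
        · left
          apply seg_injective hst
          rw [seg_zero]
          exact h2.symm
        · right
          apply seg_injective hst
          rw [seg_one]
          exact le_antisymm (seg_le hst.le u) (hmin _ h2 hu)
    have htT : t ∈ T := by
      refine ⟨htG, α :: M, hGood, ?_, ?_⟩
      · intro α' hα'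
        rcases List.mem_cons.1 hα' with rfl | hα'
        · rintro _ ⟨u, rfl⟩
          exact ⟨seg s t u, seg_le hst.le u, rfl⟩
        · exact (hM2 α' hα').trans (image_mono (Iic_subset_Iic.2 hst.le))
      · have h2 : Conn (α :: M ++ L) U (β 0) (β s) :=
          Conn.mono (fun α' hα' => List.mem_cons_of_mem _ hα') subset_rfl hM3
        refine h2.tail ⟨α, ?_, 0, 1, ?_, ?_, ?_⟩
        · simp
        · simp [hα, seg_zero]
        · simp [hα, seg_one]
        · rintro _ ⟨u, -, rfl⟩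
          exact hβU ⟨_, rfl⟩
    exact absurd (hs.2 (subset_closure htT)) (not_le.2 hst)

theorem exists_task {L : List C(I, X)} (hL : Good L) {W : Set X} (hW : IsOpen W) (γ₀ γ : C(I, X))
    (h0 : γ₀ 0 = γ 0) (h1 : γ₀ 1 ∈ G L) (hγ : range γ ⊆ W) :
    ∃ M : List C(I, X), Good (M ++ L) ∧ (∀ α ∈ M, range α ⊆ range γ₀ ∪ range γ) ∧
      Conn (M ++ L) W (γ 0) (γ 1) := by
  by_cases hne : γ 0 = γ 1
  · exact ⟨[], hL, by simp, by rw [hne]; exact Relation.ReflTransGen.refl⟩
  obtain ⟨M1, hG1, hr1, hm1⟩ := exists_attach hL γ₀ h1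
  rw [h0] at hm1
  obtain ⟨M2, hG2, hr2, hm2⟩ := exists_attach hG1 (γ.comp ⟨unitInterval.symm, by fun_prop⟩)
    (by simpa using hm1)
  have hm2' : γ 1 ∈ G (M2 ++ (M1 ++ L)) := by simpa using hm2
  have hm1' : γ 0 ∈ G (M2 ++ (M1 ++ L)) := by
    rw [G_append]
    exact Or.inr hm1
  obtain ⟨β, hβ, hβ0, hβ1, hβr⟩ := exists_injective_arc γ hne
  obtain ⟨M3, hG3, hr3, hC⟩ := surgery hG2 hW β hβ (hβr.trans hγ) (by rwa [hβ0]) (by rwa [hβ1])
  refine ⟨M3 ++ M2 ++ M1, ?_, ?_, ?_⟩
  · simpa using hG3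
  · intro α hα
    simp only [List.append_assoc, List.mem_append] at hα
    rcases hα with hα | hα | hα
    · exact ((hr3 α hα).trans hβr).trans subset_union_right
    · refine ((hr2 α hα).trans ?_).trans subset_union_right
      rintro _ ⟨s, rfl⟩
      exact ⟨_, rfl⟩
    · exact (hr1 α hα).trans subset_union_left
  · rw [hβ0, hβ1] at hC
    simpa using hC

end metric

end Sk

/-- Existence of a countable skeleton: an increasing sequence of good lists of arcs, starting
from a given arc `q`, the new arcs avoiding a given closed set `Z` with preconnected complement,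
such that any two points of the countable dense set `D` lying in an open preconnected set `U`
disjoint from `Z` are connected inside `U` by finitely many steps of some finite stage. -/
theorem exists_skeleton {X : Type*} [MetricSpace X] [CompactSpace X] [LocallyPathConnectedSpace X]
    (q : C(I, X)) (hq : Function.Injective q) (Z : Set X) (hZ : IsClosed Z)
    (hZc : IsPreconnected Zᶜ) (hq0 : q 0 ∉ Z) (D : Set X) (hD : D.Countable) (hDd : Dense D)
    (hDZ : Disjoint D Z) :
    ∃ L : ℕ → List C(I, X), L 0 = [q] ∧ (∀ n, Good (L n)) ∧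
      (∀ n, ∃ M, L (n + 1) = M ++ L n ∧ ∀ α ∈ M, Disjoint (range α) Z) ∧
      ∀ U : Set X, IsOpen U → IsPreconnected U → Disjoint U Z →
        ∀ y ∈ D ∩ U, ∀ y' ∈ D ∩ U, ∃ n, Conn (L n) U y y' := by
  have hjoin : ∀ {U : Set X}, IsOpen U → IsPreconnected U → ∀ x ∈ U, ∀ y ∈ U,
      ∃ γ : C(I, X), γ 0 = x ∧ γ 1 = y ∧ range γ ⊆ U := by
    intro U hU hUc x hx y hy
    have h1 : IsPathConnected U := hU.isConnected_iff_isPathConnected.1 ⟨⟨x, hx⟩, hUc⟩
    have h2 := h1.joinedIn x hx y hy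
    refine ⟨h2.somePath.toContinuousMap, h2.somePath.source, h2.somePath.target, ?_⟩
    rintro _ ⟨t, rfl⟩
    exact h2.somePath_mem t
  -- the tasks
  set 𝓦 : Set (Set X) := sUnion '' {t | t.Finite ∧ t ⊆ TopologicalSpace.countableBasis X} with h𝓦
  have h𝓦c : 𝓦.Countable :=
    (Set.countable_ofPred_finite_subset (TopologicalSpace.countable_countableBasis X)).image _
  have h𝓦o : ∀ W ∈ 𝓦, IsOpen W := by
    rintro _ ⟨t, ht, rfl⟩
    exact isOpen_sUnion fun V hV => TopologicalSpace.isOpen_of_mem_countableBasis (ht.2 hV)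
  have hne : (D ×ˢ (D ×ˢ 𝓦)).Nonempty := by
    have hXne : Nonempty X := ⟨q 0⟩
    obtain ⟨d, hd⟩ := hDd.nonempty
    exact ⟨(d, d, ∅), hd, hd, ∅, ⟨finite_empty, empty_subset _⟩, sUnion_empty⟩
  obtain ⟨T, hT⟩ := (hD.prod (hD.prod h𝓦c)).exists_eq_range hne
  -- one task
  have hstep : ∀ (L : List C(I, X)) (n : ℕ), Good L → q 0 ∈ G L → ∃ L', Good L' ∧ q 0 ∈ G L' ∧
      (∃ M, L' = M ++ L ∧ ∀ α ∈ M, Disjoint (range α) Z) ∧
      ∀ γ : C(I, X), γ 0 = (T n).1 → γ 1 = (T n).2.1 → range γ ⊆ (T n).2.2 →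
        Disjoint (range γ) Z → Conn L' (T n).2.2 (T n).1 (T n).2.1 := by
    intro L n hL hqL
    have hTn : T n ∈ D ×ˢ (D ×ˢ 𝓦) := by
      rw [hT]
      exact ⟨n, rfl⟩
    by_cases hγ : ∃ γ : C(I, X), γ 0 = (T n).1 ∧ γ 1 = (T n).2.1 ∧ range γ ⊆ (T n).2.2 ∧
        Disjoint (range γ) Z
    · obtain ⟨γ, h0, h1, hr, hZγ⟩ := hγ
      have hyZ : γ 0 ∉ Z := disjoint_left.1 hZγ ⟨0, rfl⟩
      obtain ⟨γ₀, hγ0, hγ1, hγr⟩ := hjoin hZ.isOpen_compl hZc (γ 0) hyZ (q 0) hq0
      obtain ⟨M, hM1, hM2, hM3⟩ := Sk.exists_task hL (h𝓦o _ hTn.2.2) γ₀ γ hγ0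
        (by rw [hγ1]; exact hqL) hr
      refine ⟨M ++ L, hM1, ?_, ⟨M, rfl, ?_⟩, ?_⟩
      · rw [Sk.G_append]
        exact Or.inr hqL
      · intro α hα
        refine Disjoint.mono_left (hM2 α hα) ?_
        rw [disjoint_union_left]
        exact ⟨disjoint_left.2 fun x hx hx' => hγr hx hx', hZγ⟩
      · intro _ _ _ _ _
        rw [← h0, ← h1]
        exact hM3
    · refine ⟨L, hL, hqL, ⟨[], rfl, by simp⟩, ?_⟩
      intro γ h0 h1 hr hZγ
      exact absurd ⟨γ, h0, h1, hr, hZγ⟩ hγ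
  choose! next hnext1 hnext2 hnext3 hnext4 using hstep
  set L : ℕ → List C(I, X) := fun n => Nat.rec [q] (fun n L => next L n) n with hLdef
  have hL0 : L 0 = [q] := rfl
  have hLs : ∀ n, L (n + 1) = next (L n) n := fun n => rfl
  have hinv : ∀ n, Good (L n) ∧ q 0 ∈ G (L n) := by
    intro n
    induction n with
    | zero =>
      rw [hL0]
      refine ⟨⟨trivial, hq, ?_⟩, q, List.mem_singleton.2 rfl, 0, rfl⟩
      intro s hs
      rw [Sk.G_nil] at hs
      exact absurd hs (notMem_empty _)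
    | succ n ih =>
      rw [hLs]
      exact ⟨hnext1 _ _ ih.1 ih.2, hnext2 _ _ ih.1 ih.2⟩
  refine ⟨L, hL0, fun n => (hinv n).1, fun n => hnext3 _ _ (hinv n).1 (hinv n).2, ?_⟩
  intro U hU hUc hUZ y hy y' hy'
  obtain ⟨γ, h0, h1, hr⟩ := hjoin hU hUc y hy.2 y' hy'.2
  -- a finite union of basis sets between the path and `U`
  obtain ⟨W, hW, hγW, hWU⟩ : ∃ W ∈ 𝓦, range γ ⊆ W ∧ W ⊆ U := by
    have hB := TopologicalSpace.isBasis_countableBasis X
    obtain ⟨t, ht1, ht2, ht3⟩ := (isCompact_range γ.continuous).elim_finite_subcover_image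
      (b := {B | B ∈ TopologicalSpace.countableBasis X ∧ B ⊆ U}) (c := id)
      (fun B hB' => TopologicalSpace.isOpen_of_mem_countableBasis hB'.1) (by
        intro x hx
        obtain ⟨B, hB1, hB2, hB3⟩ := hB.mem_nhds_iff.1 (hU.mem_nhds (hr hx))
        exact mem_iUnion₂.2 ⟨B, ⟨hB1, hB3⟩, hB2⟩)
    refine ⟨⋃₀ t, ⟨t, ⟨ht2, fun B hB' => (ht1 hB').1⟩, rfl⟩, ?_, ?_⟩
    · rwa [sUnion_eq_biUnion]
    · exact sUnion_subset fun B hB' => (ht1 hB').2
  have hmem : (y, y', W) ∈ D ×ˢ (D ×ˢ 𝓦) := ⟨hy.1, hy'.1, hW⟩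
  rw [hT] at hmem
  obtain ⟨n, hn⟩ := hmem
  refine ⟨n + 1, ?_⟩
  rw [hLs]
  have := hnext4 (L n) n (hinv n).1 (hinv n).2 γ (by rw [hn, h0]) (by rw [hn, h1])
    (by rw [hn]; exact hγW) (Disjoint.mono_left hr hUZ)
  rw [hn] at this
  exact Sk.Conn.mono (fun _ h => h) hWU this

end TopIFS
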